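import Pool.Agent.DEG.Enc

/-!
DEG module BLK: unique decomposition at separators.

Blocks `a.map inl` contain no separator, so the first (last) separator of a word is determined.
* `blk_left`: induction on `a`, cases on `b` (compare the first letters).
* `blk_right`: reverse both sides and use `blk_left` (or induction with `List.append_inj'`).
* `rec4_left`: if `rec4 a ++ u = blk a' 0 ++ blk y 1 ++ w` then `a' = a`, `y = a.reverse` and
  `blk a 2 ++ blk a.reverse 3 ++ u = w`: two times `blk_left`.
* `rec4_right`: `u ++ rec4 b = t ++ ([inr 0] ++ blk y2 1 ++ blk y3 2 ++ blk y4 3)` implies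
  `y4 = b.reverse`, `y3 = b`, `y2 = b.reverse`, `t = u ++ b.map inl`: three times `blk_right`
  (cancel the last letter first).
* `enc_inj`: induction with `blk_left` four times per record (`enc (a :: L) = rec4 a ++ enc L`,
  `rec4 a` is not empty).
* `cut`: the separator `3` occurs only at the end of `e` (if `e` is not empty) and at the end of
  each record. Induction on `M`, generalizing `e`: if `q` begins inside or right after `e`, i.e.
  `P ++ [inr 3]` is not longer than `e`, then `P ++ [inr 3] = e` because `inr 3` occurs in `e`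
  only at the end (`M1 = []`, `M2 = M`); otherwise `P = e ++ P'` and we use the induction
  hypothesis for `M = a :: M'` with `rec4 a` in place of `e` (`rec4 a = e' ++ [inr 3]` with
  `inr 3 ∉ e'`); for `M = []` the rest `P' ++ [inr 3] ++ q = x.map inl` is impossible.
-/

namespace Pool.Agent.DEG

variable {D : Type}

theorem blk_left {a b : List D} {i j : Fin 4} {u v : List (D ⊕ Fin 4)}
    (h : blk a i ++ u = blk b j ++ v) : a = b ∧ i = j ∧ u = v := by
  unfold blk at h
  induction a generalizing b with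
  | nil =>
    cases b with
    | nil => simpa using h
    | cons y b => simp at h
  | cons x a ih =>
    cases b with
    | nil => simp at h
    | cons y b =>
      simp only [List.map_cons, List.cons_append, List.cons.injEq, Sum.inl.injEq] at h
      obtain ⟨h1, h2, h3⟩ := ih h.2
      exact ⟨by rw [h.1, h1], h2, h3⟩

theorem blk_right {a b : List D} {i j : Fin 4} {u v : List (D ⊕ Fin 4)}
    (h : u ++ (Sum.inr i :: a.map Sum.inl) = v ++ (Sum.inr j :: b.map Sum.inl)) :
    u = v ∧ i = j ∧ a = b := by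
  have h1 := congrArg List.reverse h
  have h2 : blk a.reverse i ++ u.reverse = blk b.reverse j ++ v.reverse := by
    unfold blk
    simpa using h1
  obtain ⟨h3, h4, h5⟩ := blk_left h2
  exact ⟨List.reverse_injective h5, h4, List.reverse_injective h3⟩

theorem rec4_left {a a' y : List D} {u w : List (D ⊕ Fin 4)}
    (h : rec4 a ++ u = blk a' 0 ++ blk y 1 ++ w) :
    a' = a ∧ y = a.reverse ∧ w = blk a 2 ++ blk a.reverse 3 ++ u := by
  unfold rec4 at h
  simp only [List.append_assoc] at h
  obtain ⟨h1, -, h2⟩ := blk_left h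
  obtain ⟨h3, -, h4⟩ := blk_left h2
  refine ⟨h1.symm, h3.symm, ?_⟩
  rw [← h4, List.append_assoc]

theorem rec4_right {b y2 y3 y4 : List D} {u t : List (D ⊕ Fin 4)}
    (h : u ++ rec4 b = t ++ ([Sum.inr 0] ++ blk y2 1 ++ blk y3 2 ++ blk y4 3)) :
    y4 = b.reverse ∧ y3 = b ∧ y2 = b.reverse ∧ t = u ++ b.map Sum.inl := by
  have e1 : u ++ rec4 b = ((((u ++ b.map Sum.inl) ++ (Sum.inr 0 :: b.reverse.map Sum.inl)) ++
      (Sum.inr 1 :: b.map Sum.inl)) ++ (Sum.inr 2 :: b.reverse.map Sum.inl)) ++ [Sum.inr 3] := by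
    unfold rec4 blk
    simp
  have e2 : t ++ ([Sum.inr 0] ++ blk y2 1 ++ blk y3 2 ++ blk y4 3) =
      (((t ++ (Sum.inr 0 :: y2.map Sum.inl)) ++ (Sum.inr 1 :: y3.map Sum.inl)) ++
        (Sum.inr 2 :: y4.map Sum.inl)) ++ [Sum.inr 3] := by
    unfold blk
    simp
  rw [e1, e2] at h
  have h0 := List.append_cancel_right h
  obtain ⟨h1, -, h2⟩ := blk_right h0
  obtain ⟨h3, -, h4⟩ := blk_right h1
  obtain ⟨h5, -, h6⟩ := blk_right h3
  exact ⟨h2.symm, h4.symm, h6.symm, h5.symm⟩

theorem enc_cons (a : List D) (L : List (List D)) : enc (a :: L) = rec4 a ++ enc L := rfl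

theorem enc_append (L L' : List (List D)) : enc (L ++ L') = enc L ++ enc L' := by
  simp [enc]

theorem rec4_ne (a : List D) (u : List (D ⊕ Fin 4)) : rec4 a ++ u ≠ [] := by
  unfold rec4 blk
  simp

theorem enc_inj {L L' : List (List D)} (h : enc L = enc L') : L = L' := by
  induction L generalizing L' with
  | nil =>
    cases L' with
    | nil => rfl
    | cons b L' =>
      rw [enc_cons] at h
      exact absurd h.symm (rec4_ne b _)
  | cons a L ih =>
    cases L' with
    | nil =>
      rw [enc_cons] at h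
      exact absurd h (rec4_ne a _)
    | cons b L' =>
      rw [enc_cons, enc_cons] at h
      unfold rec4 at h
      simp only [List.append_assoc] at h
      obtain ⟨h1, -, h2⟩ := blk_left h
      obtain ⟨-, -, h3⟩ := blk_left h2
      obtain ⟨-, -, h4⟩ := blk_left h3
      obtain ⟨-, -, h5⟩ := blk_left h4
      rw [h1, ih h5]

/-- Splitting at the first separator. -/
theorem blk_split {α : Type} {s : α} {e r P q : List α} (hs : s ∉ e)
    (h : e ++ s :: r = P ++ s :: q) :
    (P = e ∧ r = q) ∨ ∃ P', P = e ++ s :: P' ∧ r = P' ++ s :: q := by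
  rcases List.append_eq_append_iff.1 h with ⟨l, h1, h2⟩ | ⟨l, h1, h2⟩
  · cases l with
    | nil =>
      left
      simp only [List.nil_append, List.cons.injEq, true_and] at h2
      exact ⟨by simpa using h1, h2⟩
    | cons c l =>
      right
      simp only [List.cons_append, List.cons.injEq] at h2
      exact ⟨l, by rw [h1, ← h2.1], h2.2⟩
  · cases l with
    | nil =>
      left
      simp only [List.nil_append, List.cons.injEq, true_and] at h2
      exact ⟨by simpa using h1.symm, h2.symm⟩
    | cons c l =>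
      exfalso
      simp only [List.cons_append, List.cons.injEq] at h2
      apply hs
      rw [h1, h2.1]
      simp

theorem rec4_last (a : List D) : ∃ e' : List (D ⊕ Fin 4), rec4 a = e' ++ [Sum.inr 3] ∧
    Sum.inr 3 ∉ e' := by
  refine ⟨blk a 0 ++ blk a.reverse 1 ++ blk a 2 ++ a.reverse.map Sum.inl, ?_, ?_⟩
  · unfold rec4 blk
    simp
  · unfold blk
    simp

theorem cut_zero (M : List (List D)) (x : List D) {P q : List (D ⊕ Fin 4)}
    (h : enc M ++ x.map Sum.inl = P ++ Sum.inr 3 :: q) :
    ∃ M1 M2, M = M1 ++ M2 ∧ P ++ [Sum.inr 3] = enc M1 ∧ q = enc M2 ++ x.map Sum.inl := by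
  induction M generalizing P with
  | nil =>
    exfalso
    have h1 : (Sum.inr 3 : D ⊕ Fin 4) ∈ P ++ Sum.inr 3 :: q := by simp
    rw [← h] at h1
    simp [enc] at h1
  | cons a M ih =>
    obtain ⟨e', he1, he2⟩ := rec4_last a
    rw [enc_cons, he1] at h
    have h' : e' ++ Sum.inr 3 :: (enc M ++ x.map Sum.inl) = P ++ Sum.inr 3 :: q := by
      simpa using h
    rcases blk_split he2 h' with ⟨h1, h2⟩ | ⟨P', h1, h2⟩
    · refine ⟨[a], M, rfl, ?_, h2.symm⟩
      rw [h1, ← he1, enc_cons]
      simp [enc]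
    · obtain ⟨M1, M2, k1, k2, k3⟩ := ih h2
      refine ⟨a :: M1, M2, by rw [k1]; rfl, ?_, k3⟩
      rw [enc_cons, ← k2, he1, h1]
      simp

theorem cut (M : List (List D)) {e : List (D ⊕ Fin 4)}
    (he : e = [] ∨ ∃ e', e = e' ++ [Sum.inr 3] ∧ Sum.inr 3 ∉ e') (x : List D)
    {P q : List (D ⊕ Fin 4)}
    (h : e ++ enc M ++ x.map Sum.inl = P ++ [Sum.inr 3] ++ q) :
    ∃ M1 M2, M = M1 ++ M2 ∧ P ++ [Sum.inr 3] = e ++ enc M1 ∧ q = enc M2 ++ x.map Sum.inl := by
  rcases he with rfl | ⟨e', rfl, he2⟩
  · exact cut_zero M x (by simpa using h)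
  · have h' : e' ++ Sum.inr 3 :: (enc M ++ x.map Sum.inl) = P ++ Sum.inr 3 :: q := by
      simpa using h
    rcases blk_split he2 h' with ⟨h1, h2⟩ | ⟨P', h1, h2⟩
    · refine ⟨[], M, rfl, ?_, h2.symm⟩
      rw [h1]
      simp [enc]
    · obtain ⟨M1, M2, k1, k2, k3⟩ := cut_zero M x h2
      refine ⟨M1, M2, k1, ?_, k3⟩
      rw [← k2, h1]
      simp

end Pool.Agent.DEG
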