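import Pool.Agent.Helper38.LinL.Grammar

/-!
# Linear languages and rational sets of contexts (definitions for project DEG)
-/

namespace Pool.Agent.DEG

open Pool.Agent.Helper38.LinL

variable {S : Type}

/-- Linear languages. -/
def Lin (X : Set (List S)) : Prop := ∃ G : LinearGrammar S, G.language = X

/-- Rational sets of contexts `(u, v)`. -/
def Rat (C : Set (List S × List S)) : Prop :=
  ∃ (G : LinearGrammar S) (f : G.N), ∀ u v, (u, v) ∈ C ↔ G.Derives G.start u f v

/-- Composition of contexts: `C` outside, `C'` inside. -/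
def cmul (C C' : Set (List S × List S)) : Set (List S × List S) :=
  {p | ∃ u v u' v', (u, v) ∈ C ∧ (u', v') ∈ C' ∧ p = (u ++ u', v' ++ v)}

/-- Iteration of contexts. -/
inductive CStar (C : Set (List S × List S)) : List S → List S → Prop
  | nil : CStar C [] []
  | cons {u v u' v'} : (u, v) ∈ C → CStar C u' v' → CStar C (u ++ u') (v' ++ v)

/-- A context around a word. -/
def cact (C : Set (List S × List S)) (X : Set (List S)) : Set (List S) :=
  {w | ∃ u v t, (u, v) ∈ C ∧ t ∈ X ∧ w = u ++ t ++ v}

end Pool.Agent.DEG
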