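import Pool.Agent.DEG.Reg
import Pool.Agent.DEG.Lin

/-!
# Sequences of records (definitions for project DEG)

A record `a` (a word over `D`) is written as `a # a^R # a # a^R #`, with four different
separators; a sequence of records is written as the concatenation.
-/

namespace Pool.Agent.DEG

variable {D : Type}

/-- The block `a` followed by the separator `j`. -/
def blk (a : List D) (j : Fin 4) : List (D ⊕ Fin 4) := a.map Sum.inl ++ [Sum.inr j]

/-- The code of a record. -/
def rec4 (a : List D) : List (D ⊕ Fin 4) :=
  blk a 0 ++ blk a.reverse 1 ++ blk a 2 ++ blk a.reverse 3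

/-- The code of a sequence of records. -/
def enc (L : List (List D)) : List (D ⊕ Fin 4) := (L.map rec4).flatten

/-- The code of a sequence of quadruples of words. -/
def encQ (Q : List (List D × List D × List D × List D)) : List (D ⊕ Fin 4) :=
  (Q.map fun q => blk q.1 0 ++ blk q.2.1 1 ++ blk q.2.2.1 2 ++ blk q.2.2.2 3).flatten

/-- The code of a sequence of blocks. -/
def encB (B : List (List D × Fin 4)) : List (D ⊕ Fin 4) :=
  (B.map fun x => blk x.1 x.2).flatten

/-- The blocks of the records. -/
def blks (L : List (List D)) : List (List D × Fin 4) :=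
  (L.map fun a => [(a, (0 : Fin 4)), (a.reverse, 1), (a, 2), (a.reverse, 3)]).flatten

/-- The synchronous relation given by the language `R` of pairs. -/
def Rl (R : Set (List (D × D))) (a b : List D) : Prop := a.length = b.length ∧ a.zip b ∈ R

/-- Valid sequences of records: the first one is in `I`, consecutive ones are related by `R`,
the last one is in `F`. -/
def VSeq (I F : Set (List D)) (R : Set (List (D × D))) (L : List (List D)) : Prop :=
  (∃ a ∈ I, L.head? = some a) ∧ List.IsChain (Rl R) L ∧ ∃ a ∈ F, L.getLast? = some a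

/-- `ZZ A T a M`: `a` is in `A`, or one can choose records `a'` (from the left) and `b` (from
the right, behind `a'`) in the sequence `M`, related by `a → b → a'`, and continue with `a'`
and the records between `a'` and `b`. -/
inductive ZZ (A : Set (List D)) (T : Set (List (D × D))) : List D → List (List D) → Prop
  | acc {a M} : a ∈ A → ZZ A T a M
  | step {a M1 a' M2 b M3} : Rl T a b → Rl T b a' → ZZ A T a' M2 →
      ZZ A T a (M1 ++ a' :: (M2 ++ b :: M3))

/-- The zigzag property of a sequence of records. -/
def Zig (S A : Set (List D)) (T : Set (List (D × D))) (L : List (List D)) : Prop :=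
  ∃ M1 a M2, L = M1 ++ a :: M2 ∧ a ∈ S ∧ ZZ A T a M2

/-- Words with two consecutive blocks `a`, `b` (ended by the separators `j` and `k`), where
`a` and `b^R` are not related by `R`. -/
def ErrSet (j k : Fin 4) (R : Set (List (D × D))) : Set (List (D ⊕ Fin 4)) :=
  {w | ∃ p a b q, (p = [] ∨ ∃ p' i, p = p' ++ [Sum.inr i]) ∧ ¬ Rl R a b.reverse ∧
    w = p ++ (blk a j ++ blk b k) ++ q}

/-- The words which code a sequence of quadruples of words, with the first word of the first
quadruple in `I` and the reverse of the last word of the last quadruple in `F`. -/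
def FmtSet (I F : Set (List D)) : Set (List (D ⊕ Fin 4)) :=
  {w | ∃ Q : List (List D × List D × List D × List D), (∃ q, Q.head? = some q ∧ q.1 ∈ I) ∧
    (∃ q, Q.getLast? = some q ∧ q.2.2.2.reverse ∈ F) ∧ w = encQ Q}

/-- The contexts of one round of the zigzag grammar. -/
def CBody (T : Set (List (D × D))) : Set (List (D ⊕ Fin 4) × List (D ⊕ Fin 4)) :=
  {p | ∃ (a a' y y2 y3 y4 : List D) (g q : List (D ⊕ Fin 4)), Rl T a y4.reverse ∧
    Rl T y2.reverse a' ∧ p.1 = blk a 2 ++ (g ++ [Sum.inr 3]) ++ blk a' 0 ++ blk y 1 ∧
    p.2 = [Sum.inr 0] ++ blk y2 1 ++ blk y3 2 ++ blk y4 3 ++ q}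

/-- The words on which the zigzag grammar stops. -/
def YStop (A : Set (List D)) : Set (List (D ⊕ Fin 4)) := {w | ∃ a ∈ A, ∃ z, w = blk a 2 ++ z}

/-- The words generated by the zigzag grammar from the main nonterminal. -/
def YY (A : Set (List D)) (T : Set (List (D × D))) : Set (List (D ⊕ Fin 4)) :=
  cact {p | CStar (CBody T) p.1 p.2} (YStop A)

/-- The words generated by the zigzag grammar. -/
def PP (S A : Set (List D)) (T : Set (List (D × D))) : Set (List (D ⊕ Fin 4)) :=
  {w | ∃ g a y w', (g = [] ∨ ∃ g', g = g' ++ [Sum.inr 3]) ∧ a ∈ S ∧ w' ∈ YY A T ∧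
    w = g ++ (blk a 0 ++ blk y 1) ++ w'}

end Pool.Agent.DEG
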