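import Pool.Agent.DEG.Der

/-!
DEG module RATC: iteration of a rational set of contexts is rational.

Nonterminals `G.N ⊕ Unit`, start and `f` both equal to `inr ()`; the rules of `G` and the rules
without letters `inr () → inl start`, `inl f → inr ()` (`mkG` in `Der.lean`). One direction by
induction on `CStar` (`der_map`, `der_single`, `der_trans`). Other direction: by induction on the
derivation from `inr ()`, a derivable `(u, B, v)` satisfies: `B = inr ()` and `CStar C u v`; or
`B = inl b` and `u = u1 ++ u2`, `v = v2 ++ v1` with `CStar C u1 v1` and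
`G.Derives start u2 b v2` (`CStar.snoc` in `Der.lean`).
-/

namespace Pool.Agent.DEG

open Pool.Agent.Helper38.LinL

variable {S : Type}

private def starR (G : LinearGrammar S) (f : G.N) :
    Set ((G.N ⊕ Unit) × List S × (G.N ⊕ Unit) × List S) :=
  ((fun r : G.N × List S × G.N × List S => (Sum.inl r.1, r.2.1, Sum.inl r.2.2.1, r.2.2.2)) ''
    (G.rules : Set (G.N × List S × G.N × List S))) ∪
    {(Sum.inr (), [], Sum.inl G.start, []), (Sum.inl f, [], Sum.inr (), [])}

private theorem starR_finite (G : LinearGrammar S) (f : G.N) : (starR G f).Finite :=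
  ((Finset.finite_toSet _).image _).union (Set.toFinite _)

private noncomputable def starG (G : LinearGrammar S) (f : G.N) : LinearGrammar S :=
  mkG (G.N ⊕ Unit) (by have := G.finN; infer_instance) (Sum.inr ()) (starR G f)
    (starR_finite G f) ∅ Set.finite_empty

private theorem star_start (G : LinearGrammar S) (f : G.N) :
    (Sum.inr (), [], Sum.inl G.start, []) ∈ (starG G f).rules := by
  refine mem_rules_mkG.2 ?_
  exact Or.inr (Or.inl rfl)

private theorem star_end (G : LinearGrammar S) (f : G.N) :
    (Sum.inl f, [], Sum.inr (), []) ∈ (starG G f).rules := by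
  refine mem_rules_mkG.2 ?_
  exact Or.inr (Or.inr rfl)

private theorem star_rule (G : LinearGrammar S) (f : G.N) {A B : G.N} {u v : List S}
    (h : (A, u, B, v) ∈ G.rules) : (Sum.inl A, u, Sum.inl B, v) ∈ (starG G f).rules := by
  refine mem_rules_mkG.2 ?_
  exact Or.inl ⟨(A, u, B, v), h, rfl⟩

private theorem star_rules_cases (G : LinearGrammar S) (f : G.N) {A B : G.N ⊕ Unit}
    {u v : List S} (h : (A, u, B, v) ∈ (starG G f).rules) :
    (∃ a b, A = Sum.inl a ∧ B = Sum.inl b ∧ (a, u, b, v) ∈ G.rules) ∨
      (A = Sum.inr () ∧ u = [] ∧ B = Sum.inl G.start ∧ v = []) ∨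
      (A = Sum.inl f ∧ u = [] ∧ B = Sum.inr () ∧ v = []) := by
  replace h := mem_rules_mkG.1 h
  rcases h with ⟨⟨a, u', b, v'⟩, hr, he⟩ | h | h
  · left
    simp only [Prod.mk.injEq] at he
    obtain ⟨h1, h2, h3, h4⟩ := he
    subst h2 h4
    exact ⟨a, b, h1.symm, h3.symm, hr⟩
  · right; left
    simpa only [Prod.mk.injEq] using h
  · right; right
    rw [Set.mem_singleton_iff] at h
    simpa only [Prod.mk.injEq] using h

private theorem star_inv {C : Set (List S × List S)} (G : LinearGrammar S) (f : G.N)
    (hC : ∀ u v, (u, v) ∈ C ↔ G.Derives G.start u f v) {B : (starG G f).N} {u v : List S}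
    (h : (starG G f).Derives (Sum.inr ()) u B v) :
    (B = Sum.inr () ∧ CStar C u v) ∨
      ∃ b u1 u2 v1 v2, B = Sum.inl b ∧ u = u1 ++ u2 ∧ v = v2 ++ v1 ∧ CStar C u1 v1 ∧
        G.Derives G.start u2 b v2 := by
  induction h with
  | refl => exact Or.inl ⟨rfl, CStar.nil⟩
  | @step u B v u' B' v' _ hr ih =>
    rcases star_rules_cases G f hr with ⟨a, b, ha, hb, hab⟩ | ⟨hA, hu, hB, hv⟩ |
      ⟨hA, hu, hB, hv⟩
    · rcases ih with ⟨h1, _⟩ | ⟨b1, u1, u2, v1, v2, h1, h2, h3, h4, h5⟩
      · rw [h1] at ha
        exact absurd ha (by simp)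
      · rw [h1] at ha
        have hab1 : b1 = a := Sum.inl_injective ha
        subst hab1
        right
        refine ⟨b, u1, u2 ++ u', v1, v' ++ v2, hb, ?_, ?_, h4, ?_⟩
        · rw [h2, List.append_assoc]
        · rw [h3, List.append_assoc]
        · exact LinearGrammar.Derives.step h5 hab
    · rcases ih with ⟨_, h2⟩ | ⟨b1, u1, u2, v1, v2, h1, _⟩
      · right
        refine ⟨G.start, u, [], v, [], hB, ?_, ?_, h2, LinearGrammar.Derives.refl⟩
        · rw [hu]
        · rw [hv]
      · rw [h1] at hA
        exact absurd hA (by simp)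
    · rcases ih with ⟨h1, _⟩ | ⟨b1, u1, u2, v1, v2, h1, h2, h3, h4, h5⟩
      · rw [h1] at hA
        exact absurd hA (by simp)
      · rw [h1] at hA
        have hab1 : b1 = f := Sum.inl_injective hA
        subst hab1
        left
        refine ⟨hB, ?_⟩
        rw [hu, hv, List.append_nil, List.nil_append, h2, h3]
        exact CStar.snoc h4 ((hC u2 v2).2 h5)

theorem Rat.star {C : Set (List S × List S)} (h : Rat C) :
    Rat {p : List S × List S | CStar C p.1 p.2} := by
  obtain ⟨G, f, hC⟩ := h
  refine ⟨starG G f, Sum.inr (), fun u v => ⟨fun h => ?_, fun h => ?_⟩⟩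
  · have h' : CStar C u v := h
    clear h
    show (starG G f).Derives (Sum.inr ()) u (Sum.inr ()) v
    induction h' with
    | nil => exact LinearGrammar.Derives.refl
    | @cons u v u' v' h1 _ ih =>
      have h2 : (starG G f).Derives (Sum.inl G.start) u (Sum.inl f) v :=
        der_map (H := starG G f) (fun A => Sum.inl A) (fun A u B v hr => star_rule G f hr)
          ((hC u v).1 h1)
      have h3 := der_trans (der_trans (der_single (star_start G f)) h2)
        (der_single (star_end G f))
      have h4 := der_trans h3 ih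
      simpa using h4
  · rcases star_inv G f hC h with ⟨_, h2⟩ | ⟨b1, u1, u2, v1, v2, h1, _⟩
    · exact h2
    · exact absurd h1 (by simp)

end Pool.Agent.DEG
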