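import Pool.Agent.DEG.LinB
import Pool.Agent.DEG.RatC
import Pool.Agent.DEG.Enc

/-!
DEG module ZIGA: the zigzag language is linear.

`CBody T` is a product (`Rat.mul`, from outside to inside) of the following rational sets of
contexts, with `inl : D → D ⊕ Fin 4`:
`([], q)` all `q` (`Rat.right`, `g = id`); `([], [inr 3])` (`Rat.single`);
`(a.map inl, (b.map inl).reverse)` with `Rl T a b` (`Rat.sync`; `b = y4.reverse`);
`([inr 2], [inr 2])`; `(g, [])` all `g` (`Rat.left`); `([inr 3], [])`;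
`([], y3.map inl)` (`Rat.right`); `([], [inr 1])`;
`(a'.map inl, (b.map inl).reverse)` with `Rl T b a'` (`Rat.sync` for the language
`{z | z.map Prod.swap ∈ T}`, `Reg.map`; `b = y2.reverse`); `([inr 0], [inr 0])`;
`(y.map inl, [])` (`Rat.left`); `([inr 1], [])`.
The product of the left words is `a 2 g 3 a' 0 y 1`, the product of the right words (in reverse
order) is `0 y2 1 y3 2 y4 3 q`, as in the definition of `CBody`.

`YStop A` is regular, or: `cact` of `(a.map inl, [])`, `a ∈ A` (`Rat.left`), `([inr 2], [])`,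
`([], z)` (all `z`) around `{[]}`. `YY A T = cact {p | CStar ..} (YStop A)`: `Rat.star`,
`Lin.act`. `PP S A T` is `cact` of `(g, [])` (`g = []` or `g` ends with `inr 3`; `Rat.union` of
`Rat.single` and a product, or `Reg.last`), `(a.map inl, [])` (`a ∈ S`), `([inr 0], [])`,
`(y.map inl, [])`, `([inr 1], [])` around `YY A T`.
-/

namespace Pool.Agent.DEG

variable {D : Type}

private theorem za_univ {A : Type} : Reg (Set.univ : Set (List A)) := by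
  have := Reg.constP (A := A) True
  simpa using this

private theorem za_l [Finite D] {K : Set (List D)} (h : Reg K) :
    Rat {p : List (D ⊕ Fin 4) × List (D ⊕ Fin 4) | ∃ z ∈ K, p = (z.map Sum.inl, [])} :=
  Rat.left h Sum.inl

private theorem za_r [Finite D] {K : Set (List D)} (h : Reg K) :
    Rat {p : List (D ⊕ Fin 4) × List (D ⊕ Fin 4) | ∃ z ∈ K, p = ([], z.map Sum.inl)} :=
  Rat.right h Sum.inl

private theorem za_lid [Finite D] {K : Set (List (D ⊕ Fin 4))} (h : Reg K) :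
    Rat {p : List (D ⊕ Fin 4) × List (D ⊕ Fin 4) | ∃ z ∈ K, p = (z, [])} := by
  have := Rat.left h (id : D ⊕ Fin 4 → D ⊕ Fin 4)
  simpa using this

private theorem za_rid [Finite D] {K : Set (List (D ⊕ Fin 4))} (h : Reg K) :
    Rat {p : List (D ⊕ Fin 4) × List (D ⊕ Fin 4) | ∃ z ∈ K, p = ([], z)} := by
  have := Rat.right h (id : D ⊕ Fin 4 → D ⊕ Fin 4)
  simpa using this

private theorem za_s1 [Finite D] {T : Set (List (D × D))} (hT : Reg T) :
    Rat {p : List (D ⊕ Fin 4) × List (D ⊕ Fin 4) | ∃ a b : List D, Rl T a b.reverse ∧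
      p = (a.map Sum.inl, b.map Sum.inl)} := by
  have := Rat.sync hT (Sum.inl : D → D ⊕ Fin 4)
  convert this using 1
  ext p
  constructor
  · rintro ⟨a, b, h, rfl⟩
    exact ⟨a, b.reverse, h.1, h.2, by simp⟩
  · rintro ⟨a, b, h1, h2, rfl⟩
    exact ⟨a, b.reverse, ⟨by simpa using h1, by simpa using h2⟩, by simp⟩

private theorem za_s2 [Finite D] {T : Set (List (D × D))} (hT : Reg T) :
    Rat {p : List (D ⊕ Fin 4) × List (D ⊕ Fin 4) | ∃ a b : List D, Rl T b.reverse a ∧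
      p = (a.map Sum.inl, b.map Sum.inl)} := by
  have h := za_s1 (T := {z | z.map Prod.swap ∈ T}) (Reg.map hT)
  convert h using 1
  ext p
  refine exists_congr fun a => exists_congr fun b => and_congr_left fun _ => ?_
  unfold Rl
  rw [Set.mem_ofPred_eq, List.zip_swap]
  exact and_congr_left fun _ => eq_comm

theorem rat_cbody [Finite D] {T : Set (List (D × D))} (hT : Reg T) : Rat (CBody T) := by
  have h := (za_rid (D := D) za_univ).mul ((Rat.single [] [Sum.inr 3]).mul ((za_s1 hT).mul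
    ((Rat.single [Sum.inr 2] [Sum.inr 2]).mul ((za_lid za_univ).mul
    ((Rat.single [Sum.inr 3] []).mul ((za_r za_univ).mul ((Rat.single [] [Sum.inr 1]).mul
    ((za_s2 hT).mul ((Rat.single [Sum.inr 0] [Sum.inr 0]).mul ((za_l za_univ).mul
    (Rat.single [Sum.inr 1] [])))))))))))
  convert h using 1
  ext ⟨U, V⟩
  constructor
  · rintro ⟨a, a', y, y2, y3, y4, g, q, h1, h2, hu, hv⟩
    simp only at hu hv
    refine ⟨_, _, _, _, ⟨q, trivial, rfl⟩, ⟨_, _, _, _, rfl, ⟨_, _, _, _, ⟨a, y4, h1, rfl⟩,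
      ⟨_, _, _, _, rfl, ⟨_, _, _, _, ⟨g, trivial, rfl⟩, ⟨_, _, _, _, rfl, ⟨_, _, _, _,
      ⟨y3, trivial, rfl⟩, ⟨_, _, _, _, rfl, ⟨_, _, _, _, ⟨a', y2, h2, rfl⟩, ⟨_, _, _, _, rfl,
      ⟨_, _, _, _, ⟨y, trivial, rfl⟩, rfl, rfl⟩, rfl⟩, rfl⟩, rfl⟩, rfl⟩, rfl⟩, rfl⟩, rfl⟩,
      rfl⟩, rfl⟩, ?_⟩
    rw [hu, hv]
    simp [blk]
  · rintro ⟨_, _, _, _, ⟨q, -, e1⟩, ⟨_, _, _, _, e2, ⟨_, _, _, _, ⟨a, y4, h1, e3⟩,
      ⟨_, _, _, _, e4, ⟨_, _, _, _, ⟨g, -, e5⟩, ⟨_, _, _, _, e6, ⟨_, _, _, _,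
      ⟨y3, -, e7⟩, ⟨_, _, _, _, e8, ⟨_, _, _, _, ⟨a', y2, h2, e9⟩, ⟨_, _, _, _, e10,
      ⟨_, _, _, _, ⟨y, -, e11⟩, e12, e13⟩, e14⟩, e15⟩, e16⟩, e17⟩, e18⟩, e19⟩, e20⟩,
      e21⟩, e22⟩, e23⟩
    simp only [Set.mem_singleton_iff, Prod.mk.injEq] at *
    clear h
    exact ⟨a, a', y, y2, y3, y4, g, q, h1, h2, by simp [blk, *], by simp [blk, *]⟩

private theorem za_YY [Finite D] {A : Set (List D)} {T : Set (List (D × D))} (hA : Reg A)
    (hT : Reg T) : Lin (YY A T) := by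
  refine Lin.act (Rat.star (rat_cbody hT)) ?_
  have h := Lin.act ((za_rid (D := D) za_univ).mul ((za_l hA).mul (Rat.single [Sum.inr 2] [])))
    (Lin.single ([] : List (D ⊕ Fin 4)))
  convert h using 1
  ext w
  constructor
  · rintro ⟨a, ha, z, rfl⟩
    exact ⟨_, _, _, ⟨_, _, _, _, ⟨z, trivial, rfl⟩, ⟨_, _, _, _, ⟨a, ha, rfl⟩, rfl, rfl⟩, rfl⟩,
      rfl, by simp [blk]⟩
  · rintro ⟨_, _, _, ⟨_, _, _, _, ⟨z, -, e1⟩, ⟨_, _, _, _, ⟨a, ha, e2⟩, e3, e4⟩, e5⟩, e6, e7⟩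
    simp only [Set.mem_singleton_iff, Prod.mk.injEq] at *
    clear h
    exact ⟨a, ha, z, by simp [blk, *]⟩

theorem lin_PP [Finite D] {S A : Set (List D)} {T : Set (List (D × D))} (hS : Reg S)
    (hA : Reg A) (hT : Reg T) : Lin (PP S A T) := by
  have hg : Reg {z : List (D ⊕ Fin 4) | ¬ (∃ a, z.getLast? = some a ∧ ¬ a = Sum.inr 3)} :=
    (Reg.last fun a => ¬ a = Sum.inr 3).compl
  have h := Lin.act ((za_lid hg).mul ((za_l hS).mul ((Rat.single [Sum.inr 0] []).mul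
    ((za_l (D := D) za_univ).mul (Rat.single [Sum.inr 1] []))))) (za_YY hA hT)
  convert h using 1
  have hgl : ∀ g : List (D ⊕ Fin 4), (g = [] ∨ ∃ g', g = g' ++ [Sum.inr 3]) ↔
      ¬ (∃ a, g.getLast? = some a ∧ ¬ a = Sum.inr 3) := by
    intro g
    rcases List.eq_nil_or_concat g with rfl | ⟨g', b, rfl⟩
    · simp
    · simp
  ext w
  constructor
  · rintro ⟨g, a, y, w', hg', ha, hw, rfl⟩
    exact ⟨_, _, _, ⟨_, _, _, _, ⟨g, (hgl g).1 hg', rfl⟩, ⟨_, _, _, _, ⟨a, ha, rfl⟩,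
      ⟨_, _, _, _, rfl, ⟨_, _, _, _, ⟨y, trivial, rfl⟩, rfl, rfl⟩, rfl⟩, rfl⟩, rfl⟩, hw,
      by simp [blk]⟩
  · rintro ⟨_, _, w', ⟨_, _, _, _, ⟨g, hg', e1⟩, ⟨_, _, _, _, ⟨a, ha, e2⟩, ⟨_, _, _, _, e3,
      ⟨_, _, _, _, ⟨y, -, e4⟩, e5, e6⟩, e7⟩, e8⟩, e9⟩, hw, e10⟩
    simp only [Set.mem_singleton_iff, Prod.mk.injEq] at *
    have hg2 := (hgl g).2 hg'
    clear h hgl hg' hg
    exact ⟨g, a, y, w', hg2, ha, hw, by simp [blk, *]⟩

end Pool.Agent.DEG
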