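import Pool.Agent.DEG.Blk

/-!
DEG module ZIGB: the zigzag language on codes of sequences of records.

`zz_to`: by induction on `ZZ A T a M`, for all `x`: the word
`W = blk a 2 ++ blk a.reverse 3 ++ enc M ++ x.map inl` is in `YY A T`. If `a ∈ A`: `W ∈ YStop A`
and the context `CStar.nil`. Step: `M = M1 ++ a' :: (M2 ++ b :: M3)`; by the induction hypothesis
(with `x := b`) the word `t = blk a' 2 ++ blk a'.reverse 3 ++ enc M2 ++ b.map inl` is in `YY A T`,
and `W = u ++ t ++ v` with `u = blk a 2 ++ (blk a.reverse 3 ++ enc M1) ++ blk a' 0 ++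
blk a'.reverse 1` and `v = [inr 0] ++ blk b.reverse 1 ++ blk b 2 ++ blk b.reverse 3 ++
(enc M3 ++ x.map inl)`; `(u, v) ∈ CBody T` (with `y2 = y4 = b.reverse`, `y3 = b`; the word
`blk a.reverse 3 ++ enc M1` ends with `inr 3`), and `CStar.cons`.

`zz_of`: let `W = U ++ t0 ++ V` with `CStar (CBody T) U V` and `t0 ∈ YStop A`; induction on
`CStar`, for all `a`, `M`, `x`. `nil`: `W ∈ YStop A`, so `W = blk a1 2 ++ z` with `a1 ∈ A`, and
`a1 = a` by `blk_left`: `ZZ.acc`. `cons`: `U = u ++ U'`, `V = V' ++ v`, `(u, v) ∈ CBody T` and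
`t = U' ++ t0 ++ V' ∈ YY A T`: with the letters of `CBody` (first word `a1` instead of `a`),
`blk_left` gives `a1 = a` and `blk a.reverse 3 ++ enc M ++ x.map inl = g ++ [inr 3] ++
(blk a' 0 ++ blk y 1 ++ (t ++ v))`; `cut` (with `e = blk a.reverse 3`) gives `M = M1 ++ M2` and
`blk a' 0 ++ blk y 1 ++ (t ++ v) = enc M2 ++ x.map inl`; `M2` is not empty (a separator on the
left), `M2 = a'' :: M3`, and `rec4_left` gives `a'' = a'`, `t ++ v = blk a' 2 ++ blk a'.reverse 3
++ (enc M3 ++ x.map inl)`. Now `v = [inr 0] ++ blk y2 1 ++ blk y3 2 ++ y4.map inl ++ [inr 3] ++ q`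
and `cut` with `e = blk a' 2 ++ blk a'.reverse 3` gives `M3 = M4 ++ M5`,
`t ++ [inr 0] ++ blk y2 1 ++ blk y3 2 ++ blk y4 3 = e ++ enc M4`, `q = enc M5 ++ x.map inl`.
`M4` is not empty (`inr 0` is on the left but not in `e`), `M4 = M6 ++ [b]`, and `rec4_right`
gives `y4 = b.reverse`, `y2 = b.reverse`, `t = e ++ enc M6 ++ b.map inl`. By the induction
hypothesis `ZZ A T a' M6`, and `M = M1 ++ a' :: (M6 ++ b :: M5)`, `Rl T a b`, `Rl T b a'`:
`ZZ.step`.

`PP_iff`: if `enc L = g ++ (blk a 0 ++ blk y 1) ++ w'` with `g = []` or `g` ending with `inr 3`: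
`cut` (with `e = []`, `x = []`; trivial if `g = []`) gives `L = M1 ++ M2`, `g = enc M1` and
`blk a 0 ++ blk y 1 ++ w' = enc M2`, so `M2 = a :: M3` and `w' = blk a 2 ++ blk a.reverse 3 ++
enc M3` (`rec4_left`); use `YY_iff` with `x = []`. Conversely clear (`g = enc M1` is empty or
ends with `inr 3`).
-/

namespace Pool.Agent.DEG

variable {D : Type}

private theorem zb_cons {A : Set (List D)} {T : Set (List (D × D))}
    {u v t : List (D ⊕ Fin 4)} (h : (u, v) ∈ CBody T) (ht : t ∈ YY A T) :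
    u ++ t ++ v ∈ YY A T := by
  obtain ⟨u', v', t', h1, h2, rfl⟩ := ht
  exact ⟨u ++ u', v' ++ v, t', CStar.cons h h1, h2, by simp only [List.append_assoc]⟩

private theorem zb_enc_end (M : List (List D)) : ∀ c : List D,
    ∃ g : List (D ⊕ Fin 4), blk c 3 ++ enc M = g ++ [Sum.inr 3] := by
  induction M with
  | nil => intro c; exact ⟨c.map Sum.inl, by simp [enc, blk]⟩
  | cons a M ih =>
    intro c
    obtain ⟨g, hg⟩ := ih a.reverse
    refine ⟨blk c 3 ++ (blk a 0 ++ blk a.reverse 1 ++ blk a 2) ++ g, ?_⟩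
    rw [enc_cons]
    unfold rec4
    simp only [List.append_assoc] at hg ⊢
    rw [hg]

private theorem zz_to {A : Set (List D)} {T : Set (List (D × D))} {a : List D}
    {M : List (List D)} (h : ZZ A T a M) : ∀ x : List D,
    blk a 2 ++ blk a.reverse 3 ++ enc M ++ x.map Sum.inl ∈ YY A T := by
  induction h with
  | @acc a M ha =>
    intro x
    exact ⟨[], [], blk a 2 ++ (blk a.reverse 3 ++ enc M ++ x.map Sum.inl), CStar.nil,
      ⟨a, ha, blk a.reverse 3 ++ enc M ++ x.map Sum.inl, rfl⟩,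
      by simp only [List.append_assoc, List.nil_append, List.append_nil]⟩
  | @step a M1 a' M2 b M3 h1 h2 h3 ih =>
    intro x
    obtain ⟨g, hg⟩ := zb_enc_end M1 a.reverse
    have h4 := zb_cons (u := blk a 2 ++ (g ++ [Sum.inr 3]) ++ blk a' 0 ++ blk a'.reverse 1)
      (v := [Sum.inr 0] ++ blk b.reverse 1 ++ blk b 2 ++ blk b.reverse 3 ++
        (enc M3 ++ x.map Sum.inl)) (T := T)
      ⟨a, a', a'.reverse, b.reverse, b, b.reverse, g, enc M3 ++ x.map Sum.inl,
        by rwa [List.reverse_reverse], by rwa [List.reverse_reverse], rfl, rfl⟩ (ih b)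
    rw [← hg] at h4
    convert h4 using 1
    simp only [enc_append, enc_cons, rec4, List.append_assoc]
    simp [blk]

private theorem zb_sep {x : List D} {i : Fin 4} :
    (Sum.inr i : D ⊕ Fin 4) ∉ x.map (Sum.inl : D → D ⊕ Fin 4) := by
  simp

private theorem zz_of {A : Set (List D)} {T : Set (List (D × D))} {U V : List (D ⊕ Fin 4)}
    (h : CStar (CBody T) U V) : ∀ (t0 : List (D ⊕ Fin 4)) (a : List D) (M : List (List D))
    (x : List D), t0 ∈ YStop A →
    blk a 2 ++ blk a.reverse 3 ++ enc M ++ x.map Sum.inl = U ++ t0 ++ V → ZZ A T a M := by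
  induction h with
  | nil =>
    intro t0 a M x ht h
    obtain ⟨a1, h1, z, rfl⟩ := ht
    have h2 : blk a 2 ++ (blk a.reverse 3 ++ enc M ++ x.map Sum.inl) = blk a1 2 ++ z := by
      simpa only [List.append_assoc, List.nil_append, List.append_nil] using h
    obtain ⟨rfl, -, -⟩ := blk_left h2
    exact ZZ.acc h1
  | @cons u v U V huv _ ih =>
    intro t0 a M x ht h
    obtain ⟨a1, a', y, y2, y3, y4, g, q, h1, h2, hu, hv⟩ := huv
    simp only at hu hv
    set t := U ++ t0 ++ V with htd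
    have e1 : blk a 2 ++ (blk a.reverse 3 ++ enc M ++ x.map Sum.inl) =
        blk a1 2 ++ (g ++ [Sum.inr 3] ++ (blk a' 0 ++ blk y 1 ++ (t ++ v))) := by
      have : blk a 2 ++ blk a.reverse 3 ++ enc M ++ x.map Sum.inl = u ++ t ++ v := by
        rw [h, htd]; simp only [List.append_assoc]
      rw [hu] at this
      simpa only [List.append_assoc] using this
    obtain ⟨rfl, -, e2⟩ := blk_left e1
    obtain ⟨M1, M2, rfl, e3, e4⟩ := cut M (e := blk a.reverse 3)
      (Or.inr ⟨a.reverse.map Sum.inl, rfl, zb_sep⟩) x e2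
    cases M2 with
    | nil =>
      exfalso
      have h5 : (Sum.inr 0 : D ⊕ Fin 4) ∈ enc ([] : List (List D)) ++ x.map Sum.inl := by
        rw [← e4]; simp [blk]
      simp [enc] at h5
    | cons a'' M3 =>
      have e5 : rec4 a'' ++ (enc M3 ++ x.map Sum.inl) = blk a' 0 ++ blk y 1 ++ (t ++ v) := by
        rw [e4, enc_cons]; simp only [List.append_assoc]
      obtain ⟨rfl, -, e6⟩ := rec4_left e5
      have e7 : (blk a' 2 ++ blk a'.reverse 3) ++ enc M3 ++ x.map Sum.inl =
          (t ++ ([Sum.inr 0] ++ blk y2 1 ++ blk y3 2 ++ y4.map Sum.inl)) ++ [Sum.inr 3] ++ q := by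
        rw [hv] at e6
        simp only [List.append_assoc] at e6 ⊢
        rw [← e6]
        simp [blk]
      obtain ⟨M4, M5, rfl, e8, e9⟩ := cut M3 (e := blk a' 2 ++ blk a'.reverse 3)
        (Or.inr ⟨blk a' 2 ++ a'.reverse.map Sum.inl, by simp [blk], by simp [blk]⟩) x e7
      rcases List.eq_nil_or_concat M4 with rfl | ⟨M6, b, rfl⟩
      · exfalso
        have h5 : (Sum.inr 0 : D ⊕ Fin 4) ∈
            (blk a' 2 ++ blk a'.reverse 3) ++ enc ([] : List (List D)) := by
          rw [← e8]; simp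
        simp [enc, blk] at h5
      · rw [List.concat_eq_append] at e8 ⊢
        have e10 : ((blk a' 2 ++ blk a'.reverse 3) ++ enc M6) ++ rec4 b =
            t ++ ([Sum.inr 0] ++ blk y2 1 ++ blk y3 2 ++ blk y4 3) := by
          rw [enc_append] at e8
          simp only [enc_cons, List.append_assoc] at e8 ⊢
          have : enc ([] : List (List D)) = [] := rfl
          rw [this, List.append_nil] at e8
          rw [← e8]
          simp [blk]
        obtain ⟨rfl, rfl, rfl, e11⟩ := rec4_right e10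
        have h6 := ih t0 a' M6 y3 ht (by rw [← htd, e11])
        rw [List.reverse_reverse] at h1 h2
        have := ZZ.step (M1 := M1) (M3 := M5) h1 h2 h6
        simpa using this

theorem YY_iff {A : Set (List D)} {T : Set (List (D × D))} {a : List D} {M : List (List D)}
    {x : List D} :
    blk a 2 ++ blk a.reverse 3 ++ enc M ++ x.map Sum.inl ∈ YY A T ↔ ZZ A T a M := by
  constructor
  · rintro ⟨U, V, t0, h1, h2, h3⟩
    exact zz_of h1 t0 a M x h2 h3
  · intro h
    exact zz_to h x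

private theorem zb_end (M1 : List (List D)) :
    enc M1 = [] ∨ ∃ g' : List (D ⊕ Fin 4), enc M1 = g' ++ [Sum.inr 3] := by
  cases M1 with
  | nil => exact Or.inl rfl
  | cons a M =>
    right
    obtain ⟨g, hg⟩ := zb_enc_end M a.reverse
    refine ⟨(blk a 0 ++ blk a.reverse 1 ++ blk a 2) ++ g, ?_⟩
    rw [enc_cons]
    unfold rec4
    simp only [List.append_assoc] at hg ⊢
    rw [hg]

theorem PP_iff {S A : Set (List D)} {T : Set (List (D × D))} {L : List (List D)} :
    enc L ∈ PP S A T ↔ Zig S A T L := by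
  constructor
  · rintro ⟨g, a, y, w', hg, ha, hw, h⟩
    have key : ∃ M1 M2, L = M1 ++ M2 ∧ (blk a 0 ++ blk y 1) ++ w' = enc M2 := by
      rcases hg with rfl | ⟨g', rfl⟩
      · exact ⟨[], L, rfl, by rw [h]; simp only [List.nil_append]⟩
      · obtain ⟨M1, M2, h1, -, h3⟩ := cut L (e := []) (Or.inl rfl) []
          (P := g') (q := (blk a 0 ++ blk y 1) ++ w') (by
            rw [List.nil_append, h]; simp)
        exact ⟨M1, M2, h1, by simpa using h3⟩
    obtain ⟨M1, M2, rfl, h1⟩ := key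
    cases M2 with
    | nil =>
      exfalso
      have h5 : (Sum.inr 0 : D ⊕ Fin 4) ∈ enc ([] : List (List D)) := by
        rw [← h1]; simp [blk]
      simp [enc] at h5
    | cons a'' M3 =>
      rw [enc_cons] at h1
      obtain ⟨rfl, -, h2⟩ := rec4_left h1.symm
      refine ⟨M1, a, M3, rfl, ha, ?_⟩
      refine (YY_iff (x := [])).1 ?_
      rw [h2] at hw
      simpa using hw
  · rintro ⟨M1, a, M2, rfl, ha, h⟩
    refine ⟨enc M1, a, a.reverse, _, zb_end M1, ha, (YY_iff (x := [])).2 h, ?_⟩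
    rw [enc_append, enc_cons]
    simp [rec4]

end Pool.Agent.DEG
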