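import Pool.Agent.DEG.Inv
import Pool.Agent.DEG.ZigA
import Pool.Agent.DEG.ZigB

/-!
DEG module CMB: the grammar.
-/

namespace Pool.Agent.DEG

open Pool.Agent.Helper38.LinL

variable {D : Type}

theorem exists_grammar [Finite D] {I F S A : Set (List D)} {R T : Set (List (D × D))}
    (hI : Reg I) (hF : Reg F) (hR : Reg R) (hS : Reg S) (hA : Reg A) (hT : Reg T) :
    ∃ G : LinearGrammar (D ⊕ Fin 4), ∀ w, w ∈ G.language ↔
      (¬ ∃ L, VSeq I F R L ∧ w = enc L) ∨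
        ∃ L, VSeq I F R L ∧ Zig S A T L ∧ w = enc L := by
  obtain ⟨G, hG⟩ := (lin_inv hI hF hR).union (lin_PP hS hA hT)
  refine ⟨G, fun w => ?_⟩
  rw [hG]
  constructor
  · rintro (h | h)
    · exact Or.inl h
    · by_cases hw : ∃ L, VSeq I F R L ∧ w = enc L
      · obtain ⟨L, hL, rfl⟩ := hw
        exact Or.inr ⟨L, hL, PP_iff.1 h, rfl⟩
      · exact Or.inl hw
  · rintro (h | ⟨L, _, h, rfl⟩)
    · exact Or.inl h
    · exact Or.inr (PP_iff.2 h)

end Pool.Agent.DEG
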