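import Pool.Agent.Helper38.LinL.Machine
import Pool.Agent.Helper38.LinL.Grammar

/-!
# Nondeterministic logarithmic space and logarithmic space reductions

Project DEG (MP_cb9e82_lc): every degree of `NL` (for logarithmic space many-one reductions)
contains a linear context-free language.
-/

namespace Pool.Agent.DEG

open Pool.Agent.Helper38.LinL

instance {α : Type} [Finite α] : Finite (Sym α) := by
  refine Finite.of_injective (β := Option (Option α)) (fun s => match s with
    | Sym.lend => none
    | Sym.rend => some none
    | Sym.letter a => some (some a)) ?_
  intro s t h
  cases s <;> cases t <;> simp_all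

instance : Finite Dir := by
  refine Finite.of_injective (β := Option Bool) (fun s => match s with
    | Dir.left => none
    | Dir.stay => some true
    | Dir.right => some false) ?_
  intro s t h
  cases s <;> cases t <;> simp_all

/-- A nondeterministic Turing machine with a two-way read-only input tape (with end markers) and
one work tape: like the deterministic machine `TM`, but the transition function gives a set of
possible actions (new state, symbol written, moves of the two heads). -/
structure NTM (α : Type) where
  Q : Type
  Γ : Type
  finQ : Finite Q
  finΓ : Finite Γ
  blank : Γ
  start : Q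
  δ : Q → Sym α → Γ → Set (Q × Γ × Dir × Dir)
  accept : Set Q

/-- A configuration: state, position of the input head, contents of the work tape (one-way
infinite to the right), position of the work head. -/
structure NCfg {α : Type} (M : NTM α) where
  q : M.Q
  inp : ℕ
  tape : ℕ → M.Γ
  head : ℕ

/-- The configuration after the action `t`. -/
def NTM.act {α : Type} (M : NTM α) (w : List α) (c : NCfg M) (t : M.Q × M.Γ × Dir × Dir) :
    NCfg M :=
  { q := t.1
    inp := moveInp w.length c.inp t.2.2.1
    tape := Function.update c.tape c.head t.2.1
    head := moveHead c.head t.2.2.2 }

/-- One step of the machine on input `w`. -/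
def NTM.Step {α : Type} (M : NTM α) (w : List α) (c d : NCfg M) : Prop :=
  ∃ t ∈ M.δ c.q (readSym w c.inp) (c.tape c.head), d = M.act w c t

/-- The initial configuration: start state, both heads in position `0`, blank work tape. -/
def NTM.init {α : Type} (M : NTM α) : NCfg M :=
  { q := M.start, inp := 0, tape := fun _ => M.blank, head := 0 }

/-- `M.Reach w c d`: on input `w` the machine can get from `c` to `d` in finitely many steps. -/
def NTM.Reach {α : Type} (M : NTM α) (w : List α) : NCfg M → NCfg M → Prop :=
  Relation.ReflTransGen (M.Step w)

/-- The class `NL`: for some nondeterministic machine `M` and constant `c`, on every input `w` the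
work head never gets beyond cell `c * (log₂ |w| + 1)`, and `w` is in `X` if and only if some
computation of `M` on `w` reaches an accepting state. -/
def InNL {α : Type} (X : Set (List α)) : Prop :=
  ∃ (M : NTM α) (c : ℕ), ∀ w : List α,
    (∀ d, M.Reach w M.init d → d.head ≤ c * (Nat.log 2 w.length + 1)) ∧
    (w ∈ X ↔ ∃ d, M.Reach w M.init d ∧ d.q ∈ M.accept)

/-- The language of the words `w ⊔^i` (`⊔ = none`) for which the letter number `i` of `f w`
is `b`. -/
def bitGraph {α β : Type} (f : List α → List β) (b : β) : Set (List (Option α)) :=
  {v | ∃ w i, v = w.map some ++ List.replicate i none ∧ (f w)[i]? = some b}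

/-- `f` is computable in logarithmic space: the length of `f w` is polynomially bounded, and the
letters of `f w` are computable in logarithmic space (the languages `bitGraph f b` are in `L`). -/
def LogComp {α β : Type} (f : List α → List β) : Prop :=
  (∃ e : ℕ, ∀ w, (f w).length ≤ (w.length + 2) ^ e) ∧ ∀ b, InL (bitGraph f b)

/-- Logarithmic space many-one reducibility of `X` to `Y`. -/
def LogRed {α β : Type} (X : Set (List α)) (Y : Set (List β)) : Prop :=
  ∃ f : List α → List β, LogComp f ∧ ∀ w, w ∈ X ↔ f w ∈ Y

end Pool.Agent.DEG
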