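import Pool.Agent.DEG.Lin

/-!
# Derivations (basic lemmas for project DEG)
-/

namespace Pool.Agent.DEG

open Pool.Agent.Helper38.LinL

variable {S : Type} {G : LinearGrammar S}

theorem der_trans {A B C : G.N} {u v u' v' : List S} (h : G.Derives A u B v)
    (h' : G.Derives B u' C v') : G.Derives A (u ++ u') C (v' ++ v) := by
  induction h' with
  | refl => simpa using h
  | step _ hr ih =>
    have := LinearGrammar.Derives.step ih hr
    simpa only [List.append_assoc] using this

theorem der_single {A B : G.N} {u v : List S} (h : (A, u, B, v) ∈ G.rules) :
    G.Derives A u B v := by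
  have := LinearGrammar.Derives.step (LinearGrammar.Derives.refl (G := G) (A := A)) h
  simpa using this

/-- A derivation is transported by a map of nonterminals which respects the rules. -/
theorem der_map {H : LinearGrammar S} (φ : G.N → H.N)
    (hφ : ∀ A u B v, (A, u, B, v) ∈ G.rules → (φ A, u, φ B, v) ∈ H.rules) {A B : G.N}
    {u v : List S} (h : G.Derives A u B v) : H.Derives (φ A) u (φ B) v := by
  induction h with
  | refl => exact LinearGrammar.Derives.refl
  | step _ hr ih => exact LinearGrammar.Derives.step ih (hφ _ _ _ _ hr)

theorem CStar.snoc {C : Set (List S × List S)} {u v u' v' : List S} (h : CStar C u v)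
    (h' : (u', v') ∈ C) : CStar C (u ++ u') (v' ++ v) := by
  induction h with
  | nil => simpa using CStar.cons h' CStar.nil
  | cons h1 _ ih =>
    have := CStar.cons h1 ih
    simpa only [List.append_assoc] using this

/-- A grammar given by sets of rules. -/
noncomputable def mkG (N : Type) (hN : Finite N) (s : N) (R : Set (N × List S × N × List S))
    (hR : R.Finite) (T : Set (N × List S)) (hT : T.Finite) : LinearGrammar S where
  N := N
  finN := hN
  start := s
  rules := hR.toFinset
  term := hT.toFinset

@[simp] theorem mem_rules_mkG {N : Type} {hN : Finite N} {s : N}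
    {R : Set (N × List S × N × List S)} {hR : R.Finite} {T : Set (N × List S)}
    {hT : T.Finite} {r : N × List S × N × List S} :
    r ∈ (mkG N hN s R hR T hT).rules ↔ r ∈ R := hR.mem_toFinset

@[simp] theorem mem_term_mkG {N : Type} {hN : Finite N} {s : N}
    {R : Set (N × List S × N × List S)} {hR : R.Finite} {T : Set (N × List S)}
    {hT : T.Finite} {r : N × List S} :
    r ∈ (mkG N hN s R hR T hT).term ↔ r ∈ T := hT.mem_toFinset

end Pool.Agent.DEG
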