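import Pool.Agent.DEG.Reg

/-!
DEG module DIG: digits.

`val B l` is the value of the sequence of digits `l` in base `B + 1`, most significant first;
`dg B m v j` is digit number `j` (from the left) of `v` written with `m` digits, i.e.
`v / (B + 1) ^ (m - 1 - j) % (B + 1)` as an element of `Fin (B + 1)`.

* `val_append`: `foldl` over `l ++ [d]`.
* `val_lt`: induction from the right, `val (l ++ [d]) = val l * (B + 1) + d`.
* `val_inj`: induction from the right: `val l * (B + 1) + d = val l' * (B + 1) + d'` with
  `d, d' ≤ B` gives `d = d'` and `val l = val l'` (`Nat.mul_add_mod`, or division with remainder).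
* `val_dg`: induction on `m` for all `v < (B + 1) ^ m`: for `j < m`, digit `j` of `v` with
  `m + 1` digits is digit `j` of `v / (B + 1)` with `m` digits, and digit `m` is
  `v % (B + 1)`; `List.range_succ`.
* `dg_inj`: by `val_dg`. `dg_of_val`: by `val_inj`, `val_dg`, `val_lt` (entry `j` of the lists).
* `dg_zero`: `0 / _ = 0`. `all_max`: `∀ j < m, dg B m v j = Fin.last B` iff `v + 1 = (B + 1) ^ m`:
  if all digits are `B` then `v` has the same digits as `(B + 1) ^ m - 1`; it may be easiest to
  prove by induction on `m` (as in `val_dg`): `v % (B + 1) = B` and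
  `v / (B + 1) + 1 = (B + 1) ^ m` iff `v + 1 = (B + 1) ^ (m + 1)`.
-/

namespace Pool.Agent.DEG

theorem val_nil (B : ℕ) : val B [] = 0 := rfl

theorem val_append (B : ℕ) (l : List ℕ) (d : ℕ) : val B (l ++ [d]) = val B l * (B + 1) + d := by
  unfold val
  rw [List.foldl_append]
  rfl

theorem val_lt {B : ℕ} {l : List ℕ} (h : ∀ d ∈ l, d ≤ B) : val B l < (B + 1) ^ l.length := by
  induction l using List.reverseRecOn with
  | nil => simp [val]
  | append_singleton l d ih =>
    have h1 := ih (fun x hx => h x (by simp [hx]))
    have h2 := h d (by simp)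
    rw [val_append, List.length_append, List.length_singleton, pow_succ]
    have h3 := Nat.mul_le_mul_right (B + 1) (Nat.succ_le_of_lt h1)
    have h4 : (val B l).succ * (B + 1) = val B l * (B + 1) + (B + 1) := Nat.succ_mul _ _
    omega

private theorem dig_split {B a b d e : ℕ} (hd : d ≤ B) (he : e ≤ B)
    (h : a * (B + 1) + d = b * (B + 1) + e) : a = b ∧ d = e := by
  have h1 : (a * (B + 1) + d) / (B + 1) = a := by
    rw [mul_comm, Nat.mul_add_div (Nat.succ_pos B), Nat.div_eq_of_lt (by omega), add_zero]
  have h2 : (b * (B + 1) + e) / (B + 1) = b := by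
    rw [mul_comm, Nat.mul_add_div (Nat.succ_pos B), Nat.div_eq_of_lt (by omega), add_zero]
  have h3 : a = b := by rw [← h1, ← h2, h]
  subst h3
  exact ⟨rfl, by omega⟩

theorem val_inj {B : ℕ} {l l' : List ℕ} (hl : l.length = l'.length) (h : ∀ d ∈ l, d ≤ B)
    (h' : ∀ d ∈ l', d ≤ B) (hv : val B l = val B l') : l = l' := by
  induction l using List.reverseRecOn generalizing l' with
  | nil =>
    symm
    rw [List.length_nil] at hl
    exact List.length_eq_zero_iff.1 hl.symm
  | append_singleton l d ih =>
    rcases List.eq_nil_or_concat' l' with h0 | ⟨m, e, h0⟩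
    · rw [h0] at hl
      simp at hl
    · subst h0
      rw [val_append, val_append] at hv
      have h1 := dig_split (h d (by simp)) (h' e (by simp)) hv
      have h2 := ih (l' := m) (by simpa using hl) (fun x hx => h x (by simp [hx]))
        (fun x hx => h' x (by simp [hx])) h1.1
      rw [h2, h1.2]

private theorem dig_succ (B m v : ℕ) {j : ℕ} (hj : j < m) :
    dg B (m + 1) v j = dg B m (v / (B + 1)) j := by
  unfold dg
  have h1 : m + 1 - 1 - j = (m - 1 - j) + 1 := by omega
  rw [h1, pow_succ', Nat.div_div_eq_div_mul]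

private theorem dig_last (B m v : ℕ) : dg B (m + 1) v m = Fin.ofNat (B + 1) v := by
  unfold dg
  have h1 : m + 1 - 1 - m = 0 := by omega
  rw [h1, pow_zero, Nat.div_one]

theorem val_dg {B m v : ℕ} (hv : v < (B + 1) ^ m) :
    val B ((List.range m).map fun j => (dg B m v j : ℕ)) = v := by
  induction m generalizing v with
  | zero =>
    rw [pow_zero] at hv
    have : v = 0 := by omega
    subst this
    rfl
  | succ m ih =>
    have h1 : v / (B + 1) < (B + 1) ^ m := by
      rw [Nat.div_lt_iff_lt_mul (Nat.succ_pos B), ← pow_succ]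
      exact hv
    rw [List.range_succ, List.map_append, List.map_singleton, val_append]
    have h2 : (List.range m).map (fun j => (dg B (m + 1) v j : ℕ)) =
        (List.range m).map (fun j => (dg B m (v / (B + 1)) j : ℕ)) := by
      apply List.map_congr_left
      intro j hj
      rw [dig_succ B m v (List.mem_range.1 hj)]
    rw [h2, ih h1, dig_last, Fin.val_ofNat, mul_comm]
    exact Nat.div_add_mod v (B + 1)

theorem dg_inj {B m v v' : ℕ} (hv : v < (B + 1) ^ m) (hv' : v' < (B + 1) ^ m)
    (h : ∀ j < m, dg B m v j = dg B m v' j) : v = v' := by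
  rw [← val_dg hv, ← val_dg hv']
  congr 1
  apply List.map_congr_left
  intro j hj
  rw [h j (List.mem_range.1 hj)]

theorem dg_of_val {B m v : ℕ} {l : List (Fin (B + 1))} (hl : l.length = m)
    (hv : val B (l.map fun d : Fin (B + 1) => (d : ℕ)) = v) : l = (List.range m).map fun j => dg B m v j := by
  have h1 : ∀ d ∈ l.map (fun d : Fin (B + 1) => (d : ℕ)), d ≤ B := by
    intro d hd
    rw [List.mem_map] at hd
    obtain ⟨x, _, rfl⟩ := hd
    have := x.2
    omega
  have h2 : v < (B + 1) ^ m := by
    rw [← hv, ← hl]
    have := val_lt h1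
    rwa [List.length_map] at this
  have h3 : l.map (fun d : Fin (B + 1) => (d : ℕ)) = (List.range m).map fun j => (dg B m v j : ℕ) := by
    apply val_inj (B := B)
    · simp [hl]
    · exact h1
    · intro d hd
      rw [List.mem_map] at hd
      obtain ⟨x, _, rfl⟩ := hd
      have := (dg B m v x).2
      omega
    · rw [hv, val_dg h2]
  have h4 : ((List.range m).map fun j => (dg B m v j : ℕ)) =
      ((List.range m).map fun j => dg B m v j).map (fun d : Fin (B + 1) => (d : ℕ)) := by
    rw [List.map_map]
    rfl
  rw [h4] at h3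
  exact List.map_injective_iff.2 Fin.val_injective h3

theorem dg_zero (B m j : ℕ) : dg B m 0 j = 0 := by
  unfold dg
  rw [Nat.zero_div]
  rfl

theorem all_max {B m v : ℕ} (hv : v < (B + 1) ^ m) :
    (∀ j < m, dg B m v j = Fin.last B) ↔ v + 1 = (B + 1) ^ m := by
  induction m generalizing v with
  | zero =>
    rw [pow_zero] at hv ⊢
    constructor
    · intro _; omega
    · intro _ j hj; omega
  | succ m ih =>
    have h1 : v / (B + 1) < (B + 1) ^ m := by
      rw [Nat.div_lt_iff_lt_mul (Nat.succ_pos B), ← pow_succ]
      exact hv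
    have hdm := Nat.div_add_mod v (B + 1)
    have hmod : v % (B + 1) < B + 1 := Nat.mod_lt v (Nat.succ_pos B)
    have hsplit : (∀ j < m + 1, dg B (m + 1) v j = Fin.last B) ↔
        (∀ j < m, dg B m (v / (B + 1)) j = Fin.last B) ∧ v % (B + 1) = B := by
      constructor
      · intro h
        refine ⟨fun j hj => ?_, ?_⟩
        · rw [← dig_succ B m v hj]
          exact h j (by omega)
        · have h2 := h m (by omega)
          rw [dig_last] at h2
          have h3 := congrArg (fun x : Fin (B + 1) => (x : ℕ)) h2
          simpa [Fin.val_ofNat] using h3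
      · rintro ⟨h2, h3⟩ j hj
        rcases Nat.lt_succ_iff_lt_or_eq.1 hj with h4 | h4
        · rw [dig_succ B m v h4]
          exact h2 j h4
        · subst h4
          rw [dig_last]
          apply Fin.ext
          rw [Fin.val_ofNat, Fin.val_last]
          exact h3
    rw [hsplit, ih h1, pow_succ]
    constructor
    · rintro ⟨h2, h3⟩
      rw [← h2, Nat.add_mul, one_mul, mul_comm (v / (B + 1))]
      omega
    · intro h2
      have h3 : (B + 1) * (v / (B + 1) + 1) = (B + 1) * (v / (B + 1)) + (B + 1) := by ring
      have h4 : (B + 1) ^ m * (B + 1) = (B + 1) * (B + 1) ^ m := mul_comm _ _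
      have h5 : (B + 1) ∣ v + 1 := ⟨(B + 1) ^ m, by rw [h2, h4]⟩
      have h6 : (B + 1) ∣ v % (B + 1) + 1 := by
        have h7 : v + 1 = (B + 1) * (v / (B + 1)) + (v % (B + 1) + 1) := by omega
        rw [h7] at h5
        exact (Nat.dvd_add_right (Dvd.intro _ rfl)).1 h5
      have h8 := Nat.le_of_dvd (Nat.succ_pos _) h6
      have h9 : v % (B + 1) = B := by
        have : (v % (B + 1)).succ = v % (B + 1) + 1 := rfl
        omega
      refine ⟨?_, h9⟩
      have h10 : (B + 1) * (v / (B + 1) + 1) = (B + 1) * (B + 1) ^ m := by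
        rw [h3, ← h4, ← h2]
        clear h1 h3 h4 h5 h6 h8 ih hsplit hv
        omega
      exact Nat.eq_of_mul_eq_mul_left (Nat.succ_pos B) h10

/-- Every sequence of digits belongs to a number. -/
theorem exists_dg {B : ℕ} (m : ℕ) (f : ℕ → Fin (B + 1)) :
    ∃ v < (B + 1) ^ m, ∀ j < m, dg B m v j = f j := by
  set l : List (Fin (B + 1)) := (List.range m).map f with hl
  have h1 : l.length = m := by simp [hl]
  have h2 := dg_of_val h1 rfl
  refine ⟨val B (l.map fun d : Fin (B + 1) => (d : ℕ)), ?_, ?_⟩
  · have h3 : ∀ d ∈ l.map (fun d : Fin (B + 1) => (d : ℕ)), d ≤ B := by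
      intro d hd
      rw [List.mem_map] at hd
      obtain ⟨x, _, rfl⟩ := hd
      have := x.2
      omega
    have h4 := val_lt h3
    rwa [List.length_map, h1] at h4
  · intro j hj
    have h3 : (List.range m).map f =
        (List.range m).map (fun j => dg B m (val B (l.map fun d : Fin (B + 1) => (d : ℕ))) j) := by
      rw [← h2]
    exact (List.map_inj_left.1 h3 j (List.mem_range.2 hj)).symm

end Pool.Agent.DEG
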