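import Pool.Agent.DEG.Blk

/-!
DEG module ENCB: two consecutive blocks.

* `encB_two`: induction on `B`, generalizing `p`. `B = []`: the right side is not empty.
  `B = (c, i) :: B'`: if `p = []`, then `blk_left` gives `c = a`, `i = j` and
  `encB B' = blk b k ++ q`, and once more (`B' ≠ []`) `B' = (b, k) :: B2`. If `p = p' ++ [inr i']`,
  then `p = blk c i ++ p''` with `p''` empty or ending with a separator: write
  `p = blk c' i'' ++ p''` with the first separator of `p` (lemma: every word which contains a
  separator is `blk c' i'' ++ p''`), use `blk_left`, and the induction hypothesis for `p''`.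
* `enc_eq_encB`: compute. `enc_end`, `encQ_end`: the codes are empty or end with a separator.
* `blks_two`: induction on `L`, generalizing `B1`; for `L = a0 :: L'` the list `B1` has length
  `0, 1, 2` (then the two blocks are in the record `a0`), or `3` (then `L' = b0 :: L''`, the two
  blocks are `(a0.reverse, 3)`, `(b0, 0)`), or at least `4` (induction hypothesis for
  `B1.drop 4`).
-/

namespace Pool.Agent.DEG

variable {D : Type}

private theorem encB_cons (a : List D) (j : Fin 4) (B : List (List D × Fin 4)) :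
    encB ((a, j) :: B) = blk a j ++ encB B := rfl

private theorem encB_append (B B' : List (List D × Fin 4)) : encB (B ++ B') = encB B ++ encB B' := by
  simp [encB]

private theorem encB_first (p : List (D ⊕ Fin 4)) (i : Fin 4) :
    ∃ (c : List D) (l : Fin 4) (p'' : List (D ⊕ Fin 4)), p ++ [Sum.inr i] = blk c l ++ p'' ∧
      (p'' = [] ∨ ∃ r m, p'' = r ++ [Sum.inr m]) := by
  induction p with
  | nil => exact ⟨[], i, [], by simp [blk], Or.inl rfl⟩
  | cons x p ih =>
    rcases x with d | l
    · obtain ⟨c, l, p'', h1, h2⟩ := ih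
      exact ⟨d :: c, l, p'', by rw [List.cons_append, h1]; simp [blk], h2⟩
    · exact ⟨[], l, p ++ [Sum.inr i], by simp [blk], Or.inr ⟨p, i, rfl⟩⟩

theorem encB_two {B : List (List D × Fin 4)} {p q : List (D ⊕ Fin 4)} {a b : List D}
    {j k : Fin 4} (hp : p = [] ∨ ∃ p' i, p = p' ++ [Sum.inr i])
    (h : encB B = p ++ (blk a j ++ blk b k) ++ q) :
    ∃ B1 B2, B = B1 ++ (a, j) :: (b, k) :: B2 := by
  induction B generalizing p with
  | nil =>
    have h1 := congrArg List.length h
    simp [encB, blk] at h1
  | cons x B ih =>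
    obtain ⟨c, i⟩ := x
    rw [encB_cons] at h
    rcases hp with rfl | ⟨p', i', rfl⟩
    · rw [List.nil_append, List.append_assoc] at h
      obtain ⟨rfl, rfl, h1⟩ := blk_left h
      cases B with
      | nil =>
        have h2 := congrArg List.length h1
        simp [encB, blk] at h2
      | cons y B =>
        obtain ⟨d, l⟩ := y
        rw [encB_cons] at h1
        obtain ⟨rfl, rfl, -⟩ := blk_left h1
        exact ⟨[], B, rfl⟩
    · obtain ⟨c', l, p'', h1, h2⟩ := encB_first p' i'
      rw [h1, List.append_assoc, List.append_assoc] at h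
      obtain ⟨rfl, rfl, h3⟩ := blk_left h
      rw [← List.append_assoc] at h3
      obtain ⟨B1, B2, rfl⟩ := ih h2 h3
      exact ⟨(c, i) :: B1, B2, rfl⟩

theorem enc_eq_encB (L : List (List D)) : enc L = encB (blks L) := by
  induction L with
  | nil => rfl
  | cons a L ih =>
    rw [enc_cons, ih]
    simp [blks, encB, rec4]

private theorem encB_end (B : List (List D × Fin 4)) :
    encB B = [] ∨ ∃ p' i, encB B = p' ++ [Sum.inr i] := by
  induction B using List.reverseRecOn with
  | nil => exact Or.inl rfl
  | append_singleton B x _ =>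
    right
    refine ⟨encB B ++ x.1.map Sum.inl, x.2, ?_⟩
    rw [encB_append]
    simp [encB, blk]

theorem enc_end (L : List (List D)) : enc L = [] ∨ ∃ p' i, enc L = p' ++ [Sum.inr i] := by
  rw [enc_eq_encB]
  exact encB_end _

theorem encQ_end (Q : List (List D × List D × List D × List D)) :
    encQ Q = [] ∨ ∃ p' i, encQ Q = p' ++ [Sum.inr i] := by
  induction Q using List.reverseRecOn with
  | nil => exact Or.inl rfl
  | append_singleton Q q _ =>
    right
    refine ⟨encQ Q ++ (blk q.1 0 ++ blk q.2.1 1 ++ blk q.2.2.1 2 ++ q.2.2.2.map Sum.inl), 3, ?_⟩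
    simp [encQ, blk]

theorem blks_two {L : List (List D)} {B1 B2 : List (List D × Fin 4)} {a b : List D}
    {j k : Fin 4} (h : blks L = B1 ++ (a, j) :: (b, k) :: B2) :
    (j ≠ 3 ∧ k = j + 1 ∧ a = b.reverse) ∨
      (j = 3 ∧ k = 0 ∧ ∃ L1 L2, L = L1 ++ a.reverse :: b :: L2) := by
  induction L generalizing B1 with
  | nil =>
    have h1 := congrArg List.length h
    simp [blks] at h1
  | cons a0 L ih =>
    have h0 : blks (a0 :: L) = (a0, (0 : Fin 4)) :: (a0.reverse, 1) :: (a0, 2) ::
        (a0.reverse, 3) :: blks L := rfl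
    rw [h0] at h
    rcases B1 with _ | ⟨x, _ | ⟨y, _ | ⟨z, _ | ⟨w, B1⟩⟩⟩⟩
    · simp only [List.nil_append, List.cons.injEq, Prod.mk.injEq] at h
      obtain ⟨⟨rfl, rfl⟩, ⟨rfl, rfl⟩, -⟩ := h
      left
      exact ⟨by decide, by decide, by rw [List.reverse_reverse]⟩
    · simp only [List.cons_append, List.nil_append, List.cons.injEq, Prod.mk.injEq] at h
      obtain ⟨-, ⟨rfl, rfl⟩, ⟨rfl, rfl⟩, -⟩ := h
      left
      exact ⟨by decide, by decide, rfl⟩
    · simp only [List.cons_append, List.nil_append, List.cons.injEq, Prod.mk.injEq] at h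
      obtain ⟨-, -, ⟨rfl, rfl⟩, ⟨rfl, rfl⟩, -⟩ := h
      left
      exact ⟨by decide, by decide, by rw [List.reverse_reverse]⟩
    · simp only [List.cons_append, List.nil_append, List.cons.injEq, Prod.mk.injEq] at h
      obtain ⟨-, -, -, ⟨rfl, rfl⟩, h1⟩ := h
      right
      cases L with
      | nil => simp [blks] at h1
      | cons b0 L =>
        have h2 : blks (b0 :: L) = (b0, (0 : Fin 4)) :: (b0.reverse, 1) :: (b0, 2) ::
            (b0.reverse, 3) :: blks L := rfl
        rw [h2] at h1
        simp only [List.cons.injEq, Prod.mk.injEq] at h1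
        obtain ⟨⟨rfl, rfl⟩, -⟩ := h1
        exact ⟨rfl, rfl, [], L, by rw [List.reverse_reverse]; rfl⟩
    · simp only [List.cons_append, List.cons.injEq] at h
      obtain ⟨-, -, -, -, h1⟩ := h
      rcases ih h1 with h2 | ⟨h2, h3, L1, L2, rfl⟩
      · exact Or.inl h2
      · exact Or.inr ⟨h2, h3, a0 :: L1, L2, rfl⟩

end Pool.Agent.DEG
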