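import Pool.Agent.DEG.LinB
import Pool.Agent.DEG.Enc

/-!
DEG module ERR: the words with an error between two consecutive blocks form a linear language.

`ErrSet j k R` is `cact (cmul Cp Cq) X` with `Cp = {(p, []) | p = [] or the last letter of p is a
separator}` (`Rat.left` with `g = id`, `Reg.last`, `Reg.union`, or `Rat.union` of `Rat.single` and
`Rat.left`), `Cq = {([], q)}` (`Rat.right` for the set of all words), and `X` the set of the words
`blk a j ++ blk b k` with `¬ Rl R a b.reverse`. `X` is the union of three linear languages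
(`Lin.union`, `Lin.act`, `Lin.single`):
* `a.length = b.length`, `a.zip b.reverse ∉ R`: context `([], [inr k])`, then the context
  `Rat.sync` for the complement of `R` (pairs `(a.map inl, (b.reverse.map inl).reverse)`,
  the second word is `b.map inl`), then the word `[inr j]`;
* `a` longer than `b`: `a = a1 ++ a2` with `a1.length = b.length`, `a2 ≠ []`: context
  `([], [inr k])`, `Rat.sync` for the set of all pairs, `Rat.left` for the nonempty words, then
  `[inr j]`;
* `b` longer than `a`: `b = b1 ++ b2` with `b2.length = a.length`, `b1 ≠ []`: context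
  `([], [inr k])`, `Rat.sync`, `Rat.right` for the nonempty words, then `[inr j]`.
Rational sets of contexts are composed with `Rat.mul`; in `cmul C C'` the contexts of `C` are
outside.
-/

namespace Pool.Agent.DEG

variable {D : Type}

private theorem er_univ {A : Type} : Reg (Set.univ : Set (List A)) := by
  have := Reg.constP (A := A) True
  simpa using this

private theorem er_ne : Reg {z : List D | z ≠ []} := by
  have h := Reg.exists (A := D) fun _ => True
  convert h using 1
  ext z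
  cases z <;> simp

private theorem er_lid [Finite D] {K : Set (List (D ⊕ Fin 4))} (h : Reg K) :
    Rat {p : List (D ⊕ Fin 4) × List (D ⊕ Fin 4) | ∃ z ∈ K, p = (z, [])} := by
  have := Rat.left h (id : D ⊕ Fin 4 → D ⊕ Fin 4)
  simpa using this

private theorem er_rid [Finite D] {K : Set (List (D ⊕ Fin 4))} (h : Reg K) :
    Rat {p : List (D ⊕ Fin 4) × List (D ⊕ Fin 4) | ∃ z ∈ K, p = ([], z)} := by
  have := Rat.right h (id : D ⊕ Fin 4 → D ⊕ Fin 4)
  simpa using this

private theorem er_s1 [Finite D] {T : Set (List (D × D))} (hT : Reg T) :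
    Rat {p : List (D ⊕ Fin 4) × List (D ⊕ Fin 4) | ∃ a b : List D, Rl T a b.reverse ∧
      p = (a.map Sum.inl, b.map Sum.inl)} := by
  have := Rat.sync hT (Sum.inl : D → D ⊕ Fin 4)
  convert this using 1
  ext p
  constructor
  · rintro ⟨a, b, h, rfl⟩
    exact ⟨a, b.reverse, h.1, h.2, by simp⟩
  · rintro ⟨a, b, h1, h2, rfl⟩
    exact ⟨a, b.reverse, ⟨by simpa using h1, by simpa using h2⟩, by simp⟩

/-- Equal lengths, wrong pair. -/
private theorem er_a [Finite D] {R : Set (List (D × D))} (hR : Reg R) (j k : Fin 4) :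
    Lin {w : List (D ⊕ Fin 4) | ∃ a b, Rl Rᶜ a b.reverse ∧ w = blk a j ++ blk b k} := by
  have h := Lin.act ((Rat.single [] [Sum.inr k]).mul (er_s1 hR.compl))
    (Lin.single ([Sum.inr j] : List (D ⊕ Fin 4)))
  convert h using 1
  ext w
  constructor
  · rintro ⟨a, b, hr, rfl⟩
    exact ⟨_, _, _, ⟨_, _, _, _, rfl, ⟨a, b, hr, rfl⟩, rfl⟩, rfl, by simp [blk]⟩
  · rintro ⟨_, _, _, ⟨_, _, _, _, e1, ⟨a, b, hr, e2⟩, e3⟩, e4, e5⟩
    simp only [Set.mem_singleton_iff, Prod.mk.injEq] at *
    clear h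
    exact ⟨a, b, hr, by simp [blk, *]⟩

/-- The first block is longer. -/
private theorem er_b [Finite D] (j k : Fin 4) :
    Lin {w : List (D ⊕ Fin 4) | ∃ a b : List D, b.length < a.length ∧
      w = blk a j ++ blk b k} := by
  have h := Lin.act ((Rat.single [] [Sum.inr k]).mul
    ((er_s1 (D := D) er_univ).mul (Rat.left er_ne (Sum.inl : D → D ⊕ Fin 4))))
    (Lin.single ([Sum.inr j] : List (D ⊕ Fin 4)))
  convert h using 1
  ext w
  constructor
  · rintro ⟨a, b, hr, rfl⟩
    have h1 : a.drop b.length ≠ [] := by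
      intro h2
      have := congrArg List.length h2
      simp at this
      omega
    refine ⟨_, _, _, ⟨_, _, _, _, rfl, ⟨_, _, _, _, ⟨a.take b.length, b,
      ⟨by simp; omega, trivial⟩, rfl⟩, ⟨a.drop b.length, h1, rfl⟩, rfl⟩, rfl⟩, rfl, ?_⟩
    rw [List.nil_append, ← List.map_append, List.take_append_drop]
    simp [blk]
  · rintro ⟨_, _, _, ⟨_, _, _, _, e1, ⟨_, _, _, _, ⟨a, b, hr, e2⟩, ⟨c, hc, e3⟩, e4⟩, e5⟩,
      e6, e7⟩
    simp only [Set.mem_singleton_iff, Prod.mk.injEq] at *
    clear h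
    refine ⟨a ++ c, b, ?_, by simp [blk, *]⟩
    have h1 := hr.1
    have h2 := List.length_pos_iff.2 hc
    simp only [List.length_reverse, List.length_append] at *
    omega

/-- The second block is longer. -/
private theorem er_c [Finite D] (j k : Fin 4) :
    Lin {w : List (D ⊕ Fin 4) | ∃ a b : List D, a.length < b.length ∧
      w = blk a j ++ blk b k} := by
  have h := Lin.act ((Rat.single [] [Sum.inr k]).mul
    ((er_s1 (D := D) er_univ).mul (Rat.right er_ne (Sum.inl : D → D ⊕ Fin 4))))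
    (Lin.single ([Sum.inr j] : List (D ⊕ Fin 4)))
  convert h using 1
  ext w
  constructor
  · rintro ⟨a, b, hr, rfl⟩
    have h1 : b.take (b.length - a.length) ≠ [] := by
      intro h2
      have := congrArg List.length h2
      simp at this
      omega
    refine ⟨_, _, _, ⟨_, _, _, _, rfl, ⟨_, _, _, _, ⟨a, b.drop (b.length - a.length),
      ⟨by simp; omega, trivial⟩, rfl⟩, ⟨b.take (b.length - a.length), h1, rfl⟩, rfl⟩, rfl⟩,
      rfl, ?_⟩
    rw [← List.map_append, List.take_append_drop]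
    simp [blk]
  · rintro ⟨_, _, _, ⟨_, _, _, _, e1, ⟨_, _, _, _, ⟨a, b, hr, e2⟩, ⟨c, hc, e3⟩, e4⟩, e5⟩,
      e6, e7⟩
    simp only [Set.mem_singleton_iff, Prod.mk.injEq] at *
    clear h
    refine ⟨a, c ++ b, ?_, by simp [blk, *]⟩
    have h1 := hr.1
    have h2 := List.length_pos_iff.2 hc
    simp only [List.length_reverse, List.length_append] at *
    omega

theorem lin_err [Finite D] {R : Set (List (D × D))} (hR : Reg R) (j k : Fin 4) :
    Lin (ErrSet j k R) := by
  have hp : Reg {z : List (D ⊕ Fin 4) | ¬ (∃ a, z.getLast? = some a ∧ ¬ ∃ i, a = Sum.inr i)} :=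
    (Reg.last fun a => ¬ ∃ i, a = Sum.inr i).compl
  have h := Lin.act ((er_lid hp).mul (er_rid (D := D) er_univ))
    (((er_a hR j k).union (er_b (D := D) j k)).union (er_c j k))
  convert h using 1
  have hpl : ∀ g : List (D ⊕ Fin 4), (g = [] ∨ ∃ g' i, g = g' ++ [Sum.inr i]) ↔
      ¬ (∃ a, g.getLast? = some a ∧ ¬ ∃ i, a = Sum.inr i) := by
    intro g
    rcases List.eq_nil_or_concat g with rfl | ⟨g', b, rfl⟩
    · simp
    · simp
  have hX : ∀ t : List (D ⊕ Fin 4), (∃ a b, ¬ Rl R a b.reverse ∧ t = blk a j ++ blk b k) ↔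
      t ∈ (({w : List (D ⊕ Fin 4) | ∃ a b, Rl Rᶜ a b.reverse ∧ w = blk a j ++ blk b k} ∪
        {w : List (D ⊕ Fin 4) | ∃ a b : List D, b.length < a.length ∧ w = blk a j ++ blk b k}) ∪
        {w : List (D ⊕ Fin 4) | ∃ a b : List D, a.length < b.length ∧
          w = blk a j ++ blk b k}) := by
    intro t
    constructor
    · rintro ⟨a, b, hr, rfl⟩
      rcases lt_trichotomy a.length b.length with hl | hl | hl
      · exact Or.inr ⟨a, b, hl, rfl⟩
      · refine Or.inl (Or.inl ⟨a, b, ⟨by simpa using hl, fun h3 => hr ⟨by simpa using hl, h3⟩⟩,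
          rfl⟩)
      · exact Or.inl (Or.inr ⟨a, b, hl, rfl⟩)
    · rintro ((⟨a, b, hr, rfl⟩ | ⟨a, b, hr, rfl⟩) | ⟨a, b, hr, rfl⟩)
      · exact ⟨a, b, fun h3 => hr.2 h3.2, rfl⟩
      · refine ⟨a, b, fun h3 => ?_, rfl⟩
        have := h3.1
        simp at this
        omega
      · refine ⟨a, b, fun h3 => ?_, rfl⟩
        have := h3.1
        simp at this
        omega
  ext w
  constructor
  · rintro ⟨p, a, b, q, hp', hr, rfl⟩
    exact ⟨_, _, _, ⟨_, _, _, _, ⟨p, (hpl p).1 hp', rfl⟩, ⟨q, trivial, rfl⟩, rfl⟩,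
      (hX _).1 ⟨a, b, hr, rfl⟩, by simp⟩
  · rintro ⟨_, _, t, ⟨_, _, _, _, ⟨p, hp', e1⟩, ⟨q, -, e2⟩, e3⟩, ht, e4⟩
    obtain ⟨a, b, hr, e5⟩ := (hX t).2 ht
    have hp2 := (hpl p).2 hp'
    simp only [Set.mem_singleton_iff, Prod.mk.injEq] at *
    clear h hX hpl hp ht
    exact ⟨p, a, b, q, hp2, hr, by simp [*]⟩

end Pool.Agent.DEG
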