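import Pool.Agent.DEG.Enc

/-!
DEG module FMTA: the words `encQ Q` form a regular language.

Automaton with states `Option (Fin 4 × Bool)`: `none` is dead; `some (j, t)` means that the next
separator must be `j`, and `t = true` if the last letter read was a separator (or nothing was
read). Start `some (0, true)`; the letter `inl d` leads from `some (j, t)` to `some (j, false)`;
the letter `inr i` leads from `some (j, t)` to `some (j + 1, true)` if `i = j` and to `none`
otherwise. Accepting: `some (0, true)`.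

Invariant (induction on the word from the right, `List.reverseRecOn`, `List.foldl_append`): the
state after `w` is `some (j, t)` iff for some `Q`, `a`, `b`, `c`, `d` we have
`w = encQ Q ++ a.map inl` (`j = 0`), `w = encQ Q ++ blk a 0 ++ b.map inl` (`j = 1`),
`w = encQ Q ++ blk a 0 ++ blk b 1 ++ c.map inl` (`j = 2`),
`w = encQ Q ++ blk a 0 ++ blk b 1 ++ blk c 2 ++ d.map inl` (`j = 3`), where the last word is empty
iff `t = true`. (It is enough to prove: every word with state `some (j, t)` has such a form, and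
all these words have these states; the second part by computing `foldl` over `a.map inl`
(`some (j, t) → some (j, false)` if `a ≠ []`), over `blk a j` (`some (j, true) →
some (j + 1, true)`), over `encQ Q` (`some (0, true) → some (0, true)`, induction on `Q`).)
-/

namespace Pool.Agent.DEG

variable {D : Type}

private def fmtaStep : Option (Fin 4 × Bool) → D ⊕ Fin 4 → Option (Fin 4 × Bool)
  | none, _ => none
  | some (j, _), Sum.inl _ => some (j, false)
  | some (j, _), Sum.inr i => if i = j then some (j + 1, true) else none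

private theorem fmta_map (a : List D) (j : Fin 4) (t : Bool) :
    ∃ t', (a.map Sum.inl : List (D ⊕ Fin 4)).foldl fmtaStep (some (j, t)) = some (j, t') := by
  induction a generalizing t with
  | nil => exact ⟨t, rfl⟩
  | cons d a ih =>
    obtain ⟨t', h⟩ := ih false
    exact ⟨t', h⟩

private theorem fmta_blk (a : List D) (j : Fin 4) (t : Bool) :
    (blk a j).foldl fmtaStep (some (j, t)) = some (j + 1, true) := by
  obtain ⟨t', h⟩ := fmta_map a j t
  rw [blk, List.foldl_append, h]
  simp [fmtaStep]

private theorem fmta_encQ (Q : List (List D × List D × List D × List D)) :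
    (encQ Q).foldl fmtaStep (some (0, true)) = some (0, true) := by
  induction Q with
  | nil => rfl
  | cons q Q ih =>
    have h : encQ (q :: Q) = blk q.1 0 ++ blk q.2.1 1 ++ blk q.2.2.1 2 ++ blk q.2.2.2 3 ++
        encQ Q := rfl
    rw [h, List.foldl_append, List.foldl_append, List.foldl_append, List.foldl_append, fmta_blk]
    have e1 : (0 : Fin 4) + 1 = 1 := by decide
    have e2 : (1 : Fin 4) + 1 = 2 := by decide
    have e3 : (2 : Fin 4) + 1 = 3 := by decide
    have e4 : (3 : Fin 4) + 1 = 0 := by decide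
    rw [e1, fmta_blk, e2, fmta_blk, e3, fmta_blk, e4, ih]

private def fmtaPre (j : Fin 4) (P : List (D ⊕ Fin 4)) : Prop :=
  ∃ (Q : List (List D × List D × List D × List D)) (a b c : List D),
    (j = 0 ∧ P = encQ Q) ∨ (j = 1 ∧ P = encQ Q ++ blk a 0) ∨
    (j = 2 ∧ P = encQ Q ++ blk a 0 ++ blk b 1) ∨
    (j = 3 ∧ P = encQ Q ++ blk a 0 ++ blk b 1 ++ blk c 2)

private theorem fmtaPre_succ {j : Fin 4} {P : List (D ⊕ Fin 4)} (h : fmtaPre j P) (x : List D) :
    fmtaPre (j + 1) (P ++ blk x j) := by
  obtain ⟨Q, a, b, c, ⟨rfl, rfl⟩ | ⟨rfl, rfl⟩ | ⟨rfl, rfl⟩ | ⟨rfl, rfl⟩⟩ := h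
  · exact ⟨Q, x, b, c, Or.inr (Or.inl ⟨by decide, rfl⟩)⟩
  · exact ⟨Q, a, x, c, Or.inr (Or.inr (Or.inl ⟨by decide, rfl⟩))⟩
  · exact ⟨Q, a, b, x, Or.inr (Or.inr (Or.inr ⟨by decide, rfl⟩))⟩
  · refine ⟨Q ++ [(a, b, c, x)], a, b, c, Or.inl ⟨by decide, ?_⟩⟩
    simp [encQ]

private theorem fmta_inv (w : List (D ⊕ Fin 4)) : ∀ (j : Fin 4) (t : Bool),
    w.foldl fmtaStep (some (0, true)) = some (j, t) →
    ∃ (P : List (D ⊕ Fin 4)) (x : List D), w = P ++ x.map Sum.inl ∧ fmtaPre j P ∧
      (t = true → x = []) := by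
  induction w using List.reverseRecOn with
  | nil =>
    intro j t h
    simp only [List.foldl_nil, Option.some.injEq, Prod.mk.injEq] at h
    obtain ⟨rfl, rfl⟩ := h
    exact ⟨[], [], rfl, ⟨[], [], [], [], Or.inl ⟨rfl, rfl⟩⟩, fun _ => rfl⟩
  | append_singleton w c ih =>
    intro j t h
    rw [List.foldl_append, List.foldl_cons, List.foldl_nil] at h
    rcases hw : w.foldl fmtaStep (some (0, true)) with _ | ⟨j', t'⟩
    · rw [hw] at h
      simp [fmtaStep] at h
    · rw [hw] at h
      obtain ⟨P, x, rfl, h1, h2⟩ := ih j' t' hw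
      rcases c with d | i
      · simp only [fmtaStep, Option.some.injEq, Prod.mk.injEq] at h
        obtain ⟨rfl, rfl⟩ := h
        exact ⟨P, x ++ [d], by simp, h1, fun h => by simp at h⟩
      · by_cases hi : i = j'
        · subst hi
          simp only [fmtaStep, if_true, Option.some.injEq, Prod.mk.injEq] at h
          obtain ⟨rfl, rfl⟩ := h
          exact ⟨P ++ blk x i, [], by simp [blk], fmtaPre_succ h1 x, fun _ => rfl⟩
        · simp [fmtaStep, hi] at h

theorem reg_encQ : Reg {w : List (D ⊕ Fin 4) | ∃ Q : List (List D × List D × List D × List D),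
    w = encQ Q} := by
  refine ⟨Option (Fin 4 × Bool), inferInstance, some (0, true), fmtaStep, {some (0, true)},
    fun w => ?_⟩
  constructor
  · rintro ⟨Q, rfl⟩
    exact fmta_encQ Q
  · intro h
    obtain ⟨P, x, rfl, ⟨Q, a, b, c, hP⟩, h2⟩ := fmta_inv w 0 true h
    rw [h2 rfl]
    rcases hP with ⟨-, rfl⟩ | ⟨h3, -⟩ | ⟨h3, -⟩ | ⟨h3, -⟩
    · exact ⟨Q, by simp⟩
    · exact absurd h3 (by decide)
    · exact absurd h3 (by decide)
    · exact absurd h3 (by decide)

end Pool.Agent.DEG
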