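import Pool.Agent.DEG.Reg

/-!
DEG module REGA: closure properties of regular languages.

`Reg L` means: accepted by some DFA `(σ, s0, δ, F)` with finite `σ`.
* `compl`: same automaton, `Fᶜ`. `inter`, `union`: product automaton `σ × σ'`,
  `foldl` of the product step is the pair of the `foldl`s (induction over the word).
* `filterMap`: automaton of `L` with `δ' s a = match f a with | none => s | some b => δ s b`
  (`List.foldl` over `filterMap`, induction over the word, generalizing the state).
* `map`, `filter`: special cases of `filterMap` (`List.filterMap_eq_map`, `List.filterMap_eq_filter`)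
  or directly.
* `forall`: two states. `exists`: complement. `constP`: one state.
* `exFin`: for finite `ι` take the product automaton `∀ i, σ i` (the family of automata is chosen;
  `Pi.finite`), accepting set `{s | ∃ i, s i ∈ F i}`.
* `reverse`: `Reg L` is equivalent to Mathlib's `Language.IsRegular L`
  (`Language.IsRegular` has `Fintype σ` instead of `Finite σ`, `DFA.accepts` is by `List.foldl`);
  use `Language.IsRegular.reverse` (file `Mathlib/Computability/NFA.lean`) and
  `Language.mem_reverse`.
* `cons`: states `σ ⊕ Bool`: `inr false` initial, `inr true` dead; from `inr false` the letter `c`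
  leads to `inl s0`, other letters to `inr true`.
* `head`: states `Option Bool`. `last`: by `reverse` and `head` (`List.getLast?_eq_head?_reverse`)
  or with states `Option Bool` directly.
-/

namespace Pool.Agent.DEG

variable {A B : Type} {L L' : Set (List A)}

theorem Reg.compl (h : Reg L) : Reg Lᶜ := by
  obtain ⟨σ, hσ, s0, δ, F, hF⟩ := h
  exact ⟨σ, hσ, s0, δ, Fᶜ, fun w => by rw [Set.mem_compl_iff, Set.mem_compl_iff, hF]⟩

private lemma rega_foldl_prod {σ τ : Type} (δ : σ → A → σ) (ε : τ → A → τ) (w : List A) :
    ∀ s : σ × τ, w.foldl (fun s a => (δ s.1 a, ε s.2 a)) s = (w.foldl δ s.1, w.foldl ε s.2) := by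
  induction w with
  | nil => intro s; rfl
  | cons a w ih => intro s; rw [List.foldl_cons, ih]; rfl

theorem Reg.inter (h : Reg L) (h' : Reg L') : Reg (L ∩ L') := by
  obtain ⟨σ, hσ, s0, δ, F, hF⟩ := h
  obtain ⟨τ, hτ, t0, ε, G, hG⟩ := h'
  refine ⟨σ × τ, inferInstance, (s0, t0), fun s a => (δ s.1 a, ε s.2 a),
    {s | s.1 ∈ F ∧ s.2 ∈ G}, fun w => ?_⟩
  rw [rega_foldl_prod, Set.mem_inter_iff, hF, hG]
  rfl

theorem Reg.union (h : Reg L) (h' : Reg L') : Reg (L ∪ L') := by
  have := (h.compl.inter h'.compl).compl
  rwa [← Set.compl_union, compl_compl] at this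

theorem Reg.constP (p : Prop) : Reg {z : List A | p} := by
  exact ⟨Unit, inferInstance, (), fun _ _ => (), {_s | p}, fun w => Iff.rfl⟩

private lemma rega_foldl_filterMap {σ : Type} (f : A → Option B) (δ : σ → B → σ) (w : List A) :
    ∀ s : σ, w.foldl (fun s a => match f a with
      | none => s
      | some b => δ s b) s = (w.filterMap f).foldl δ s := by
  induction w with
  | nil => intro s; rfl
  | cons a w ih =>
    intro s
    rw [List.foldl_cons, ih, List.filterMap_cons]
    cases h : f a with
    | none => simp
    | some b => simp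

theorem Reg.filterMap {f : A → Option B} {K : Set (List B)} (h : Reg K) :
    Reg {z : List A | z.filterMap f ∈ K} := by
  obtain ⟨σ, hσ, s0, δ, F, hF⟩ := h
  refine ⟨σ, hσ, s0, fun s a => match f a with
      | none => s
      | some b => δ s b, F, fun w => ?_⟩
  rw [rega_foldl_filterMap, Set.mem_setOf_eq, hF]

theorem Reg.map {f : A → B} {K : Set (List B)} (h : Reg K) : Reg {z : List A | z.map f ∈ K} := by
  have := Reg.filterMap (f := fun a : A => some (f a)) h
  simpa [List.filterMap_eq_map] using this

theorem Reg.filter {p : A → Bool} (h : Reg L) : Reg {z : List A | z.filter p ∈ L} := by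
  have := Reg.filterMap (f := Option.guard p) h
  simpa [List.filterMap_eq_filter] using this

theorem Reg.forall (P : A → Prop) : Reg {z : List A | ∀ a ∈ z, P a} := by
  classical
  refine ⟨Prop, inferInstance, True, fun s a => s ∧ P a, {s | s}, fun w => ?_⟩
  have key : ∀ (w : List A) (s : Prop), w.foldl (fun s a => s ∧ P a) s ↔ s ∧ ∀ a ∈ w, P a := by
    intro w
    induction w with
    | nil => intro s; simp
    | cons a w ih => intro s; rw [List.foldl_cons, ih]; simp [and_assoc]
  rw [Set.mem_setOf_eq, Set.mem_setOf_eq, key]
  simp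

theorem Reg.exists (P : A → Prop) : Reg {z : List A | ∃ a ∈ z, P a} := by
  have h := (Reg.forall (fun a : A => ¬ P a)).compl
  have e : {z : List A | ∀ a ∈ z, ¬ P a}ᶜ = {z : List A | ∃ a ∈ z, P a} := by
    ext z
    simp
  rwa [e] at h

theorem Reg.exFin {ι : Type} [Finite ι] {K : ι → Set (List A)} (h : ∀ i, Reg (K i)) :
    Reg {z | ∃ i, z ∈ K i} := by
  choose σ hσ s0 δ F hF using h
  refine ⟨∀ i, σ i, inferInstance, s0, fun s a i => δ i (s i) a, {s | ∃ i, s i ∈ F i},
    fun w => ?_⟩
  have key : ∀ (w : List A) (s : ∀ i, σ i), w.foldl (fun s a i => δ i (s i) a) s =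
      fun i => w.foldl (δ i) (s i) := by
    intro w
    induction w with
    | nil => intro s; rfl
    | cons a w ih => intro s; rw [List.foldl_cons, ih]; rfl
  rw [key, Set.mem_setOf_eq, Set.mem_setOf_eq]
  exact exists_congr fun i => hF i w

theorem Reg.reverse (h : Reg L) : Reg {z | z.reverse ∈ L} := by
  obtain ⟨σ, hσ, s0, δ, F, hF⟩ := h
  refine ⟨Set σ, inferInstance, F, fun S a => {s | δ s a ∈ S}, {S | s0 ∈ S}, fun w => ?_⟩
  have key : ∀ (w : List A) (S : Set σ), w.foldl (fun S a => {s | δ s a ∈ S}) S =
      {s | w.reverse.foldl δ s ∈ S} := by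
    intro w
    induction w with
    | nil => intro s; rfl
    | cons a w ih =>
      intro s
      rw [List.foldl_cons, ih]
      ext t
      rw [List.reverse_cons, Set.mem_setOf_eq, Set.mem_setOf_eq, Set.mem_setOf_eq,
        List.foldl_append]
      rfl
  rw [key, Set.mem_setOf_eq, hF]
  rfl

theorem Reg.cons (c : A) (h : Reg L) : Reg {w | ∃ w' ∈ L, w = c :: w'} := by
  classical
  obtain ⟨σ, hσ, s0, δ, F, hF⟩ := h
  let ε : σ ⊕ Bool → A → σ ⊕ Bool := fun s a => match s with
    | Sum.inl s => Sum.inl (δ s a)
    | Sum.inr true => Sum.inr true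
    | Sum.inr false => if a = c then Sum.inl s0 else Sum.inr true
  have k1 : ∀ (w : List A) (s : σ), w.foldl ε (Sum.inl s) = Sum.inl (w.foldl δ s) := by
    intro w
    induction w with
    | nil => intro s; rfl
    | cons a w ih => intro s; exact ih _
  have k2 : ∀ (w : List A), w.foldl ε (Sum.inr true) = Sum.inr true := by
    intro w
    induction w with
    | nil => rfl
    | cons a w ih => exact ih
  refine ⟨σ ⊕ Bool, inferInstance, Sum.inr false, ε, Sum.inl '' F, fun w => ?_⟩
  cases w with
  | nil => simp
  | cons a w =>
    rw [List.foldl_cons, Set.mem_setOf_eq]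
    by_cases ha : a = c
    · subst ha
      have : ε (Sum.inr false) a = Sum.inl s0 := by simp [ε]
      rw [this, k1]
      simp [hF]
    · have : ε (Sum.inr false) a = Sum.inr true := by simp [ε, ha]
      rw [this, k2]
      simp [ha]

theorem Reg.head (P : A → Prop) : Reg {z : List A | ∃ a, z.head? = some a ∧ P a} := by
  classical
  let ε : Option Bool → A → Option Bool := fun s a => match s with
    | none => some (decide (P a))
    | some b => some b
  have k : ∀ (w : List A) (b : Bool), w.foldl ε (some b) = some b := by
    intro w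
    induction w with
    | nil => intro b; rfl
    | cons a w ih => intro b; exact ih b
  refine ⟨Option Bool, inferInstance, none, ε, {some true}, fun w => ?_⟩
  cases w with
  | nil => simp
  | cons a w =>
    rw [List.foldl_cons]
    have : ε none a = some (decide (P a)) := rfl
    rw [this, k]
    simp

theorem Reg.last (P : A → Prop) : Reg {z : List A | ∃ a, z.getLast? = some a ∧ P a} := by
  have h := (Reg.head P).reverse
  simpa [List.head?_reverse] using h

end Pool.Agent.DEG
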