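import Pool.Agent.DEG.FmtA
import Pool.Agent.DEG.Blk
import Pool.Agent.DEG.RegA

/-!
DEG module FMTB: the set `FmtSet I F` is regular.

* `reg_first`: DFA of `I` extended: states `σ ⊕ Bool`, start `inl s0`, `inl d` leads from `inl s`
  to `inl (δ s d)`, the letter `inr j` leads from `inl s` to `inr (decide (s ∈ F))` if `j` is the
  given separator and to `inr false` otherwise; `inr` states are fixed. Accepting: `inr true`.
* `FmtSet I F` is the intersection of `reg_encQ`, of the set of words beginning with `blk a 0`,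
  `a ∈ I` (`reg_first`), and of the set of words ending with `inr 2 :: a.map inl ++ [inr 3]`,
  `a.reverse ∈ F`, which is the reverse (`Reg.reverse`) of
  `{inr 3 :: w' | w' = blk a.reverse 2 ++ q, a.reverse ∈ F}` (`Reg.cons`, `reg_first`; note that
  `(inr 2 :: a.map inl ++ [inr 3]).reverse = inr 3 :: blk a.reverse 2`).
  If `w = encQ Q` and `w` begins with `blk a 0`, then `Q = q :: Q'` (`encQ [] = []`) and `q.1 = a`
  by `blk_left`; in the same way for the last quadruple with `blk_right`.
-/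

namespace Pool.Agent.DEG

variable {D : Type}

private def fbStep {σ : Type} (δ : σ → D → σ) (F : Set σ) [DecidablePred (· ∈ F)] (j : Fin 4) :
    σ ⊕ Bool → D ⊕ Fin 4 → σ ⊕ Bool
  | Sum.inl s, Sum.inl d => Sum.inl (δ s d)
  | Sum.inl s, Sum.inr i => Sum.inr (decide (i = j ∧ s ∈ F))
  | Sum.inr b, _ => Sum.inr b

private lemma fb_inr {σ : Type} (δ : σ → D → σ) (F : Set σ) [DecidablePred (· ∈ F)] (j : Fin 4)
    (b : Bool) (w : List (D ⊕ Fin 4)) : w.foldl (fbStep δ F j) (Sum.inr b) = Sum.inr b := by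
  induction w with
  | nil => rfl
  | cons a w ih => exact ih

private lemma fb_key {σ : Type} (δ : σ → D → σ) (F : Set σ) [DecidablePred (· ∈ F)] (j : Fin 4)
    (w : List (D ⊕ Fin 4)) : ∀ s : σ, w.foldl (fbStep δ F j) (Sum.inl s) = Sum.inr true ↔
      ∃ a q, a.foldl δ s ∈ F ∧ w = blk a j ++ q := by
  induction w with
  | nil =>
    intro s
    constructor
    · intro h; cases h
    · rintro ⟨a, q, _, h⟩
      simp [blk] at h
  | cons x w ih =>
    intro s
    rw [List.foldl_cons]
    cases x with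
    | inl d =>
      change w.foldl (fbStep δ F j) (Sum.inl (δ s d)) = Sum.inr true ↔ _
      rw [ih]
      constructor
      · rintro ⟨a, q, h1, h2⟩
        exact ⟨d :: a, q, h1, by rw [h2]; simp [blk]⟩
      · rintro ⟨a, q, h1, h2⟩
        cases a with
        | nil => simp [blk] at h2
        | cons e a =>
          simp only [blk, List.map_cons, List.cons_append, List.cons.injEq, Sum.inl.injEq] at h2
          obtain ⟨rfl, h3⟩ := h2
          exact ⟨a, q, h1, by rw [h3]; simp [blk]⟩
    | inr i =>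
      change w.foldl (fbStep δ F j) (Sum.inr (decide (i = j ∧ s ∈ F))) = Sum.inr true ↔ _
      rw [fb_inr]
      constructor
      · intro h
        simp only [Sum.inr.injEq, decide_eq_true_eq] at h
        exact ⟨[], w, h.2, by simp [blk, h.1]⟩
      · rintro ⟨a, q, h1, h2⟩
        cases a with
        | nil =>
          simp only [blk, List.map_nil, List.nil_append, List.cons_append, List.cons.injEq,
            Sum.inr.injEq] at h2
          simp only [Sum.inr.injEq, decide_eq_true_eq]
          exact ⟨h2.1, h1⟩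
        | cons e a => simp [blk] at h2

theorem reg_first {I : Set (List D)} (h : Reg I) (j : Fin 4) :
    Reg {w : List (D ⊕ Fin 4) | ∃ a ∈ I, ∃ q, w = blk a j ++ q} := by
  classical
  obtain ⟨σ, hσ, s0, δ, F, hF⟩ := h
  refine ⟨σ ⊕ Bool, inferInstance, Sum.inl s0, fbStep δ F j, {Sum.inr true}, fun w => ?_⟩
  rw [Set.mem_singleton_iff, fb_key, Set.mem_setOf_eq]
  constructor
  · rintro ⟨a, ha, q, hw⟩
    exact ⟨a, q, (hF a).1 ha, hw⟩
  · rintro ⟨a, q, ha, hw⟩
    exact ⟨a, (hF a).2 ha, q, hw⟩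

private lemma encQ_cons (q : List D × List D × List D × List D)
    (Q : List (List D × List D × List D × List D)) :
    encQ (q :: Q) = blk q.1 0 ++ (blk q.2.1 1 ++ blk q.2.2.1 2 ++ blk q.2.2.2 3 ++ encQ Q) := by
  simp [encQ, List.append_assoc]

private lemma encQ_concat (q : List D × List D × List D × List D)
    (Q : List (List D × List D × List D × List D)) :
    (encQ (Q ++ [q])).reverse = Sum.inr 3 :: (blk q.2.2.2.reverse 2 ++
      ((encQ Q ++ blk q.1 0 ++ blk q.2.1 1 ++ q.2.2.1.map Sum.inl).reverse)) := by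
  simp [encQ, blk, List.append_assoc]

theorem reg_fmt {I F : Set (List D)} (hI : Reg I) (hF : Reg F) : Reg (FmtSet I F) := by
  have h1 := reg_encQ (D := D)
  have h2 := reg_first hI 0
  have h3 := ((reg_first hF 2).cons (Sum.inr 3)).reverse
  have e : FmtSet I F = {w : List (D ⊕ Fin 4) | ∃ Q : List (List D × List D × List D × List D),
      w = encQ Q} ∩ ({w : List (D ⊕ Fin 4) | ∃ a ∈ I, ∃ q, w = blk a 0 ++ q} ∩
      {z | z.reverse ∈ {w : List (D ⊕ Fin 4) | ∃ w' ∈ {w : List (D ⊕ Fin 4) |
        ∃ a ∈ F, ∃ q, w = blk a 2 ++ q}, w = Sum.inr 3 :: w'}}) := by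
    ext w
    constructor
    · rintro ⟨Q, ⟨q, hq, hqI⟩, ⟨q', hq', hqF⟩, rfl⟩
      refine ⟨⟨Q, rfl⟩, ?_, ?_⟩
      · obtain ⟨Q', rfl⟩ : ∃ Q', Q = q :: Q' := by
          cases Q with
          | nil => simp at hq
          | cons a Q => simp at hq; exact ⟨Q, by rw [hq]⟩
        exact ⟨q.1, hqI, _, encQ_cons q Q'⟩
      · obtain ⟨Q', rfl⟩ : ∃ Q', Q = Q' ++ [q'] := by
          obtain ⟨Q', hQ'⟩ := List.getLast?_eq_some_iff.1 hq'
          exact ⟨Q', hQ'⟩
        refine ⟨_, ⟨q'.2.2.2.reverse, hqF, _, rfl⟩, encQ_concat q' Q'⟩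
    · rintro ⟨⟨Q, rfl⟩, ⟨a, ha, u, hu⟩, ⟨w', ⟨b, hb, v, rfl⟩, hv⟩⟩
      refine ⟨Q, ?_, ?_, rfl⟩
      · cases Q with
        | nil => simp [encQ, blk] at hu
        | cons q Q =>
          rw [encQ_cons] at hu
          refine ⟨q, rfl, ?_⟩
          rw [(blk_left hu).1]
          exact ha
      · rcases List.eq_nil_or_concat Q with hQ | ⟨Q', q, hQ⟩
        · rw [hQ] at hu
          simp [encQ, blk] at hu
        · rw [List.concat_eq_append] at hQ
          subst hQ
          refine ⟨q, by simp, ?_⟩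
          rw [encQ_concat] at hv
          rw [(blk_left (List.cons.inj hv).2).1]
          exact hb
  rw [e]
  exact h1.inter (h2.inter h3)

end Pool.Agent.DEG
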