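import Pool.Agent.DEG.Err
import Pool.Agent.DEG.FmtB
import Pool.Agent.DEG.EncB

/-!
DEG module INV: the words which are not codes of valid sequences form a linear language.

The set is the union of the complement of `FmtSet I F` (`reg_fmt`, `Reg.compl`, `Lin.ofReg`) and
of the four sets `ErrSet 0 1 E`, `ErrSet 1 2 E`, `ErrSet 2 3 E`, `ErrSet 3 0 R'` (`lin_err`),
where `E = {z | ∀ c ∈ z, c.1 = c.2}` (`Reg.forall`) and `R' = {z | z.reverse ∈ R}`
(`Reg.reverse`).

* If `w` is in none of these five sets, then `w = encQ Q` with `Q = q_1, ..., q_r`, `r ≥ 1`,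
  `q_i = (a_i, b_i, c_i, d_i)`, `a_1 ∈ I`, `d_r.reverse ∈ F`. As `w` is not in `ErrSet 0 1 E`:
  `Rl E a_i b_i.reverse`, which means `b_i = a_i.reverse` (`rl_eq`). In the same way
  `c_i = b_i.reverse = a_i`, `d_i = a_i.reverse`. As `w` is not in `ErrSet 3 0 R'`:
  `Rl R' d_i a_{i+1}.reverse`, which means `Rl R a_i a_{i+1}` (`rl_rev`:
  `(a.reverse.zip b.reverse) = (a.zip b).reverse` for words of the same length). So
  `w = enc [a_1, ..., a_r]` and `[a_1, ..., a_r]` is a valid sequence. (The words `p` in `ErrSet`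
  are `encQ` of an initial part of `Q` followed by some blocks of the next quadruple; they are
  empty or end with a separator. For `ErrSet 3 0`: blocks `d_i` and `a_{i+1}`.)
* If `w = enc L` with `L` valid, then `w` is in `FmtSet I F` (quadruples
  `(a, a.reverse, a, a.reverse)`), and `w` is not in the error sets: if
  `enc L = p ++ (blk a j ++ blk b k) ++ q` with `p` empty or ending with a separator, then
  (module ENCB: `enc_eq_encB`, `encB_two`, `blks_two`) `a = b.reverse` if `j ≠ 3`, and if `j = 3`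
  then `a.reverse`, `b` are consecutive records of `L`, so `Rl R a.reverse b`.
-/

namespace Pool.Agent.DEG

variable {D : Type}

private theorem iv_eq {a b : List D} :
    Rl {z : List (D × D) | ∀ c ∈ z, c.1 = c.2} a b ↔ a = b := by
  constructor
  · rintro ⟨h1, h2⟩
    simp only [Set.mem_ofPred_eq] at h2
    apply List.ext_getElem h1
    intro i h3 h4
    have h5 : (a[i], b[i]) ∈ a.zip b := by
      rw [List.mem_iff_getElem]
      exact ⟨i, by rw [List.length_zip]; omega, by simp⟩
    exact h2 _ h5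
  · rintro rfl
    refine ⟨rfl, fun c hc => ?_⟩
    rw [List.mem_iff_getElem] at hc
    obtain ⟨i, hi, rfl⟩ := hc
    simp

private theorem iv_rev {R : Set (List (D × D))} {a b : List D} :
    Rl {z : List (D × D) | z.reverse ∈ R} a b ↔ Rl R a.reverse b.reverse := by
  unfold Rl
  simp only [Set.mem_ofPred_eq, List.length_reverse]
  refine and_congr_right fun h => ?_
  have : (a.zip b).reverse = a.reverse.zip b.reverse := by
    unfold List.zip
    exact List.reverse_zipWith h
  rw [this]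

private theorem iv_app (Q1 Q2 : List (List D × List D × List D × List D)) :
    encQ (Q1 ++ Q2) = encQ Q1 ++ encQ Q2 := by
  simp [encQ]

private theorem iv_cons (q : List D × List D × List D × List D)
    (Q : List (List D × List D × List D × List D)) :
    encQ (q :: Q) = blk q.1 0 ++ blk q.2.1 1 ++ blk q.2.2.1 2 ++ blk q.2.2.2 3 ++ encQ Q := rfl

private theorem iv_blk_end (p : List (D ⊕ Fin 4)) (a : List D) (j : Fin 4) :
    (p ++ blk a j = [] ∨ ∃ p' i, p ++ blk a j = p' ++ [Sum.inr i]) :=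
  Or.inr ⟨p ++ a.map Sum.inl, j, by simp [blk]⟩

private theorem iv_valid {I F : Set (List D)} {R : Set (List (D × D))} {w : List (D ⊕ Fin 4)} :
    (∃ L, VSeq I F R L ∧ w = enc L) ↔ w ∈ FmtSet I F ∧
      w ∉ ErrSet 0 1 {z : List (D × D) | ∀ c ∈ z, c.1 = c.2} ∧
      w ∉ ErrSet 1 2 {z : List (D × D) | ∀ c ∈ z, c.1 = c.2} ∧
      w ∉ ErrSet 2 3 {z : List (D × D) | ∀ c ∈ z, c.1 = c.2} ∧
      w ∉ ErrSet 3 0 {z : List (D × D) | z.reverse ∈ R} := by
  constructor
  · rintro ⟨L, ⟨⟨a1, ha1, h1⟩, hch, ⟨a2, ha2, h2⟩⟩, rfl⟩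
    have hE : ∀ j k : Fin 4, j ≠ 3 →
        enc L ∉ ErrSet j k {z : List (D × D) | ∀ c ∈ z, c.1 = c.2} := by
      rintro j k hj ⟨p, a, b, q, hp, hr, h⟩
      rw [enc_eq_encB] at h
      obtain ⟨B1, B2, hB⟩ := encB_two hp h
      rcases blks_two hB with ⟨-, -, h3⟩ | ⟨h3, -⟩
      · exact hr (iv_eq.2 h3)
      · exact hj h3
    refine ⟨?_, hE 0 1 (by decide), hE 1 2 (by decide), hE 2 3 (by decide), ?_⟩
    · refine ⟨L.map fun a => (a, a.reverse, a, a.reverse), ⟨(a1, a1.reverse, a1, a1.reverse), ?_,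
        ha1⟩, ⟨(a2, a2.reverse, a2, a2.reverse), ?_, ?_⟩, ?_⟩
      · rw [List.head?_map, h1]; rfl
      · rw [List.getLast?_map, h2]; rfl
      · simpa using ha2
      · unfold enc encQ
        rw [List.map_map]
        rfl
    · rintro ⟨p, a, b, q, hp, hr, h⟩
      rw [enc_eq_encB] at h
      obtain ⟨B1, B2, hB⟩ := encB_two hp h
      rcases blks_two hB with ⟨h3, -⟩ | ⟨-, -, L1, L2, rfl⟩
      · exact h3 rfl
      · have h4 := List.isChain_iff_forall_rel_of_append_cons_cons.1 hch
          (rfl : L1 ++ a.reverse :: b :: L2 = L1 ++ a.reverse :: b :: L2)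
        refine hr (iv_rev.2 ?_)
        rwa [List.reverse_reverse]
  · rintro ⟨⟨Q, ⟨q1, hq1, hI⟩, ⟨q2, hq2, hF⟩, rfl⟩, h0, h1, h2, h3⟩
    have key : ∀ q ∈ Q, q.2.1 = q.1.reverse ∧ q.2.2.1 = q.1 ∧ q.2.2.2 = q.1.reverse := by
      intro q hq
      obtain ⟨Q1, Q2, rfl⟩ := List.append_of_mem hq
      have e0 : q.1 = q.2.1.reverse := by
        by_contra hne
        apply h0
        refine ⟨encQ Q1, q.1, q.2.1, blk q.2.2.1 2 ++ blk q.2.2.2 3 ++ encQ Q2, encQ_end Q1,
          fun h => hne (iv_eq.1 h), ?_⟩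
        rw [iv_app, iv_cons]; simp only [List.append_assoc]
      have e1 : q.2.1 = q.2.2.1.reverse := by
        by_contra hne
        apply h1
        refine ⟨encQ Q1 ++ blk q.1 0, q.2.1, q.2.2.1, blk q.2.2.2 3 ++ encQ Q2,
          iv_blk_end _ _ _, fun h => hne (iv_eq.1 h), ?_⟩
        rw [iv_app, iv_cons]; simp only [List.append_assoc]
      have e2 : q.2.2.1 = q.2.2.2.reverse := by
        by_contra hne
        apply h2
        refine ⟨encQ Q1 ++ blk q.1 0 ++ blk q.2.1 1, q.2.2.1, q.2.2.2, encQ Q2,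
          iv_blk_end _ _ _, fun h => hne (iv_eq.1 h), ?_⟩
        rw [iv_app, iv_cons]; simp only [List.append_assoc]
      refine ⟨by rw [e0, List.reverse_reverse], ?_, ?_⟩
      · rw [e0, e1, List.reverse_reverse]
      · rw [e0, e1, List.reverse_reverse, e2, List.reverse_reverse]
    refine ⟨Q.map Prod.fst, ⟨⟨q1.1, hI, ?_⟩, ?_, ⟨q2.1, ?_, ?_⟩⟩, ?_⟩
    · rw [List.head?_map, hq1]; rfl
    · rw [List.isChain_iff_forall_rel_of_append_cons_cons]
      intro a b L1 L2 hL
      obtain ⟨Q1, Q', hQ, h4, h5⟩ := List.map_eq_append_iff.1 hL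
      obtain ⟨qa, Q'', hQ', h6, h7⟩ := List.map_eq_cons_iff.1 h5
      obtain ⟨qb, Q2, hQ'', h8, h9⟩ := List.map_eq_cons_iff.1 h7
      subst hQ'' hQ' hQ h6 h8
      have e3 : Rl {z : List (D × D) | z.reverse ∈ R} qa.2.2.2 qb.1.reverse := by
        by_contra hne
        apply h3
        refine ⟨encQ Q1 ++ blk qa.1 0 ++ blk qa.2.1 1 ++ blk qa.2.2.1 2, qa.2.2.2, qb.1,
          blk qb.2.1 1 ++ blk qb.2.2.1 2 ++ blk qb.2.2.2 3 ++ encQ Q2,
          iv_blk_end _ _ _, hne, ?_⟩
        rw [iv_app, iv_cons, iv_cons]; simp only [List.append_assoc]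
      rw [iv_rev, List.reverse_reverse] at e3
      have := (key qa (by simp)).2.2
      rwa [this, List.reverse_reverse] at e3
    · have := (key q2 (List.mem_of_getLast? hq2)).2.2
      rwa [this, List.reverse_reverse] at hF
    · rw [List.getLast?_map, hq2]; rfl
    · unfold enc encQ
      rw [List.map_map]
      congr 1
      refine List.map_congr_left fun q hq => ?_
      obtain ⟨h4, h5, h6⟩ := key q hq
      simp only [Function.comp]
      rw [h4, h5, h6]
      rfl

theorem lin_inv [Finite D] {I F : Set (List D)} {R : Set (List (D × D))} (hI : Reg I)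
    (hF : Reg F) (hR : Reg R) :
    Lin {w : List (D ⊕ Fin 4) | ¬ ∃ L, VSeq I F R L ∧ w = enc L} := by
  have hE : Reg {z : List (D × D) | ∀ c ∈ z, c.1 = c.2} := Reg.forall _
  have h := ((((Lin.ofReg (reg_fmt hI hF).compl).union (lin_err hE 0 1)).union
    (lin_err hE 1 2)).union (lin_err hE 2 3)).union (lin_err hR.reverse 3 0)
  convert h using 1
  ext w
  simp only [Set.mem_ofPred_eq, iv_valid, Set.mem_union, Set.mem_compl_iff]
  tauto

end Pool.Agent.DEG
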