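import Pool.Agent.DEG.LBitA

/-!
DEG module LBITB (`logComp_of_logFun` is in LBITA): comparison of the two notions of functions computable in logarithmic space.

* `pfx v = (v.takeWhile Option.isSome).filterMap id` for `v : List (Option α)`;
  `VW.pfx`: `VW fun v (_ : Y) => pfx v`: `(pfx v)[i]? = some a` iff `v[i]? = some (some a)` and for
  all `j < i`, `v[j]?` is `some (some _)`; the length is a sum of indicators (`Fn.bsum`), as in
  module LDCD.
* `logComp_of_logFun`: length bound: `Fn.pb` for the length of `f w` (apply `h` to
  `V = fun w (_ : Unit) => w`, `VW.id`), with `size w () = w.length + 0 + 2`. `InL (bitGraph f b)`: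
  `inL_iff_FP`; `v ∈ bitGraph f b` iff `v = (pfx v).map some ++ List.replicate (v.length -
  (pfx v).length) none` (i.e. every letter number `i ≥ (pfx v).length` of `v` is `none`: `FP.ball`)
  and `(f (pfx v))[v.length - (pfx v).length]? = some b` (`h` applied to `VW.pfx`, `VW.get`).
* `logFun_of_logComp`: let `VW V`. By `FP.inL_comp` for the language `bitGraph f b` and the word
  `(V w y).map some ++ List.replicate i none` (length and letters are clear), the condition
  `(V w y).map some ++ List.replicate i none ∈ bitGraph f b` is `FP` in `(y, i)`; it says
  `(f (V w y))[i]? = some b` (the decomposition of `v` in `bitGraph` is unique). The length of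
  `f (V w y)` is at most `((V w y).length + 2) ^ e`, and it is the sum over
  `i < ((V w y).length + 2) ^ e` of the indicators of `∃ b, (f (V w y))[i]? = some b`
  (`FP.exFin`, `Fn.bsum`, `Fn.powC`).
* `InL.of_logRed`: `logFun_of_logComp` with `V = fun w (_ : Unit) => w` and `FP.inL_comp`,
  `inL_iff_FP`.
-/

namespace Pool.Agent.DEG

open Pool.Agent.Helper38.LinL Classical

variable {α β : Type}

private theorem mem_bitGraph_append {f : List α → List β} {b : β} (w : List α) (i : ℕ) :
    w.map some ++ List.replicate i none ∈ bitGraph f b ↔ (f w)[i]? = some b := by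
  constructor
  · rintro ⟨w', i', he, hf⟩
    have h1 := congrArg DEG.pfx he
    rw [pfx_append, pfx_append] at h1
    subst h1
    have h2 := congrArg List.length he
    simp only [List.length_append, List.length_map, List.length_replicate,
      Nat.add_left_cancel_iff] at h2
    rw [h2]
    exact hf
  · intro hf
    exact ⟨w, i, rfl, hf⟩

theorem logFun_of_logComp [Finite α] [Finite β] {f : List α → List β} (h : LogComp f) :
    LogFun f := by
  have hF : Fintype β := Fintype.ofFinite β
  obtain ⟨⟨e, he⟩, hb⟩ := h
  intro σ _ Y _ V hV
  have hP : ∀ b, FP fun (w : List σ) (z : Y × ℕ) => (f (V w z.1))[z.2]? = some b := by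
    intro b
    have hVl : Fn fun (w : List σ) (z : Y × ℕ) => (V w z.1).length := hV.1.comp Fn.id.fst
    have h1 := FP.inL_comp (X := Y × ℕ) (hb b)
      (V := fun (w : List σ) (z : Y × ℕ) => (V w z.1).map some ++ List.replicate z.2 none)
      (by
        have h2 := hVl.add (Fn.id (α := σ) (X := Y × ℕ)).snd
        convert h2 using 1
        funext w z
        simp)
      (by
        intro c
        have hVl' : Fn fun (w : List σ) (y : (Y × ℕ) × ℕ) => (V w y.1.1).length :=
          hVl.comp Fn.id.fst
        cases c with
        | some a =>
          have h2 : FP fun (w : List σ) (y : (Y × ℕ) × ℕ) => (V w y.1.1)[y.2]? = some a :=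
            (hV.2 a).comp (Fn.id.fst.fst.pair Fn.id.snd)
          refine h2.congr fun w y => ?_
          by_cases hj : y.2 < (V w y.1.1).length
          · rw [List.getElem?_append_left (by simpa using hj), List.getElem?_map,
              List.getElem?_eq_getElem hj]
            simp
          · rw [List.getElem?_append_right (by rw [List.length_map]; omega),
              List.getElem?_replicate, List.getElem?_eq_none (l := V w y.1.1) (by omega)]
            split_ifs <;> simp
        | none =>
          have h2 : FP fun (w : List σ) (y : (Y × ℕ) × ℕ) =>
              (V w y.1.1).length ≤ y.2 ∧ y.2 < (V w y.1.1).length + y.1.2 :=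
            (FP.le hVl' Fn.id.snd).and (FP.lt Fn.id.snd (hVl'.add Fn.id.fst.snd))
          refine h2.congr fun w y => ?_
          by_cases hj : y.2 < (V w y.1.1).length
          · rw [List.getElem?_append_left (by simpa using hj), List.getElem?_map,
              List.getElem?_eq_getElem hj]
            simp only [Option.map_some, Option.some.injEq, reduceCtorEq, false_iff]
            omega
          · rw [List.getElem?_append_right (by rw [List.length_map]; omega),
              List.getElem?_replicate, List.length_map]
            split_ifs with h3
            · simp only [true_iff]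
              omega
            · simp only [false_iff]
              omega)
    exact h1.congr fun w z => (mem_bitGraph_append (V w z.1) z.2).symm
  refine ⟨?_, hP⟩
  have h1 : FP fun (w : List σ) (z : Y × ℕ) => ∃ b, (f (V w z.1))[z.2]? = some b :=
    FP.exFin fun b => hP b
  have h2 := Fn.bsum (b := fun (w : List σ) (y : Y) => ((V w y).length + 2) ^ e)
    (f := fun w z => ind (∃ b, (f (V w z.1))[z.2]? = some b))
    (Fn.powC hV.1.succ.succ e) h1
  convert h2 using 1
  funext w y
  rw [← sum_ind_lt (he (V w y))]
  refine Finset.sum_congr rfl fun t _ => ?_
  have h3 : (t < (f (V w y)).length) = ∃ b, (f (V w y))[t]? = some b := by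
    apply propext
    constructor
    · intro ht
      exact ⟨_, List.getElem?_eq_getElem ht⟩
    · rintro ⟨b, hb⟩
      exact (List.getElem?_eq_some_iff.1 hb).1
  rw [h3]

theorem InL.of_logRed [Finite α] [Finite β] {X : Set (List α)} {Y : Set (List β)}
    (h : LogRed X Y) (hY : InL Y) : InL X := by
  obtain ⟨f, hf, hXY⟩ := h
  rw [inL_iff_FP]
  have h1 := logFun_of_logComp hf (σ := α) (Y := Unit) (fun w _ => w) VW.id
  exact (FP.inL_comp hY h1.1 h1.2).congr fun w _ => hXY w

end Pool.Agent.DEG
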