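import Pool.Agent.DEG.LVW
import Pool.Agent.Helper38.LinL.KaneFn

/-!
DEG module LBITA (`logComp_of_logFun` only): comparison of the two notions of functions computable in logarithmic space.

* `pfx v = (v.takeWhile Option.isSome).filterMap id` for `v : List (Option α)`;
  `VW.pfx`: `VW fun v (_ : Y) => pfx v`: `(pfx v)[i]? = some a` iff `v[i]? = some (some a)` and for
  all `j < i`, `v[j]?` is `some (some _)`; the length is a sum of indicators (`Fn.bsum`), as in
  module LDCD.
* `logComp_of_logFun`: length bound: `Fn.pb` for the length of `f w` (apply `h` to
  `V = fun w (_ : Unit) => w`, `VW.id`), with `size w () = w.length + 0 + 2`. `InL (bitGraph f b)`: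
  `inL_iff_FP`; `v ∈ bitGraph f b` iff `v = (pfx v).map some ++ List.replicate (v.length -
  (pfx v).length) none` (i.e. every letter number `i ≥ (pfx v).length` of `v` is `none`: `FP.ball`)
  and `(f (pfx v))[v.length - (pfx v).length]? = some b` (`h` applied to `VW.pfx`, `VW.get`).
* `logFun_of_logComp`: let `VW V`. By `FP.inL_comp` for the language `bitGraph f b` and the word
  `(V w y).map some ++ List.replicate i none` (length and letters are clear), the condition
  `(V w y).map some ++ List.replicate i none ∈ bitGraph f b` is `FP` in `(y, i)`; it says
  `(f (V w y))[i]? = some b` (the decomposition of `v` in `bitGraph` is unique). The length of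
  `f (V w y)` is at most `((V w y).length + 2) ^ e`, and it is the sum over
  `i < ((V w y).length + 2) ^ e` of the indicators of `∃ b, (f (V w y))[i]? = some b`
  (`FP.exFin`, `Fn.bsum`, `Fn.powC`).
* `InL.of_logRed`: `logFun_of_logComp` with `V = fun w (_ : Unit) => w` and `FP.inL_comp`,
  `inL_iff_FP`.
-/

namespace Pool.Agent.DEG

open Pool.Agent.Helper38.LinL Classical

variable {α β : Type}

/-- the longest prefix of letters -/
def pfx (v : List (Option α)) : List α := (v.takeWhile Option.isSome).filterMap id

theorem pfx_nil : pfx ([] : List (Option α)) = [] := rfl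

theorem pfx_none (v : List (Option α)) : pfx (none :: v) = [] := by
  simp [pfx]

theorem pfx_some (a : α) (v : List (Option α)) : pfx (some a :: v) = a :: pfx v := by
  simp [pfx]

theorem pfx_append (w : List α) (i : ℕ) : pfx (w.map some ++ List.replicate i none) = w := by
  induction w with
  | nil =>
    cases i with
    | zero => rfl
    | succ i => rw [List.map_nil, List.nil_append, List.replicate_succ, pfx_none]
  | cons a w ih => rw [List.map_cons, List.cons_append, pfx_some, ih]

theorem pfx_length_le (v : List (Option α)) : (pfx v).length ≤ v.length := by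
  induction v with
  | nil => simp [pfx_nil]
  | cons c v ih =>
    cases c with
    | none => simp [pfx_none]
    | some a => simp only [pfx_some, List.length_cons]; omega

theorem lt_pfx_length (v : List (Option α)) (t : ℕ) :
    t < (pfx v).length ↔ ∀ j < t + 1, ∃ b, v[j]? = some (some b) := by
  induction v generalizing t with
  | nil =>
    rw [pfx_nil]
    simp only [List.length_nil, not_lt_zero, false_iff, not_forall]
    exact ⟨0, by omega, by simp⟩
  | cons c v ih =>
    cases c with
    | none =>
      rw [pfx_none]
      simp only [List.length_nil, not_lt_zero, false_iff, not_forall]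
      exact ⟨0, by omega, by simp⟩
    | some a =>
      rw [pfx_some, List.length_cons]
      cases t with
      | zero =>
        simp only [Nat.zero_lt_succ, true_iff]
        intro j hj
        have : j = 0 := by omega
        subst this
        exact ⟨a, by simp⟩
      | succ t =>
        rw [Nat.succ_lt_succ_iff, ih t]
        constructor
        · intro h j hj
          cases j with
          | zero => exact ⟨a, by simp⟩
          | succ j =>
            obtain ⟨b, hb⟩ := h j (by omega)
            exact ⟨b, by simpa using hb⟩
        · intro h j hj
          obtain ⟨b, hb⟩ := h (j + 1) (by omega)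
          exact ⟨b, by simpa using hb⟩

theorem pfx_get (v : List (Option α)) (i : ℕ) (a : α) : (pfx v)[i]? = some a ↔
    (∀ j < i, ∃ b, v[j]? = some (some b)) ∧ v[i]? = some (some a) := by
  induction v generalizing i with
  | nil => simp [pfx_nil]
  | cons c v ih =>
    cases c with
    | none =>
      rw [pfx_none]
      constructor
      · intro h
        simp at h
      · rintro ⟨h1, h2⟩
        cases i with
        | zero => simp at h2
        | succ i =>
          obtain ⟨b, hb⟩ := h1 0 (by omega)
          simp at hb
    | some c =>
      rw [pfx_some]
      cases i with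
      | zero => simp
      | succ i =>
        rw [List.getElem?_cons_succ, List.getElem?_cons_succ, ih i]
        constructor
        · rintro ⟨h1, h2⟩
          refine ⟨fun j hj => ?_, h2⟩
          cases j with
          | zero => exact ⟨c, by simp⟩
          | succ j =>
            obtain ⟨b, hb⟩ := h1 j (by omega)
            exact ⟨b, by simpa using hb⟩
        · rintro ⟨h1, h2⟩
          refine ⟨fun j hj => ?_, h2⟩
          obtain ⟨b, hb⟩ := h1 (j + 1) (by omega)
          exact ⟨b, by simpa using hb⟩

theorem sum_ind_lt {n N : ℕ} (h : n ≤ N) : ∑ t ∈ Finset.range N, ind (t < n) = n := by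
  have h1 : ∑ t ∈ Finset.range N, ind (t < n) = ∑ t ∈ Finset.range N, if t < n then 1 else 0 :=
    Finset.sum_congr rfl fun t _ => by
      unfold ind
      split_ifs <;> rfl
  rw [h1, ← Finset.card_filter]
  have h2 : (Finset.range N).filter (fun t => t < n) = Finset.range n := by
    ext t
    simp only [Finset.mem_filter, Finset.mem_range]
    omega
  rw [h2, Finset.card_range]

theorem VW.pfx {Y : Type} [Cod Y] [Finite α] : VW fun (v : List (Option α)) (_ : Y) => DEG.pfx v := by
  have hF : Fintype α := Fintype.ofFinite α
  have hP : ∀ {Z : Type} [Cod Z] {g : List (Option α) → Z → ℕ}, Fn g →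
      FP fun (v : List (Option α)) (z : Z) => ∀ j < g v z, ∃ b, v[j]? = some (some b) := by
    intro Z _ g hg
    exact FP.ball hg (P := fun v z => ∃ b, v[z.2]? = some (some b))
      (FP.exFin fun b => Fn.letterP (some b) Fn.id.snd)
  refine ⟨?_, fun a => ?_⟩
  · have h1 := Fn.bsum (b := fun (v : List (Option α)) (_ : Y) => v.length)
      (f := fun v z => ind (∀ j < z.2 + 1, ∃ b, v[j]? = some (some b))) Fn.len
      (hP (Fn.id.snd.succ))
    convert h1 using 1
    funext v y
    rw [← sum_ind_lt (pfx_length_le v)]
    refine Finset.sum_congr rfl fun t _ => ?_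
    rw [propext (lt_pfx_length v t)]
  · exact ((hP Fn.id.snd).and (Fn.letterP (some a) Fn.id.snd)).congr fun v z => pfx_get v z.2 a

theorem mem_bitGraph {f : List α → List β} {b : β} {v : List (Option α)} :
    v ∈ bitGraph f b ↔ (∀ i < v.length, (pfx v).length ≤ i → v[i]? = some none) ∧
      (f (pfx v))[v.length - (pfx v).length]? = some b := by
  constructor
  · rintro ⟨w, i, rfl, hf⟩
    rw [pfx_append]
    refine ⟨fun j hj hw => ?_, ?_⟩
    · rw [List.length_append, List.length_map, List.length_replicate] at hj
      rw [List.getElem?_append_right (by simpa using hw), List.length_map,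
        List.getElem?_replicate, if_pos (by omega)]
    · rw [List.length_append, List.length_map, List.length_replicate, Nat.add_sub_cancel_left]
      exact hf
  · rintro ⟨h1, h2⟩
    refine ⟨pfx v, v.length - (pfx v).length, ?_, h2⟩
    have hle := pfx_length_le v
    apply List.ext_getElem?
    intro j
    by_cases hj : j < (pfx v).length
    · have h3 := (pfx_get v j (pfx v)[j]).1 (List.getElem?_eq_getElem hj)
      rw [h3.2, List.getElem?_append_left (by simpa using hj), List.getElem?_map,
        List.getElem?_eq_getElem hj, Option.map_some]
    · rw [List.getElem?_append_right (by rw [List.length_map]; omega), List.length_map,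
        List.getElem?_replicate]
      by_cases hj2 : j < v.length
      · rw [h1 j hj2 (by omega), if_pos (by omega)]
      · rw [if_neg (by omega), List.getElem?_eq_none (by omega)]

theorem logComp_of_logFun [Finite α] [Finite β] {f : List α → List β} (h : LogFun f) :
    LogComp f := by
  refine ⟨?_, fun b => ?_⟩
  · have h1 := h (σ := α) (Y := Unit) (fun w _ => w) VW.id
    obtain ⟨e, he⟩ := h1.1.pb
    refine ⟨e, fun w => ?_⟩
    have h2 := he w ()
    have h3 : size w () = w.length + 2 := by simp [size]
    rw [h3] at h2
    exact h2
  · rw [inL_iff_FP]
    have hV := h (σ := Option α) (Y := Unit) (fun v _ => DEG.pfx v) VW.pfx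
    have hlen : ∀ {Z : Type} [Cod Z], Fn fun (v : List (Option α)) (_ : Z) => (DEG.pfx v).length :=
      fun {Z} _ => (VW.pfx (Y := Z)).1
    have h1 : FP fun (v : List (Option α)) (z : Unit × ℕ) =>
        (DEG.pfx v).length ≤ z.2 → v[z.2]? = some none := by
      refine ((FP.le hlen Fn.id.snd).not.or (Fn.letterP none Fn.id.snd)).congr fun v z => ?_
      tauto
    have h2 : FP fun (v : List (Option α)) (_ : Unit) =>
        (f (DEG.pfx v))[v.length - (DEG.pfx v).length]? = some b :=
      hV.get (Fn.len.sub hlen) b
    exact ((FP.ball Fn.len h1).and h2).congr fun v _ => mem_bitGraph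

end Pool.Agent.DEG
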