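import Pool.Agent.DEG.Log

/-!
DEG module LPOW: powers, logarithms and digits in logarithmic space.

* `Fn.powB`: `Fn.natRec` with `F w x t = B ^ t`, step `fun w p => p.2.2 * B`; the bound is
  `B ^ t ≤ B ^ g + 1` for `t ≤ g` (`B ≥ 1`: `Nat.pow_le_pow_right`; `B = 0`: `B ^ t ≤ 1`).
* `Fn.log2`: `Fn.natRec` with `F w x t = Nat.log 2 t`, step `fun w p => if 2 ^ (p.2.2 + 1) ≤
  p.2.1 + 1 then p.2.2 + 1 else p.2.2`; here `2 ^ (p.2.2 + 1)` is only wanted for
  `p.2.2 ≤ p.2.1`-small values, to avoid exponential values one can compute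
  `min (2 ^ (l + 1)) (t + 2)` (for instance with `Fn.natRec` for
  `F = fun _ _ k => min (2 ^ k) (b + 2)`), or use instead the formula
  `Nat.log 2 t = #{j < t | ∃ d < t + 1, ...}`; the simplest way: `Nat.log 2 t` is the value of
  the recursion on pairs `(l, P)` with `P = 2 ^ l`: `(0, 1)` at `t = 0`, and at `t + 1`:
  `if 2 * P ≤ t + 1 then (l + 1, 2 * P) else (l, P)`, i.e. `F w x t = (Nat.log 2 t,
  2 ^ Nat.log 2 t)`, which is bounded by `t + (t + 1)`.
* `Fn.sz`: `sz n = Nat.log 2 (n + 1) + 1`.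
* `pb_pow_sz`: `pow_bound` in `Pool/Agent/Helper38/LinL/Conv.lean` (with `n + 1` for `n`);
  `PB.pow`, `PB.mono`. `Fn.NV`, `Fn.NR`, `Fn.NT`: `Fn.powB`.
* `Fn.dg`: `(dg B m v j : ℕ) = v / (B + 1) ^ (m - 1 - j) % (B + 1)` (`Fin.val_ofNat`), with
  `Fn.powB`, `(B + 1) ^ (m - 1 - j) ≤ (B + 1) ^ m`.
-/

namespace Pool.Agent.DEG

open Pool.Agent.Helper38.LinL Classical

variable {σ Y : Type} [Cod Y]

theorem Fn.powB (B : ℕ) {g : List σ → Y → ℕ} (hg : Fn g) (hb : PB fun w y => B ^ g w y) :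
    Fn fun w y => B ^ g w y := by
  refine Fn.natRec (T := g) (F := fun w x t => B ^ t) (step := fun w p => p.2.2 * B) hg
    (by simpa using Fn.const 1) (Fn.id.snd.snd.mul (Fn.const B))
    (fun w x t => pow_succ B t) ⟨fun w x => B ^ g w x + 1, hb.add (PB.const 1), ?_⟩
  intro w x t ht
  rw [norm'_nat]
  rcases Nat.eq_zero_or_pos B with rfl | hB
  · rcases Nat.eq_zero_or_pos t with rfl | h
    · simp
    · rw [zero_pow h.ne']
      exact Nat.zero_le _
  · exact (Nat.pow_le_pow_right hB ht).trans (Nat.le_succ _)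

private theorem log2_step (t : ℕ) : Nat.log 2 (t + 1) =
    if 2 * 2 ^ Nat.log 2 t ≤ t + 1 then Nat.log 2 t + 1 else Nat.log 2 t := by
  rcases Nat.eq_zero_or_pos t with rfl | ht
  · simp
  have h1 : 2 ^ Nat.log 2 t ≤ t := Nat.pow_log_le_self 2 ht.ne'
  have h2 : t < 2 ^ (Nat.log 2 t + 1) := Nat.lt_pow_succ_log_self (by norm_num) t
  split_ifs with h
  · rw [Nat.log_eq_iff (Or.inl (by omega))]
    rw [pow_succ] at h2
    refine ⟨by rw [pow_succ]; omega, ?_⟩
    rw [pow_succ, pow_succ]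
    omega
  · rw [Nat.log_eq_iff (Or.inr ⟨by norm_num, by omega⟩)]
    refine ⟨by omega, ?_⟩
    rw [pow_succ]
    omega

theorem Fn.log2 {g : List σ → Y → ℕ} (hg : Fn g) : Fn fun w y => Nat.log 2 (g w y) := by
  have h := Fn.natRec (T := g) (F := fun _ _ t => (Nat.log 2 t, 2 ^ Nat.log 2 t))
    (step := fun (_ : List σ) (p : Y × ℕ × (ℕ × ℕ)) =>
      if 2 * p.2.2.2 ≤ p.2.1 + 1 then (p.2.2.1 + 1, 2 * p.2.2.2) else p.2.2) hg
    (by
      have := (Fn.const (α := σ) (X := Y) 0).pair (Fn.const (α := σ) (X := Y) 1)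
      simpa using this)
    (Fn.ite (FP.le ((Fn.const 2).mul Fn.id.snd.snd.snd) Fn.id.snd.fst.succ)
      (Fn.id.snd.snd.fst.succ.pair ((Fn.const 2).mul Fn.id.snd.snd.snd)) Fn.id.snd.snd)
    (fun w x t => by
      simp only
      rw [log2_step t]
      split_ifs with h
      · rw [pow_succ, mul_comm]
      · rfl)
    ⟨fun w x => g w x + (g w x + 1), hg.pb.add (hg.succ.pb), fun w x t ht => by
      rw [norm'_prod, norm'_nat, norm'_nat]
      have h1 : Nat.log 2 t ≤ t := Nat.log_le_self 2 t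
      have h2 : 2 ^ Nat.log 2 t ≤ t + 1 := by
        rcases Nat.eq_zero_or_pos t with rfl | h
        · simp
        · exact (Nat.pow_log_le_self 2 h.ne').trans (Nat.le_succ _)
      simp only
      omega⟩
  exact h.fst

theorem Fn.sz {g : List σ → Y → ℕ} (hg : Fn g) : Fn fun w y => DEG.sz (g w y) :=
  (Fn.log2 hg.succ).succ

theorem pb_pow_sz (B K : ℕ) {g : List σ → Y → ℕ} (hg : Fn g) :
    PB fun w y => B ^ (K * DEG.sz (g w y)) := by
  obtain ⟨e, he⟩ := pow_bound B K 0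
  have h1 : PB fun w y => (g w y + 1 + 2) ^ e := by
    have h0 : ∀ e : ℕ, PB fun w y => (g w y + 1 + 2) ^ e := by
      intro e
      induction e with
      | zero => simpa using PB.const 1
      | succ e ih =>
        have := ih.mul hg.succ.succ.succ.pb
        exact this.mono fun w y => by rw [pow_succ]
    exact h0 e
  refine (h1.add (PB.const 1)).mono fun w y => ?_
  rcases Nat.eq_zero_or_pos B with rfl | hB
  · have h2 : (0 : ℕ) ^ (K * DEG.sz (g w y)) ≤ 1 := by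
      rcases Nat.eq_zero_or_pos (K * DEG.sz (g w y)) with h | h
      · rw [h, pow_zero]
      · rw [zero_pow h.ne']
        exact Nat.zero_le _
    omega
  · have h2 := he (g w y + 1)
    have h3 : B ^ (K * DEG.sz (g w y)) ≤ B ^ (K * (Nat.log 2 (g w y + 1) + 1) + 1) :=
      Nat.pow_le_pow_right hB (by unfold DEG.sz; omega)
    omega

theorem Fn.NV (ω K : ℕ) {g : List σ → Y → ℕ} (hg : Fn g) : Fn fun w y => DEG.NV ω K (g w y) :=
  Fn.powB (ω + 1) ((Fn.const K).mul (Fn.sz hg)) (pb_pow_sz (ω + 1) K hg)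

theorem Fn.NR (ρ K : ℕ) {g : List σ → Y → ℕ} (hg : Fn g) : Fn fun w y => DEG.NR ρ K (g w y) :=
  Fn.powB (ρ + 1) ((Fn.const K).mul (Fn.sz hg)) (pb_pow_sz (ρ + 1) K hg)

theorem Fn.NT (ρ ω K : ℕ) {g : List σ → Y → ℕ} (hg : Fn g) :
    Fn fun w y => DEG.NT ρ ω K (g w y) :=
  (Fn.NR ρ K hg).mul (hg.succ.succ.mul (Fn.NV ω K hg))

theorem Fn.ql (K : ℕ) {g : List σ → Y → ℕ} (hg : Fn g) : Fn fun w y => DEG.ql K (g w y) :=
  hg.succ.succ.add ((Fn.const K).mul (Fn.sz hg))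

theorem Fn.dg (B : ℕ) {m v j : List σ → Y → ℕ} (hm : Fn m) (hv : Fn v) (hj : Fn j)
    (hb : PB fun w y => (B + 1) ^ m w y) :
    Fn fun w y => (DEG.dg B (m w y) (v w y) (j w y) : ℕ) := by
  have he : Fn fun w y => m w y - 1 - j w y := hm.pred.sub hj
  have hp : Fn fun w y => (B + 1) ^ (m w y - 1 - j w y) :=
    Fn.powB (B + 1) he (hb.mono fun w y => Nat.pow_le_pow_right (Nat.succ_pos B) (by omega))
  have h := (hv.div hp).mod (Fn.const (B + 1))
  exact h

end Pool.Agent.DEG
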