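import Pool.Agent.DEG.Log

/-!
DEG module LVW: words computable in logarithmic space.

`VW V`: the length of `V w y` is `Fn`, and `(V w y)[i]? = some b` is `FP` in `(y, i)` for each
letter `b`. The algebra of `Fn` and `FP` is in `Pool/Agent/Helper38/LinL/Fn.lean`, `Arith.lean`
(`Fn.id`, `Fn.comp`, `Fn.pair`, `Fn.fst`, `Fn.snd`, `Fn.const`, `Fn.add`, `Fn.ite`, `FP.and`,
`FP.or`, `FP.not`, `FP.eq`, `FP.lt`, `FP.ball`, `FP.bex`, `FP.exFin`, `FP.allFin`, `FP.congr`,
`FP.comp`, `FP.constP`, `Fn.len`, `Fn.letterP`, ...).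

* `id`: `Fn.len`, `Fn.letterP`. `const`: the length is constant, `l[i]? = some b` is the finite
  disjunction over `k < l.length` with `l[k]? = some b` of `i = k` (`FP.bexF`, `FP.eq`), or
  induction on `l`.
* `get`: `FP.comp` with `(y, i w y)`. `comp_arg`: compose with a function of `y`.
* `ite`: `Fn.ite`, and `(P ∧ V[i]? = b) ∨ (¬ P ∧ V'[i]? = b)`.
* `eq`: equal lengths and for all `i < length` and all letters `b`:
  `V[i]? = some b ↔ V'[i]? = some b` (`FP.ball`, `FP.allFin`); `List.ext_getElem?`.
* `rsym`: cases on the symbol: `lend`: `i = 0`; `letter a`: `1 ≤ i` and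
  `V[i - 1]? = some a`; `rend`: `1 ≤ i` and `length ≤ i - 1`.
-/

namespace Pool.Agent.DEG

open Pool.Agent.Helper38.LinL Classical

variable {σ α β γ Y Z : Type} [Cod Y] [Cod Z]

theorem VW.id : VW fun (w : List σ) (_ : Y) => w :=
  ⟨Fn.len, fun b => Fn.letterP b Fn.id.snd⟩

theorem VW.const (l : List β) : VW fun (_ : List σ) (_ : Y) => l := by
  refine ⟨Fn.const l.length, fun b => ?_⟩
  have h := FP.bexF (α := σ) (X := Y × ℕ) ((Finset.range l.length).filter fun k => l[k]? = some b)
    (P := fun k _ z => z.2 = k) (fun k _ => FP.eq Fn.id.snd (Fn.const k))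
  refine h.congr fun w z => ?_
  constructor
  · intro hz
    refine ⟨z.2, ?_, rfl⟩
    rw [Finset.mem_filter, Finset.mem_range]
    exact ⟨(List.getElem?_eq_some_iff.1 hz).1, hz⟩
  · rintro ⟨k, hk, hz⟩
    rw [Finset.mem_filter] at hk
    rw [hz]
    exact hk.2

theorem VW.get {V : List σ → Y → List β} (h : VW V) {i : List σ → Y → ℕ} (hi : Fn i) (b : β) :
    FP fun w y => (V w y)[i w y]? = some b :=
  (h.2 b).comp (Fn.id.pair hi)

theorem VW.comp_arg {V : List σ → Y → List β} (h : VW V) {g : List σ → Z → Y} (hg : Fn g) :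
    VW fun w z => V w (g w z) :=
  ⟨h.1.comp hg, fun b => (h.2 b).comp ((hg.comp Fn.id.fst).pair Fn.id.snd)⟩

theorem VW.ite {P : List σ → Y → Prop} [∀ w y, Decidable (P w y)] (hP : FP P)
    {V V' : List σ → Y → List β} (h : VW V) (h' : VW V') :
    VW fun w y => if P w y then V w y else V' w y := by
  refine ⟨?_, fun b => ?_⟩
  · have h1 := Fn.ite hP h.1 h'.1
    convert h1 using 3 with w y
    by_cases hp : P w y <;> simp [hp]
  · have hP' : FP fun (w : List σ) (z : Y × ℕ) => P w z.1 := hP.comp Fn.id.fst
    refine ((hP'.and (h.2 b)).or (hP'.not.and (h'.2 b))).congr fun w z => ?_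
    by_cases hp : P w z.1 <;> simp [hp]

theorem VW.eq [Finite β] {V V' : List σ → Y → List β} (h : VW V) (h' : VW V') :
    FP fun w y => V w y = V' w y := by
  have hf : Fintype β := Fintype.ofFinite β
  have h1 : FP fun (w : List σ) (z : Y × ℕ) =>
      ∀ b, (V w z.1)[z.2]? = some b ↔ (V' w z.1)[z.2]? = some b := by
    refine FP.allFin fun b => ?_
    refine (((h.2 b).and (h'.2 b)).or ((h.2 b).not.and (h'.2 b).not)).congr fun w z => ?_
    tauto
  refine ((FP.eq h.1 h'.1).and (FP.ball h.1 h1)).congr fun w y => ?_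
  constructor
  · intro he
    refine ⟨by rw [he], fun t _ b => ?_⟩
    show (V w y)[t]? = some b ↔ (V' w y)[t]? = some b
    rw [he]
  · rintro ⟨h2, h3⟩
    apply List.ext_getElem?
    intro i
    by_cases hi : i < (V w y).length
    · have h4 := (h3 i hi ((V w y)[i])).1 (List.getElem?_eq_getElem hi)
      rw [h4, List.getElem?_eq_getElem hi]
    · rw [List.getElem?_eq_none (by omega), List.getElem?_eq_none (by omega)]

theorem VW.rsym {V : List σ → Y → List α} (h : VW V) {i : List σ → Y → ℕ} (hi : Fn i)
    (s : Sym α) : FP fun w y => readSym (V w y) (i w y) = s := by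
  have h0 : FP fun (w : List σ) (y : Y) => i w y = 0 := FP.eq_zero hi
  have hp : Fn fun (w : List σ) (y : Y) => i w y - 1 := hi.pred
  cases s with
  | lend =>
    refine h0.congr fun w y => ?_
    unfold readSym
    rcases i w y with _ | j
    · simp
    · simp only
      constructor
      · intro hc
        split at hc <;> exact absurd hc (by simp)
      · intro hc
        exact absurd hc (by omega)
  | letter a =>
    refine (h0.not.and (h.get hp a)).congr fun w y => ?_
    unfold readSym
    rcases i w y with _ | j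
    · simp
    · simp only [Nat.add_sub_cancel, Nat.add_eq_zero_iff, one_ne_zero, and_false, not_false_eq_true,
        true_and]
      rcases hc : (V w y)[j]? with _ | c <;> simp
  | rend =>
    refine (h0.not.and (FP.le h.1 hp)).congr fun w y => ?_
    unfold readSym
    rcases i w y with _ | j
    · simp
    · simp only [Nat.add_sub_cancel, Nat.add_eq_zero_iff, one_ne_zero, and_false, not_false_eq_true,
        true_and]
      rcases hc : (V w y)[j]? with _ | c
      · rw [List.getElem?_eq_none_iff] at hc
        simp [hc]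
      · obtain ⟨hlt, -⟩ := List.getElem?_eq_some_iff.1 hc
        simp only [false_iff, not_le, hlt, reduceCtorEq]

theorem LogFun.comp {g : List β → List γ} {f : List α → List β} (hg : LogFun g)
    (hf : LogFun f) : LogFun fun w => g (f w) := by
  intro σ _ Y _ V hV
  exact hg _ (hf V hV)

end Pool.Agent.DEG
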