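import Pool.Agent.DEG.LGet
import Pool.Agent.DEG.LVW
import Pool.Agent.DEG.LPow

/-!
DEG module LCODE: the code of a word is computable in logarithmic space.

Let `VW V`, `n = (V w y).length`. Length: `code_length`, `Fn.NT`, `Fn.ql`. Letters: `code_get`:
`(code (V w y))[i]? = some b` iff `i < length` and `lett ρ ω K (V w y) i = b`. Cases on `b`:
* `b = inr c`: `o = q` and `Fin.ofNat 4 j = c`, i.e. `j % 4 = c`;
* `b = inl (inl (s, mk))`: `o ≠ q` and, with `o' = if j % 2 = 0 then o else q - 1 - o`: `o' < n + 2`
  and `readSym (V w y) o' = s` (`VW.rsym`) and (`mk = true` iff `o' = p`);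
* `b = inl (inr (a, bt, c, d))`: `o ≠ q`, `¬ o' < n + 2`, and the four conditions (with
  `j' = o' - (n + 2)`): (`a = true` iff `j' % K = 0`), (`bt = true` iff `j' % K = 0` and the digit
  `dg 1 s p (j' / K)` is `1`), the digits `dg ρ m k j'`, `dg ω m v j'` have the values `c`, `d`
  (`Fin.ext_iff`, `Fn.dg`; `pb_pow_sz`; for base 2: `2 ^ sz n` is polynomially bounded, `K = 1` in
  `pb_pow_sz`).
All numbers are `Fn`: `Fn.add`, `Fn.mul`, `Fn.div`, `Fn.mod`, `Fn.sub`, `Fn.ite`. A convenient
intermediate step is `fp_cellAt`: for `Fn` functions `t`, `o` and each cell `b` the condition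
`cellAt ρ ω K (V w y) (t w y) (o w y) = b` is `FP`.
-/

namespace Pool.Agent.DEG

open Pool.Agent.Helper38.LinL Classical

variable {σ α Y : Type} [Cod Y] {ρ ω : ℕ}

private theorem lcode_decide {P : List σ → Y → Prop} [∀ w y, Decidable (P w y)] (hP : FP P)
    (b : Bool) : FP fun w y => decide (P w y) = b := by
  cases b with
  | true => exact hP.congr fun w y => by simp
  | false => exact hP.not.congr fun w y => by simp

theorem fp_cellAt (K : ℕ) {V : List σ → Y → List α} (h : VW V) {t o : List σ → Y → ℕ}
    (ht : Fn t) (ho : Fn o) (b : Cell α ρ ω) :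
    FP fun w y => cellAt ρ ω K (V w y) (t w y) (o w y) = b := by
  have hn : Fn fun w y => (V w y).length + 2 := h.1.succ.succ
  have hNV : Fn fun w y => NV ω K (V w y).length := Fn.NV ω K h.1
  have hp : Fn fun w y => t w y / NV ω K (V w y).length % ((V w y).length + 2) :=
    (ht.div hNV).mod hn
  have hlt : FP fun w y => o w y < (V w y).length + 2 := FP.lt ho hn
  rcases b with ⟨s, mk⟩ | ⟨a, bt, c, d⟩
  · have h1 : FP fun w y => readSym (V w y) (o w y) = s := h.rsym ho s
    have h2 : FP fun w y => decide (o w y =
        t w y / NV ω K (V w y).length % ((V w y).length + 2)) = mk :=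
      lcode_decide (FP.eq ho hp) mk
    refine (hlt.and (h1.and h2)).congr fun w y => ?_
    unfold cellAt
    by_cases hc : o w y < (V w y).length + 2
    · rw [if_pos hc]
      simp only [Sum.inl.injEq, Prod.mk.injEq, hc, true_and]
    · rw [if_neg hc]
      simp [hc]
  · have hj : Fn fun w y => o w y - ((V w y).length + 2) := ho.sub hn
    have hjK : FP fun w y => (o w y - ((V w y).length + 2)) % K = 0 :=
      FP.eq_zero (hj.mod (Fn.const K))
    have hs : Fn fun w y => sz (V w y).length := Fn.sz h.1
    have hm : Fn fun w y => K * sz (V w y).length := (Fn.const K).mul hs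
    have hb2 : PB fun w y => (1 + 1) ^ sz (V w y).length :=
      (pb_pow_sz 2 1 h.1).mono fun w y => by rw [one_mul]
    have hd1 : Fn fun w y => (dg 1 (sz (V w y).length)
        (t w y / NV ω K (V w y).length % ((V w y).length + 2))
        ((o w y - ((V w y).length + 2)) / K) : ℕ) :=
      Fn.dg 1 hs hp (hj.div (Fn.const K)) hb2
    have hdρ : Fn fun w y => (dg ρ (K * sz (V w y).length)
        (t w y / (((V w y).length + 2) * NV ω K (V w y).length))
        (o w y - ((V w y).length + 2)) : ℕ) :=
      Fn.dg ρ hm (ht.div (hn.mul hNV)) hj (pb_pow_sz (ρ + 1) K h.1)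
    have hdω : Fn fun w y => (dg ω (K * sz (V w y).length)
        (t w y % NV ω K (V w y).length) (o w y - ((V w y).length + 2)) : ℕ) :=
      Fn.dg ω hm (ht.mod hNV) hj (pb_pow_sz (ω + 1) K h.1)
    have e1 : FP fun w y => decide ((o w y - ((V w y).length + 2)) % K = 0) = a :=
      lcode_decide hjK a
    have e2' : FP fun w y => dg 1 (sz (V w y).length)
        (t w y / NV ω K (V w y).length % ((V w y).length + 2))
        ((o w y - ((V w y).length + 2)) / K) = 1 :=
      (FP.eq hd1 (Fn.const 1)).congr fun w y => by rw [Fin.ext_iff]; rfl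
    have e2 : FP fun w y => decide ((o w y - ((V w y).length + 2)) % K = 0 ∧
        dg 1 (sz (V w y).length) (t w y / NV ω K (V w y).length % ((V w y).length + 2))
        ((o w y - ((V w y).length + 2)) / K) = 1) = bt :=
      lcode_decide (hjK.and e2') bt
    have e3 := FP.eq hdρ (Fn.const (c : ℕ))
    have e4 := FP.eq hdω (Fn.const (d : ℕ))
    refine (hlt.not.and (e1.and (e2.and (e3.and e4)))).congr fun w y => ?_
    unfold cellAt
    by_cases hc : o w y < (V w y).length + 2
    · rw [if_pos hc]
      simp [hc]
    · rw [if_neg hc]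
      simp only [Sum.inr.injEq, Prod.mk.injEq, hc, not_false_eq_true, true_and, Fin.ext_iff]

theorem logFun_code (K : ℕ) : LogFun (code ρ ω K : List α → List (Cell α ρ ω ⊕ Fin 4)) := by
  intro σ _ Y _ V h
  have hql : Fn fun w y => ql K (V w y).length := Fn.ql K h.1
  refine ⟨?_, fun b => ?_⟩
  · have h1 : Fn fun w y => NT ρ ω K (V w y).length * (4 * (ql K (V w y).length + 1)) :=
      (Fn.NT ρ ω K h.1).mul ((Fn.const 4).mul hql.succ)
    have e : (fun w y => (code ρ ω K (V w y)).length) =
        fun w y => NT ρ ω K (V w y).length * (4 * (ql K (V w y).length + 1)) := by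
      funext w y
      exact code_length K _
    rw [e]
    exact h1
  · have h' : VW fun (w : List σ) (z : Y × ℕ) => V w z.1 := h.comp_arg Fn.id.fst
    have hi : Fn fun (_ : List σ) (z : Y × ℕ) => z.2 := Fn.id.snd
    have hq : Fn fun (w : List σ) (z : Y × ℕ) => ql K (V w z.1).length := Fn.ql K h'.1
    have hc : Fn fun (w : List σ) (z : Y × ℕ) => 4 * (ql K (V w z.1).length + 1) :=
      (Fn.const 4).mul hq.succ
    have hlen : Fn fun (w : List σ) (z : Y × ℕ) =>
        NT ρ ω K (V w z.1).length * (4 * (ql K (V w z.1).length + 1)) :=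
      (Fn.NT ρ ω K h'.1).mul hc
    have hlt := FP.lt hi hlen
    have ht : Fn fun (w : List σ) (z : Y × ℕ) => z.2 / (4 * (ql K (V w z.1).length + 1)) :=
      hi.div hc
    have hj : Fn fun (w : List σ) (z : Y × ℕ) =>
        z.2 % (4 * (ql K (V w z.1).length + 1)) / (ql K (V w z.1).length + 1) :=
      (hi.mod hc).div hq.succ
    have ho : Fn fun (w : List σ) (z : Y × ℕ) =>
        z.2 % (4 * (ql K (V w z.1).length + 1)) % (ql K (V w z.1).length + 1) :=
      (hi.mod hc).mod hq.succ
    have hoq := FP.eq ho hq
    rcases b with b | c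
    · have ho' : Fn fun (w : List σ) (z : Y × ℕ) =>
          if z.2 % (4 * (ql K (V w z.1).length + 1)) / (ql K (V w z.1).length + 1) % 2 = 0 then
            z.2 % (4 * (ql K (V w z.1).length + 1)) % (ql K (V w z.1).length + 1)
          else ql K (V w z.1).length - 1 -
            z.2 % (4 * (ql K (V w z.1).length + 1)) % (ql K (V w z.1).length + 1) :=
        Fn.ite (FP.eq_zero (hj.mod (Fn.const 2))) ho (hq.pred.sub ho)
      have hcell := fp_cellAt K h' ht ho' b
      refine (hlt.and (hoq.not.and hcell)).congr fun w z => ?_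
      rw [code_get]
      by_cases h1 : z.2 < NT ρ ω K (V w z.1).length * (4 * (ql K (V w z.1).length + 1))
      · rw [if_pos h1]
        simp only [h1, true_and, Option.some.injEq]
        unfold lett
        simp only
        by_cases h2 : z.2 % (4 * (ql K (V w z.1).length + 1)) % (ql K (V w z.1).length + 1) =
            ql K (V w z.1).length
        · rw [if_pos h2]
          simp [h2]
        · rw [if_neg h2]
          simp only [h2, not_false_eq_true, true_and, Sum.inl.injEq]
      · rw [if_neg h1]
        simp [h1]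
    · have hj4 := FP.eq (hj.mod (Fn.const 4)) (Fn.const (c : ℕ))
      refine (hlt.and (hoq.and hj4)).congr fun w z => ?_
      rw [code_get]
      by_cases h1 : z.2 < NT ρ ω K (V w z.1).length * (4 * (ql K (V w z.1).length + 1))
      · rw [if_pos h1]
        simp only [h1, true_and, Option.some.injEq]
        unfold lett
        simp only
        by_cases h2 : z.2 % (4 * (ql K (V w z.1).length + 1)) % (ql K (V w z.1).length + 1) =
            ql K (V w z.1).length
        · rw [if_pos h2]
          simp only [h2, true_and, Sum.inr.injEq, Fin.ext_iff, Fin.val_ofNat]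
        · rw [if_neg h2]
          exact ⟨fun h => absurd h (by simp), fun h => absurd h.1 h2⟩
      · rw [if_neg h1]
        simp [h1]

end Pool.Agent.DEG
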