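import Pool.Agent.DEG.LVW
import Pool.Agent.Helper38.LinL.KaneFn

/-!
DEG module LDCDA (`dcd_get`, `logFun_dcd` only): decoding.

* `dcd_get`: `(dcd w)[i]? = some a` iff `ltr` of the letter number `i + 1` of `w` is `some a` and
  for all `j < i` the letter number `j + 1` of `w` exists and has `ltr ≠ none`. (First for lists
  `l` in place of `w.tail`: `(l.takeWhile fun c => (ltr c).isSome).filterMap ltr`, by induction
  on `l`.) So `(dcd w).length ≤ w.length`, and `i < (dcd w).length` iff for all `j ≤ i` the letter
  number `j + 1` exists and has `ltr ≠ none`.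
* `logFun_dcd`: letters: `dcd_get` with `FP.ball`, `FP.exFin` over the finite alphabet (or
  `FP.bexF`), `VW.get`. Length: the number of `i < (V w y).length` such that the condition for
  `i < length` holds, which is a sum of indicators (`Fn.bsum` in `KaneFn.lean`), because the set
  of these `i` is `{0, ..., length - 1}`.
* `dcd_code`: `code x` begins with the first record: letter `0` is the cell with `lend`, letters
  `1, ..., n` are the cells with the letters of `x`, letter `n + 1` is the cell with `rend`
  (`code_get` with `t = 0`, `j = 0`, `o = i ≤ n + 1 < q`, as `sz n ≥ 1`, `K ≥ 1`; `NT ≥ 1`;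
  `readSym x (i + 1) = Sym.letter x[i]`). `List.ext_getElem?` with `dcd_get`. (For this `K ≥ 1`
  is not needed if `o = n + 1 < n + 2 ≤ q` is used.)
* `code_inj`: by `dcd_code`.
* `code_length_strictMono`: `n ↦ NT ρ ω K n * (4 * (ql K n + 1))` is strictly increasing: all
  factors are increasing in `n` (`sz` is, `Nat.log_mono_right`), positive, and `n + 2` increases
  strictly (`Nat.mul_lt_mul''` or `Nat.mul_lt_mul_of_lt_of_le`).
-/

namespace Pool.Agent.DEG

open Pool.Agent.Helper38.LinL Classical

variable {α : Type} {ρ ω : ℕ}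

private theorem ldcd_aux (l : List (Cell α ρ ω ⊕ Fin 4)) : ∀ (i : ℕ) (a : α),
    ((l.takeWhile fun c => (ltr c).isSome).filterMap ltr)[i]? = some a ↔
      (∃ c, l[i]? = some c ∧ ltr c = some a) ∧
        ∀ j < i, ∃ c, l[j]? = some c ∧ (ltr c).isSome = true := by
  induction l with
  | nil => intro i a; simp
  | cons c l ih =>
    intro i a
    rcases hc : ltr c with _ | b
    · rw [List.takeWhile_cons_of_neg (by simp [hc])]
      simp only [List.filterMap_nil, List.getElem?_nil]
      constructor
      · intro h
        exact absurd h (by simp)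
      · rintro ⟨⟨c', h1, h2⟩, h3⟩
        rcases i with _ | i
        · simp only [List.getElem?_cons_zero, Option.some.injEq] at h1
          rw [← h1, hc] at h2
          exact absurd h2 (by simp)
        · obtain ⟨c'', h4, h5⟩ := h3 0 (Nat.succ_pos _)
          simp only [List.getElem?_cons_zero, Option.some.injEq] at h4
          rw [← h4, hc] at h5
          exact absurd h5 (by simp)
    · rw [List.takeWhile_cons_of_pos (by simp [hc]), List.filterMap_cons_some hc]
      rcases i with _ | i
      · simp only [List.getElem?_cons_zero, Option.some.injEq]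
        constructor
        · intro h
          exact ⟨⟨c, rfl, by rw [hc, h]⟩, fun j hj => absurd hj (Nat.not_lt_zero _)⟩
        · rintro ⟨⟨c', h1, h2⟩, -⟩
          rw [← h1, hc] at h2
          exact Option.some.inj h2
      · rw [List.getElem?_cons_succ, ih, List.getElem?_cons_succ]
        refine and_congr_right fun _ => ?_
        constructor
        · intro h j hj
          rcases j with _ | j
          · exact ⟨c, by simp, by simp [hc]⟩
          · obtain ⟨c', h1, h2⟩ := h j (by omega)
            exact ⟨c', by rwa [List.getElem?_cons_succ], h2⟩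
        · intro h j hj
          obtain ⟨c', h1, h2⟩ := h (j + 1) (by omega)
          exact ⟨c', by rwa [List.getElem?_cons_succ] at h1, h2⟩

theorem dcd_get (w : List (Cell α ρ ω ⊕ Fin 4)) (i : ℕ) (a : α) :
    (dcd w)[i]? = some a ↔ (∃ c, w[i + 1]? = some c ∧ ltr c = some a) ∧
      ∀ j < i, ∃ c, w[j + 1]? = some c ∧ (ltr c).isSome = true := by
  unfold dcd
  rw [ldcd_aux]
  simp only [List.getElem?_tail]

private theorem ldcd_length (w : List (Cell α ρ ω ⊕ Fin 4)) : (dcd w).length ≤ w.length := by
  unfold dcd
  refine (List.length_filterMap_le _ _).trans ?_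
  refine (List.takeWhile_sublist _).length_le.trans ?_
  rw [List.length_tail]
  omega

private theorem ldcd_sum {N m : ℕ} (h : m ≤ N) :
    ∑ t ∈ Finset.range N, ind (t < m) = m := by
  induction N generalizing m with
  | zero =>
    have : m = 0 := by omega
    subst this
    simp
  | succ N ih =>
    rw [Finset.sum_range_succ]
    rcases Nat.lt_or_ge N m with h1 | h1
    · have h2 : m = N + 1 := by omega
      subst h2
      rw [ind_pos h1]
      congr 1
      calc ∑ t ∈ Finset.range N, ind (t < N + 1) = ∑ t ∈ Finset.range N, 1 := by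
            refine Finset.sum_congr rfl fun t ht => ?_
            rw [Finset.mem_range] at ht
            exact ind_pos (by omega)
        _ = N := by simp
    · rw [ih h1, ind_neg (by omega), add_zero]

private theorem ldcd_lt (w : List (Cell α ρ ω ⊕ Fin 4)) (t : ℕ) :
    t < (dcd w).length ↔ ∃ a, (dcd w)[t]? = some a := by
  constructor
  · intro h
    exact ⟨(dcd w)[t], List.getElem?_eq_getElem h⟩
  · rintro ⟨a, ha⟩
    exact (List.getElem?_eq_some_iff.1 ha).1

theorem logFun_dcd [Finite α] : LogFun (dcd : List (Cell α ρ ω ⊕ Fin 4) → List α) := by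
  intro σ _ Y _ V hV
  have := Fintype.ofFinite α
  have := Fintype.ofFinite (Cell α ρ ω ⊕ Fin 4)
  have hL : ∀ c, FP fun (w : List σ) (z : Y × ℕ) => (V w z.1)[z.2 + 1]? = some c := fun c =>
    (hV.2 c).comp (g := fun (_ : List σ) (z : Y × ℕ) => (z.1, z.2 + 1))
      (Fn.id.fst.pair Fn.id.snd.succ)
  have hA : ∀ a : α, FP fun (w : List σ) (z : Y × ℕ) =>
      ∃ c, (V w z.1)[z.2 + 1]? = some c ∧ ltr c = some a := fun a =>
    FP.exFin fun c => (hL c).and (FP.constP _)
  have hB0 : FP fun (w : List σ) (z : Y × ℕ) =>
      ∃ c, (V w z.1)[z.2 + 1]? = some c ∧ (ltr c).isSome = true :=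
    FP.exFin fun c => (hL c).and (FP.constP _)
  have hB1 : FP fun (w : List σ) (p : (Y × ℕ) × ℕ) =>
      ∃ c, (V w p.1.1)[p.2 + 1]? = some c ∧ (ltr c).isSome = true :=
    hB0.comp (g := fun (_ : List σ) (p : (Y × ℕ) × ℕ) => (p.1.1, p.2))
      (Fn.id.fst.fst.pair Fn.id.snd)
  have hB : FP fun (w : List σ) (z : Y × ℕ) =>
      ∀ j < z.2, ∃ c, (V w z.1)[j + 1]? = some c ∧ (ltr c).isSome = true :=
    FP.ball (b := fun (_ : List σ) (z : Y × ℕ) => z.2) Fn.id.snd hB1
  have hlet : ∀ a, FP fun (w : List σ) (z : Y × ℕ) => (dcd (V w z.1))[z.2]? = some a := fun a =>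
    ((hA a).and hB).congr fun w z => dcd_get _ _ _
  refine ⟨?_, hlet⟩
  have hex : FP fun (w : List σ) (z : Y × ℕ) => ∃ a, (dcd (V w z.1))[z.2]? = some a :=
    FP.exFin hlet
  have hsum := Fn.bsum (b := fun w y => (V w y).length)
    (f := fun (w : List σ) (z : Y × ℕ) => ind (∃ a, (dcd (V w z.1))[z.2]? = some a)) hV.1 hex
  convert hsum using 1
  funext w y
  rw [← ldcd_sum (ldcd_length (V w y))]
  refine Finset.sum_congr rfl fun t _ => ?_
  simp only [ldcd_lt]

end Pool.Agent.DEG
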