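import Pool.Agent.DEG.LGet
import Pool.Agent.DEG.LDcdA

/-!
DEG module LDCDB (`dcd_get`, `logFun_dcd` are in LDCDA): decoding.

* `dcd_get`: `(dcd w)[i]? = some a` iff `ltr` of the letter number `i + 1` of `w` is `some a` and
  for all `j < i` the letter number `j + 1` of `w` exists and has `ltr ≠ none`. (First for lists
  `l` in place of `w.tail`: `(l.takeWhile fun c => (ltr c).isSome).filterMap ltr`, by induction
  on `l`.) So `(dcd w).length ≤ w.length`, and `i < (dcd w).length` iff for all `j ≤ i` the letter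
  number `j + 1` exists and has `ltr ≠ none`.
* `logFun_dcd`: letters: `dcd_get` with `FP.ball`, `FP.exFin` over the finite alphabet (or
  `FP.bexF`), `VW.get`. Length: the number of `i < (V w y).length` such that the condition for
  `i < length` holds, which is a sum of indicators (`Fn.bsum` in `KaneFn.lean`), because the set
  of these `i` is `{0, ..., length - 1}`.
* `dcd_code`: `code x` begins with the first record: letter `0` is the cell with `lend`, letters
  `1, ..., n` are the cells with the letters of `x`, letter `n + 1` is the cell with `rend`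
  (`code_get` with `t = 0`, `j = 0`, `o = i ≤ n + 1 < q`, as `sz n ≥ 1`, `K ≥ 1`; `NT ≥ 1`;
  `readSym x (i + 1) = Sym.letter x[i]`). `List.ext_getElem?` with `dcd_get`. (For this `K ≥ 1`
  is not needed if `o = n + 1 < n + 2 ≤ q` is used.)
* `code_inj`: by `dcd_code`.
* `code_length_strictMono`: `n ↦ NT ρ ω K n * (4 * (ql K n + 1))` is strictly increasing: all
  factors are increasing in `n` (`sz` is, `Nat.log_mono_right`), positive, and `n + 2` increases
  strictly (`Nat.mul_lt_mul''` or `Nat.mul_lt_mul_of_lt_of_le`).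
-/

namespace Pool.Agent.DEG

open Pool.Agent.Helper38.LinL Classical

variable {α : Type} {ρ ω : ℕ}

private theorem NT_pos (ρ ω K n : ℕ) : 1 ≤ NT ρ ω K n := by
  unfold NT NR NV
  have h1 : 0 < (ρ + 1) ^ (K * sz n) := Nat.pow_pos (Nat.succ_pos _)
  have h2 : 0 < (ω + 1) ^ (K * sz n) := Nat.pow_pos (Nat.succ_pos _)
  exact Nat.mul_pos h1 (Nat.mul_pos (Nat.succ_pos _) h2)

private theorem code_first (K : ℕ) (x : List α) {i : ℕ} (hi : i ≤ x.length) :
    ∃ c, (code ρ ω K x)[i + 1]? = some c ∧ ltr c = x[i]? := by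
  have hq : x.length + 2 ≤ ql K x.length := by unfold ql; omega
  have h1 : i + 1 < ql K x.length + 1 := by omega
  have hlt : i + 1 < 4 * (ql K x.length + 1) := by omega
  have hlt2 : i + 1 < NT ρ ω K x.length * (4 * (ql K x.length + 1)) :=
    lt_of_lt_of_le hlt (Nat.le_mul_of_pos_left _ (NT_pos ρ ω K _))
  refine ⟨lett ρ ω K x (i + 1), ?_, ?_⟩
  · rw [code_get, if_pos hlt2]
  · have e1 : (i + 1) / (4 * (ql K x.length + 1)) = 0 := Nat.div_eq_of_lt hlt
    have e2 : (i + 1) % (4 * (ql K x.length + 1)) = i + 1 := Nat.mod_eq_of_lt hlt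
    have e3 : (i + 1) / (ql K x.length + 1) = 0 := Nat.div_eq_of_lt h1
    have e4 : (i + 1) % (ql K x.length + 1) = i + 1 := Nat.mod_eq_of_lt h1
    have e5 : i + 1 ≠ ql K x.length := by omega
    unfold lett
    simp only [e1, e2, e3, e4, if_neg e5, Nat.zero_mod, if_true]
    unfold cellAt
    rw [if_pos (by omega : i + 1 < x.length + 2)]
    unfold readSym
    simp only
    rcases x[i]? with _ | a <;> rfl

theorem dcd_code (K : ℕ) (x : List α) : dcd (code ρ ω K x) = x := by
  refine List.ext_getElem? fun i => ?_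
  refine Option.ext fun a => ?_
  rw [dcd_get]
  constructor
  · rintro ⟨⟨c, hc, hca⟩, h⟩
    by_cases hi : i ≤ x.length
    · obtain ⟨c', hc', hl⟩ := code_first (ρ := ρ) (ω := ω) K x hi
      rw [hc] at hc'
      rw [← hl, ← Option.some.inj hc', hca]
    · exfalso
      obtain ⟨c', hc', hl⟩ := h x.length (by omega)
      obtain ⟨c'', hc'', hl'⟩ := code_first (ρ := ρ) (ω := ω) K x (le_refl x.length)
      rw [hc'] at hc''
      rw [Option.some.inj hc'', hl', List.getElem?_eq_none (le_refl _)] at hl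
      simp at hl
  · intro h
    have hi : i < x.length := by
      by_contra hcon
      rw [List.getElem?_eq_none (by omega)] at h
      simp at h
    refine ⟨?_, fun j hj => ?_⟩
    · obtain ⟨c, hc, hl⟩ := code_first (ρ := ρ) (ω := ω) K x hi.le
      exact ⟨c, hc, hl.trans h⟩
    · obtain ⟨c, hc, hl⟩ := code_first (ρ := ρ) (ω := ω) K x (show j ≤ x.length by omega)
      refine ⟨c, hc, ?_⟩
      rw [hl, List.getElem?_eq_getElem (by omega)]
      rfl

theorem code_inj (K : ℕ) : Function.Injective (code ρ ω K : List α → _) := by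
  intro x y h
  rw [← dcd_code (ρ := ρ) (ω := ω) K x, h, dcd_code]

theorem code_length_strictMono (K : ℕ) :
    StrictMono fun n => NT ρ ω K n * (4 * (ql K n + 1)) := by
  intro m n hmn
  have hs : sz m ≤ sz n := by
    unfold sz
    exact Nat.succ_le_succ (Nat.log_mono_right (by omega))
  have hK : K * sz m ≤ K * sz n := Nat.mul_le_mul_left _ hs
  have h1 : (ρ + 1) ^ (K * sz m) ≤ (ρ + 1) ^ (K * sz n) :=
    Nat.pow_le_pow_right (Nat.succ_pos _) hK
  have h2 : (ω + 1) ^ (K * sz m) ≤ (ω + 1) ^ (K * sz n) :=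
    Nat.pow_le_pow_right (Nat.succ_pos _) hK
  have h3 : NT ρ ω K m ≤ NT ρ ω K n := by
    unfold NT NR NV
    exact Nat.mul_le_mul h1 (Nat.mul_le_mul (by omega) h2)
  have h4 : 4 * (ql K m + 1) < 4 * (ql K n + 1) := by
    unfold ql
    omega
  have h5 := NT_pos ρ ω K m
  show NT ρ ω K m * (4 * (ql K m + 1)) < NT ρ ω K n * (4 * (ql K n + 1))
  calc NT ρ ω K m * (4 * (ql K m + 1)) < NT ρ ω K m * (4 * (ql K n + 1)) :=
        Nat.mul_lt_mul_of_pos_left h4 (by omega)
    _ ≤ NT ρ ω K n * (4 * (ql K n + 1)) := Nat.mul_le_mul_right _ h3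

end Pool.Agent.DEG
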