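import Pool.Agent.DEG.LGetA

/-!
DEG module LGETB (`rt_length`, `rt_get` are in LGETA): the letters of the code of a word.

* `rt_length`, `rt_get`: `xs`, `ws` are lists `(List.range _).map _` (`List.getElem?_append`,
  `List.getElem?_map`, `List.getElem?_range`).
* `flatten_get`: for a list of lists which all have length `c ≥ 1`, entry `i` of the flattening is
  entry `i % c` of list number `i / c`. Induction on the list.
* `rec4_get`: for a word `a` of length `q`, entry `i < 4 * (q + 1)` of `rec4 a` is, with
  `j = i / (q + 1)`, `o = i % (q + 1)`: the separator `j` if `o = q`, and otherwise letter `o` of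
  `a` (`j` even) or letter `q - 1 - o` of `a` (`j` odd; `List.getElem?_reverse`). One can apply
  `flatten_get` to the list of the four blocks.
* `code_get`: combine.
-/

namespace Pool.Agent.DEG

open Pool.Agent.Helper38.LinL

variable {α : Type} {ρ ω : ℕ}

theorem flatten_get {A : Type} {c : ℕ} (hc : 1 ≤ c) {L : List (List A)}
    (hL : ∀ l ∈ L, l.length = c) (i : ℕ) :
    L.flatten[i]? = (L[i / c]?).bind fun l => l[i % c]? := by
  induction L generalizing i with
  | nil => simp
  | cons l L ih =>
    have hl : l.length = c := hL l (by simp)
    have ih' := ih (fun l hl => hL l (by simp [hl]))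
    rw [List.flatten_cons, List.getElem?_append, hl]
    by_cases h : i < c
    · rw [if_pos h, Nat.div_eq_of_lt h, Nat.mod_eq_of_lt h]
      rfl
    · rw [if_neg h, ih']
      have h1 : i / c = (i - c) / c + 1 := by
        rw [Nat.div_eq_sub_div (by omega) (by omega)]
      have h2 : (i - c) % c = i % c := (Nat.mod_eq_sub_mod (by omega)).symm
      rw [h1, h2]
      rfl

private theorem lgetb_len {A : Type} {c : ℕ} {L : List (List A)}
    (hL : ∀ l ∈ L, l.length = c) : L.flatten.length = L.length * c := by
  induction L with
  | nil => simp
  | cons l L ih =>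
    rw [List.flatten_cons, List.length_append, ih (fun l hl => hL l (by simp [hl])),
      hL l (by simp), List.length_cons]
    ring

theorem rec4_length {D : Type} (a : List D) : (rec4 a).length = 4 * (a.length + 1) := by
  simp [rec4, blk]
  ring

private theorem lgetb_blk {D : Type} (b : List D) (k : Fin 4) (o : ℕ) (ho : o ≤ b.length) :
    (blk b k)[o]? = if o = b.length then some (Sum.inr k) else (b[o]?).map Sum.inl := by
  unfold blk
  rw [List.getElem?_append, List.length_map]
  by_cases h : o = b.length
  · subst h
    simp
  · rw [if_pos (by omega), if_neg h, List.getElem?_map]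

theorem rec4_get {D : Type} {a : List D} {i : ℕ} (hi : i < 4 * (a.length + 1)) :
    (rec4 a)[i]? = if i % (a.length + 1) = a.length
      then some (Sum.inr (Fin.ofNat 4 (i / (a.length + 1))))
      else (a[if i / (a.length + 1) % 2 = 0 then i % (a.length + 1)
        else a.length - 1 - i % (a.length + 1)]?).map Sum.inl := by
  have h0 : rec4 a = [blk a 0, blk a.reverse 1, blk a 2, blk a.reverse 3].flatten := by
    simp [rec4]
  have hL : ∀ l ∈ [blk a 0, blk a.reverse 1, blk a 2, blk a.reverse 3],
      l.length = a.length + 1 := by
    intro l hl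
    simp only [List.mem_cons, List.not_mem_nil, or_false] at hl
    rcases hl with rfl | rfl | rfl | rfl <;> simp [blk]
  rw [h0, flatten_get (by omega) hL]
  have h1 : i / (a.length + 1) < 4 := by
    rw [Nat.div_lt_iff_lt_mul (by omega)]
    exact hi
  have h2 : i % (a.length + 1) < a.length + 1 := Nat.mod_lt _ (by omega)
  set o := i % (a.length + 1) with ho
  have hr : ∀ k : Fin 4, (blk a.reverse k)[o]? = if o = a.length then some (Sum.inr k)
      else (a[a.length - 1 - o]?).map Sum.inl := by
    intro k
    rw [lgetb_blk _ _ _ (by rw [List.length_reverse]; omega), List.length_reverse]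
    by_cases h : o = a.length
    · rw [if_pos h, if_pos h]
    · rw [if_neg h, if_neg h, List.getElem?_reverse (by omega)]
  have hn : ∀ k : Fin 4, (blk a k)[o]? = if o = a.length then some (Sum.inr k)
      else (a[o]?).map Sum.inl := fun k => lgetb_blk _ _ _ (by omega)
  generalize i / (a.length + 1) = j at h1
  obtain rfl | rfl | rfl | rfl : j = 0 ∨ j = 1 ∨ j = 2 ∨ j = 3 := by omega
  · exact hn 0
  · exact hr 1
  · exact hn 2
  · exact hr 3

theorem code_length (K : ℕ) (x : List α) :
    (code ρ ω K x).length = NT ρ ω K x.length * (4 * (ql K x.length + 1)) := by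
  unfold code enc
  rw [lgetb_len (c := 4 * (ql K x.length + 1))]
  · simp [odo]
  · intro l hl
    rw [List.mem_map] at hl
    obtain ⟨a, ha, rfl⟩ := hl
    rw [odo, List.mem_map] at ha
    obtain ⟨t, _, rfl⟩ := ha
    rw [rec4_length, rt_length]

theorem code_get (K : ℕ) (x : List α) (i : ℕ) :
    (code ρ ω K x)[i]? = if i < NT ρ ω K x.length * (4 * (ql K x.length + 1))
      then some (lett ρ ω K x i) else none := by
  by_cases h : i < NT ρ ω K x.length * (4 * (ql K x.length + 1))
  · rw [if_pos h]
    unfold code enc
    have hL : ∀ l ∈ (odo ρ ω K x).map rec4, l.length = 4 * (ql K x.length + 1) := by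
      intro l hl
      rw [List.mem_map] at hl
      obtain ⟨a, ha, rfl⟩ := hl
      rw [odo, List.mem_map] at ha
      obtain ⟨t, _, rfl⟩ := ha
      rw [rec4_length, rt_length]
    rw [flatten_get (by omega) hL]
    have h1 : i / (4 * (ql K x.length + 1)) < NT ρ ω K x.length := by
      rw [Nat.div_lt_iff_lt_mul (by omega)]
      exact h
    have h2 : i % (4 * (ql K x.length + 1)) < 4 * (ql K x.length + 1) :=
      Nat.mod_lt _ (by omega)
    rw [List.getElem?_map, odo, List.getElem?_map, List.getElem?_range h1]
    simp only [Option.map_some, Option.bind_some]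
    rw [rec4_get (by rw [rt_length]; exact h2), rt_length]
    unfold lett
    simp only
    have h3 : i % (4 * (ql K x.length + 1)) % (ql K x.length + 1) < ql K x.length + 1 :=
      Nat.mod_lt _ (by omega)
    by_cases h4 : i % (4 * (ql K x.length + 1)) % (ql K x.length + 1) = ql K x.length
    · rw [if_pos h4, if_pos h4]
    · rw [if_neg h4, if_neg h4, rt_get (by split_ifs <;> omega)]
      rfl
  · rw [if_neg h, List.getElem?_eq_none]
    rw [code_length]
    omega

end Pool.Agent.DEG
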