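import Pool.Agent.DEG.Log

/-!
DEG module LGETA (`rt_length`, `rt_get` only): the letters of the code of a word.

* `rt_length`, `rt_get`: `xs`, `ws` are lists `(List.range _).map _` (`List.getElem?_append`,
  `List.getElem?_map`, `List.getElem?_range`).
* `flatten_get`: for a list of lists which all have length `c ≥ 1`, entry `i` of the flattening is
  entry `i % c` of list number `i / c`. Induction on the list.
* `rec4_get`: for a word `a` of length `q`, entry `i < 4 * (q + 1)` of `rec4 a` is, with
  `j = i / (q + 1)`, `o = i % (q + 1)`: the separator `j` if `o = q`, and otherwise letter `o` of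
  `a` (`j` even) or letter `q - 1 - o` of `a` (`j` odd; `List.getElem?_reverse`). One can apply
  `flatten_get` to the list of the four blocks.
* `code_get`: combine.
-/

namespace Pool.Agent.DEG

open Pool.Agent.Helper38.LinL

variable {α : Type} {ρ ω : ℕ}

theorem rt_length (K : ℕ) (x : List α) (t : ℕ) : (rt ρ ω K x t).length = ql K x.length := by
  simp [rt, rcd, xs, ws, ql]

theorem rt_get {K : ℕ} {x : List α} {t o : ℕ} (ho : o < ql K x.length) :
    (rt ρ ω K x t)[o]? = some (cellAt ρ ω K x t o) := by
  unfold ql at ho
  unfold rt rcd cellAt
  rw [List.getElem?_append]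
  have hx : ∀ p, ((xs x p).map (Sum.inl : XC α → Cell α ρ ω)).length = x.length + 2 := by
    intro p
    simp [xs]
  rw [hx]
  by_cases h : o < x.length + 2
  · rw [if_pos h, if_pos h, List.getElem?_map, xs, List.getElem?_map,
      List.getElem?_range h]
    rfl
  · rw [if_neg h, if_neg h, List.getElem?_map, ws, List.getElem?_map,
      List.getElem?_range (by omega)]
    rfl

end Pool.Agent.DEG
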