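import Pool.Agent.DEG.Der

/-!
DEG module LINA: closure properties of linear languages.

`Lin X`: `X` is the language of a linear grammar; `G.language` consists of the words
`u ++ t ++ v` with `G.Derives G.start u B v` and `(B, t) ∈ G.term`.
* `single`: one nonterminal, no rules, one terminal rule.
* `union`: nonterminals `Option (G1.N ⊕ G2.N)`, start `none`, the rules of both grammars and the
  rules without letters `none → some (inl start1)`, `none → some (inr start2)`; terminal rules of
  both. Invariant of the derivations from `none`: `B = none` and `u = v = []`; or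
  `B = some (inl b)` and `G1.Derives start1 u b v`; or the same for `G2`.
* `act`: `C` given by `G1`, `f1`, the language `X` by `G2`: nonterminals `G1.N ⊕ G2.N`, start
  `inl start1`, the rules of both and `inl f1 → inr start2` without letters, terminal rules of
  `G2` only. Invariant: `B = inl b` and `G1.Derives start1 u b v`; or `B = inr b` and
  `u = u1 ++ u2`, `v = v2 ++ v1` with `G1.Derives start1 u1 f1 v1`, `G2.Derives start2 u2 b v2`.
(`mkG`, `der_map`, `der_trans`, `der_single` are in `Der.lean`.)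
-/

namespace Pool.Agent.DEG

open Pool.Agent.Helper38.LinL

variable {S : Type}

private lemma lina_fin (G : LinearGrammar S) {N : Type} (φ : G.N → N) :
    {r : N × List S × N × List S | ∃ A u B v, (A, u, B, v) ∈ G.rules ∧
      r = (φ A, u, φ B, v)}.Finite := by
  refine ((G.rules.finite_toSet).image
    (fun r : G.N × List S × G.N × List S => (φ r.1, r.2.1, φ r.2.2.1, r.2.2.2))).subset ?_
  rintro r ⟨A, u, B, v, hr, rfl⟩
  exact ⟨_, hr, rfl⟩

private lemma lina_ind {N : Type} {hN : Finite N} {s : N}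
    {R : Set (N × List S × N × List S)} {hR : R.Finite} {T : Set (N × List S)}
    {hT : T.Finite} (P : List S → N → List S → Prop)
    (h0 : P [] s []) (hs : ∀ u B v u' C v', P u B v → (B, u', C, v') ∈ R →
      P (u ++ u') C (v' ++ v)) (u : List S) (B : N) (v : List S)
    (h : (mkG N hN s R hR T hT).Derives s u B v) : P u B v := by
  have key : ∀ (u : List S) (B : (mkG N hN s R hR T hT).N) (v : List S),
      (mkG N hN s R hR T hT).Derives (mkG N hN s R hR T hT).start u B v → P u B v := by
    intro u B v h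
    induction h with
    | refl => exact h0
    | step _ hr ih => exact hs _ _ _ _ _ _ ih (mem_rules_mkG.mp hr)
  exact key u B v h

private lemma lina_single {N : Type} {hN : Finite N} {s : N}
    {R : Set (N × List S × N × List S)} {hR : R.Finite} {T : Set (N × List S)}
    {hT : T.Finite} {A B : N} {u v : List S} (h : (A, u, B, v) ∈ R) :
    (mkG N hN s R hR T hT).Derives A u B v :=
  der_single (mem_rules_mkG.mpr h)

private lemma lina_map {N : Type} {hN : Finite N} {s : N}
    {R : Set (N × List S × N × List S)} {hR : R.Finite} {T : Set (N × List S)}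
    {hT : T.Finite} {G : LinearGrammar S} (φ : G.N → N)
    (hφ : ∀ A u B v, (A, u, B, v) ∈ G.rules → (φ A, u, φ B, v) ∈ R) {A B : G.N}
    {u v : List S} (h : G.Derives A u B v) :
    (mkG N hN s R hR T hT).Derives (φ A) u (φ B) v :=
  der_map (H := mkG N hN s R hR T hT) φ (fun A u B v hr => mem_rules_mkG.mpr (hφ A u B v hr)) h

private lemma lina_term {N : Type} {hN : Finite N} {s : N}
    {R : Set (N × List S × N × List S)} {hR : R.Finite} {T : Set (N × List S)}
    {hT : T.Finite} (w : List S) : w ∈ (mkG N hN s R hR T hT).language ↔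
      ∃ u, ∃ B : N, ∃ v t, (mkG N hN s R hR T hT).Derives s u B v ∧ (B, t) ∈ T ∧
        w = u ++ t ++ v := by
  constructor
  · rintro ⟨u, B, v, t, h, ht, rfl⟩
    exact ⟨u, B, v, t, h, mem_term_mkG.mp ht, rfl⟩
  · rintro ⟨u, B, v, t, h, ht, rfl⟩
    exact ⟨u, B, v, t, h, mem_term_mkG.mpr ht, rfl⟩

theorem Lin.single (t : List S) : Lin {t} := by
  have hR : (∅ : Set (Unit × List S × Unit × List S)).Finite := Set.finite_empty
  have hT : ({((), t)} : Set (Unit × List S)).Finite := Set.finite_singleton _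
  refine ⟨mkG Unit inferInstance () ∅ hR {((), t)} hT, ?_⟩
  ext w
  rw [lina_term, Set.mem_singleton_iff]
  constructor
  · rintro ⟨u, B, v, t', h, ht, rfl⟩
    have h1 := lina_ind (fun (a : List S) (_ : Unit) (b : List S) => a = [] ∧ b = [])
      ⟨rfl, rfl⟩ (fun _ _ _ _ _ _ _ hr => absurd hr (Set.notMem_empty _)) u B v h
    rw [Set.mem_singleton_iff, Prod.mk.injEq] at ht
    rw [h1.1, h1.2, ht.2]
    simp
  · rintro rfl
    exact ⟨[], (), [], w, LinearGrammar.Derives.refl, rfl, by simp⟩

/-- rules of the union -/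
private def linaU (G1 G2 : LinearGrammar S) :
    Set ((Option (G1.N ⊕ G2.N)) × List S × (Option (G1.N ⊕ G2.N)) × List S) :=
  ({r | ∃ A u B v, (A, u, B, v) ∈ G1.rules ∧
      r = (some (Sum.inl A), u, some (Sum.inl B), v)} ∪
    {r | ∃ A u B v, (A, u, B, v) ∈ G2.rules ∧
      r = (some (Sum.inr A), u, some (Sum.inr B), v)}) ∪
    {(none, [], some (Sum.inl G1.start), []), (none, [], some (Sum.inr G2.start), [])}

/-- terminal rules of the union -/
private def linaT (G1 G2 : LinearGrammar S) : Set ((Option (G1.N ⊕ G2.N)) × List S) :=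
  {r | ∃ A u, (A, u) ∈ G1.term ∧ r = (some (Sum.inl A), u)} ∪
    {r | ∃ A u, (A, u) ∈ G2.term ∧ r = (some (Sum.inr A), u)}

private lemma linaU_fin (G1 G2 : LinearGrammar S) : (linaU G1 G2).Finite :=
  ((lina_fin G1 (fun A => some (Sum.inl A))).union
    (lina_fin G2 (fun A => some (Sum.inr A)))).union (Set.toFinite _)

private lemma lina_finT (G : LinearGrammar S) {N : Type} (φ : G.N → N) :
    {r : N × List S | ∃ A u, (A, u) ∈ G.term ∧ r = (φ A, u)}.Finite := by
  refine ((G.term.finite_toSet).image (fun r : G.N × List S => (φ r.1, r.2))).subset ?_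
  rintro r ⟨A, u, hr, rfl⟩
  exact ⟨_, hr, rfl⟩

private lemma linaT_fin (G1 G2 : LinearGrammar S) : (linaT G1 G2).Finite :=
  (lina_finT G1 (fun A => some (Sum.inl A))).union (lina_finT G2 (fun A => some (Sum.inr A)))

/-- invariant -/
private def linaP (G1 G2 : LinearGrammar S) (a : List S)
    (B : Option (G1.N ⊕ G2.N)) (b : List S) : Prop :=
  match B with
  | none => a = [] ∧ b = []
  | some (Sum.inl x) => G1.Derives G1.start a x b
  | some (Sum.inr x) => G2.Derives G2.start a x b

theorem Lin.union {X Y : Set (List S)} (h : Lin X) (h' : Lin Y) : Lin (X ∪ Y) := by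
  obtain ⟨G1, rfl⟩ := h
  obtain ⟨G2, rfl⟩ := h'
  have := G1.finN
  have := G2.finN
  refine ⟨mkG (Option (G1.N ⊕ G2.N)) inferInstance none (linaU G1 G2) (linaU_fin G1 G2)
    (linaT G1 G2) (linaT_fin G1 G2), ?_⟩
  ext w
  rw [lina_term]
  constructor
  · rintro ⟨u, B, v, t, h, ht, rfl⟩
    have key := lina_ind (linaP G1 G2) (show linaP G1 G2 [] none [] from ⟨rfl, rfl⟩) (by
        intro a B b a' C b' hP hr
        rcases hr with (⟨A1, u1, B1, v1, hr1, he⟩ | ⟨A1, u1, B1, v1, hr1, he⟩) |
          he | he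
        · simp only [Prod.mk.injEq] at he
          obtain ⟨rfl, rfl, rfl, rfl⟩ := he
          exact LinearGrammar.Derives.step (show G1.Derives G1.start a A1 b from hP) hr1
        · simp only [Prod.mk.injEq] at he
          obtain ⟨rfl, rfl, rfl, rfl⟩ := he
          exact LinearGrammar.Derives.step (show G2.Derives G2.start a A1 b from hP) hr1
        · simp only [Prod.mk.injEq] at he
          obtain ⟨rfl, rfl, rfl, rfl⟩ := he
          obtain ⟨rfl, rfl⟩ : a = [] ∧ b = [] := hP
          exact LinearGrammar.Derives.refl (G := G1)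
        · simp only [Set.mem_singleton_iff, Prod.mk.injEq] at he
          obtain ⟨rfl, rfl, rfl, rfl⟩ := he
          obtain ⟨rfl, rfl⟩ : a = [] ∧ b = [] := hP
          exact LinearGrammar.Derives.refl (G := G2)) u B v h
    rcases ht with ⟨A1, t1, ht1, he⟩ | ⟨A1, t1, ht1, he⟩
    · simp only [Prod.mk.injEq] at he
      obtain ⟨rfl, rfl⟩ := he
      exact Or.inl ⟨u, A1, v, t, key, ht1, rfl⟩
    · simp only [Prod.mk.injEq] at he
      obtain ⟨rfl, rfl⟩ := he
      exact Or.inr ⟨u, A1, v, t, key, ht1, rfl⟩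
  · rintro (⟨u, B, v, t, h, ht, rfl⟩ | ⟨u, B, v, t, h, ht, rfl⟩)
    · have d1 := lina_map (hN := inferInstance) (s := none)
        (hR := linaU_fin G1 G2) (hT := linaT_fin G1 G2)
        (fun A : G1.N => (some (Sum.inl A) : Option (G1.N ⊕ G2.N)))
        (fun A u B v hr => Or.inl (Or.inl ⟨A, u, B, v, hr, rfl⟩)) h
      have d3 := lina_single (hN := inferInstance) (s := none)
        (hR := linaU_fin G1 G2) (hT := linaT_fin G1 G2)
        (A := none) (u := []) (v := []) (B := some (Sum.inl G1.start)) (Or.inr (Or.inl rfl))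
      have d5 := der_trans d3 d1
      rw [List.nil_append, List.append_nil] at d5
      exact ⟨u, some (Sum.inl B), v, t, d5, Or.inl ⟨B, t, ht, rfl⟩, rfl⟩
    · have d1 := lina_map (hN := inferInstance) (s := none)
        (hR := linaU_fin G1 G2) (hT := linaT_fin G1 G2)
        (fun A : G2.N => (some (Sum.inr A) : Option (G1.N ⊕ G2.N)))
        (fun A u B v hr => Or.inl (Or.inr ⟨A, u, B, v, hr, rfl⟩)) h
      have d3 := lina_single (hN := inferInstance) (s := none)
        (hR := linaU_fin G1 G2) (hT := linaT_fin G1 G2)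
        (A := none) (u := []) (v := []) (B := some (Sum.inr G2.start)) (Or.inr (Or.inr rfl))
      have d5 := der_trans d3 d1
      rw [List.nil_append, List.append_nil] at d5
      exact ⟨u, some (Sum.inr B), v, t, d5, Or.inr ⟨B, t, ht, rfl⟩, rfl⟩

/-- rules of the action -/
private def linaA (G1 G2 : LinearGrammar S) (f1 : G1.N) :
    Set ((G1.N ⊕ G2.N) × List S × (G1.N ⊕ G2.N) × List S) :=
  ({r | ∃ A u B v, (A, u, B, v) ∈ G1.rules ∧ r = (Sum.inl A, u, Sum.inl B, v)} ∪
    {r | ∃ A u B v, (A, u, B, v) ∈ G2.rules ∧ r = (Sum.inr A, u, Sum.inr B, v)}) ∪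
    {(Sum.inl f1, [], Sum.inr G2.start, [])}

private lemma linaA_fin (G1 G2 : LinearGrammar S) (f1 : G1.N) : (linaA G1 G2 f1).Finite :=
  ((lina_fin G1 (fun A => Sum.inl A)).union
    (lina_fin G2 (fun A => Sum.inr A))).union (Set.toFinite _)

/-- invariant -/
private def linaQ (G1 G2 : LinearGrammar S) (f1 : G1.N) (a : List S)
    (B : G1.N ⊕ G2.N) (b : List S) : Prop :=
  match B with
  | Sum.inl x => G1.Derives G1.start a x b
  | Sum.inr x => ∃ a1 a2 b1 b2, a = a1 ++ a2 ∧ b = b2 ++ b1 ∧ G1.Derives G1.start a1 f1 b1 ∧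
      G2.Derives G2.start a2 x b2

theorem Lin.act {C : Set (List S × List S)} {X : Set (List S)} (h : Rat C) (h' : Lin X) :
    Lin (cact C X) := by
  obtain ⟨G1, f1, h1⟩ := h
  obtain ⟨G2, rfl⟩ := h'
  have := G1.finN
  have := G2.finN
  refine ⟨mkG (G1.N ⊕ G2.N) inferInstance (Sum.inl G1.start) (linaA G1 G2 f1)
    (linaA_fin G1 G2 f1) {r | ∃ A u, (A, u) ∈ G2.term ∧ r = (Sum.inr A, u)}
    (lina_finT G2 (fun A => Sum.inr A)), ?_⟩
  ext w
  rw [lina_term]
  constructor
  · rintro ⟨u, B, v, t, h, ⟨A1, t1, ht1, he⟩, rfl⟩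
    simp only [Prod.mk.injEq] at he
    obtain ⟨rfl, rfl⟩ := he
    have key := lina_ind (linaQ G1 G2 f1)
      (show linaQ G1 G2 f1 [] (Sum.inl G1.start) [] from LinearGrammar.Derives.refl) (by
        intro a B b a' C b' hP hr
        rcases hr with (⟨A1, u1, B1, v1, hr1, he⟩ | ⟨A1, u1, B1, v1, hr1, he⟩) | he
        · simp only [Prod.mk.injEq] at he
          obtain ⟨rfl, rfl, rfl, rfl⟩ := he
          exact LinearGrammar.Derives.step (show G1.Derives G1.start a A1 b from hP) hr1
        · simp only [Prod.mk.injEq] at he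
          obtain ⟨rfl, rfl, rfl, rfl⟩ := he
          obtain ⟨a1, a2, b1, b2, rfl, rfl, k1, k2⟩ : ∃ a1 a2 b1 b2, a = a1 ++ a2 ∧
            b = b2 ++ b1 ∧ G1.Derives G1.start a1 f1 b1 ∧ G2.Derives G2.start a2 A1 b2 := hP
          exact ⟨a1, a2 ++ a', b1, b' ++ b2, by simp, by simp, k1,
            LinearGrammar.Derives.step k2 hr1⟩
        · simp only [Set.mem_singleton_iff, Prod.mk.injEq] at he
          obtain ⟨rfl, rfl, rfl, rfl⟩ := he
          exact ⟨a, [], b, [], by simp, by simp, hP, LinearGrammar.Derives.refl⟩)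
      u (Sum.inr A1) v h
    obtain ⟨a1, a2, b1, b2, rfl, rfl, k1, k2⟩ := key
    exact ⟨a1, b1, a2 ++ t ++ b2, (h1 _ _).mpr k1, ⟨a2, A1, b2, t, k2, ht1, rfl⟩, by simp⟩
  · rintro ⟨u, v, x, hu, ⟨u2, B, v2, t, hd, ht, rfl⟩, rfl⟩
    have d1 := lina_map (hN := inferInstance) (s := Sum.inl G1.start)
        (hR := linaA_fin G1 G2 f1) (hT := lina_finT G2 (fun A => Sum.inr A))
        (fun A : G1.N => (Sum.inl A : G1.N ⊕ G2.N))
        (fun A u B v hr => Or.inl (Or.inl ⟨A, u, B, v, hr, rfl⟩)) ((h1 _ _).mp hu)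
    have d2 := lina_map (hN := inferInstance) (s := Sum.inl G1.start)
        (hR := linaA_fin G1 G2 f1) (hT := lina_finT G2 (fun A => Sum.inr A))
        (fun A : G2.N => (Sum.inr A : G1.N ⊕ G2.N))
        (fun A u B v hr => Or.inl (Or.inr ⟨A, u, B, v, hr, rfl⟩)) hd
    have d3 := lina_single (hN := inferInstance) (s := Sum.inl G1.start)
        (hR := linaA_fin G1 G2 f1) (hT := lina_finT G2 (fun A => Sum.inr A))
        (A := Sum.inl f1) (u := []) (v := []) (B := Sum.inr G2.start) (Or.inr rfl)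
    have d5 := der_trans (der_trans d1 d3) d2
    rw [List.append_nil, List.nil_append] at d5
    exact ⟨u ++ u2, Sum.inr B, v2 ++ v, t, d5, ⟨B, t, ht, rfl⟩, by simp⟩

end Pool.Agent.DEG
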