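import Pool.Agent.DEG.Der

/-!
DEG module RATA: unions and one-element sets of contexts are rational.

`Rat C`: there are a linear grammar `G` and a nonterminal `f` such that
`(u, v) ∈ C ↔ G.Derives G.start u f v` (terminal rules play no role).
* `single`: two nonterminals `false` (start), `true` (= `f`), one rule `(false, u, true, v)`.
* `union`: nonterminals `(G1.N ⊕ G2.N) ⊕ Bool`, start `inr false`, `f = inr true`; the rules of
  `G1` and `G2` and the rules without letters `inr false → inl (inl start1)`,
  `inr false → inl (inr start2)`, `inl (inl f1) → inr true`, `inl (inr f2) → inr true`.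
  (`mkG` in `Der.lean` makes a grammar from sets of rules; finite: images of finite sets.)
  One direction by `der_map`, `der_trans`, `der_single`. Other direction: by induction on the
  derivation from `inr false`, a derivable `(u, B, v)` satisfies: `B = inr false` and `u = v = []`;
  or `B = inl (inl b)` and `G1.Derives start1 u b v`; or `B = inl (inr b)` and the same for `G2`;
  or `B = inr true` and (`G1.Derives start1 u f1 v` or `G2.Derives start2 u f2 v`).
-/

namespace Pool.Agent.DEG

open Pool.Agent.Helper38.LinL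

variable {S : Type}

private lemma rata_fin (G : LinearGrammar S) {N : Type} (φ : G.N → N) :
    {r : N × List S × N × List S | ∃ A u B v, (A, u, B, v) ∈ G.rules ∧
      r = (φ A, u, φ B, v)}.Finite := by
  refine ((G.rules.finite_toSet).image
    (fun r : G.N × List S × G.N × List S => (φ r.1, r.2.1, φ r.2.2.1, r.2.2.2))).subset ?_
  rintro r ⟨A, u, B, v, hr, rfl⟩
  exact ⟨_, hr, rfl⟩

private lemma rata_ind {N : Type} {hN : Finite N} {s : N}
    {R : Set (N × List S × N × List S)} {hR : R.Finite} {T : Set (N × List S)}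
    {hT : T.Finite} (P : List S → N → List S → Prop)
    (h0 : P [] s []) (hs : ∀ u B v u' C v', P u B v → (B, u', C, v') ∈ R →
      P (u ++ u') C (v' ++ v)) (u : List S) (B : N) (v : List S)
    (h : (mkG N hN s R hR T hT).Derives s u B v) : P u B v := by
  have key : ∀ (u : List S) (B : (mkG N hN s R hR T hT).N) (v : List S),
      (mkG N hN s R hR T hT).Derives (mkG N hN s R hR T hT).start u B v → P u B v := by
    intro u B v h
    induction h with
    | refl => exact h0
    | step _ hr ih => exact hs _ _ _ _ _ _ ih (mem_rules_mkG.mp hr)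
  exact key u B v h

private lemma rata_single {N : Type} {hN : Finite N} {s : N}
    {R : Set (N × List S × N × List S)} {hR : R.Finite} {T : Set (N × List S)}
    {hT : T.Finite} {A B : N} {u v : List S} (h : (A, u, B, v) ∈ R) :
    (mkG N hN s R hR T hT).Derives A u B v :=
  der_single (mem_rules_mkG.mpr h)

private lemma rata_map {N : Type} {hN : Finite N} {s : N}
    {R : Set (N × List S × N × List S)} {hR : R.Finite} {T : Set (N × List S)}
    {hT : T.Finite} {G : LinearGrammar S} (φ : G.N → N)
    (hφ : ∀ A u B v, (A, u, B, v) ∈ G.rules → (φ A, u, φ B, v) ∈ R) {A B : G.N}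
    {u v : List S} (h : G.Derives A u B v) :
    (mkG N hN s R hR T hT).Derives (φ A) u (φ B) v :=
  der_map (H := mkG N hN s R hR T hT) φ (fun A u B v hr => mem_rules_mkG.mpr (hφ A u B v hr)) h

theorem Rat.single (u v : List S) : Rat {((u, v) : List S × List S)} := by
  have hR : ({(false, u, true, v)} : Set (Bool × List S × Bool × List S)).Finite :=
    Set.finite_singleton _
  refine ⟨mkG Bool inferInstance false {(false, u, true, v)} hR ∅ Set.finite_empty, true,
    fun a b => ⟨?_, ?_⟩⟩
  · intro h
    obtain ⟨rfl, rfl⟩ : a = u ∧ b = v := by simpa using h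
    exact rata_single rfl
  · intro h
    have key := rata_ind (fun a (B : Bool) b => (B = false ∧ a = [] ∧ b = []) ∨
      (B = true ∧ a = u ∧ b = v)) (Or.inl ⟨rfl, rfl, rfl⟩) (by
        intro a B b a' C b' hP hr
        rw [Set.mem_singleton_iff, Prod.mk.injEq, Prod.mk.injEq, Prod.mk.injEq] at hr
        obtain ⟨h1, rfl, h2, rfl⟩ := hr
        rcases hP with ⟨_, rfl, rfl⟩ | ⟨h3, _⟩
        · exact Or.inr ⟨h2, by simp, by simp⟩
        · rw [h1] at h3
          exact absurd h3 (by decide)) a true b h
    rcases key with ⟨h3, _⟩ | ⟨_, rfl, rfl⟩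
    · exact absurd h3 (by decide)
    · rfl

/-- rules of the union -/
private def rataU (G1 G2 : LinearGrammar S) (f1 : G1.N) (f2 : G2.N) :
    Set (((G1.N ⊕ G2.N) ⊕ Bool) × List S × ((G1.N ⊕ G2.N) ⊕ Bool) × List S) :=
  ({r | ∃ A u B v, (A, u, B, v) ∈ G1.rules ∧
      r = (Sum.inl (Sum.inl A), u, Sum.inl (Sum.inl B), v)} ∪
    {r | ∃ A u B v, (A, u, B, v) ∈ G2.rules ∧
      r = (Sum.inl (Sum.inr A), u, Sum.inl (Sum.inr B), v)}) ∪
    {(Sum.inr false, [], Sum.inl (Sum.inl G1.start), []),
      (Sum.inr false, [], Sum.inl (Sum.inr G2.start), []),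
      (Sum.inl (Sum.inl f1), [], Sum.inr true, []),
      (Sum.inl (Sum.inr f2), [], Sum.inr true, [])}

private lemma rataU_fin (G1 G2 : LinearGrammar S) (f1 : G1.N) (f2 : G2.N) :
    (rataU G1 G2 f1 f2).Finite :=
  ((rata_fin G1 (fun A => Sum.inl (Sum.inl A))).union
    (rata_fin G2 (fun A => Sum.inl (Sum.inr A)))).union (Set.toFinite _)

/-- invariant -/
private def rataP (G1 G2 : LinearGrammar S) (f1 : G1.N) (f2 : G2.N) (a : List S)
    (B : (G1.N ⊕ G2.N) ⊕ Bool) (b : List S) : Prop :=
  match B with
  | Sum.inr false => a = [] ∧ b = []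
  | Sum.inl (Sum.inl x) => G1.Derives G1.start a x b
  | Sum.inl (Sum.inr x) => G2.Derives G2.start a x b
  | Sum.inr true => G1.Derives G1.start a f1 b ∨ G2.Derives G2.start a f2 b

theorem Rat.union {C C' : Set (List S × List S)} (h : Rat C) (h' : Rat C') : Rat (C ∪ C') := by
  obtain ⟨G1, f1, h1⟩ := h
  obtain ⟨G2, f2, h2⟩ := h'
  have := G1.finN
  have := G2.finN
  refine ⟨mkG ((G1.N ⊕ G2.N) ⊕ Bool) inferInstance (Sum.inr false) (rataU G1 G2 f1 f2)
    (rataU_fin G1 G2 f1 f2) ∅ Set.finite_empty, (Sum.inr true : (G1.N ⊕ G2.N) ⊕ Bool),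
    fun a b => ⟨?_, ?_⟩⟩
  · rintro (h | h)
    · have d1 := rata_map (hN := inferInstance) (s := Sum.inr false)
        (hR := rataU_fin G1 G2 f1 f2) (T := ∅) (hT := Set.finite_empty)
        (fun A : G1.N => (Sum.inl (Sum.inl A) : (G1.N ⊕ G2.N) ⊕ Bool))
        (fun A u B v hr => Or.inl (Or.inl ⟨A, u, B, v, hr, rfl⟩)) ((h1 a b).mp h)
      have d3 := rata_single (hN := inferInstance) (s := Sum.inr false)
        (hR := rataU_fin G1 G2 f1 f2) (T := ∅) (hT := Set.finite_empty)
        (A := (Sum.inr false)) (u := []) (v := [])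
        (B := Sum.inl (Sum.inl G1.start)) (Or.inr (Or.inl rfl))
      have d4 := rata_single (hN := inferInstance) (s := Sum.inr false)
        (hR := rataU_fin G1 G2 f1 f2) (T := ∅) (hT := Set.finite_empty)
        (A := Sum.inl (Sum.inl f1)) (u := []) (v := [])
        (B := Sum.inr true) (Or.inr (Or.inr (Or.inr (Or.inl rfl))))
      have d5 := der_trans (der_trans d3 d1) d4
      rw [List.nil_append, List.append_nil, List.append_nil, List.nil_append] at d5
      exact d5
    · have d1 := rata_map (hN := inferInstance) (s := Sum.inr false)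
        (hR := rataU_fin G1 G2 f1 f2) (T := ∅) (hT := Set.finite_empty)
        (fun A : G2.N => (Sum.inl (Sum.inr A) : (G1.N ⊕ G2.N) ⊕ Bool))
        (fun A u B v hr => Or.inl (Or.inr ⟨A, u, B, v, hr, rfl⟩)) ((h2 a b).mp h)
      have d3 := rata_single (hN := inferInstance) (s := Sum.inr false)
        (hR := rataU_fin G1 G2 f1 f2) (T := ∅) (hT := Set.finite_empty)
        (A := (Sum.inr false)) (u := []) (v := [])
        (B := Sum.inl (Sum.inr G2.start)) (Or.inr (Or.inr (Or.inl rfl)))
      have d4 := rata_single (hN := inferInstance) (s := Sum.inr false)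
        (hR := rataU_fin G1 G2 f1 f2) (T := ∅) (hT := Set.finite_empty)
        (A := Sum.inl (Sum.inr f2)) (u := []) (v := [])
        (B := Sum.inr true) (Or.inr (Or.inr (Or.inr (Or.inr rfl))))
      have d5 := der_trans (der_trans d3 d1) d4
      rw [List.nil_append, List.append_nil, List.append_nil, List.nil_append] at d5
      exact d5
  · intro h
    have key := rata_ind (rataP G1 G2 f1 f2)
      (show rataP G1 G2 f1 f2 [] (Sum.inr false) [] from ⟨rfl, rfl⟩) (by
        intro a B b a' C b' hP hr
        rcases hr with (⟨A1, u1, B1, v1, hr1, he⟩ | ⟨A1, u1, B1, v1, hr1, he⟩) |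
          he | he | he | he
        · simp only [Prod.mk.injEq] at he
          obtain ⟨rfl, rfl, rfl, rfl⟩ := he
          exact LinearGrammar.Derives.step (show G1.Derives G1.start a A1 b from hP) hr1
        · simp only [Prod.mk.injEq] at he
          obtain ⟨rfl, rfl, rfl, rfl⟩ := he
          exact LinearGrammar.Derives.step (show G2.Derives G2.start a A1 b from hP) hr1
        · simp only [Prod.mk.injEq] at he
          obtain ⟨rfl, rfl, rfl, rfl⟩ := he
          obtain ⟨rfl, rfl⟩ : a = [] ∧ b = [] := hP
          exact LinearGrammar.Derives.refl (G := G1)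
        · simp only [Prod.mk.injEq] at he
          obtain ⟨rfl, rfl, rfl, rfl⟩ := he
          obtain ⟨rfl, rfl⟩ : a = [] ∧ b = [] := hP
          exact LinearGrammar.Derives.refl (G := G2)
        · simp only [Prod.mk.injEq] at he
          obtain ⟨rfl, rfl, rfl, rfl⟩ := he
          rw [List.append_nil, List.nil_append]
          exact Or.inl (show G1.Derives G1.start a f1 b from hP)
        · simp only [Set.mem_singleton_iff, Prod.mk.injEq] at he
          obtain ⟨rfl, rfl, rfl, rfl⟩ := he
          rw [List.append_nil, List.nil_append]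
          exact Or.inr (show G2.Derives G2.start a f2 b from hP)) a (Sum.inr true) b h
    rcases key with k | k
    · exact Or.inl ((h1 a b).mpr k)
    · exact Or.inr ((h2 a b).mpr k)

end Pool.Agent.DEG
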