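import Pool.Agent.DEG.Der

/-!
DEG module RATB: products of rational sets of contexts are rational.

Nonterminals `G1.N ⊕ G2.N`, start `inl start1`, `f = inr f2`; the rules of `G1` and `G2` and the
rule without letters `inl f1 → inr start2` (`mkG` in `Der.lean`). One direction by `der_map`,
`der_single`, `der_trans`. Other direction: by induction on the derivation from `inl start1`, a
derivable `(u, B, v)` satisfies: `B = inl b` and `G1.Derives start1 u b v`; or `B = inr b` and
`u = u1 ++ u2`, `v = v2 ++ v1` with `G1.Derives start1 u1 f1 v1` and `G2.Derives start2 u2 b v2`.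
-/

namespace Pool.Agent.DEG

open Pool.Agent.Helper38.LinL

variable {S : Type}

/-- The rules of the product grammar. -/
private def ratbR (G1 G2 : LinearGrammar S) (f1 : G1.N) :
    Set ((G1.N ⊕ G2.N) × List S × (G1.N ⊕ G2.N) × List S) :=
  ((fun r : G1.N × List S × G1.N × List S => (Sum.inl r.1, r.2.1, Sum.inl r.2.2.1, r.2.2.2)) ''
      (G1.rules : Set (G1.N × List S × G1.N × List S))) ∪
    ((fun r : G2.N × List S × G2.N × List S => (Sum.inr r.1, r.2.1, Sum.inr r.2.2.1, r.2.2.2)) ''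
      (G2.rules : Set (G2.N × List S × G2.N × List S))) ∪
    {(Sum.inl f1, [], Sum.inr G2.start, [])}

private theorem ratbR_finite (G1 G2 : LinearGrammar S) (f1 : G1.N) :
    (ratbR G1 G2 f1).Finite :=
  ((G1.rules.finite_toSet.image _).union (G2.rules.finite_toSet.image _)).union
    (Set.finite_singleton _)

/-- The product grammar. -/
private noncomputable def ratbG (G1 G2 : LinearGrammar S) (f1 : G1.N) : LinearGrammar S :=
  mkG (G1.N ⊕ G2.N) (have := G1.finN; have := G2.finN; inferInstance) (Sum.inl G1.start)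
    (ratbR G1 G2 f1) (ratbR_finite G1 G2 f1) ∅ Set.finite_empty

private theorem ratb_inv (G1 G2 : LinearGrammar S) (f1 : G1.N) (u v : List S)
    (B : (ratbG G1 G2 f1).N) (hd : (ratbG G1 G2 f1).Derives (ratbG G1 G2 f1).start u B v) :
    (∃ b : G1.N, B = (Sum.inl b : G1.N ⊕ G2.N) ∧ G1.Derives G1.start u b v) ∨
      (∃ (b : G2.N) (u1 v1 u2 v2 : List S), B = (Sum.inr b : G1.N ⊕ G2.N) ∧ u = u1 ++ u2 ∧
        v = v2 ++ v1 ∧ G1.Derives G1.start u1 f1 v1 ∧ G2.Derives G2.start u2 b v2) := by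
  induction hd with
  | refl => exact Or.inl ⟨G1.start, rfl, LinearGrammar.Derives.refl⟩
  | @step u B v u' C v' _ hr ih =>
    have hr' : (B, u', C, v') ∈ ratbR G1 G2 f1 := mem_rules_mkG.1 hr
    rcases hr' with (⟨r, hr1, hr2⟩ | ⟨r, hr1, hr2⟩) | hr2
    · obtain ⟨rA, ru, rB, rv⟩ := r
      have e1 : (Sum.inl rA : G1.N ⊕ G2.N) = B := congrArg (fun t => t.1) hr2
      have e2 : ru = u' := congrArg (fun t => t.2.1) hr2
      have e3 : (Sum.inl rB : G1.N ⊕ G2.N) = C := congrArg (fun t => t.2.2.1) hr2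
      have e4 : rv = v' := congrArg (fun t => t.2.2.2) hr2
      subst e2 e4
      rcases ih with ⟨b, hb, hd⟩ | ⟨b, u1, v1, u2, v2, hb, -⟩
      · left
        rw [← e1] at hb
        have hb' := Sum.inl.inj hb
        subst hb'
        exact ⟨rB, e3.symm, LinearGrammar.Derives.step hd (Finset.mem_coe.1 hr1)⟩
      · rw [← e1] at hb
        cases hb
    · obtain ⟨rA, ru, rB, rv⟩ := r
      have e1 : (Sum.inr rA : G1.N ⊕ G2.N) = B := congrArg (fun t => t.1) hr2
      have e2 : ru = u' := congrArg (fun t => t.2.1) hr2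
      have e3 : (Sum.inr rB : G1.N ⊕ G2.N) = C := congrArg (fun t => t.2.2.1) hr2
      have e4 : rv = v' := congrArg (fun t => t.2.2.2) hr2
      subst e2 e4
      rcases ih with ⟨b, hb, hd⟩ | ⟨b, u1, v1, u2, v2, hb, hu, hv, hd1, hd2⟩
      · rw [← e1] at hb
        cases hb
      · right
        rw [← e1] at hb
        have hb' := Sum.inr.inj hb
        subst hb'
        refine ⟨rB, u1, v1, u2 ++ ru, rv ++ v2, e3.symm, ?_, ?_, hd1,
          LinearGrammar.Derives.step hd2 (Finset.mem_coe.1 hr1)⟩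
        · rw [hu, List.append_assoc]
        · rw [hv, List.append_assoc]
    · have hr3 : (B, u', C, v') = ((Sum.inl f1 : G1.N ⊕ G2.N), ([] : List S),
        (Sum.inr G2.start : G1.N ⊕ G2.N), ([] : List S)) := hr2
      have e1 : B = (Sum.inl f1 : G1.N ⊕ G2.N) := congrArg (fun t => t.1) hr3
      have e2 : u' = [] := congrArg (fun t => t.2.1) hr3
      have e3 : C = (Sum.inr G2.start : G1.N ⊕ G2.N) := congrArg (fun t => t.2.2.1) hr3
      have e4 : v' = [] := congrArg (fun t => t.2.2.2) hr3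
      subst e2 e4
      rcases ih with ⟨b, hb, hd⟩ | ⟨b, u1, v1, u2, v2, hb, -⟩
      · right
        rw [e1] at hb
        have hb' := Sum.inl.inj hb
        subst hb'
        exact ⟨G2.start, u, v, [], [], e3, rfl, rfl, hd, LinearGrammar.Derives.refl⟩
      · rw [e1] at hb
        cases hb

theorem Rat.mul {C C' : Set (List S × List S)} (h : Rat C) (h' : Rat C') : Rat (cmul C C') := by
  obtain ⟨G1, f1, h1⟩ := h
  obtain ⟨G2, f2, h2⟩ := h'
  refine ⟨ratbG G1 G2 f1, (Sum.inr f2 : G1.N ⊕ G2.N), ?_⟩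
  intro u v
  constructor
  · rintro ⟨u1, v1, u2, v2, hc, hc', he⟩
    have d1 : (ratbG G1 G2 f1).Derives (Sum.inl G1.start : G1.N ⊕ G2.N) u1
        (Sum.inl f1 : G1.N ⊕ G2.N) v1 :=
      der_map (G := G1) (H := ratbG G1 G2 f1) (Sum.inl : G1.N → G1.N ⊕ G2.N) (fun A u B v hr =>
        mem_rules_mkG.2 (Or.inl (Or.inl ⟨(A, u, B, v), hr, rfl⟩))) ((h1 _ _).1 hc)
    have d2 : (ratbG G1 G2 f1).Derives (Sum.inl f1 : G1.N ⊕ G2.N) []
        (Sum.inr G2.start : G1.N ⊕ G2.N) [] :=
      der_single (mem_rules_mkG.2 (Or.inr rfl))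
    have d3 : (ratbG G1 G2 f1).Derives (Sum.inr G2.start : G1.N ⊕ G2.N) u2
        (Sum.inr f2 : G1.N ⊕ G2.N) v2 :=
      der_map (G := G2) (H := ratbG G1 G2 f1) (Sum.inr : G2.N → G1.N ⊕ G2.N) (fun A u B v hr =>
        mem_rules_mkG.2 (Or.inl (Or.inr ⟨(A, u, B, v), hr, rfl⟩))) ((h2 _ _).1 hc')
    have h3 := der_trans (der_trans d1 d2) d3
    rw [List.append_nil, List.nil_append] at h3
    have e1 : u = u1 ++ u2 := congrArg (fun t => t.1) he
    have e2 : v = v2 ++ v1 := congrArg (fun t => t.2) he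
    rw [e1, e2]
    exact h3
  · intro hd
    rcases ratb_inv G1 G2 f1 u v _ hd with ⟨b, hb, -⟩ | ⟨b, u1, v1, u2, v2, hb, hu, hv, hd1, hd2⟩
    · cases hb
    · have hb' := Sum.inr.inj hb
      subst hb'
      exact ⟨u1, v1, u2, v2, (h1 _ _).2 hd1, (h2 _ _).2 hd2, by rw [hu, hv]⟩

end Pool.Agent.DEG
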