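import Mathlib

/-!
# Regular languages (definition for project DEG)
-/

namespace Pool.Agent.DEG

/-- Regular languages: accepted by a deterministic finite automaton. -/
def Reg {A : Type} (L : Set (List A)) : Prop :=
  ∃ (σ : Type) (_ : Finite σ) (s0 : σ) (δ : σ → A → σ) (F : Set σ),
    ∀ w, w ∈ L ↔ w.foldl δ s0 ∈ F

/-- The previous letter. -/
def prv {A : Type} (z : List A) (j : ℕ) : Option A := if j = 0 then none else z[j - 1]?

/-- Every letter of `z` satisfies the condition `P` together with its neighbours. -/
def Win {A : Type} (P : Option A → A → Option A → Prop) (z : List A) : Prop :=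
  ∀ (j : ℕ) (a : A), z[j]? = some a → P (prv z j) a z[j + 1]?

/-- The value of a sequence of digits in base `B + 1`, most significant digit first. -/
def val (B : ℕ) (l : List ℕ) : ℕ := l.foldl (fun v d => v * (B + 1) + d) 0

/-- Digit number `j` (from the left) of the representation of `v` with `m` digits in
base `B + 1`. -/
def dg (B m v j : ℕ) : Fin (B + 1) := Fin.ofNat (B + 1) (v / (B + 1) ^ (m - 1 - j))

end Pool.Agent.DEG
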