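import Pool.Agent.DEG.Der
import Pool.Agent.DEG.Reg

/-!
DEG module RATD: contexts read off a regular language are rational.

Let `(σ, s0, δ, F)` be a DFA for `K`. Nonterminals `Option σ`, start `some s0`, `f = none`; the
rules `(some s, l a, some (δ s a), r a)` for all `s`, `a` (finitely many) and
`(some s, [], none, [])` for `s ∈ F` (`mkG` in `Der.lean`). One direction: induction on the word
`z` from the right shows `Derives (some s0) (z.map l).flatten (some (foldl δ s0 z))
(z.map r).reverse.flatten`. Other direction: by induction on the derivation from `some s0`, a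
derivable `(u, B, v)` satisfies: `B = some s` and for some `z`, `s = z.foldl δ s0`,
`u = (z.map l).flatten`, `v = (z.map r).reverse.flatten`; or `B = none` and the same with
`z ∈ K`.
-/

namespace Pool.Agent.DEG

open Pool.Agent.Helper38.LinL

variable {S : Type}

private lemma ratd_ind {N : Type} {hN : Finite N} {s : N}
    {R : Set (N × List S × N × List S)} {hR : R.Finite} {T : Set (N × List S)}
    {hT : T.Finite} (P : List S → N → List S → Prop)
    (h0 : P [] s []) (hs : ∀ u B v u' C v', P u B v → (B, u', C, v') ∈ R →
      P (u ++ u') C (v' ++ v)) (u : List S) (B : N) (v : List S)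
    (h : (mkG N hN s R hR T hT).Derives s u B v) : P u B v := by
  have key : ∀ (u : List S) (B : (mkG N hN s R hR T hT).N) (v : List S),
      (mkG N hN s R hR T hT).Derives (mkG N hN s R hR T hT).start u B v → P u B v := by
    intro u B v h
    induction h with
    | refl => exact h0
    | step _ hr ih => exact hs _ _ _ _ _ _ ih (mem_rules_mkG.mp hr)
  exact key u B v h

private lemma ratd_single {N : Type} {hN : Finite N} {s : N}
    {R : Set (N × List S × N × List S)} {hR : R.Finite} {T : Set (N × List S)}
    {hT : T.Finite} {A B : N} {u v : List S} (h : (A, u, B, v) ∈ R) :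
    (mkG N hN s R hR T hT).Derives A u B v :=
  der_single (mem_rules_mkG.mpr h)

private lemma ratd_map {N : Type} {hN : Finite N} {s : N}
    {R : Set (N × List S × N × List S)} {hR : R.Finite} {T : Set (N × List S)}
    {hT : T.Finite} {G : LinearGrammar S} (φ : G.N → N)
    (hφ : ∀ A u B v, (A, u, B, v) ∈ G.rules → (φ A, u, φ B, v) ∈ R) {A B : G.N}
    {u v : List S} (h : G.Derives A u B v) :
    (mkG N hN s R hR T hT).Derives (φ A) u (φ B) v :=
  der_map (H := mkG N hN s R hR T hT) φ (fun A u B v hr => mem_rules_mkG.mpr (hφ A u B v hr)) h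

theorem Rat.ofReg {S Δ : Type} [Finite Δ] {K : Set (List Δ)} (h : Reg K) (l r : Δ → List S) :
    Rat {p : List S × List S | ∃ z ∈ K, p = ((z.map l).flatten, (z.map r).reverse.flatten)} := by
  obtain ⟨σ, hσ, s0, δ, F, hF⟩ := h
  let R : Set (Option σ × List S × Option σ × List S) :=
    Set.range (fun x : σ × Δ => (some x.1, l x.2, some (δ x.1 x.2), r x.2)) ∪
      (fun s : σ => (some s, [], none, [])) '' F
  have hR : R.Finite := (Set.finite_range _).union ((Set.toFinite F).image _)
  refine ⟨mkG (Option σ) inferInstance (some s0) R hR ∅ Set.finite_empty, (none : Option σ),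
    fun a b => ⟨?_, ?_⟩⟩
  · rintro ⟨z, hz, he⟩
    rw [Prod.mk.injEq] at he
    obtain ⟨rfl, rfl⟩ := he
    have key : ∀ z : List Δ, (mkG (Option σ) inferInstance (some s0) R hR ∅
        Set.finite_empty).Derives (some s0) (z.map l).flatten (some (z.foldl δ s0) : Option σ)
        (z.map r).reverse.flatten := by
      intro z
      induction z using List.reverseRecOn with
      | nil => exact LinearGrammar.Derives.refl
      | append_singleton z d ih =>
        have d1 := ratd_single (hN := inferInstance) (s := some s0) (hR := hR) (T := ∅)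
          (hT := Set.finite_empty) (A := some (z.foldl δ s0)) (u := l d)
          (B := some (δ (z.foldl δ s0) d)) (v := r d) (Or.inl ⟨(z.foldl δ s0, d), rfl⟩)
        have d2 := der_trans ih d1
        rw [List.foldl_append, List.foldl_cons, List.foldl_nil]
        simpa using d2
    have d3 := ratd_single (hN := inferInstance) (s := some s0) (hR := hR) (T := ∅)
      (hT := Set.finite_empty) (A := some (z.foldl δ s0)) (u := [])
      (B := none) (v := []) (Or.inr ⟨z.foldl δ s0, (hF z).mp hz, rfl⟩)
    have d4 := der_trans (key z) d3
    rw [List.append_nil, List.nil_append] at d4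
    exact d4
  · intro h
    have key := ratd_ind (fun (a : List S) (B : Option σ) (b : List S) =>
      ∃ z : List Δ, a = (z.map l).flatten ∧ b = (z.map r).reverse.flatten ∧
        (match B with
          | some s => s = z.foldl δ s0
          | none => z ∈ K)) ⟨[], rfl, rfl, rfl⟩ (by
        rintro a B b a' C b' ⟨z, rfl, rfl, hz⟩ hr
        rcases hr with ⟨⟨s, d⟩, he⟩ | ⟨s, hs, he⟩
        · simp only [Prod.mk.injEq] at he
          obtain ⟨rfl, rfl, rfl, rfl⟩ := he
          have hz' : s = z.foldl δ s0 := hz
          refine ⟨z ++ [d], by simp, by simp, ?_⟩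
          simp [hz']
        · simp only [Prod.mk.injEq] at he
          obtain ⟨rfl, rfl, rfl, rfl⟩ := he
          have hz' : s = z.foldl δ s0 := hz
          refine ⟨z, by simp, by simp, ?_⟩
          exact (hF z).mpr (hz' ▸ hs)) a none b h
    obtain ⟨z, rfl, rfl, hz⟩ := key
    exact ⟨z, hz, rfl⟩

end Pool.Agent.DEG
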