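import Pool.Agent.DEG.LinA
import Pool.Agent.DEG.RatA
import Pool.Agent.DEG.RatB
import Pool.Agent.DEG.RatD
import Pool.Agent.DEG.RegA

/-!
DEG module LINB: regular languages are linear; useful sets of contexts.

* `Lin.ofReg`: `X = cact C {[]}` with `C = {(z, []) | z ∈ X}`, which is `Rat.ofReg` with
  `l a = [a]`, `r a = []` (`(z.map fun a => [a]).flatten = z`, `((z.map fun _ => []).reverse)
  .flatten = []`).
* `Rat.left`: `Rat.ofReg` with `l = g`, `r a = []`. `Rat.right`: apply `Rat.ofReg` to the
  reversed language `{z | z.reverse ∈ K}` with `l a = []`, `r = g`.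
* `Rat.sync`: `Rat.ofReg` for `K = R`, `l (a, b) = [g a]`, `r (a, b) = [g b]`; for
  `a.length = b.length` put `z = a.zip b` (`List.map_fst_zip`, `List.map_snd_zip`,
  `List.zip_of_prod` or `List.unzip`); `z.map r` reversed and flattened is
  `(b.map g).reverse`.
-/

namespace Pool.Agent.DEG

open Pool.Agent.Helper38.LinL

variable {S D : Type}

theorem Lin.ofReg [Finite S] {X : Set (List S)} (h : Reg X) : Lin X := by
  have h1 := Rat.ofReg h (fun a => [a]) (fun _ => ([] : List S))
  have h2 := Lin.act h1 (Lin.single [])
  have e : cact {p : List S × List S | ∃ z ∈ X, p = ((z.map fun a => [a]).flatten,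
      (z.map fun _ => ([] : List S)).reverse.flatten)} {[]} = X := by
    have e1 : ∀ z : List S, (z.map fun a => [a]).flatten = z := by
      intro z
      induction z with
      | nil => rfl
      | cons a z ih => rw [List.map_cons, List.flatten_cons, ih]; rfl
    have e2 : ∀ z : List S, (z.map fun _ => ([] : List S)).reverse.flatten = [] := by
      intro z
      rw [List.flatten_eq_nil_iff]
      intro x hx
      rw [List.mem_reverse, List.mem_map] at hx
      obtain ⟨_, _, rfl⟩ := hx
      rfl
    ext w
    constructor
    · rintro ⟨u, v, t, ⟨z, hz, he⟩, ht, rfl⟩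
      rw [Set.mem_singleton_iff] at ht
      rw [e1, e2, Prod.mk.injEq] at he
      obtain ⟨rfl, rfl⟩ := he
      subst ht
      simpa using hz
    · intro hw
      exact ⟨w, [], [], ⟨w, hw, by rw [e1, e2]⟩, rfl, by simp⟩
  rwa [e] at h2

private lemma linb_sing {D : Type} (g : D → S) (z : List D) :
    (z.map fun a => [g a]).flatten = z.map g := by
  induction z with
  | nil => rfl
  | cons a z ih => rw [List.map_cons, List.flatten_cons, ih]; rfl

private lemma linb_nil {D : Type} (z : List D) :
    (z.map fun _ => ([] : List S)).flatten = [] := by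
  rw [List.flatten_eq_nil_iff]
  intro x hx
  rw [List.mem_map] at hx
  obtain ⟨_, _, rfl⟩ := hx
  rfl

theorem Rat.left [Finite D] {K : Set (List D)} (h : Reg K) (g : D → S) :
    Rat {p : List S × List S | ∃ z ∈ K, p = (z.map g, [])} := by
  have h1 := Rat.ofReg h (fun a => [g a]) (fun _ => ([] : List S))
  simp only [linb_sing, ← List.map_reverse, linb_nil] at h1
  exact h1

theorem Rat.right [Finite D] {K : Set (List D)} (h : Reg K) (g : D → S) :
    Rat {p : List S × List S | ∃ z ∈ K, p = ([], z.map g)} := by
  have h1 := Rat.ofReg h.reverse (fun _ => ([] : List S)) (fun a => [g a])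
  simp only [linb_sing, ← List.map_reverse, linb_nil] at h1
  have e : {p : List S × List S | ∃ z ∈ {z : List D | z.reverse ∈ K},
      p = ([], List.map g z.reverse)} = {p : List S × List S | ∃ z ∈ K, p = ([], z.map g)} := by
    ext p
    constructor
    · rintro ⟨z, hz, rfl⟩
      exact ⟨z.reverse, hz, rfl⟩
    · rintro ⟨z, hz, rfl⟩
      exact ⟨z.reverse, by simpa using hz, by simp⟩
  rwa [e] at h1

theorem Rat.sync [Finite D] {R : Set (List (D × D))} (h : Reg R) (g : D → S) :
    Rat {p : List S × List S | ∃ a b : List D, a.length = b.length ∧ a.zip b ∈ R ∧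
      p = (a.map g, (b.map g).reverse)} := by
  have h1 := Rat.ofReg h (fun x : D × D => [g x.1]) (fun x : D × D => [g x.2])
  simp only [linb_sing (fun x : D × D => g x.1), ← List.map_reverse,
    linb_sing (fun x : D × D => g x.2)] at h1
  have e : {p : List S × List S | ∃ z ∈ R, p = (z.map fun x => g x.1,
      z.reverse.map fun x => g x.2)} = {p : List S × List S | ∃ a b : List D,
        a.length = b.length ∧ a.zip b ∈ R ∧ p = (a.map g, (b.map g).reverse)} := by
    ext p
    constructor
    · rintro ⟨z, hz, rfl⟩
      refine ⟨z.map Prod.fst, z.map Prod.snd, by simp, ?_, ?_⟩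
      · have : (z.map Prod.fst).zip (z.map Prod.snd) = z := by
          rw [← List.unzip_fst, ← List.unzip_snd, List.zip_unzip]
        rwa [this]
      · rw [List.map_map, List.map_map, ← List.map_reverse]
        rfl
    · rintro ⟨a, b, hl, hz, rfl⟩
      refine ⟨a.zip b, hz, ?_⟩
      have e1 : (a.zip b).map (fun x => g x.1) = a.map g := by
        have := List.map_fst_zip hl.le
        conv_rhs => rw [← this, List.map_map]
        rfl
      have e2 : (a.zip b).map (fun x => g x.2) = b.map g := by
        have := List.map_snd_zip hl.ge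
        conv_rhs => rw [← this, List.map_map]
        rfl
      rw [e1, List.map_reverse, e2]
  rwa [e] at h1

end Pool.Agent.DEG
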