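import Pool.Agent.DEG.Odo
import Pool.Agent.Helper38.LinL.Conv

/-!
# Words and functions computable in logarithmic space (definitions for project DEG)
-/

namespace Pool.Agent.DEG

open Pool.Agent.Helper38.LinL

/-- A word depending on the input word `w` and on numbers `y`, with length and letters computable
in logarithmic space. -/
def VW {σ β Y : Type} [Cod Y] (V : List σ → Y → List β) : Prop :=
  (Fn fun w y => (V w y).length) ∧ ∀ b, FP fun w (z : Y × ℕ) => (V w z.1)[z.2]? = some b

/-- Functions on words computable in logarithmic space, in the strong sense that they preserve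
`VW`. -/
def LogFun {α β : Type} (f : List α → List β) : Prop :=
  ∀ {σ : Type} [Finite σ] {Y : Type} [Cod Y] (V : List σ → Y → List α), VW V →
    VW fun w y => f (V w y)

/-- The letter in a cell of the first kind. -/
def ltr {α : Type} {ρ ω : ℕ} : Cell α ρ ω ⊕ Fin 4 → Option α
  | Sum.inl (Sum.inl (Sym.letter a, _)) => some a
  | _ => none

/-- Decoding: the letters of the longest run of cells with letters, which begins at the second
cell. -/
def dcd {α : Type} {ρ ω : ℕ} (w : List (Cell α ρ ω ⊕ Fin 4)) : List α :=
  (w.tail.takeWhile fun c => (ltr c).isSome).filterMap ltr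

variable {α : Type}

/-- Length of a record. -/
def ql (K n : ℕ) : ℕ := n + 2 + K * sz n

/-- Cell number `o` of record number `t`. -/
def cellAt (ρ ω K : ℕ) (x : List α) (t o : ℕ) : Cell α ρ ω :=
  if o < x.length + 2 then
    Sum.inl (readSym x o, decide (o = t / NV ω K x.length % (x.length + 2)))
  else
    Sum.inr (decide ((o - (x.length + 2)) % K = 0),
      decide ((o - (x.length + 2)) % K = 0 ∧ dg 1 (sz x.length)
        (t / NV ω K x.length % (x.length + 2)) ((o - (x.length + 2)) / K) = 1),
      dg ρ (K * sz x.length) (t / ((x.length + 2) * NV ω K x.length)) (o - (x.length + 2)),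
      dg ω (K * sz x.length) (t % NV ω K x.length) (o - (x.length + 2)))

/-- Letter number `i` of the code of `x`; `t`, `j`, `o` are the numbers of the record, of the
block in the record, and of the letter in the block. -/
def lett (ρ ω K : ℕ) (x : List α) (i : ℕ) : Cell α ρ ω ⊕ Fin 4 :=
  let q := ql K x.length
  let t := i / (4 * (q + 1))
  let j := i % (4 * (q + 1)) / (q + 1)
  let o := i % (4 * (q + 1)) % (q + 1)
  if o = q then Sum.inr (Fin.ofNat 4 j)
  else Sum.inl (cellAt ρ ω K x t (if j % 2 = 0 then o else q - 1 - o))

end Pool.Agent.DEG
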