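import Pool.Agent.DEG.Reg

/-!
DEG module OPAT: the pattern of the active cells is regular.

Automaton with states `Option (Fin K × Bool)`, start `some (0, true)`; the state `some (i, t)`
means that the next position is `≡ i` modulo `K`, and `t = true` if nothing has been read; the
letter `a` must be `decide (i = 0)` (otherwise the next state is `none`), and the next state is
`some (i + 1 mod K, false)`. Accepting: `some (0, false)`. Invariant (induction on the word from
the right): the state after `l` is `some (i, t)` iff
`l = (List.range l.length).map fun j => decide (j % K = 0)`, `i = l.length % K`,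
`t = decide (l = [])`.
-/

namespace Pool.Agent.DEG

private def opatPat (K n : ℕ) : List Bool := (List.range n).map fun j => decide (j % K = 0)

private theorem opatPat_succ (K n : ℕ) :
    opatPat K (n + 1) = opatPat K n ++ [decide (n % K = 0)] := by
  rw [opatPat, opatPat, List.range_succ, List.map_append, List.map_singleton]

private theorem opatPat_length (K n : ℕ) : (opatPat K n).length = n := by
  simp [opatPat]

private def opatStep (K : ℕ) : Option (Fin (K + 1) × Bool) → Bool → Option (Fin (K + 1) × Bool)
  | none, _ => none
  | some (i, _), a => if a = decide (i = 0) then some (i + 1, false) else none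

private theorem opat_zero_iff (K n : ℕ) : Fin.ofNat (K + 1) n = 0 ↔ n % (K + 1) = 0 := by
  rw [Fin.ext_iff, Fin.val_ofNat]
  rfl

private theorem opat_succ (K n : ℕ) : Fin.ofNat (K + 1) n + 1 = Fin.ofNat (K + 1) (n + 1) := by
  rw [Fin.ext_iff, Fin.val_add, Fin.val_ofNat, Fin.val_ofNat, Fin.val_one', ← Nat.add_mod]

private theorem opat_inv (K : ℕ) (l : List Bool) :
    l.foldl (opatStep K) (some (0, true)) =
      if l = opatPat (K + 1) l.length then some (Fin.ofNat (K + 1) l.length, decide (l = []))
      else none := by
  induction l using List.reverseRecOn with
  | nil =>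
    have h : ([] : List Bool) = opatPat (K + 1) ([] : List Bool).length := rfl
    rw [if_pos h]
    rfl
  | append_singleton l a ih =>
    rw [List.foldl_append, ih, List.foldl_cons, List.foldl_nil, List.length_append,
      List.length_singleton, opatPat_succ]
    by_cases h : l = opatPat (K + 1) l.length
    · rw [if_pos h]
      have h2 : (decide (Fin.ofNat (K + 1) l.length = 0)) = decide (l.length % (K + 1) = 0) :=
        decide_eq_decide.2 (opat_zero_iff K l.length)
      by_cases ha : a = decide (l.length % (K + 1) = 0)
      · have h1 : opatStep K (some (Fin.ofNat (K + 1) l.length, decide (l = []))) a =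
            some (Fin.ofNat (K + 1) l.length + 1, false) := by
          change (if a = decide (Fin.ofNat (K + 1) l.length = 0) then
            some (Fin.ofNat (K + 1) l.length + 1, false) else none) = _
          rw [h2, if_pos ha]
        rw [h1, opat_succ, if_pos (by rw [← h, ← ha])]
        simp
      · have h1 : opatStep K (some (Fin.ofNat (K + 1) l.length, decide (l = []))) a = none := by
          change (if a = decide (Fin.ofNat (K + 1) l.length = 0) then
            some (Fin.ofNat (K + 1) l.length + 1, false) else none) = _
          rw [h2, if_neg ha]
        rw [h1, if_neg]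
        intro h3
        rw [← h] at h3
        have h4 := List.append_cancel_left h3
        rw [List.cons.injEq] at h4
        exact ha h4.1
    · rw [if_neg h, if_neg]
      · rfl
      · intro h3
        exact h (List.append_inj_left h3 (opatPat_length _ _).symm)

theorem reg_pattern {K : ℕ} (hK : 1 ≤ K) :
    Reg {l : List Bool | ∃ s, 1 ≤ s ∧ l = (List.range (K * s)).map fun j => decide (j % K = 0)} := by
  obtain ⟨K, rfl⟩ := Nat.exists_eq_succ_of_ne_zero (Nat.pos_iff_ne_zero.1 hK)
  refine ⟨Option (Fin (K + 1) × Bool), inferInstance, some (0, true), opatStep K,
    {some (0, false)}, fun l => ?_⟩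
  rw [opat_inv, Set.mem_singleton_iff]
  constructor
  · rintro ⟨s, hs, hl⟩
    have h1 : l = opatPat (K + 1) ((K + 1) * s) := hl
    have h2 : l.length = (K + 1) * s := by rw [h1, opatPat_length]
    rw [if_pos (by rw [h2]; exact h1), h2]
    have h3 : Fin.ofNat (K + 1) ((K + 1) * s) = 0 := by
      rw [opat_zero_iff]
      exact Nat.mul_mod_right _ _
    have h4 : l ≠ [] := by
      intro h5
      rw [h5, List.length_nil] at h2
      have : 0 < (K + 1) * s := Nat.mul_pos (Nat.succ_pos K) hs
      omega
    rw [h3]
    simp [h4]
  · intro h
    by_cases h1 : l = opatPat (K + 1) l.length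
    · rw [if_pos h1, Option.some.injEq, Prod.mk.injEq, opat_zero_iff] at h
      obtain ⟨h2, h3⟩ := h
      have h4 : l ≠ [] := by
        intro h5
        rw [h5] at h3
        simp at h3
      obtain ⟨s, hs⟩ := Nat.dvd_of_mod_eq_zero h2
      refine ⟨s, ?_, ?_⟩
      · rcases Nat.eq_zero_or_pos s with h5 | h5
        · rw [h5, mul_zero] at hs
          exact absurd (List.length_eq_zero_iff.1 hs) h4
        · exact h5
      · rw [hs] at h1
        exact h1
    · rw [if_neg h1] at h
      exact absurd h (by simp)

end Pool.Agent.DEG
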