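import Pool.Agent.DEG.Odo

/-!
DEG module OSHAPE: the two parts of a record.

* `lx_append`, `lw_append`: `List.filterMap_append`, `List.filterMap_map`.
* `zx_zip`, `zw_zip`: `List.zip_append` (same lengths), `List.zip_map`, `List.filterMap_append`,
  `List.filterMap_map`.
* `sameTy_iff`: induction on `X`, then on `W`, generalizing `b`: the first cell of `b` has the
  same kind as the first cell of the record.
-/

namespace Pool.Agent.DEG

open Pool.Agent.Helper38.LinL

variable {α : Type} {ρ ω : ℕ}

private theorem osh_lx_inl (X : List (XC α)) :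
    lx (X.map Sum.inl : List (Cell α ρ ω)) = X := by
  induction X with
  | nil => rfl
  | cons a X ih =>
    unfold lx at ih ⊢
    rw [List.map_cons, List.filterMap_cons]
    simp only [Sum.getLeft?_inl, ih]

private theorem osh_lx_inr (W : List (WC ρ ω)) :
    lx (W.map Sum.inr : List (Cell α ρ ω)) = [] := by
  induction W with
  | nil => rfl
  | cons a W ih =>
    unfold lx at ih ⊢
    rw [List.map_cons, List.filterMap_cons]
    simp only [Sum.getLeft?_inr, ih]

private theorem osh_lw_inl (X : List (XC α)) :
    lw (X.map Sum.inl : List (Cell α ρ ω)) = [] := by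
  induction X with
  | nil => rfl
  | cons a X ih =>
    unfold lw at ih ⊢
    rw [List.map_cons, List.filterMap_cons]
    simp only [Sum.getRight?_inl, ih]

private theorem osh_lw_inr (W : List (WC ρ ω)) :
    lw (W.map Sum.inr : List (Cell α ρ ω)) = W := by
  induction W with
  | nil => rfl
  | cons a W ih =>
    unfold lw at ih ⊢
    rw [List.map_cons, List.filterMap_cons]
    simp only [Sum.getRight?_inr, ih]

theorem lx_append (X : List (XC α)) (W : List (WC ρ ω)) :
    lx (X.map Sum.inl ++ W.map Sum.inr : List (Cell α ρ ω)) = X := by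
  have h1 := osh_lx_inl (ρ := ρ) (ω := ω) X
  have h2 := osh_lx_inr (α := α) W
  unfold lx at h1 h2 ⊢
  rw [List.filterMap_append, h1, h2, List.append_nil]

theorem lw_append (X : List (XC α)) (W : List (WC ρ ω)) :
    lw (X.map Sum.inl ++ W.map Sum.inr : List (Cell α ρ ω)) = W := by
  have h1 := osh_lw_inl (ρ := ρ) (ω := ω) X
  have h2 := osh_lw_inr (α := α) W
  unfold lw at h1 h2 ⊢
  rw [List.filterMap_append, h1, h2, List.nil_append]

private theorem osh_zx_inl : ∀ (X X' : List (XC α)),
    zx ((X.map Sum.inl : List (Cell α ρ ω)).zip (X'.map Sum.inl)) = X.zip X'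
  | [], _ => rfl
  | _ :: _, [] => rfl
  | a :: X, a' :: X' => by
    have ih := osh_zx_inl X X'
    unfold zx at ih ⊢
    rw [List.map_cons, List.map_cons, List.zip_cons_cons, List.filterMap_cons, List.zip_cons_cons]
    simp only [ih]

private theorem osh_zx_inr : ∀ (W W' : List (WC ρ ω)),
    zx ((W.map Sum.inr : List (Cell α ρ ω)).zip (W'.map Sum.inr)) = []
  | [], _ => rfl
  | _ :: _, [] => rfl
  | a :: X, a' :: X' => by
    have ih := osh_zx_inr X X'
    unfold zx at ih ⊢
    rw [List.map_cons, List.map_cons, List.zip_cons_cons, List.filterMap_cons]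
    simp only [ih]

private theorem osh_zw_inl : ∀ (X X' : List (XC α)),
    zw ((X.map Sum.inl : List (Cell α ρ ω)).zip (X'.map Sum.inl)) = []
  | [], _ => rfl
  | _ :: _, [] => rfl
  | a :: X, a' :: X' => by
    have ih := osh_zw_inl X X'
    unfold zw at ih ⊢
    rw [List.map_cons, List.map_cons, List.zip_cons_cons, List.filterMap_cons]
    simp only [ih]

private theorem osh_zw_inr : ∀ (W W' : List (WC ρ ω)),
    zw ((W.map Sum.inr : List (Cell α ρ ω)).zip (W'.map Sum.inr)) = W.zip W'
  | [], _ => rfl
  | _ :: _, [] => rfl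
  | a :: X, a' :: X' => by
    have ih := osh_zw_inr X X'
    unfold zw at ih ⊢
    rw [List.map_cons, List.map_cons, List.zip_cons_cons, List.filterMap_cons, List.zip_cons_cons]
    simp only [ih]

set_option linter.unusedVariables false in
theorem zx_zip {X X' : List (XC α)} {W W' : List (WC ρ ω)} (h : X.length = X'.length)
    (h' : W.length = W'.length) :
    zx ((X.map Sum.inl ++ W.map Sum.inr : List (Cell α ρ ω)).zip
      (X'.map Sum.inl ++ W'.map Sum.inr)) = X.zip X' := by
  have h1 := osh_zx_inl (ρ := ρ) (ω := ω) X X'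
  have h2 := osh_zx_inr (α := α) W W'
  rw [List.zip_append (by simpa using h)]
  unfold zx at h1 h2 ⊢
  rw [List.filterMap_append, h1, h2, List.append_nil]

set_option linter.unusedVariables false in
theorem zw_zip {X X' : List (XC α)} {W W' : List (WC ρ ω)} (h : X.length = X'.length)
    (h' : W.length = W'.length) :
    zw ((X.map Sum.inl ++ W.map Sum.inr : List (Cell α ρ ω)).zip
      (X'.map Sum.inl ++ W'.map Sum.inr)) = W.zip W' := by
  have h1 := osh_zw_inl (ρ := ρ) (ω := ω) X X'
  have h2 := osh_zw_inr (α := α) W W'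
  rw [List.zip_append (by simpa using h)]
  unfold zw at h1 h2 ⊢
  rw [List.filterMap_append, h1, h2, List.nil_append]

private theorem osh_same_inr : ∀ (W : List (WC ρ ω)) (b : List (Cell α ρ ω)),
    W.length = b.length → SameTy ((W.map Sum.inr : List (Cell α ρ ω)).zip b) →
      ∃ W' : List (WC ρ ω), W.length = W'.length ∧ b = W'.map Sum.inr
  | [], [], _, _ => ⟨[], rfl, rfl⟩
  | [], _ :: _, h, _ => by simp at h
  | _ :: _, [], h, _ => by simp at h
  | a :: W, c :: b, h, hs => by
    have h1 : SameTy ((W.map Sum.inr : List (Cell α ρ ω)).zip b) := by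
      intro d hd
      apply hs
      rw [List.map_cons, List.zip_cons_cons]
      exact List.mem_cons_of_mem _ hd
    obtain ⟨W', h2, h3⟩ := osh_same_inr W b (by simpa using h) h1
    have h4 := hs (Sum.inr a, c) (by
      rw [List.map_cons, List.zip_cons_cons]
      exact List.mem_cons_self)
    cases c with
    | inl c => simp at h4
    | inr c => exact ⟨c :: W', by simp [h2], by simp [h3]⟩

private theorem osh_same : ∀ (X : List (XC α)) (W : List (WC ρ ω)) (b : List (Cell α ρ ω)),
    (X.map Sum.inl ++ W.map Sum.inr : List (Cell α ρ ω)).length = b.length →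
    SameTy ((X.map Sum.inl ++ W.map Sum.inr : List (Cell α ρ ω)).zip b) →
      ∃ (X' : List (XC α)) (W' : List (WC ρ ω)), X.length = X'.length ∧ W.length = W'.length ∧
        b = X'.map Sum.inl ++ W'.map Sum.inr
  | [], W, b, h, hs => by
    obtain ⟨W', h1, h2⟩ := osh_same_inr W b (by simpa using h) (by simpa using hs)
    exact ⟨[], W', rfl, h1, by simpa using h2⟩
  | _ :: _, _, [], h, _ => by simp at h
  | a :: X, W, c :: b, h, hs => by
    have h1 : SameTy ((X.map Sum.inl ++ W.map Sum.inr : List (Cell α ρ ω)).zip b) := by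
      intro d hd
      apply hs
      rw [List.map_cons, List.cons_append, List.zip_cons_cons]
      exact List.mem_cons_of_mem _ hd
    obtain ⟨X', W', h2, h3, h5⟩ := osh_same X W b (by simpa using h) h1
    have h4 := hs (Sum.inl a, c) (by
      rw [List.map_cons, List.cons_append, List.zip_cons_cons]
      exact List.mem_cons_self)
    cases c with
    | inr c => simp at h4
    | inl c => exact ⟨c :: X', W', by simp [h2], h3, by simp [h5]⟩

private theorem osh_same_back (X X' : List (XC α)) (W W' : List (WC ρ ω))
    (h : X.length = X'.length) :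
    SameTy ((X.map Sum.inl ++ W.map Sum.inr : List (Cell α ρ ω)).zip
      (X'.map Sum.inl ++ W'.map Sum.inr)) := by
  rw [List.zip_append (by simpa using h)]
  intro c hc
  rcases List.mem_append.1 hc with hc | hc
  · rw [List.zip_map] at hc
    obtain ⟨d, _, rfl⟩ := List.mem_map.1 hc
    rfl
  · rw [List.zip_map] at hc
    obtain ⟨d, _, rfl⟩ := List.mem_map.1 hc
    rfl

theorem sameTy_iff {X : List (XC α)} {W : List (WC ρ ω)} {b : List (Cell α ρ ω)}
    (hb : (X.map Sum.inl ++ W.map Sum.inr : List (Cell α ρ ω)).length = b.length) :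
    SameTy ((X.map Sum.inl ++ W.map Sum.inr : List (Cell α ρ ω)).zip b) ↔
      ∃ (X' : List (XC α)) (W' : List (WC ρ ω)), X.length = X'.length ∧ W.length = W'.length ∧
        b = X'.map Sum.inl ++ W'.map Sum.inr := by
  constructor
  · exact osh_same X W b hb
  · rintro ⟨X', W', h1, _, rfl⟩
    exact osh_same_back X X' W W' h1

end Pool.Agent.DEG
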