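import Pool.Agent.DEG.Reg

/-!
DEG module REGB: window conditions are regular.

`Win P z`: every letter `z[j]` satisfies `P (previous letter) z[j] (next letter)`, where missing
neighbours are `none`.

Automaton with states `Option (Option (Option A × A))`: `none` is dead, `some none` is the initial
state, `some (some (p, c))` means that the last letter is `c`, the one before it is `p` (`none` if
there is none), and all windows centered at letters before the last one are fine. The letter `a`
leads from `some none` to `some (some (none, a))`, and from `some (some (p, c))` to
`some (some (some c, a))` if `P p c (some a)` holds, and to `none` otherwise. Accepting: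
`some none` and the `some (some (p, c))` with `P p c none`. The invariant is proved by induction
on the word from the right (`List.reverseRecOn`, `List.foldl_append`,
`List.getElem?_append`); for `z ++ [a]` the windows centered at positions `< z.length - 1` are the
same as for `z`.
-/

namespace Pool.Agent.DEG

/-- windows, with a given letter before the word -/
private def WinC {A : Type} (P : Option A → A → Option A → Prop) (p : Option A) (z : List A) :
    Prop :=
  ∀ (j : ℕ) (a : A), z[j]? = some a → P (if j = 0 then p else z[j - 1]?) a z[j + 1]?

private theorem winC_nil {A : Type} (P : Option A → A → Option A → Prop) (p : Option A) :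
    WinC P p [] := by
  intro j a h
  simp at h

private theorem winC_cons {A : Type} (P : Option A → A → Option A → Prop) (p : Option A) (c : A)
    (l : List A) : WinC P p (c :: l) ↔ P p c l[0]? ∧ WinC P (some c) l := by
  constructor
  · intro h
    refine ⟨?_, ?_⟩
    · have := h 0 c (by simp)
      simpa using this
    · intro j a hj
      have := h (j + 1) a (by simpa using hj)
      rcases Nat.eq_zero_or_pos j with rfl | hj0
      · simpa using this
      · obtain ⟨k, rfl⟩ := Nat.exists_eq_succ_of_ne_zero hj0.ne'
        simpa using this
  · rintro ⟨h1, h2⟩ j a hj
    rcases Nat.eq_zero_or_pos j with rfl | hj0
    · have hc : c = a := by simpa using hj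
      subst hc
      simpa using h1
    · obtain ⟨k, rfl⟩ := Nat.exists_eq_succ_of_ne_zero hj0.ne'
      have := h2 k a (by simpa using hj)
      rcases Nat.eq_zero_or_pos k with rfl | hk0
      · simpa using this
      · obtain ⟨m, rfl⟩ := Nat.exists_eq_succ_of_ne_zero hk0.ne'
        simpa using this

open Classical in
/-- the transition function -/
private noncomputable def winδ {A : Type} (P : Option A → A → Option A → Prop) :
    Option (Option (Option A × A)) → A → Option (Option (Option A × A))
  | none, _ => none
  | some none, a => some (some (none, a))
  | some (some (p, c)), a => if P p c (some a) then some (some (some c, a)) else none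

private def winF {A : Type} (P : Option A → A → Option A → Prop) :
    Set (Option (Option (Option A × A))) :=
  {s | match s with
    | none => False
    | some none => True
    | some (some (p, c)) => P p c none}

private theorem foldl_none {A : Type} (P : Option A → A → Option A → Prop) (l : List A) :
    l.foldl (winδ P) none = none := by
  induction l with
  | nil => rfl
  | cons a l ih =>
    rw [List.foldl_cons]
    exact ih

private theorem foldl_some {A : Type} (P : Option A → A → Option A → Prop) (l : List A) :
    ∀ (p : Option A) (c : A), l.foldl (winδ P) (some (some (p, c))) ∈ winF P ↔
      WinC P p (c :: l) := by
  induction l with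
  | nil =>
    intro p c
    rw [winC_cons]
    constructor
    · intro h
      exact ⟨h, winC_nil P _⟩
    · intro h
      exact h.1
  | cons a l ih =>
    intro p c
    rw [List.foldl_cons, winC_cons]
    by_cases h : P p c (some a)
    · have h1 : winδ P (some (some (p, c))) a = some (some (some c, a)) := by
        simp only [winδ, if_pos h]
      rw [h1, ih]
      constructor
      · intro h2
        exact ⟨by simpa using h, h2⟩
      · intro h2
        exact h2.2
    · have h1 : winδ P (some (some (p, c))) a = none := by
        simp only [winδ, if_neg h]
      rw [h1, foldl_none]
      constructor
      · intro h2
        exact h2.elim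
      · intro h2
        exact absurd (by simpa using h2.1) h

theorem Reg.win {A : Type} [Finite A] (P : Option A → A → Option A → Prop) :
    Reg {z : List A | Win P z} := by
  refine ⟨Option (Option (Option A × A)), inferInstance, some none, winδ P, winF P, ?_⟩
  intro w
  cases w with
  | nil =>
    constructor
    · intro _
      exact trivial
    · intro _ j a h
      simp at h
  | cons a l =>
    rw [List.foldl_cons]
    have h1 : winδ P (some none) a = some (some (none, a)) := rfl
    rw [h1, foldl_some]
    rfl

end Pool.Agent.DEG
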