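import Pool.Agent.DEG.Odo
import Pool.Agent.DEG.OPat
import Pool.Agent.DEG.RegA
import Pool.Agent.DEG.RegB
import Pool.Agent.DEG.OShape
import Pool.Agent.DEG.Dig

/-!
DEG module OREGA: the set of initial records is regular.

* `iset_iff`: `z ∈ ISet α ρ ω K` iff (1) no cell of the first kind comes right after a cell of the
  second kind, (2) in `lx z` the first symbol and only it is `lend`, the last symbol and only it
  is `rend`, the mark is true in the first cell only, and `lx z` is not empty, (3) all cells of
  `lw z` have counter bit `false`, clock digit `0`, work digit `0`, and the active bits form the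
  pattern of length `K * s`, `s ≥ 1`. From (2): `lx z = xs x 0` where `x` is the list of letters of
  `lx z` (the first cell is `lend`, so it is not the last one, all cells between are letters);
  with `dg_zero` the conditions (3) say `lw z = ws ρ ω K s 0 0 0`; from (1): `z = (lx z).map inl ++
  (lw z).map inr`. The other direction: compute, `List.getElem?_map`, `List.getElem?_range`.
* `reg_ISet`: `Reg.win`, `Reg.filterMap`, `Reg.forall`, `Reg.map`, `Reg.inter`,
  `reg_pattern`.
-/

namespace Pool.Agent.DEG

open Pool.Agent.Helper38.LinL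

variable {α : Type} {ρ ω K : ℕ}

/-- the condition: no cell of the first kind right after a cell of the second kind -/
private def oregaOrd (z : List (Cell α ρ ω)) : Prop :=
  ∀ (j : ℕ) (d c : Cell α ρ ω), z[j]? = some d → z[j + 1]? = some c →
    ¬ (c.isLeft = true ∧ d.isRight = true)

private theorem orega_ord_iff (z : List (Cell α ρ ω)) :
    Win (fun a c _ => ¬ (c.isLeft = true ∧ ∃ d, a = some d ∧ d.isRight = true)) z ↔
      oregaOrd z := by
  constructor
  · intro h j d c hd hc
    have h1 := h (j + 1) c hc
    rintro ⟨h2, h3⟩
    apply h1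
    refine ⟨h2, d, ?_, h3⟩
    simpa [prv] using hd
  · rintro h j c hc ⟨h1, d, h2, h3⟩
    rcases Nat.eq_zero_or_pos j with rfl | hj
    · simp [prv] at h2
    · obtain ⟨k, rfl⟩ := Nat.exists_eq_succ_of_ne_zero hj.ne'
      exact h k d c (by simpa [prv] using h2) hc ⟨h1, h3⟩

private theorem orega_split {z : List (Cell α ρ ω)} (h : oregaOrd z) :
    z = (lx z).map Sum.inl ++ (lw z).map Sum.inr := by
  induction z with
  | nil => rfl
  | cons x z ih =>
    have h1 : oregaOrd z := fun j d c hd hc => h (j + 1) d c (by simpa using hd) (by simpa using hc)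
    have h2 := ih h1
    rcases x with a | b
    · have e1 : lx (Sum.inl a :: z : List (Cell α ρ ω)) = a :: lx z := rfl
      have e2 : lw (Sum.inl a :: z : List (Cell α ρ ω)) = lw z := rfl
      rw [e1, e2, List.map_cons, List.cons_append, ← h2]
    · have e1 : lx (Sum.inr b :: z : List (Cell α ρ ω)) = lx z := rfl
      have e2 : lw (Sum.inr b :: z : List (Cell α ρ ω)) = b :: lw z := rfl
      have h3 : lx z = [] := by
        rcases h4 : lx z with _ | ⟨a, X⟩
        · rfl
        · exfalso
          rw [h4] at h2
          refine h 0 (Sum.inr b) (Sum.inl a) (by simp) ?_ ⟨rfl, rfl⟩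
          rw [h2]
          simp
      rw [e1, e2, h3, List.map_nil, List.nil_append, List.map_cons]
      rw [h3, List.map_nil, List.nil_append] at h2
      rw [← h2]

private theorem orega_ord (X : List (XC α)) (W : List (WC ρ ω)) :
    oregaOrd (X.map Sum.inl ++ W.map Sum.inr : List (Cell α ρ ω)) := by
  rintro j d c hd hc ⟨h1, h2⟩
  by_cases hj : j + 1 < X.length
  · rw [List.getElem?_append_left (by simpa using by omega)] at hd
    rw [List.getElem?_map] at hd
    rcases hx : X[j]? with _ | x
    · rw [hx] at hd
      simp at hd
    · rw [hx] at hd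
      simp only [Option.map_some, Option.some.injEq] at hd
      rw [← hd] at h2
      simp at h2
  · rw [List.getElem?_append_right (by simpa using by omega), List.getElem?_map] at hc
    rcases hx : W[j + 1 - (X.map (Sum.inl : XC α → Cell α ρ ω)).length]? with _ | x
    · rw [hx] at hc
      simp at hc
    · rw [hx] at hc
      simp only [Option.map_some, Option.some.injEq] at hc
      rw [← hc] at h1
      simp at h1

private theorem orega_read_zero (x : List α) : readSym x 0 = Sym.lend := rfl

private theorem orega_read_succ (x : List α) (i : ℕ) :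
    readSym x (i + 1) = match x[i]? with
      | some a => Sym.letter a
      | none => Sym.rend := rfl

/-- the first part of an initial record -/
private theorem orega_xs (x : List α) :
    xs x 0 = (Sym.lend, true) :: (x.map (fun a => (Sym.letter a, false)) ++
      [(Sym.rend, false)]) := by
  apply List.ext_getElem?
  intro i
  unfold xs
  rw [List.getElem?_map]
  rcases Nat.eq_zero_or_pos i with rfl | hi
  · simp [orega_read_zero]
  · obtain ⟨k, rfl⟩ := Nat.exists_eq_succ_of_ne_zero hi.ne'
    rw [Nat.succ_eq_add_one, List.getElem?_cons_succ]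
    by_cases h1 : k < x.length
    · rw [List.getElem?_range (by omega), List.getElem?_append_left (by simpa using h1),
        List.getElem?_map, List.getElem?_eq_getElem h1]
      simp [orega_read_succ, List.getElem?_eq_getElem h1]
    · by_cases h2 : k = x.length
      · subst h2
        rw [List.getElem?_range (by omega), List.getElem?_append_right (by simp)]
        simp [orega_read_succ]
      · rw [List.getElem?_append_right (by simp; omega)]
        have e1 : (List.range (x.length + 2))[k + 1]? = none := by
          rw [List.getElem?_eq_none_iff, List.length_range]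
          omega
        rw [e1]
        symm
        rw [Option.map_none, List.getElem?_eq_none_iff]
        simp
        omega

private theorem orega_tail {L : List (XC α)} (hL : L ≠ [])
    (h : ∀ (j : ℕ) (c : XC α), L[j]? = some c → c.1 ≠ Sym.lend ∧
      (L[j + 1]? = none ↔ c.1 = Sym.rend) ∧ c.2 = false) :
    ∃ x : List α, L = x.map (fun a => (Sym.letter a, false)) ++ [(Sym.rend, false)] := by
  induction L with
  | nil => exact absurd rfl hL
  | cons c L ih =>
    obtain ⟨h1, h2, h3⟩ := h 0 c (by simp)
    obtain ⟨c1, c2⟩ := c
    rcases L with _ | ⟨d, L⟩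
    · refine ⟨[], ?_⟩
      have h4 : c1 = Sym.rend := h2.1 (by simp)
      have h5 : c2 = false := h3
      rw [h4, h5]
      rfl
    · obtain ⟨x, hx⟩ := ih (by simp) (fun j e he => by
        have h4 := h (j + 1) e (by simpa using he)
        simpa using h4)
      have h4 : c1 ≠ Sym.rend := by
        intro h5
        have h6 := h2.2 h5
        simp at h6
      have h5 : c2 = false := h3
      rcases c1 with _ | a | _
      · exact absurd rfl h1
      · refine ⟨a :: x, ?_⟩
        rw [hx, h5]
        rfl
      · exact absurd rfl h4

/-- the window condition of the first part -/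
private theorem orega_win {L : List (XC α)} : (L ≠ [] ∧
    Win (fun a c b => (a = none ↔ c.1 = Sym.lend) ∧ (b = none ↔ c.1 = Sym.rend) ∧
      (a = none ↔ c.2 = true)) L) ↔ ∃ x : List α, L = xs x 0 := by
  constructor
  · rintro ⟨h1, h2⟩
    rcases L with _ | ⟨c, L⟩
    · exact absurd rfl h1
    · obtain ⟨h3, h4, h5⟩ := h2 0 c (by simp)
      obtain ⟨c1, c2⟩ := c
      have h6 : c1 = Sym.lend := h3.1 (by simp [prv])
      have h7 : c2 = true := h5.1 (by simp [prv])
      have h8 : L ≠ [] := by
        rintro rfl
        have h9 : c1 = Sym.rend := h4.1 (by simp)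
        rw [h6] at h9
        exact absurd h9 (by simp)
      obtain ⟨x, hx⟩ := orega_tail h8 (fun j e he => by
        obtain ⟨h9, h10, h11⟩ := h2 (j + 1) e (by simpa using he)
        have hp : prv ((c1, c2) :: L) (j + 1) ≠ none := by
          have hjlt : j < L.length := by
            rw [List.getElem?_eq_some_iff] at he
            exact he.1
          simp only [prv, if_neg (Nat.succ_ne_zero j), Nat.add_sub_cancel, Ne,
            List.getElem?_eq_none_iff, List.length_cons]
          omega
        refine ⟨fun h12 => hp (h9.2 h12), ?_, ?_⟩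
        · rw [← h10]
          simp
        · by_contra h12
          rw [Bool.not_eq_false] at h12
          exact hp (h11.2 h12))
      refine ⟨x, ?_⟩
      rw [orega_xs, ← hx, h6, h7]
  · rintro ⟨x, rfl⟩
    have hlen : (xs x 0).length = x.length + 2 := by simp [xs]
    refine ⟨fun h => ?_, fun j c hc => ?_⟩
    · rw [h] at hlen
      simp at hlen
    · have hj : j < x.length + 2 := by
        rw [List.getElem?_eq_some_iff] at hc
        rw [← hlen]
        exact hc.1
      have hc' : c = (readSym x j, decide (j = 0)) := by
        unfold xs at hc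
        rw [List.getElem?_map, List.getElem?_range hj, Option.map_some, Option.some.injEq] at hc
        exact hc.symm
      have hp : prv (xs x 0) j = none ↔ j = 0 := by
        unfold prv
        by_cases h0 : j = 0
        · simp [h0]
        · rw [if_neg h0, List.getElem?_eq_none_iff, hlen]
          constructor
          · intro h; omega
          · intro h; exact absurd h h0
      have hn : (xs x 0)[j + 1]? = none ↔ j = x.length + 1 := by
        rw [List.getElem?_eq_none_iff, hlen]
        omega
      change (prv (xs x 0) j = none ↔ c.1 = Sym.lend) ∧ ((xs x 0)[j + 1]? = none ↔ c.1 = Sym.rend) ∧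
        (prv (xs x 0) j = none ↔ c.2 = true)
      rw [hp, hn, hc']
      refine ⟨?_, ?_, ?_⟩
      · rcases Nat.eq_zero_or_pos j with rfl | h0
        · simp [orega_read_zero]
        · obtain ⟨k, rfl⟩ := Nat.exists_eq_succ_of_ne_zero h0.ne'
          simp only [Nat.succ_eq_add_one, orega_read_succ]
          constructor
          · intro h; omega
          · intro h
            rcases hx : x[k]? with _ | a
            · rw [hx] at h
              exact absurd h (by simp)
            · rw [hx] at h
              exact absurd h (by simp)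
      · rcases Nat.eq_zero_or_pos j with rfl | h0
        · simp [orega_read_zero]
        · obtain ⟨k, rfl⟩ := Nat.exists_eq_succ_of_ne_zero h0.ne'
          simp only [Nat.succ_eq_add_one, orega_read_succ]
          rcases hx : x[k]? with _ | a
          · simp only [iff_true]
            rw [List.getElem?_eq_none_iff] at hx
            omega
          · rw [List.getElem?_eq_some_iff] at hx
            obtain ⟨hx, -⟩ := hx
            constructor
            · intro h; omega
            · intro h; exact absurd h (by simp)
      · simp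

private theorem orega_ws (K s : ℕ) : ws ρ ω K s 0 0 0 =
    ((List.range (K * s)).map fun j => decide (j % K = 0)).map
      (fun b => ((b, false, 0, 0) : WC ρ ω)) := by
  unfold ws
  rw [List.map_map]
  apply List.map_congr_left
  intro j _
  simp only [Function.comp_apply, dg_zero, Prod.mk.injEq, true_and, and_true]
  rw [decide_eq_false]
  rintro ⟨-, h⟩
  exact absurd h (by decide)

private theorem orega_all {W : List (WC ρ ω)}
    (h : ∀ c ∈ W, c.2.1 = false ∧ c.2.2.1 = 0 ∧ c.2.2.2 = 0) :
    W = (W.map (fun c => c.1)).map (fun b => ((b, false, 0, 0) : WC ρ ω)) := by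
  rw [List.map_map]
  conv_lhs => rw [← List.map_id W]
  apply List.map_congr_left
  intro c hc
  obtain ⟨h1, h2, h3⟩ := h c hc
  obtain ⟨c1, c2, c3, c4⟩ := c
  simp only at h1 h2 h3
  simp [h1, h2, h3]

theorem iset_iff (hK : 1 ≤ K) {z : List (Cell α ρ ω)} : z ∈ ISet α ρ ω K ↔
    Win (fun a c _ => ¬ (c.isLeft = true ∧ ∃ d, a = some d ∧ d.isRight = true)) z ∧
    lx z ≠ [] ∧
    Win (fun a c b => (a = none ↔ c.1 = Sym.lend) ∧ (b = none ↔ c.1 = Sym.rend) ∧
      (a = none ↔ c.2 = true)) (lx z) ∧
    (∀ c ∈ lw z, c.2.1 = false ∧ c.2.2.1 = 0 ∧ c.2.2.2 = 0) ∧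
    ∃ s, 1 ≤ s ∧ (lw z).map (fun c => c.1) =
      (List.range (K * s)).map fun j => decide (j % K = 0) := by
  rw [orega_ord_iff]
  constructor
  · rintro ⟨x, s, hs, rfl⟩
    have e1 : lx (rcd ρ ω K x s 0 0 0) = xs x 0 := lx_append _ _
    have e2 : lw (rcd ρ ω K x s 0 0 0) = ws ρ ω K s 0 0 0 := lw_append _ _
    have e3 := orega_win.2 ⟨x, rfl⟩
    rw [e1, e2]
    refine ⟨orega_ord _ _, e3.1, e3.2, ?_, s, hs, ?_⟩
    · intro c hc
      rw [orega_ws, List.mem_map] at hc
      obtain ⟨b, -, rfl⟩ := hc
      exact ⟨rfl, rfl, rfl⟩
    · rw [orega_ws, List.map_map]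
      conv_rhs => rw [← List.map_id (List.map (fun j => decide (j % K = 0)) (List.range (K * s)))]
      apply List.map_congr_left
      intro b _
      rfl
  · rintro ⟨h1, h2, h3, h4, s, hs, h5⟩
    obtain ⟨x, hx⟩ := orega_win.1 ⟨h2, h3⟩
    refine ⟨x, s, hs, ?_⟩
    rw [orega_split h1]
    unfold rcd
    rw [← hx, orega_ws, ← h5, ← orega_all h4]

theorem reg_ISet [Finite α] (hK : 1 ≤ K) : Reg (ISet α ρ ω K) := by
  have r1 : Reg {z : List (Cell α ρ ω) |
      Win (fun a c _ => ¬ (c.isLeft = true ∧ ∃ d, a = some d ∧ d.isRight = true)) z} :=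
    Reg.win _
  have r2 : Reg {z : List (Cell α ρ ω) | lx z ≠ []} := by
    have h := Reg.filterMap (f := (Sum.getLeft? : Cell α ρ ω → Option (XC α)))
      (Reg.exists (fun _ : XC α => True))
    have e : {z : List (Cell α ρ ω) | z.filterMap Sum.getLeft? ∈
        {w : List (XC α) | ∃ a ∈ w, True}} = {z | lx z ≠ []} := by
      ext z
      change (∃ a ∈ lx z, True) ↔ lx z ≠ []
      rcases lx z with _ | ⟨a, X⟩ <;> simp
    rwa [e] at h
  have r3 : Reg {z : List (Cell α ρ ω) | lx z ∈ {L : List (XC α) |
      Win (fun a c b => (a = none ↔ c.1 = Sym.lend) ∧ (b = none ↔ c.1 = Sym.rend) ∧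
        (a = none ↔ c.2 = true)) L}} :=
    Reg.filterMap (Reg.win _)
  have r4 : Reg {z : List (Cell α ρ ω) | lw z ∈ {W : List (WC ρ ω) |
      ∀ c ∈ W, c.2.1 = false ∧ c.2.2.1 = 0 ∧ c.2.2.2 = 0}} :=
    Reg.filterMap (Reg.forall _)
  have r5 : Reg {z : List (Cell α ρ ω) | lw z ∈ {W : List (WC ρ ω) | W.map (fun c => c.1) ∈
      {l : List Bool | ∃ s, 1 ≤ s ∧ l = (List.range (K * s)).map fun j => decide (j % K = 0)}}} :=
    Reg.filterMap (Reg.map (reg_pattern hK))
  have h := r1.inter (r2.inter (r3.inter (r4.inter r5)))
  convert h using 1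
  ext z
  exact iset_iff hK

end Pool.Agent.DEG
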