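import Pool.Agent.DEG.Reg

/-!
DEG module REGC: the successor relation of numbers in base `B + 1` is regular.

`val B l` is the value of the sequence of digits `l` (most significant first). Automaton with
states `Option Bool`: `some false` means that the difference `D = val (z.map g) - val (z.map f)`
is `0`, `some true` that `D = 1`, `none` that `D` is something else. Reading the letter `a`
changes `D` to `(B + 1) * D + g a - f a` (`List.foldl_append`); if `D ≥ 2` then the new value is
`≥ 2 (B + 1) - B ≥ 2`, and if `D ≤ -1` it is `≤ -(B + 1) + B = -1`, so `none` stays `none`.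
Accepting: `some true`. Induction on the word from the right.
-/

namespace Pool.Agent.DEG

/-- the state which belongs to the difference `D` -/
private def regcS (D : ℤ) : Option Bool :=
  if D = 0 then some false else if D = 1 then some true else none

/-- the difference which belongs to a state -/
private def regcD (s : Option Bool) : ℤ :=
  match s with
  | some false => 0
  | some true => 1
  | none => 2

/-- the transition function -/
private def regcδ {A : Type} (B : ℕ) (f g : A → ℕ) (s : Option Bool) (a : A) : Option Bool :=
  match s with
  | none => none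
  | some b => regcS ((B + 1) * regcD (some b) + g a - f a)

private theorem regc_step (B x y : ℕ) (hx : x ≤ B) (hy : y ≤ B) (D : ℤ) :
    regcS ((B + 1) * D + y - x) = match regcS D with
      | none => none
      | some b => regcS ((B + 1) * regcD (some b) + y - x) := by
  by_cases h0 : D = 0
  · subst h0
    simp [regcS, regcD]
  · by_cases h1 : D = 1
    · subst h1
      simp [regcS, regcD]
    · have h2 : regcS D = none := by
        unfold regcS
        rw [if_neg h0, if_neg h1]
      rw [h2]
      have hx' : (x : ℤ) ≤ B := by exact_mod_cast hx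
      have hy' : (y : ℤ) ≤ B := by exact_mod_cast hy
      have hx0 : (0 : ℤ) ≤ x := by positivity
      have hy0 : (0 : ℤ) ≤ y := by positivity
      have hB : (0 : ℤ) ≤ B := by positivity
      show regcS ((B + 1) * D + y - x) = none
      unfold regcS
      rcases lt_or_gt_of_ne h0 with h | h
      · have h3 : (B + 1 : ℤ) * D ≤ (B + 1) * (-1) := by
          apply mul_le_mul_of_nonneg_left _ (by linarith)
          omega
        rw [if_neg (by linarith), if_neg (by linarith)]
      · have h3 : (B + 1 : ℤ) * 2 ≤ (B + 1) * D := by
          apply mul_le_mul_of_nonneg_left _ (by linarith)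
          omega
        rw [if_neg (by linarith), if_neg (by linarith)]

private theorem regc_fold {A : Type} (B : ℕ) (f g : A → ℕ) (hf : ∀ a, f a ≤ B)
    (hg : ∀ a, g a ≤ B) (z : List A) :
    z.foldl (regcδ B f g) (some false) =
      regcS ((Pool.Agent.DEG.val B (z.map g) : ℤ) - Pool.Agent.DEG.val B (z.map f)) := by
  induction z using List.reverseRecOn with
  | nil => simp [Pool.Agent.DEG.val, regcS]
  | append_singleton z a ih =>
    rw [List.foldl_append, ih]
    have h1 : ∀ e : A → ℕ, (Pool.Agent.DEG.val B ((z ++ [a]).map e) : ℤ) =
        (Pool.Agent.DEG.val B (z.map e) : ℤ) * (B + 1) + e a := by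
      intro e
      unfold Pool.Agent.DEG.val
      rw [List.map_append, List.foldl_append]
      simp
    rw [h1 f, h1 g]
    have h2 := regc_step B (f a) (g a) (hf a) (hg a)
      ((Pool.Agent.DEG.val B (z.map g) : ℤ) - Pool.Agent.DEG.val B (z.map f))
    have h3 : ((B : ℤ) + 1) * ((Pool.Agent.DEG.val B (z.map g) : ℤ) -
        Pool.Agent.DEG.val B (z.map f)) + g a - f a =
        (Pool.Agent.DEG.val B (z.map g) : ℤ) * (B + 1) + g a -
        ((Pool.Agent.DEG.val B (z.map f) : ℤ) * (B + 1) + f a) := by ring
    rw [h3] at h2
    rw [h2]
    simp only [List.foldl_cons, List.foldl_nil]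
    rcases regcS ((Pool.Agent.DEG.val B (z.map g) : ℤ) - Pool.Agent.DEG.val B (z.map f)) with _ | b
    · rfl
    · rfl

theorem Reg.val {A : Type} (B : ℕ) (f g : A → ℕ) (hf : ∀ a, f a ≤ B) (hg : ∀ a, g a ≤ B) :
    Reg {z : List A | Pool.Agent.DEG.val B (z.map g) = Pool.Agent.DEG.val B (z.map f) + 1} := by
  refine ⟨Option Bool, inferInstance, some false, regcδ B f g, {some true}, ?_⟩
  intro z
  rw [regc_fold B f g hf hg, Set.mem_ofPred_eq, Set.mem_singleton_iff]
  unfold regcS
  constructor
  · intro h
    rw [if_neg (by omega), if_pos (by omega)]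
  · intro h
    by_cases h0 : (Pool.Agent.DEG.val B (z.map g) : ℤ) - Pool.Agent.DEG.val B (z.map f) = 0
    · rw [if_pos h0] at h
      exact absurd h (by simp)
    · rw [if_neg h0] at h
      by_cases h1 : (Pool.Agent.DEG.val B (z.map g) : ℤ) - Pool.Agent.DEG.val B (z.map f) = 1
      · omega
      · rw [if_neg h1] at h
        exact absurd h (by simp)

end Pool.Agent.DEG
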