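import Pool.Agent.DEG.Odo
import Pool.Agent.DEG.RegA
import Pool.Agent.DEG.RegB
import Pool.Agent.DEG.RegC

/-!
DEG module OREGB: the sets `FSet` and `NextSet` are regular.

All conditions are of the form `Reg.forall`, `Reg.exists`, `Reg.win`, `Reg.head`, `Reg.last`,
`Reg.val`, applied to `lx z`, `lw z`, `zx z`, `zw z` (`Reg.filterMap`), combined by `Reg.inter`
and `Reg.union`. For the counter: `Reg.filter` and `Reg.val` with `f c = c.1.2.1.toNat`,
`g c = c.2.2.1.toNat` (`Bool.toNat_le`), for the digits `Fin.is_le`. The alphabet is finite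
(instances for `Sym α` in `Defs.lean`).
-/

namespace Pool.Agent.DEG

open Pool.Agent.Helper38.LinL

variable {α : Type} {ρ ω : ℕ}

theorem reg_FSet [Finite α] : Reg (FSet α ρ ω) := by
  have h1 : Reg {z : List (Cell α ρ ω) | ∃ c, (lx z).getLast? = some c ∧ c.2 = true} :=
    Reg.filterMap (f := (Sum.getLeft? : Cell α ρ ω → Option (XC α)))
      (Reg.last fun c : XC α => c.2 = true)
  have h2 : Reg {z : List (Cell α ρ ω) |
      ∀ c ∈ lw z, c.2.2.1 = Fin.last ρ ∧ c.2.2.2 = Fin.last ω} :=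
    Reg.filterMap (f := (Sum.getRight? : Cell α ρ ω → Option (WC ρ ω)))
      (Reg.forall fun c : WC ρ ω => c.2.2.1 = Fin.last ρ ∧ c.2.2.2 = Fin.last ω)
  have h3 : Reg {z : List (Cell α ρ ω) | ∃ c, (lw z).head? = some c ∧ c.2.1 = true} :=
    Reg.filterMap (f := (Sum.getRight? : Cell α ρ ω → Option (WC ρ ω)))
      (Reg.head fun c : WC ρ ω => c.2.1 = true)
  exact h1.inter (h2.inter h3)

private theorem oregb_zx {K : Set (List (XC α × XC α))} (h : Reg K) :
    Reg {z : List (Cell α ρ ω × Cell α ρ ω) | zx z ∈ K} := Reg.filterMap h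

private theorem oregb_zw {K : Set (List (WC ρ ω × WC ρ ω))} (h : Reg K) :
    Reg {z : List (Cell α ρ ω × Cell α ρ ω) | zw z ∈ K} := Reg.filterMap h

theorem reg_NextSet [Finite α] : Reg (NextSet α ρ ω) := by
  have h0 : Reg {z : List (Cell α ρ ω × Cell α ρ ω) | SameTy z} :=
    Reg.forall fun c : Cell α ρ ω × Cell α ρ ω => c.1.isLeft = c.2.isLeft
  have hA : Reg {z : List (Cell α ρ ω × Cell α ρ ω) | ModeA z} := by
    have h1 := oregb_zx (α := α) (ρ := ρ) (ω := ω)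
      (Reg.forall fun c : XC α × XC α => c.1 = c.2)
    have h2 := oregb_zw (α := α) (Reg.forall fun c : WC ρ ω × WC ρ ω =>
      c.1.1 = c.2.1 ∧ c.1.2.1 = c.2.2.1 ∧ c.1.2.2.1 = c.2.2.2.1)
    have h3 := oregb_zw (α := α) (Reg.val ω (fun c : WC ρ ω × WC ρ ω => (c.1.2.2.2 : ℕ))
      (fun c => (c.2.2.2.2 : ℕ)) (fun c => c.1.2.2.2.is_le) fun c => c.2.2.2.2.is_le)
    exact h1.inter (h2.inter h3)
  have hB : Reg {z : List (Cell α ρ ω × Cell α ρ ω) | ModeB z} := by
    have h1 := oregb_zx (α := α) (ρ := ρ) (ω := ω)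
      (Reg.forall fun c : XC α × XC α => c.1.1 = c.2.1)
    have h2 := oregb_zx (α := α) (ρ := ρ) (ω := ω)
      (Reg.win fun (a : Option (XC α × XC α)) c b =>
        (c.2.2 = true ↔ ∃ d, a = some d ∧ d.1.2 = true) ∧ (b = none → c.1.2 = false))
    have h3 := oregb_zw (α := α) (Reg.forall fun c : WC ρ ω × WC ρ ω =>
      c.1.1 = c.2.1 ∧ c.1.2.2.1 = c.2.2.2.1 ∧ c.1.2.2.2 = Fin.last ω ∧
      c.2.2.2.2 = 0 ∧ (c.1.1 = false → c.2.2.1 = false))
    have h4 := oregb_zw (α := α) (Reg.filter (p := fun c : WC ρ ω × WC ρ ω => c.1.1)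
      (Reg.val 1 (fun c : WC ρ ω × WC ρ ω => c.1.2.1.toNat)
      (fun c => c.2.2.1.toNat) (fun c => Bool.toNat_le _) fun c => Bool.toNat_le _))
    exact h1.inter (h2.inter (h3.inter h4))
  have hC : Reg {z : List (Cell α ρ ω × Cell α ρ ω) | ModeC z} := by
    have h1 := oregb_zx (α := α) (ρ := ρ) (ω := ω)
      (Reg.forall fun c : XC α × XC α => c.1.1 = c.2.1)
    have h2 := oregb_zx (α := α) (ρ := ρ) (ω := ω)
      (Reg.win fun (a : Option (XC α × XC α)) c b =>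
        (c.2.2 = true ↔ a = none) ∧ (b = none → c.1.2 = true))
    have h3 := oregb_zw (α := α) (Reg.forall fun c : WC ρ ω × WC ρ ω =>
      c.1.1 = c.2.1 ∧ c.2.2.1 = false ∧ c.1.2.2.2 = Fin.last ω ∧ c.2.2.2.2 = 0)
    have h4 := oregb_zw (α := α) (Reg.val ρ (fun c : WC ρ ω × WC ρ ω => (c.1.2.2.1 : ℕ))
      (fun c => (c.2.2.2.1 : ℕ)) (fun c => c.1.2.2.1.is_le) fun c => c.2.2.2.1.is_le)
    exact h1.inter (h2.inter (h3.inter h4))
  exact h0.inter (hA.union (hB.union hC))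

end Pool.Agent.DEG
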