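import Pool.Agent.DEG.ONext

/-!
DEG module OSEQ: the valid sequences of records are the sequences `odo ρ ω K x`.

Put `n = x.length`, `m = K * s`, `V = (ω + 1) ^ m`, `R = (ρ + 1) ^ m`, `N = (n + 2) * V`, and
`g t = rcd ρ ω K x s (t / N) (t / V % (n + 2)) (t % V)`; for `s = sz n` this is `rt ρ ω K x t`.

(1) If `n + 2 ≤ 2 ^ s`, then for `t < R * N`: `Rl NextSet (g t) b ↔ t + 1 < R * N ∧ b = g (t + 1)`
(`next_iff`: the three cases are the three cases of the carry in `t + 1`; the numbers
`v = t % V`, `p = t / V % (n + 2)`, `k = t / N = t / V / (n + 2)` satisfy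
`t = (k * (n + 2) + p) * V + v`), and `g t ∈ FSet ↔ t + 1 = R * N ∧ 2 ^ (s - 1) ≤ n + 1`
(`fset_iff`).

(2) `sz n = Nat.log 2 (n + 1) + 1` is the only `s ≥ 1` with `2 ^ (s - 1) ≤ n + 1 < 2 ^ s`
(`Nat.pow_log_le_self`, `Nat.lt_pow_succ_log_self`, `Nat.log_eq_iff`).

`←`: `L = odo x`, `s = sz n`: the head is `g 0 = rcd x s 0 0 0 ∈ ISet` (`NT ≥ 1`), the chain
condition is (1) (`List.isChain_iff_getElem` or the like; entries of `(range NT).map g`), the last
one is `g (NT - 1) ∈ FSet`.

`→`: `L = a :: L'` with `a = rcd x s 0 0 0`, `1 ≤ s`.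
If `n + 2 ≤ 2 ^ s`: by (1) and induction along the chain, `L = (range L.length).map g` and
`L.length ≤ R * N` (entry `t + 1` is determined by entry `t`); the last entry
`g (L.length - 1)` is in `FSet`, so `L.length = R * N` and `2 ^ (s - 1) ≤ n + 1`; by (2)
`s = sz n`.
If `2 ^ s < n + 2`: by induction along the chain all entries are `rcd x s 0 p v` with
`p < 2 ^ s`, `v < V` (in `next_iff` the third case needs `p + 1 = n + 2`, impossible), and the
last one is not in `FSet` because `p + 1 = n + 2` is impossible.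
-/

namespace Pool.Agent.DEG

open Pool.Agent.Helper38.LinL

variable {α : Type} {ρ ω : ℕ}

private theorem os_sd1 {t d : ℕ} (h : t % d + 1 < d) :
    (t + 1) / d = t / d ∧ (t + 1) % d = t % d + 1 := by
  have h1 := Nat.div_add_mod t d
  have h2 : t + 1 = d * (t / d) + (t % d + 1) := by omega
  constructor
  · conv_lhs => rw [h2]
    rw [Nat.mul_add_div (by omega), Nat.div_eq_of_lt h, add_zero]
  · conv_lhs => rw [h2]
    rw [Nat.mul_add_mod, Nat.mod_eq_of_lt h]

private theorem os_sd2 {t d : ℕ} (h : t % d + 1 = d) :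
    (t + 1) / d = t / d + 1 ∧ (t + 1) % d = 0 := by
  have h1 := Nat.div_add_mod t d
  have hd : 0 < d := by omega
  have h2 : t + 1 = d * (t / d + 1) := by rw [mul_add, mul_one]; omega
  constructor
  · conv_lhs => rw [h2]
    rw [Nat.mul_div_cancel_left _ hd]
  · conv_lhs => rw [h2]
    rw [Nat.mul_mod_right]

private theorem os_dm (t n V : ℕ) : t / ((n + 2) * V) = t / V / (n + 2) := by
  rw [mul_comm, Nat.div_div_eq_div_mul]

/-- Record number `t` for arbitrary `s`. -/
private def osg (ρ ω K : ℕ) (x : List α) (s t : ℕ) : List (Cell α ρ ω) :=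
  rcd ρ ω K x s (t / ((x.length + 2) * (ω + 1) ^ (K * s)))
    (t / (ω + 1) ^ (K * s) % (x.length + 2)) (t % (ω + 1) ^ (K * s))

private theorem os_k {t n V R : ℕ} (ht : t < R * ((n + 2) * V)) :
    t / V < R * (n + 2) ∧ t / V / (n + 2) < R := by
  rcases Nat.eq_zero_or_pos V with rfl | hV
  · simp at ht
  · have h1 : t / V < R * (n + 2) := by
      rw [Nat.div_lt_iff_lt_mul hV]
      calc t < R * ((n + 2) * V) := ht
        _ = R * (n + 2) * V := by ring
    exact ⟨h1, by rwa [Nat.div_lt_iff_lt_mul (by omega)]⟩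

private theorem os_next {K : ℕ} (hK : 1 ≤ K) {x : List α} {s t : ℕ}
    (hs : x.length + 2 ≤ 2 ^ s)
    (ht : t < (ρ + 1) ^ (K * s) * ((x.length + 2) * (ω + 1) ^ (K * s)))
    {b : List (Cell α ρ ω)} :
    Rl (NextSet α ρ ω) (osg ρ ω K x s t) b ↔
      t + 1 < (ρ + 1) ^ (K * s) * ((x.length + 2) * (ω + 1) ^ (K * s)) ∧
        b = osg ρ ω K x s (t + 1) := by
  obtain ⟨h1, h2⟩ := os_k ht
  unfold osg
  simp only [os_dm]
  set V := (ω + 1) ^ (K * s) with hV
  set R := (ρ + 1) ^ (K * s) with hR
  set n := x.length with hn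
  have hV0 : 0 < V := by positivity
  have hv := Nat.mod_lt t hV0
  have hp := Nat.mod_lt (t / V) (show 0 < n + 2 by omega)
  rw [next_iff hK hp (by omega) h2 hv, ← hV, ← hR, ← hn]
  have e1 := Nat.div_add_mod t V
  have e2 := Nat.div_add_mod (t / V) (n + 2)
  set v := t % V with hvd
  set u := t / V with hud
  set p := u % (n + 2) with hpd
  set k := u / (n + 2) with hkd
  rcases lt_or_eq_of_le (Nat.succ_le_of_lt hv) with hlt | heq
  · simp only [Nat.succ_eq_add_one] at hlt
    obtain ⟨h3, h4⟩ := os_sd1 (t := t) (d := V) hlt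
    rw [h3, h4]
    have h5 : t + 1 < R * ((n + 2) * V) := by
      have h6 : V * (u + 1) ≤ V * (R * (n + 2)) := Nat.mul_le_mul_left _ h1
      calc t + 1 < V * (u + 1) := by rw [mul_add, mul_one]; omega
        _ ≤ V * (R * (n + 2)) := h6
        _ = R * ((n + 2) * V) := by ring
    constructor
    · rintro (⟨_, h⟩ | ⟨h, _⟩ | ⟨h, _⟩)
      · exact ⟨h5, h⟩
      · omega
      · omega
    · rintro ⟨_, h⟩
      exact Or.inl ⟨hlt, h⟩
  · simp only [Nat.succ_eq_add_one] at heq
    obtain ⟨h3, h4⟩ := os_sd2 (t := t) (d := V) heq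
    rw [h3, h4]
    have ht1 : t + 1 = V * (u + 1) := by rw [mul_add, mul_one]; omega
    have h5 : t + 1 < R * ((n + 2) * V) ↔ u + 1 < R * (n + 2) := by
      rw [ht1, show R * ((n + 2) * V) = V * (R * (n + 2)) by ring]
      exact Nat.mul_lt_mul_left hV0
    rw [h5]
    rcases lt_or_eq_of_le (Nat.succ_le_of_lt hp) with hlt | heq'
    · simp only [Nat.succ_eq_add_one] at hlt
      obtain ⟨h6, h7⟩ := os_sd1 (t := u) (d := n + 2) hlt
      rw [← hud, h6, h7]
      have h8 : u + 1 < R * (n + 2) := by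
        have h9 : (n + 2) * (k + 1) ≤ (n + 2) * R := Nat.mul_le_mul_left _ h2
        calc u + 1 < (n + 2) * (k + 1) := by rw [mul_add, mul_one]; omega
          _ ≤ (n + 2) * R := h9
          _ = R * (n + 2) := by ring
      constructor
      · rintro (⟨h, _⟩ | ⟨_, _, _, h⟩ | ⟨_, h, _⟩)
        · omega
        · exact ⟨h8, h⟩
        · omega
      · rintro ⟨_, h⟩
        exact Or.inr (Or.inl ⟨heq, hlt, by omega, h⟩)
    · simp only [Nat.succ_eq_add_one] at heq'
      obtain ⟨h6, h7⟩ := os_sd2 (t := u) (d := n + 2) heq'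
      rw [← hud, h6, h7]
      have hu1 : u + 1 = (n + 2) * (k + 1) := by rw [mul_add, mul_one]; omega
      have h8 : u + 1 < R * (n + 2) ↔ k + 1 < R := by
        rw [hu1, show R * (n + 2) = (n + 2) * R by ring]
        exact Nat.mul_lt_mul_left (by omega)
      rw [h8]
      constructor
      · rintro (⟨h, _⟩ | ⟨_, h, _⟩ | ⟨_, _, h, h'⟩)
        · omega
        · omega
        · exact ⟨h, h'⟩
      · rintro ⟨h, h'⟩
        exact Or.inr (Or.inr ⟨heq, heq', h, h'⟩)

private theorem os_fin {K : ℕ} (hK : 1 ≤ K) {x : List α} {s t : ℕ} (hs1 : 1 ≤ s)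
    (hs : x.length + 2 ≤ 2 ^ s)
    (ht : t < (ρ + 1) ^ (K * s) * ((x.length + 2) * (ω + 1) ^ (K * s))) :
    osg ρ ω K x s t ∈ FSet α ρ ω ↔
      t + 1 = (ρ + 1) ^ (K * s) * ((x.length + 2) * (ω + 1) ^ (K * s)) ∧
        2 ^ (s - 1) ≤ x.length + 1 := by
  obtain ⟨h1, h2⟩ := os_k ht
  unfold osg
  simp only [os_dm]
  set V := (ω + 1) ^ (K * s) with hV
  set R := (ρ + 1) ^ (K * s) with hR
  set n := x.length with hn
  have hV0 : 0 < V := by positivity
  have hv := Nat.mod_lt t hV0
  have hp := Nat.mod_lt (t / V) (show 0 < n + 2 by omega)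
  rw [fset_iff hK hs1 hp (by omega) h2 hv, ← hV, ← hR, ← hn]
  have e1 := Nat.div_add_mod t V
  have e2 := Nat.div_add_mod (t / V) (n + 2)
  constructor
  · rintro ⟨h3, h4, h5, h6⟩
    have e3 : t / V + 1 = (n + 2) * R := by
      rw [← h5, mul_add, mul_one]; omega
    refine ⟨?_, by omega⟩
    calc t + 1 = V * (t / V + 1) := by rw [mul_add, mul_one]; omega
      _ = V * ((n + 2) * R) := by rw [e3]
      _ = R * ((n + 2) * V) := by ring
  · rintro ⟨h3, h4⟩
    have e3 : t + 1 = V * ((n + 2) * R) := by rw [h3]; ring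
    have e4 : (t + 1) % V = 0 := by rw [e3, Nat.mul_mod_right]
    have e5 : t % V + 1 = V := by
      rcases lt_or_eq_of_le (Nat.succ_le_of_lt hv) with hlt | heq
      · have := (os_sd1 (t := t) (d := V) hlt).2
        omega
      · exact heq
    have e6 : t / V + 1 = (n + 2) * R := by
      have := (os_sd2 e5).1
      rw [e3, Nat.mul_div_cancel_left _ hV0] at this
      exact this.symm
    have e7 : (t / V + 1) % (n + 2) = 0 := by rw [e6, Nat.mul_mod_right]
    have e8 : t / V % (n + 2) + 1 = n + 2 := by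
      rcases lt_or_eq_of_le (Nat.succ_le_of_lt hp) with hlt | heq
      · have := (os_sd1 (t := t / V) (d := n + 2) hlt).2
        omega
      · exact heq
    have e9 : t / V / (n + 2) + 1 = R := by
      have := (os_sd2 e8).1
      rw [e6, Nat.mul_div_cancel_left _ (by omega)] at this
      exact this.symm
    exact ⟨e8, e5, e9, by omega⟩

private theorem os_pos {K s n : ℕ} :
    0 < (ρ + 1) ^ (K * s) * ((n + 2) * (ω + 1) ^ (K * s)) := by positivity

private theorem os_zero {K : ℕ} {x : List α} {s : ℕ} :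
    osg ρ ω K x s 0 = rcd ρ ω K x s 0 0 0 := by
  unfold osg
  simp

private theorem os_odo {K : ℕ} {x : List α} : odo ρ ω K x =
    (List.range ((ρ + 1) ^ (K * sz x.length) *
      ((x.length + 2) * (ω + 1) ^ (K * sz x.length)))).map (osg ρ ω K x (sz x.length)) := rfl

private theorem os_sz (n : ℕ) : n + 2 ≤ 2 ^ sz n ∧ 2 ^ (sz n - 1) ≤ n + 1 := by
  unfold sz
  exact ⟨Nat.lt_pow_succ_log_self (by norm_num) (n + 1), by
    simpa using Nat.pow_log_le_self 2 (by omega : n + 1 ≠ 0)⟩

theorem vseq_iff {K : ℕ} (hK : 1 ≤ K) {L : List (List (Cell α ρ ω))} :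
    VSeq (ISet α ρ ω K) (FSet α ρ ω) (NextSet α ρ ω) L ↔ ∃ x : List α, L = odo ρ ω K x := by
  constructor
  · rintro ⟨⟨a, ⟨x, s, hs1, rfl⟩, hhead⟩, hch, ⟨b, hb, hlast⟩⟩
    have hlen : 0 < L.length := by
      cases L with
      | nil => simp at hhead
      | cons c L => simp
    have h0 : L[0] = rcd ρ ω K x s 0 0 0 := by
      rw [List.head?_eq_getElem?, List.getElem?_eq_getElem hlen] at hhead
      exact Option.some.inj hhead
    have hl : L[L.length - 1] = b := by
      rw [List.getLast?_eq_getElem?, List.getElem?_eq_getElem (by omega)] at hlast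
      exact Option.some.inj hlast
    have hst : ∀ j (hj : j + 1 < L.length), Rl (NextSet α ρ ω) L[j] L[j + 1] := fun j hj =>
      List.isChain_iff_getElem.1 hch j hj
    rcases Nat.lt_or_ge (2 ^ s) (x.length + 2) with hlt | hge
    · exfalso
      have key : ∀ j (hj : j < L.length), ∃ p v, p < 2 ^ s ∧ v < (ω + 1) ^ (K * s) ∧
          L[j] = rcd ρ ω K x s 0 p v := by
        intro j
        induction j with
        | zero => intro _; exact ⟨0, 0, by positivity, by positivity, h0⟩
        | succ j ih =>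
          intro hj
          obtain ⟨p, v, h1, h2, h3⟩ := ih (by omega)
          have h4 := hst j hj
          rw [h3, next_iff hK (by omega) h1 (by positivity) h2] at h4
          rcases h4 with ⟨h5, h6⟩ | ⟨_, _, h5, h6⟩ | ⟨_, h5, _⟩
          · exact ⟨p, v + 1, h1, h5, h6⟩
          · exact ⟨p + 1, 0, h5, by positivity, h6⟩
          · omega
      obtain ⟨p, v, h1, h2, h3⟩ := key (L.length - 1) (by omega)
      rw [← hl, h3, fset_iff hK hs1 (by omega) h1 (by positivity) h2] at hb
      omega
    · have key : ∀ j (hj : j < L.length),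
          j < (ρ + 1) ^ (K * s) * ((x.length + 2) * (ω + 1) ^ (K * s)) ∧
            L[j] = osg ρ ω K x s j := by
        intro j
        induction j with
        | zero => intro _; exact ⟨os_pos, by rw [h0, os_zero]⟩
        | succ j ih =>
          intro hj
          obtain ⟨h1, h2⟩ := ih (by omega)
          have h4 := hst j hj
          rw [h2] at h4
          exact (os_next hK hge h1).1 h4
      obtain ⟨h1, h2⟩ := key (L.length - 1) (by omega)
      rw [← hl, h2, os_fin hK hs1 hge h1] at hb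
      obtain ⟨h3, h4⟩ := hb
      have hs : s = sz x.length := by
        unfold sz
        have : Nat.log 2 (x.length + 1) = s - 1 := by
          apply Nat.log_eq_of_pow_le_of_lt_pow h4
          rw [Nat.sub_add_cancel hs1]
          omega
        omega
      refine ⟨x, ?_⟩
      rw [os_odo, ← hs]
      apply List.ext_getElem
      · rw [List.length_map, List.length_range]
        omega
      · intro j h5 h6
        rw [(key j h5).2, List.getElem_map, List.getElem_range]
  · rintro ⟨x, rfl⟩
    obtain ⟨h1, h2⟩ := os_sz x.length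
    have hs1 : 1 ≤ sz x.length := by unfold sz; omega
    have hpos := os_pos (ρ := ρ) (ω := ω) (K := K) (s := sz x.length) (n := x.length)
    rw [os_odo]
    refine ⟨⟨_, ⟨x, sz x.length, hs1, rfl⟩, ?_⟩, ?_, ⟨osg ρ ω K x (sz x.length) ((ρ + 1) ^
      (K * sz x.length) * ((x.length + 2) * (ω + 1) ^ (K * sz x.length)) - 1), ?_, ?_⟩⟩
    · rw [List.head?_map, List.head?_range, if_neg (by omega), Option.map_some, os_zero]
    · rw [List.isChain_iff_getElem]
      intro j hj
      rw [List.length_map, List.length_range] at hj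
      rw [List.getElem_map, List.getElem_map, List.getElem_range, List.getElem_range]
      exact (os_next hK h1 (by omega)).2 ⟨hj, rfl⟩
    · rw [os_fin hK hs1 h1 (by omega)]
      exact ⟨by omega, h2⟩
    · rw [List.getLast?_map, List.getLast?_range, if_neg (by omega), Option.map_some]

end Pool.Agent.DEG
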