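import Mathlib

/-!
DEG module SPATH: short paths in finite graphs.

Take a sequence `f` with the smallest possible number `k` of steps (`Nat.find`; sequences exist by
induction on `ReflTransGen`). If `k ≥ Nat.card V`, then `f i = f j` for some `i < j ≤ k` by the
pigeonhole principle (`Fintype.exists_ne_map_eq_of_card_lt` for `Fin (k + 1) → V`); cutting out the
part between `i` and `j` gives a shorter sequence `fun l => if l ≤ i then f l else f (l + (j - i))`
with `k - (j - i)` steps, a contradiction.
-/

namespace Pool.Agent.DEG

theorem exists_short_path {V : Type} [Finite V] {r : V → V → Prop} {a b : V}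
    (h : Relation.ReflTransGen r a b) :
    ∃ k < Nat.card V, ∃ f : ℕ → V, f 0 = a ∧ f k = b ∧ ∀ i < k, r (f i) (f (i + 1)) := by
  classical
  have hfin : Fintype V := Fintype.ofFinite V
  have hex : ∃ k, ∃ f : ℕ → V, f 0 = a ∧ f k = b ∧ ∀ i < k, r (f i) (f (i + 1)) := by
    induction h with
    | refl => exact ⟨0, fun _ => a, rfl, rfl, fun i hi => by omega⟩
    | tail _ hbc ih =>
      rename_i b' c' _
      obtain ⟨k, f, h0, hk, hr⟩ := ih
      refine ⟨k + 1, fun i => if i ≤ k then f i else c', by simp [h0], by simp, ?_⟩
      intro i hi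
      by_cases hik : i = k
      · subst hik
        simp only [le_refl, if_true]
        rw [if_neg (by omega), hk]
        exact hbc
      · have h1 : i < k := by omega
        simp only [if_pos h1.le, if_pos (show i + 1 ≤ k by omega)]
        exact hr i h1
  obtain ⟨f, h0, hk, hr⟩ := Nat.find_spec hex
  set k := Nat.find hex with hkdef
  refine ⟨k, ?_, f, h0, hk, hr⟩
  by_contra hge
  push Not at hge
  rw [Nat.card_eq_fintype_card] at hge
  obtain ⟨x, y, hxy, hf⟩ := Fintype.exists_ne_map_eq_of_card_lt
    (fun i : Fin (k + 1) => f i) (by rw [Fintype.card_fin]; omega)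
  obtain ⟨i, j, hij, hjk, hfij⟩ : ∃ i j : ℕ, i < j ∧ j ≤ k ∧ f i = f j := by
    rcases lt_or_gt_of_ne (fun h => hxy (Fin.ext h) : (x : ℕ) ≠ y) with h1 | h1
    · exact ⟨x, y, h1, by omega, hf⟩
    · exact ⟨y, x, h1, by omega, hf.symm⟩
  refine Nat.find_min hex (m := k - (j - i)) (by omega)
    ⟨fun l => if l ≤ i then f l else f (l + (j - i)), by simp [h0], ?_, ?_⟩
  · by_cases h1 : k - (j - i) ≤ i
    · have h2 : j = k := by omega
      have h3 : k - (j - i) = i := by omega
      simp only [h3, le_refl, if_true]
      rw [hfij, h2, hk]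
    · simp only [if_neg h1]
      rw [show k - (j - i) + (j - i) = k by omega, hk]
  · intro l hl
    by_cases h1 : l ≤ i
    · by_cases h2 : l + 1 ≤ i
      · simp only [if_pos h1, if_pos h2]
        exact hr l (by omega)
      · have h3 : l = i := by omega
        subst h3
        simp only [if_pos h1, if_neg h2]
        rw [hfij, show l + 1 + (j - l) = j + 1 by omega]
        exact hr j (by omega)
    · simp only [if_neg h1, if_neg (show ¬ l + 1 ≤ i by omega)]
      rw [show l + 1 + (j - i) = l + (j - i) + 1 by omega]
      exact hr _ (by omega)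

end Pool.Agent.DEG
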