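import Pool.Agent.DEG.Enc

/-!
DEG module SZIX: zigzags given by indices.

Let `L = (List.range N).map g`. The left picks are `l 0 < l 1 < ... < l h`, the right picks
`r 0 > r 1 > ... > r (h - 1)`, all left picks are smaller than all right picks: it is enough to
assume `l i < l (i + 1) < r i < r' i` for `i < h`, where `r' i` is `N` for `i = 0` and `r (i - 1)`
for `i ≥ 1`.

Write `Mi = (List.range' (l i + 1) (e i - (l i + 1))).map g` with `e i = if i = 0 then N else
r (i - 1)`, the records strictly between `l i` and `e i`. By induction on `h - i` (downwards):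
`ZZ A T (g (l i)) Mi`. For `i = h`: `ZZ.acc`. Step: `List.range'` splits
(`List.range'_append`): `Mi = M1 ++ g (l (i + 1)) :: (M_{i+1} ++ g (r i) :: M3)` with
`M1 = (List.range' (l i + 1) (l (i + 1) - (l i + 1))).map g` and
`M3 = (List.range' (r i + 1) (e i - (r i + 1))).map g`. For `i = 0` split also
`(List.range N).map g = M1 ++ g (l 0) :: M_0` (`List.range_eq_range'`).
-/

namespace Pool.Agent.DEG

variable {D : Type}

private theorem range'_split {a b c : ℕ} (h1 : a ≤ b) (h2 : b < c) :
    List.range' a (c - a) = List.range' a (b - a) ++ b :: List.range' (b + 1) (c - (b + 1)) := by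
  have h3 : List.range' b (c - b) = b :: List.range' (b + 1) (c - (b + 1)) := by
    rw [show c - b = (c - (b + 1)) + 1 by omega, List.range'_succ]
  have h4 : List.range' a (b - a) ++ List.range' (a + (b - a)) (c - b) =
      List.range' a (b - a + (c - b)) := List.range'_append_1
  rw [show a + (b - a) = b by omega, show b - a + (c - b) = c - a by omega] at h4
  rw [← h4, h3]

private theorem zz_of_index {A : Set (List D)} {T : Set (List (D × D))} {g : ℕ → List D}
    {h : ℕ} {l r : ℕ → ℕ} (hA : g (l h) ∈ A)
    (h1 : ∀ i < h, l i < l (i + 1)) (h2 : ∀ i < h, l (i + 1) < r i)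
    (h4 : ∀ i, i + 1 < h → r (i + 1) < r i)
    (h5 : ∀ i < h, Rl T (g (l i)) (g (r i))) (h6 : ∀ i < h, Rl T (g (r i)) (g (l (i + 1)))) :
    ∀ d i e : ℕ, i + d = h → (i < h → r i < e) →
      ZZ A T (g (l i)) ((List.range' (l i + 1) (e - (l i + 1))).map g) := by
  intro d
  induction d with
  | zero =>
    intro i e hi _
    have : i = h := by omega
    subst this
    exact ZZ.acc hA
  | succ d ih =>
    intro i e hi he
    have hih : i < h := by omega
    have ha := h1 i hih
    have hb := h2 i hih
    have hc := he hih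
    rw [range'_split (a := l i + 1) (b := l (i + 1)) (c := e) (by omega) (by omega),
      range'_split (a := l (i + 1) + 1) (b := r i) (c := e) (by omega) (by omega)]
    rw [List.map_append, List.map_cons, List.map_append, List.map_cons]
    exact ZZ.step (h5 i hih) (h6 i hih) (ih (i + 1) (r i) (by omega) (fun h => h4 i h))

theorem zig_of_index {S A : Set (List D)} {T : Set (List (D × D))} {N : ℕ} {g : ℕ → List D}
    {h : ℕ} {l r : ℕ → ℕ} (hl0 : l 0 < N) (hS : g (l 0) ∈ S) (hA : g (l h) ∈ A)
    (h1 : ∀ i < h, l i < l (i + 1)) (h2 : ∀ i < h, l (i + 1) < r i)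
    (h3 : 0 < h → r 0 < N) (h4 : ∀ i, i + 1 < h → r (i + 1) < r i)
    (h5 : ∀ i < h, Rl T (g (l i)) (g (r i))) (h6 : ∀ i < h, Rl T (g (r i)) (g (l (i + 1)))) :
    Zig S A T ((List.range N).map g) := by
  refine ⟨(List.range' 0 (l 0 - 0)).map g, g (l 0), (List.range' (l 0 + 1) (N - (l 0 + 1))).map g,
    ?_, hS, zz_of_index hA h1 h2 h4 h5 h6 h 0 N (by omega) h3⟩
  rw [List.range_eq_range', ← Nat.sub_zero N, range'_split (a := 0) (Nat.zero_le _) hl0]
  simp

end Pool.Agent.DEG
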