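import Pool.Agent.DEG.SStep
import Pool.Agent.DEG.SPath
import Pool.Agent.DEG.SZix

/-!
DEG module SCOMP: an accepting computation gives a zigzag in the sequence of records.

Put `n = x.length`, `s = sz n = Nat.log 2 (n + 1) + 1`, `m = K * s`, `V = (ω + 1) ^ m`,
`R = (4 * ω + 4) ^ m` (clock values, `ρ = 4 * ω + 3`), `N = (n + 2) * V`. As `K = c + 1` and
`s ≥ Nat.log 2 n + 1` (`Nat.log_mono_right`), `m ≥ c * (Nat.log 2 n + 1) + 1`, so
`d.head < m` for all reachable `d`. Also `n + 2 ≤ 2 ^ s ≤ 2 ^ m` (`Nat.lt_pow_succ_log_self`).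

Let `V0` be the finite type `Fin (n + 2) × Fin V`, and let `r (p, v) (p', v')` say: there are
reachable `c`, `c'` (from `M.init`) with `Rep dec m c p v`, `Rep dec m c' p' v'` and
`M.Step x c c'`. Let `d` be reachable with `d.q ∈ M.accept`. Every reachable configuration `c` is
represented by some `(c.inp, v)` (`exists_rep`; `c.inp < n + 2` by `moveInp_lt`), and for a step
`c → c'` all representations are related. (Two configurations with the same representation have
the same `inp`, and the same state and the same cells `j < m` when `head < m`; but this is not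
needed: only the following is needed.) By induction along the computation the pair of `M.init` and
the pair of `d` are connected by `Relation.ReflTransGen r`; `exists_short_path` gives `k < N` and
`f : ℕ → V0` with `f 0` representing `M.init`, `f k` representing `d`, `r (f i) (f (i + 1))` for
`i < k`. Then for all clock values `Rl (TSet M ρ dec) (rcd .. (f i)) (rcd .. (f (i + 1)))` by
`t_complete` for the configurations given by `r`. Extend: `F i = f (min i k)`; for `i ≥ k` the
relation `Rl TSet (rcd .. (F i)) (rcd .. (F (i + 1)))` holds by `t_complete` with `c' = c = d`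
(`d.head < m`).

Put `h = k` (so `2 * h ≥ k`), and note `2 * h + 2 ≤ 2 * N ≤ R`, in fact
`2 * N = 2 * (n + 2) * V ≤ 2 ^ (m + 1) * V ≤ 4 ^ m * V = R` (`m ≥ 1`). Use `zig_of_index` with
`l i = i * N + idx (F (2 * i))` and `r i = (R - 1 - i) * N + idx (F (2 * i + 1))`, where
`idx (p, v) = p * V + v < N`; `rt` at such an index is `rcd ρ ω K x s (clock) p v`
(division with remainder, `rt_idx` below). The order conditions: `l i < l (i + 1)` (different
clock values), `l (i + 1) < r i` as `i + 1 < R - 1 - i` for `i < h`, `r (i + 1) < r i`,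
`r 0 < R * N = NT`. `rcd .. (F 0) ∈ SSet` by `s_iff`; `rcd .. (F (2 * h)) ∈ ASet` by `a_iff`
(`2 * h ≥ k`, so `F (2 * h) = f k`, which represents `d`).
-/

namespace Pool.Agent.DEG

open Pool.Agent.Helper38.LinL

variable {α : Type} {ω : ℕ}

theorem rt_idx {ρ K : ℕ} {x : List α} {k p v : ℕ} (hp : p < x.length + 2)
    (hv : v < NV ω K x.length) :
    rt ρ ω K x (k * ((x.length + 2) * NV ω K x.length) + (p * NV ω K x.length + v)) =
      rcd ρ ω K x (sz x.length) k p v := by
  unfold rt
  set V := NV ω K x.length with hV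
  set n := x.length with hn
  have hV0 : 0 < V := lt_of_le_of_lt (Nat.zero_le _) hv
  have h1 : p * V + v < (n + 2) * V := by
    calc p * V + v < p * V + V := by omega
      _ = (p + 1) * V := by ring
      _ ≤ (n + 2) * V := Nat.mul_le_mul_right _ (by omega)
  have h2 : (k * ((n + 2) * V) + (p * V + v)) / ((n + 2) * V) = k := by
    rw [mul_comm k, Nat.mul_add_div (by omega), Nat.div_eq_of_lt h1, add_zero]
  have h3 : k * ((n + 2) * V) + (p * V + v) = V * (k * (n + 2) + p) + v := by ring
  have h4 : (k * ((n + 2) * V) + (p * V + v)) / V = k * (n + 2) + p := by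
    rw [h3, Nat.mul_add_div hV0, Nat.div_eq_of_lt hv, add_zero]
  have h5 : (k * ((n + 2) * V) + (p * V + v)) % V = v := by
    rw [h3, Nat.mul_add_mod, Nat.mod_eq_of_lt hv]
  have h6 : (k * (n + 2) + p) % (n + 2) = p := by
    rw [mul_comm, Nat.mul_add_mod, Nat.mod_eq_of_lt hp]
  rw [h2, h4, h5, h6]

private theorem sc_head {x : List α} {c : ℕ} {h : ℕ} (hh : h ≤ c * (Nat.log 2 x.length + 1)) :
    h < (c + 1) * sz x.length := by
  have h1 : Nat.log 2 x.length + 1 ≤ sz x.length := by
    unfold sz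
    have := Nat.log_mono_right (b := 2) (Nat.le_succ x.length)
    simp only [Nat.succ_eq_add_one] at this
    omega
  calc h < c * (Nat.log 2 x.length + 1) + (Nat.log 2 x.length + 1) := by omega
    _ = (c + 1) * (Nat.log 2 x.length + 1) := by ring
    _ ≤ (c + 1) * sz x.length := Nat.mul_le_mul_left _ h1

private theorem sc_inp {M : NTM α} {x : List α} {d : NCfg M} (h : M.Reach x M.init d) :
    d.inp < x.length + 2 := by
  induction h with
  | refl => simp [NTM.init]
  | tail _ hs ih =>
    obtain ⟨t, _, rfl⟩ := hs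
    exact moveInp_lt ih _

private theorem sc_big (n c : ℕ) :
    2 * ((n + 2) * NV ω (c + 1) n) ≤ NR (4 * ω + 3) (c + 1) n := by
  unfold NV NR
  set m := (c + 1) * sz n with hm
  have hs : n + 2 ≤ 2 ^ sz n := by
    unfold sz
    exact Nat.lt_pow_succ_log_self (by norm_num) (n + 1)
  have hsm : sz n ≤ m := by
    rw [hm]; nlinarith [Nat.zero_le (c * sz n)]
  have hm1 : 1 ≤ m := le_trans (by unfold sz; omega) hsm
  have h1 : n + 2 ≤ 2 ^ m := hs.trans (Nat.pow_le_pow_right (by norm_num) hsm)
  have h2 : 2 ≤ 2 ^ m := by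
    calc 2 = 2 ^ 1 := by norm_num
      _ ≤ 2 ^ m := Nat.pow_le_pow_right (by norm_num) hm1
  have h3 : (4 * ω + 3 + 1) ^ m = 2 ^ m * 2 ^ m * (ω + 1) ^ m := by
    rw [← mul_pow, ← mul_pow]
    congr 1
  rw [h3]
  calc 2 * ((n + 2) * (ω + 1) ^ m) = 2 * (n + 2) * (ω + 1) ^ m := by ring
    _ ≤ 2 ^ m * 2 ^ m * (ω + 1) ^ m := Nat.mul_le_mul_right _ (Nat.mul_le_mul h2 h1)

theorem zig_complete {M : NTM α} {dec : Fin (ω + 1) ≃ M.Γ × Option M.Q} {x : List α} {c : ℕ}
    (hc : ∀ d, M.Reach x M.init d → d.head ≤ c * (Nat.log 2 x.length + 1))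
    (h : ∃ d, M.Reach x M.init d ∧ d.q ∈ M.accept) :
    Zig (SSet M (4 * ω + 3) dec) (ASet M (4 * ω + 3) dec) (TSet M (4 * ω + 3) dec)
      (odo (4 * ω + 3) ω (c + 1) x) := by
  obtain ⟨d, hd, hacc⟩ := h
  have hhead : ∀ e, M.Reach x M.init e → e.head < (c + 1) * sz x.length := fun e he =>
    sc_head (hc e he)
  choose vf hvf hrep using fun e : NCfg M =>
    exists_rep (ω := ω) (dec := dec) ((c + 1) * sz x.length) e
  set V := NV ω (c + 1) x.length with hV
  have hvf' : ∀ e, vf e < V := hvf
  let r : Fin (x.length + 2) × Fin V → Fin (x.length + 2) × Fin V → Prop := fun a b =>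
    ∃ c1 c2 : NCfg M, M.Reach x M.init c1 ∧ Rep dec ((c + 1) * sz x.length) c1 a.1 a.2 ∧
      Rep dec ((c + 1) * sz x.length) c2 b.1 b.2 ∧ M.Step x c1 c2
  let bf : (e : NCfg M) → e.inp < x.length + 2 → Fin (x.length + 2) × Fin V := fun e he =>
    (⟨e.inp, he⟩, ⟨vf e, hvf' e⟩)
  have hpath : ∀ e (he : M.Reach x M.init e), Relation.ReflTransGen r
      (bf M.init (sc_inp Relation.ReflTransGen.refl)) (bf e (sc_inp he)) := by
    intro e he
    induction he with
    | refl => exact Relation.ReflTransGen.refl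
    | @tail e1 e2 h1 h2 ih =>
      exact Relation.ReflTransGen.tail ih ⟨e1, e2, h1, hrep e1, hrep e2, h2⟩
  obtain ⟨k, hk, f, hf0, hfk, hfr⟩ := exists_short_path (hpath d hd)
  have hcard : Nat.card (Fin (x.length + 2) × Fin V) = (x.length + 2) * V := by
    simp
  rw [hcard] at hk
  have hbig := sc_big (ω := ω) x.length c
  rw [← hV] at hbig
  set N0 := (x.length + 2) * V with hN0
  set R := NR (4 * ω + 3) (c + 1) x.length with hR
  have hNT : NT (4 * ω + 3) ω (c + 1) x.length = R * N0 := rfl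
  let F : ℕ → Fin (x.length + 2) × Fin V := fun i => f (min i k)
  have hF : ∀ i k1 k2, Rl (TSet M (4 * ω + 3) dec)
      (rcd (4 * ω + 3) ω (c + 1) x (sz x.length) k1 (F i).1 (F i).2)
      (rcd (4 * ω + 3) ω (c + 1) x (sz x.length) k2 (F (i + 1)).1 (F (i + 1)).2) := by
    intro i k1 k2
    rcases lt_or_ge i k with hi | hi
    · have e1 : F i = f i := by simp only [F]; rw [min_eq_left hi.le]
      have e2 : F (i + 1) = f (i + 1) := by simp only [F]; rw [min_eq_left hi]
      rw [e1, e2]
      obtain ⟨c1, c2, h1, h2, h3, h4⟩ := hfr i hi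
      exact t_complete (f i).1.2 (f (i + 1)).1.2 h2 h3 (hhead c1 h1) (Or.inr h4)
    · have e1 : F i = f k := by simp only [F]; rw [min_eq_right hi]
      have e2 : F (i + 1) = f k := by simp only [F]; rw [min_eq_right (by omega)]
      rw [e1, e2, hfk]
      exact t_complete (sc_inp hd) (sc_inp hd) (hrep d) (hrep d) (hhead d hd) (Or.inl rfl)
  let idx : Fin (x.length + 2) × Fin V → ℕ := fun a => a.1 * V + a.2
  have hidx : ∀ a, idx a < N0 := by
    intro a
    have h1 := a.1.2
    have h2 := a.2.2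
    calc (a.1 : ℕ) * V + a.2 < a.1 * V + V := by omega
      _ = (a.1 + 1) * V := by ring
      _ ≤ (x.length + 2) * V := Nat.mul_le_mul_right _ (by omega)
  have hrt : ∀ (j : ℕ) (a : Fin (x.length + 2) × Fin V),
      rt (4 * ω + 3) ω (c + 1) x (j * N0 + idx a) =
        rcd (4 * ω + 3) ω (c + 1) x (sz x.length) j a.1 a.2 := fun j a => rt_idx a.1.2 a.2.2
  unfold odo
  rw [hNT]
  refine zig_of_index (h := k) (l := fun i => i * N0 + idx (F (2 * i)))
    (r := fun i => (R - 1 - i) * N0 + idx (F (2 * i + 1))) ?_ ?_ ?_ ?_ ?_ ?_ ?_ ?_ ?_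
  · have h1 := hidx (F (2 * 0))
    have h2 : 1 * N0 ≤ R * N0 := Nat.mul_le_mul_right _ (by omega)
    simp only [zero_mul, zero_add]
    omega
  · rw [hrt]
    have : F (2 * 0) = bf M.init (sc_inp Relation.ReflTransGen.refl) := by
      simp only [F, mul_zero, Nat.zero_min]
      exact hf0
    rw [this, s_iff (sc_inp Relation.ReflTransGen.refl)]
    exact hrep M.init
  · rw [hrt]
    have : F (2 * k) = bf d (sc_inp hd) := by
      simp only [F]
      rw [min_eq_right (by omega)]
      exact hfk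
    rw [this]
    exact (a_iff (hrep d)).2 ⟨hhead d hd, hacc⟩
  · intro i _
    have h1 := hidx (F (2 * i))
    have h2 : (i + 1) * N0 = i * N0 + N0 := by ring
    omega
  · intro i hi
    have h1 := hidx (F (2 * (i + 1)))
    have h2 : (i + 1 + 1) * N0 ≤ (R - 1 - i) * N0 := Nat.mul_le_mul_right _ (by omega)
    have h3 : (i + 1 + 1) * N0 = (i + 1) * N0 + N0 := by ring
    omega
  · intro _
    have h1 := hidx (F (2 * 0 + 1))
    obtain ⟨R', hR'⟩ : ∃ R', R = R' + 1 := ⟨R - 1, by omega⟩
    have h2 : R * N0 = (R - 1 - 0) * N0 + N0 := by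
      rw [hR']
      simp only [Nat.add_sub_cancel, Nat.sub_zero]
      ring
    omega
  · intro i hi
    have h1 := hidx (F (2 * (i + 1) + 1))
    obtain ⟨R', hR'⟩ : ∃ R', R - 1 - i = R' + 1 := ⟨R - 1 - i - 1, by omega⟩
    have h2 : R - 1 - (i + 1) = R' := by omega
    rw [h2, hR']
    have h3 : (R' + 1) * N0 = R' * N0 + N0 := by ring
    omega
  · intro i _
    rw [hrt, hrt]
    exact hF (2 * i) _ _
  · intro i _
    rw [hrt, hrt]
    have := hF (2 * i + 1) (R - 1 - i) (i + 1)
    exact this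

end Pool.Agent.DEG
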