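import Pool.Agent.DEG.Sim
import Pool.Agent.DEG.RegA
import Pool.Agent.DEG.RegB

/-!
DEG module SREG: the sets `SSet`, `ASet`, `TSet` are regular.

`lx z`, `lw z`, `zx z`, `zw z` are `List.filterMap`s (`Reg.filterMap`), the conditions are
`Reg.win`, `Reg.forall`, `Reg.exists`, combined by `Reg.inter`, `Reg.union`; in `TSet` the
existential quantifiers over the state `q`, the symbol `s`, the symbol `g` and the action
`t ∈ M.δ q s g` range over finite types (`Reg.exFin` for the product type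
`M.Q × Sym α × M.Γ × (M.Q × M.Γ × Dir × Dir)`, with `Reg.constP` for `t ∈ M.δ q s g`; `M.finQ`,
`M.finΓ` are not instances: `haveI := M.finQ`). The alphabet `Cell α ρ ω` is finite.
-/

namespace Pool.Agent.DEG

open Pool.Agent.Helper38.LinL

variable {α : Type} (M : NTM α) (ρ : ℕ) {ω : ℕ} (dec : Fin (ω + 1) ≃ M.Γ × Option M.Q)

theorem reg_SSet [Finite α] : Reg (SSet M ρ dec) := by
  have r1 : Reg {z : List (Cell α ρ ω) | lx z ∈ {L : List (XC α) |
      Win (fun a c _ => (c.2 = true ↔ a = none)) L}} :=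
    Reg.filterMap (Reg.win _)
  have r2 : Reg {z : List (Cell α ρ ω) | lw z ∈ {W : List (WC ρ ω) |
      Win (fun a c _ => (dec c.2.2.2).1 = M.blank ∧
        (a = none → (dec c.2.2.2).2 = some M.start) ∧
        (a ≠ none → (dec c.2.2.2).2 = none)) W}} :=
    Reg.filterMap (Reg.win _)
  exact r1.inter r2

theorem reg_ASet [Finite α] : Reg (ASet M ρ dec) := by
  have r1 : Reg {z : List (Cell α ρ ω) | lw z ∈ {W : List (WC ρ ω) |
      ∃ c ∈ W, ∃ q ∈ M.accept, (dec c.2.2.2).2 = some q}} :=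
    Reg.filterMap (Reg.exists _)
  exact r1

theorem reg_TSet [Finite α] : Reg (TSet M ρ dec) := by
  have := M.finQ
  have := M.finΓ
  have hx : ∀ {K : Set (List (XC α × XC α))}, Reg K →
      Reg {z : List (Cell α ρ ω × Cell α ρ ω) | zx z ∈ K} := fun h => Reg.filterMap h
  have hw : ∀ {K : Set (List (WC ρ ω × WC ρ ω))}, Reg K →
      Reg {z : List (Cell α ρ ω × Cell α ρ ω) | zw z ∈ K} := fun h => Reg.filterMap h
  have r0 : Reg {z : List (Cell α ρ ω × Cell α ρ ω) | SameTy z} := Reg.forall _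
  have r1 : Reg {z : List (Cell α ρ ω × Cell α ρ ω) |
      (∀ c ∈ zx z, c.1 = c.2) ∧ ∀ c ∈ zw z, c.1.2.2.2 = c.2.2.2.2} :=
    (hx (Reg.forall fun c : XC α × XC α => c.1 = c.2)).inter
      (hw (Reg.forall fun c : WC ρ ω × WC ρ ω => c.1.2.2.2 = c.2.2.2.2))
  have rx : ∀ (s : Sym α) (d : Dir), Reg {z : List (XC α × XC α) | XMove s d z} := by
    intro s d
    have h1 := Reg.forall (fun c : XC α × XC α => c.1.1 = c.2.1)
    have h2 := Reg.forall (fun c : XC α × XC α => c.1.2 = true → c.1.1 = s)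
    have h3 := Reg.win (A := XC α × XC α) (fun a c b => (c.2.2 = true ↔ match d with
      | Dir.left => (∃ e, b = some e ∧ e.1.2 = true) ∨ (a = none ∧ c.1.2 = true)
      | Dir.stay => c.1.2 = true
      | Dir.right => (∃ e, a = some e ∧ e.1.2 = true) ∨ (b = none ∧ c.1.2 = true)))
    exact h1.inter (h2.inter h3)
  have rw' : ∀ (q : M.Q) (g : M.Γ) (t : M.Q × M.Γ × Dir × Dir),
      Reg {z : List (WC ρ ω × WC ρ ω) | WMove M ρ dec q g t z} := by
    intro q g t
    have h1 := Reg.exists (fun c : WC ρ ω × WC ρ ω => dec c.1.2.2.2 = (g, some q))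
    have h2 := Reg.win (A := WC ρ ω × WC ρ ω) (fun a c b =>
      (HD dec c → (dec c.2.2.2.2).1 = t.2.1) ∧
      (¬ HD dec c → (dec c.2.2.2.2).1 = (dec c.1.2.2.2).1) ∧
      ((match t.2.2.2 with
        | Dir.left => (∃ e, b = some e ∧ HD dec e) ∨ (a = none ∧ HD dec c)
        | Dir.stay => HD dec c
        | Dir.right => ∃ e, a = some e ∧ HD dec e) → (dec c.2.2.2.2).2 = some t.1) ∧
      (¬ (match t.2.2.2 with
        | Dir.left => (∃ e, b = some e ∧ HD dec e) ∨ (a = none ∧ HD dec c)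
        | Dir.stay => HD dec c
        | Dir.right => ∃ e, a = some e ∧ HD dec e) → (dec c.2.2.2.2).2 = none))
    exact h1.inter h2
  have r2 : Reg {z : List (Cell α ρ ω × Cell α ρ ω) |
      ∃ i : M.Q × Sym α × M.Γ × (M.Q × M.Γ × Dir × Dir), z ∈
        {z : List (Cell α ρ ω × Cell α ρ ω) | i.2.2.2 ∈ M.δ i.1 i.2.1 i.2.2.1} ∩
        ({z | zx z ∈ {z : List (XC α × XC α) | XMove i.2.1 i.2.2.2.2.2.1 z}} ∩
        {z | zw z ∈ {z : List (WC ρ ω × WC ρ ω) | WMove M ρ dec i.1 i.2.2.1 i.2.2.2 z}})} :=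
    Reg.exFin fun i => (Reg.constP _).inter ((hx (rx _ _)).inter (hw (rw' _ _ _)))
  have h := r0.inter (r1.union r2)
  convert h using 1
  ext z
  constructor
  · rintro ⟨h1, h2 | ⟨q, s, g, t, ht, h3, h4⟩⟩
    · exact ⟨h1, Or.inl h2⟩
    · exact ⟨h1, Or.inr ⟨(q, s, g, t), ht, h3, h4⟩⟩
  · rintro ⟨h1, h2 | ⟨⟨q, s, g, t⟩, ht, h3, h4⟩⟩
    · exact ⟨h1, Or.inl h2⟩
    · exact ⟨h1, Or.inr ⟨q, s, g, t, ht, h3, h4⟩⟩

end Pool.Agent.DEG
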