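import Pool.Agent.DEG.SStep

/-!
DEG module SSOUND: a zigzag in the sequence of records gives an accepting computation.

All records of `odo ρ ω K x` have the form `rcd ρ ω K x s k p v` with `s = sz n` and
`p < n + 2` (`p = t / NV % (n + 2)`). By induction on `ZZ A T a M`: if `a = rcd .. k p v` is such a
record, `Rep dec m c p v` with `M.Reach x M.init c`, and all elements of `M` are such records, then
an accepting configuration is reachable. `acc`: `a_iff`. `step`: `t_sound` two times.
Start: `s_iff` gives `Rep dec m M.init p v`.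
-/

namespace Pool.Agent.DEG

open Pool.Agent.Helper38.LinL

variable {α : Type} {M : NTM α} {ρ ω : ℕ} {dec : Fin (ω + 1) ≃ M.Γ × Option M.Q}

private theorem ssound_odo {x : List α} {K : ℕ} {z : List (Cell α ρ ω)}
    (hz : z ∈ odo ρ ω K x) :
    ∃ k p v, p < x.length + 2 ∧ z = rcd ρ ω K x (sz x.length) k p v := by
  unfold odo at hz
  rw [List.mem_map] at hz
  obtain ⟨t, -, rfl⟩ := hz
  exact ⟨_, _, _, Nat.mod_lt _ (by omega), rfl⟩

private theorem ssound_zz {x : List α} {K : ℕ} {a : List (Cell α ρ ω)}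
    {L : List (List (Cell α ρ ω))} (h : ZZ (ASet M ρ dec) (TSet M ρ dec) a L) :
    (∀ z ∈ L, ∃ k p v, p < x.length + 2 ∧ z = rcd ρ ω K x (sz x.length) k p v) →
    ∀ k p v, p < x.length + 2 → a = rcd ρ ω K x (sz x.length) k p v →
    ∀ c : NCfg M, Rep dec (K * sz x.length) c p v → M.Reach x M.init c →
    ∃ d, M.Reach x M.init d ∧ d.q ∈ M.accept := by
  induction h with
  | acc ha =>
    intro _ k p v _ hak c hc hr
    rw [hak] at ha
    exact ⟨c, hr, ((a_iff hc).1 ha).2⟩
  | @step a M1 a' M2 b M3 h1 h2 h3 ih =>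
    intro hL k p v hp hak c hc hr
    obtain ⟨kb, pb, vb, hpb, hb⟩ := hL b (by simp)
    obtain ⟨ka, pa, va, hpa, ha'⟩ := hL a' (by simp)
    rw [hak, hb] at h1
    rw [hb, ha'] at h2
    obtain ⟨c1, hc1, hr1⟩ := t_sound hp hpb hc h1
    obtain ⟨c2, hc2, hr2⟩ := t_sound hpb hpa hr1 h2
    have e1 : M.Reach x M.init c1 := by
      rcases hc1 with rfl | hs
      · exact hr
      · exact Relation.ReflTransGen.tail hr hs
    have e2 : M.Reach x M.init c2 := by
      rcases hc2 with rfl | hs
      · exact e1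
      · exact Relation.ReflTransGen.tail e1 hs
    exact ih (fun z hz => hL z (by simp [hz])) ka pa va hpa ha' c2 hr2 e2

theorem zig_sound {x : List α} {K : ℕ}
    (h : Zig (SSet M ρ dec) (ASet M ρ dec) (TSet M ρ dec) (odo ρ ω K x)) :
    ∃ d, M.Reach x M.init d ∧ d.q ∈ M.accept := by
  obtain ⟨M1, a, M2, hL, ha, hz⟩ := h
  have hall : ∀ z ∈ odo ρ ω K x,
      ∃ k p v, p < x.length + 2 ∧ z = rcd ρ ω K x (sz x.length) k p v :=
    fun z hz => ssound_odo hz
  rw [hL] at hall
  obtain ⟨k, p, v, hp, hak⟩ := hall a (by simp)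
  have hrep : Rep dec (K * sz x.length) M.init p v := by
    rw [hak] at ha
    exact (s_iff hp).1 ha
  exact ssound_zz hz (fun z hz => hall z (by simp [hz])) k p v hp hak M.init hrep
    Relation.ReflTransGen.refl

end Pool.Agent.DEG
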