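import Pool.Agent.DEG.Cmb
import Pool.Agent.DEG.ORegA
import Pool.Agent.DEG.ORegB
import Pool.Agent.DEG.OSeq
import Pool.Agent.DEG.SReg
import Pool.Agent.DEG.SSound
import Pool.Agent.DEG.SComp
import Pool.Agent.DEG.LCode
import Pool.Agent.DEG.LDcd
import Pool.Agent.DEG.LBit

/-!
# The degree theorem
-/

namespace Pool.Agent.DEG

open Pool.Agent.Helper38.LinL Classical

variable {α : Type}

/-- The grammar for a language in `NL`. -/
theorem exists_code_grammar [Finite α] {A : Set (List α)} (hA : InNL A) :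
    ∃ (ρ ω K : ℕ) (G : LinearGrammar (Cell α ρ ω ⊕ Fin 4)), ∀ w, w ∈ G.language ↔
      (¬ ∃ x, w = code ρ ω K x) ∨ ∃ x ∈ A, w = code ρ ω K x := by
  obtain ⟨M, c, hM⟩ := hA
  have := M.finQ
  have := M.finΓ
  obtain ⟨N, ⟨e⟩⟩ := Finite.exists_equiv_fin (M.Γ × Option M.Q)
  obtain ⟨ω, rfl⟩ : ∃ ω, N = ω + 1 := by
    cases N with
    | zero => exact (e (M.blank, none)).elim0
    | succ ω => exact ⟨ω, rfl⟩
  let dec : Fin (ω + 1) ≃ M.Γ × Option M.Q := e.symm
  obtain ⟨G, hG⟩ := exists_grammar (reg_ISet (α := α) (ρ := 4 * ω + 3) (ω := ω) (K := c + 1)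
    (by omega)) (reg_FSet (α := α) (ρ := 4 * ω + 3) (ω := ω))
    (reg_NextSet (α := α) (ρ := 4 * ω + 3) (ω := ω)) (reg_SSet M (4 * ω + 3) dec)
    (reg_ASet M (4 * ω + 3) dec) (reg_TSet M (4 * ω + 3) dec)
  refine ⟨4 * ω + 3, ω, c + 1, G, fun w => ?_⟩
  rw [hG]
  refine or_congr (not_congr ?_) ?_
  · constructor
    · rintro ⟨L, hL, rfl⟩
      obtain ⟨x, rfl⟩ := (vseq_iff (by omega)).1 hL
      exact ⟨x, rfl⟩
    · rintro ⟨x, rfl⟩
      exact ⟨_, (vseq_iff (by omega)).2 ⟨x, rfl⟩, rfl⟩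
  · constructor
    · rintro ⟨L, hL, hz, rfl⟩
      obtain ⟨x, rfl⟩ := (vseq_iff (by omega)).1 hL
      exact ⟨x, (hM x).2.2 (zig_sound hz), rfl⟩
    · rintro ⟨x, hx, rfl⟩
      exact ⟨_, (vseq_iff (by omega)).2 ⟨x, rfl⟩, zig_complete (hM x).1 ((hM x).2.1 hx), rfl⟩

/-- The degree theorem. -/
theorem degree [Finite α] {A : Set (List α)} (hA : InNL A) (hne : A.Nonempty) :
    ∃ (β : Type) (_ : Finite β) (G : LinearGrammar β) (f : List α → List β) (ℓ : ℕ → ℕ),
      LogComp f ∧ (∀ x, x ∈ A ↔ f x ∈ G.language) ∧ LogRed G.language A ∧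
      Function.Injective f ∧ (∀ x, (f x).length = ℓ x.length) ∧ StrictMono ℓ ∧
      ∀ w, w ∉ G.language ↔ ∃ x, x ∉ A ∧ w = f x := by
  obtain ⟨ρ, ω, K, G, hG⟩ := exists_code_grammar hA
  obtain ⟨a0, ha0⟩ := hne
  have hin : ∀ x, code ρ ω K x ∈ G.language ↔ x ∈ A := by
    intro x
    rw [hG]
    constructor
    · rintro (h | ⟨y, hy, h⟩)
      · exact absurd ⟨x, rfl⟩ h
      · rwa [code_inj K h]
    · intro h
      exact Or.inr ⟨x, h, rfl⟩
  refine ⟨Cell α ρ ω ⊕ Fin 4, inferInstance, G, code ρ ω K,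
    fun n => NT ρ ω K n * (4 * (ql K n + 1)), logComp_of_logFun (logFun_code K),
    fun x => (hin x).symm, ?_, code_inj K, code_length K, code_length_strictMono K, ?_⟩
  · refine ⟨fun w => if w = code ρ ω K (dcd w) then dcd w else a0,
      logComp_of_logFun fun V hV => ?_, fun w => ?_⟩
    · have h1 := logFun_dcd V hV
      exact VW.ite (hV.eq (logFun_code K _ h1)) h1 (VW.const a0)
    · dsimp only
      split_ifs with h
      · conv_lhs => rw [h]
        exact hin _
      · refine iff_of_true ?_ ha0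
        rw [hG]
        left
        rintro ⟨x, rfl⟩
        rw [dcd_code] at h
        exact h rfl
  · intro w
    constructor
    · intro h
      rw [hG] at h
      push Not at h
      obtain ⟨⟨x, rfl⟩, h2⟩ := h
      exact ⟨x, fun hx => h2 x hx rfl, rfl⟩
    · rintro ⟨x, hx, rfl⟩ h
      exact hx ((hin x).1 h)

/-- The degree theorem without the assumption that the language is not empty. -/
theorem degree_all (α : Type) [Finite α] (A : Set (List α)) (hA : InNL A) :
    ∃ (β : Type) (_ : Finite β) (G : LinearGrammar β), LogRed A G.language ∧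
      LogRed G.language A ∧ (A.Nonempty → ∃ (f : List α → List β) (ℓ : ℕ → ℕ),
        LogComp f ∧ Function.Injective f ∧ StrictMono ℓ ∧ (∀ x, (f x).length = ℓ x.length) ∧
        ∀ w, w ∉ G.language ↔ ∃ x, x ∉ A ∧ w = f x) := by
  by_cases hne : A.Nonempty
  · obtain ⟨β, hβ, G, f, ℓ, h1, h2, h3, h4, h5, h6, h7⟩ := degree hA hne
    exact ⟨β, hβ, G, ⟨f, h1, h2⟩, h3, fun _ => ⟨f, ℓ, h1, h4, h6, h5, h7⟩⟩
  · have hA0 : A = ∅ := Set.not_nonempty_iff_eq_empty.1 hne
    subst hA0
    have hG : ∀ w, w ∉ (mkG Unit inferInstance () ∅ Set.finite_empty ∅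
        Set.finite_empty : LinearGrammar Unit).language := by
      rintro w ⟨u, B, v, t, -, h, -⟩
      exact (mem_term_mkG.1 h).elim
    refine ⟨Unit, inferInstance, mkG Unit inferInstance () ∅ Set.finite_empty ∅
      Set.finite_empty, ?_, ?_, fun h => absurd h (by simp)⟩
    · exact ⟨fun _ => [], logComp_of_logFun fun V _ => VW.const [], fun w =>
        iff_of_false (by simp) (hG _)⟩
    · exact ⟨fun _ => [], logComp_of_logFun fun V _ => VW.const [], fun w =>
        iff_of_false (hG _) (by simp)⟩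

/-- Linear languages missing at most one word of each length are as hard as all tally languages
in `NL`. -/
theorem tally (h : ∀ (β : Type) [Finite β] (G : LinearGrammar β),
      (∀ u v : List β, u.length = v.length → u ∉ G.language → v ∉ G.language → u = v) →
      InL G.language) (A : Set (List Unit)) (hA : InNL A) : InL A := by
  obtain ⟨β, hβ, G, h1, h2, h3⟩ := degree_all Unit A hA
  refine InL.of_logRed h1 ?_
  by_cases hne : A.Nonempty
  · obtain ⟨f, ℓ, _, _, h5, h6, h7⟩ := h3 hne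
    refine h β G fun u v huv hu hv => ?_
    obtain ⟨x, -, rfl⟩ := (h7 u).1 hu
    obtain ⟨y, -, rfl⟩ := (h7 v).1 hv
    rw [h6, h6] at huv
    have hxy := h5.injective huv
    have : x = y := List.ext_getElem hxy fun _ _ _ => rfl
    rw [this]
  · exact InL.of_logRed h2 (inL_iff_FP.2 (FP.false.congr fun w _ => by
      rw [Set.not_nonempty_iff_eq_empty.1 hne]
      exact Iff.rfl))

end Pool.Agent.DEG
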