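import Pool.Agent.DEG.OWA

/-!
DEG module OWB (`w_B`, `w_C`; `w_A` and `filter_act` are in OWA): the second parts of consecutive records.

`W = ws ρ ω K s k p v` is the list of the `m = K * s` quadruples
`(decide (j % K = 0), decide (j % K = 0 ∧ dg 1 s p (j / K) = 1), dg ρ m k j, dg ω m v j)`.
Let `W'[j] = (a_j, b_j, c_j, d_j)`.
* `w_A`: the first condition says `a_j`, `b_j`, `c_j` are as in `W`; the condition on the values
  says that the number `v'` with the digits `d_j` is `v + 1` (`val_dg`; `v' < (ω + 1) ^ m` by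
  `val_lt`), and `d_j = dg ω m (v + 1) j` by `dg_of_val`.
* `w_B`: the first condition says: `a_j` is as in `W`, `c_j` as in `W`, all `dg ω m v j` are
  maximal, i.e. `v + 1 = (ω + 1) ^ m` (`all_max`), `d_j = 0 = dg ω m 0 j` (`dg_zero`), and
  `b_j = false` if `¬ K ∣ j`. The filtered list `(zip).filter fun c => c.1.1` has the entries
  number `0, K, 2K, ..., (s - 1) K`: `filter_act`. So the condition on the counter says (base 2)
  that the bits `b_{iK}`, `i < s`, are the digits of `p + 1`.
  `filter_act`: for every list `L` of length `K * s` and every function,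
  filtering the list `(range (K * s)).map f` by a predicate which is true exactly in the
  positions `j % K = 0` gives `(range s).map fun i => f (i * K)`; induction on `s`
  (`List.range_add`/`List.range_succ`, `K * (s + 1) = K * s + K`, in the last block only the first
  position is kept).
* `w_C`: all `dg ω m v j` maximal, `d_j = 0`, `b_j = false` (`dg 1 s 0 i = 0 ≠ 1`), `a_j` as in
  `W`, and the number with the digits `c_j` is `k + 1`.
-/

namespace Pool.Agent.DEG

variable {ρ ω : ℕ}

private theorem owb_rep {A : Type} [Inhabited A] (L : List A) (m : ℕ) (h : m = L.length) :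
    ∃ g : ℕ → A, L = (List.range m).map g := by
  refine ⟨fun j => L.getD j default, ?_⟩
  apply List.ext_getElem
  · simp [h]
  · intro j h1 h2
    simp [h1]

private def owbW (ρ ω K s k p v : ℕ) (j : ℕ) : WC ρ ω :=
  (decide (j % K = 0), decide (j % K = 0 ∧ dg 1 s p (j / K) = 1), dg ρ (K * s) k j,
      dg ω (K * s) v j)

private theorem owb_ws (ρ ω K s k p v : ℕ) :
    ws ρ ω K s k p v = (List.range (K * s)).map (owbW ρ ω K s k p v) := rfl

private theorem owb_eq {A : Type} {m : ℕ} {f g : ℕ → A} :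
    (List.range m).map f = (List.range m).map g ↔ ∀ j < m, f j = g j := by
  rw [List.map_inj_left]
  exact ⟨fun h j hj => h j (List.mem_range.2 hj), fun h j hj => h j (List.mem_range.1 hj)⟩

private theorem owb_all {A : Type} {m : ℕ} {f : ℕ → A} {P : A → Prop} :
    (∀ c ∈ (List.range m).map f, P c) ↔ ∀ j < m, P (f j) := by
  constructor
  · intro h j hj
    exact h _ (List.mem_map.2 ⟨j, List.mem_range.2 hj, rfl⟩)
  · intro h c hc
    obtain ⟨j, hj, rfl⟩ := List.mem_map.1 hc
    exact h j (List.mem_range.1 hj)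

private theorem owb_val {B m n : ℕ} {f : ℕ → Fin (B + 1)} :
    val B ((List.range m).map fun j => (f j : ℕ)) = n ↔
      n < (B + 1) ^ m ∧ ∀ j < m, f j = dg B m n j := by
  have h0 : ((List.range m).map f).map (fun d : Fin (B + 1) => (d : ℕ)) =
      (List.range m).map fun j => (f j : ℕ) := by
    rw [List.map_map]
    rfl
  constructor
  · intro h
    constructor
    · rw [← h]
      have h1 : ∀ d ∈ (List.range m).map (fun j => (f j : ℕ)), d ≤ B := by
        intro d hd
        obtain ⟨j, _, rfl⟩ := List.mem_map.1 hd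
        have := (f j).2
        omega
      have h2 := val_lt h1
      rwa [List.length_map, List.length_range] at h2
    · have h1 : ((List.range m).map f).length = m := by simp
      have h2 := dg_of_val (B := B) (v := n) h1 (by rw [h0]; exact h)
      exact owb_eq.1 h2
  · rintro ⟨h1, h2⟩
    rw [← val_dg h1]
    congr 1
    exact owb_eq.2 fun j hj => by rw [h2 j hj]

private theorem owb_bit (b : Bool) (c : Fin 2) :
    ((if b then (1 : Fin 2) else 0) = c) ↔ b = decide (c = 1) := by
  revert b c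
  decide

private theorem owb_toNat (b : Bool) :
    ((if b then (1 : Fin 2) else 0 : Fin 2) : ℕ) = b.toNat := by
  revert b
  decide

private theorem owb_toNat' (c : Fin 2) : (decide (c = 1)).toNat = (c : ℕ) := by
  revert c
  decide

theorem w_B {K s k p v : ℕ} (hK : 1 ≤ K) (hp : p < 2 ^ s) (hv : v < (ω + 1) ^ (K * s))
    {W' : List (WC ρ ω)} (hW : (ws ρ ω K s k p v).length = W'.length) :
    ((∀ c ∈ (ws ρ ω K s k p v).zip W', c.1.1 = c.2.1 ∧ c.1.2.2.1 = c.2.2.2.1 ∧
        c.1.2.2.2 = Fin.last ω ∧ c.2.2.2.2 = 0 ∧ (c.1.1 = false → c.2.2.1 = false)) ∧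
      val 1 ((((ws ρ ω K s k p v).zip W').filter fun c => c.1.1).map fun c => c.2.2.1.toNat) =
        val 1 ((((ws ρ ω K s k p v).zip W').filter fun c => c.1.1).map
          fun c => c.1.2.1.toNat) + 1) ↔
      v + 1 = (ω + 1) ^ (K * s) ∧ p + 1 < 2 ^ s ∧ W' = ws ρ ω K s k (p + 1) 0 := by
  obtain ⟨g, rfl⟩ := owb_rep W' (K * s) (by rw [← hW, owb_ws]; simp)
  rw [owb_ws, owb_ws, List.zip_map', owb_all, owb_eq,
    filter_act hK s (fun j => (owbW ρ ω K s k p v j, g j)) (fun c => c.1.1) (fun j _ => rfl),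
    List.map_map, List.map_map]
  have hw : ((List.range s).map ((fun c : WC ρ ω × WC ρ ω => c.1.2.1.toNat) ∘
      fun i => (owbW ρ ω K s k p v (i * K), g (i * K)))) =
      (List.range s).map fun i => (dg 1 s p i : ℕ) := by
    apply owb_eq.2
    intro i _
    show (decide (i * K % K = 0 ∧ dg 1 s p (i * K / K) = 1)).toNat = _
    rw [Nat.mul_div_cancel i hK, ← owb_toNat' (dg 1 s p i)]
    congr 1
    simp
  have hg : ((List.range s).map ((fun c : WC ρ ω × WC ρ ω => c.2.2.1.toNat) ∘
      fun i => (owbW ρ ω K s k p v (i * K), g (i * K)))) =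
      (List.range s).map fun i => ((if (g (i * K)).2.1 then (1 : Fin 2) else 0 : Fin 2) : ℕ) := by
    apply owb_eq.2
    intro i _
    rw [owb_toNat]
    rfl
  rw [hw, hg, val_dg (B := 1) hp, owb_val (B := 1), ← all_max hv]
  have h2s : (1 + 1 : ℕ) ^ s = 2 ^ s := rfl
  rw [h2s]
  constructor
  · rintro ⟨h1, h2, h3⟩
    refine ⟨fun j hj => (h1 j hj).2.2.1, h2, fun j hj => ?_⟩
    obtain ⟨e1, e2, e3, e4, e5⟩ := h1 j hj
    have hb : (g j).2.1 = decide (j % K = 0 ∧ dg 1 s (p + 1) (j / K) = 1) := by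
      by_cases hj0 : j % K = 0
      · have hjK : j / K * K = j := Nat.div_mul_cancel (Nat.dvd_of_mod_eq_zero hj0)
        have hjs : j / K < s := by
          rw [Nat.div_lt_iff_lt_mul hK, mul_comm]
          exact hj
        have h4 := h3 (j / K) hjs
        rw [hjK, owb_bit] at h4
        rw [h4]
        simp [hj0]
      · have h4 : (g j).2.1 = false := e5 (by
          show decide (j % K = 0) = false
          simp [hj0])
        rw [h4]
        simp [hj0]
    refine Prod.ext ?_ (Prod.ext ?_ (Prod.ext ?_ ?_))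
    · exact e1.symm
    · exact hb
    · exact e2.symm
    · exact e4.trans (dg_zero _ _ _).symm
  · rintro ⟨h1, h2, h3⟩
    refine ⟨fun j hj => ?_, h2, fun i hi => ?_⟩
    · have h4 := h3 j hj
      show (owbW ρ ω K s k p v j).1 = (g j).1 ∧ (owbW ρ ω K s k p v j).2.2.1 = (g j).2.2.1 ∧
        (owbW ρ ω K s k p v j).2.2.2 = Fin.last ω ∧ (g j).2.2.2 = 0 ∧
        ((owbW ρ ω K s k p v j).1 = false → (g j).2.1 = false)
      rw [h4]
      refine ⟨rfl, rfl, h1 j hj, dg_zero _ _ _, ?_⟩
      intro h5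
      have h6 : ¬ j % K = 0 := of_decide_eq_false h5
      show decide (j % K = 0 ∧ dg 1 s (p + 1) (j / K) = 1) = false
      simp [h6]
    · have hi2 : i * K < K * s := by
        rw [mul_comm K s]
        exact Nat.mul_lt_mul_of_pos_right hi hK
      rw [h3 (i * K) hi2, owb_bit]
      show decide (i * K % K = 0 ∧ dg 1 s (p + 1) (i * K / K) = 1) = _
      rw [Nat.mul_div_cancel i hK]
      simp

theorem w_C {K s k p v : ℕ} (hk : k < (ρ + 1) ^ (K * s)) (hv : v < (ω + 1) ^ (K * s))
    {W' : List (WC ρ ω)} (hW : (ws ρ ω K s k p v).length = W'.length) :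
    ((∀ c ∈ (ws ρ ω K s k p v).zip W', c.1.1 = c.2.1 ∧ c.2.2.1 = false ∧
        c.1.2.2.2 = Fin.last ω ∧ c.2.2.2.2 = 0) ∧
      val ρ (((ws ρ ω K s k p v).zip W').map fun c => (c.2.2.2.1 : ℕ)) =
        val ρ (((ws ρ ω K s k p v).zip W').map fun c => (c.1.2.2.1 : ℕ)) + 1) ↔
      v + 1 = (ω + 1) ^ (K * s) ∧ k + 1 < (ρ + 1) ^ (K * s) ∧
        W' = ws ρ ω K s (k + 1) 0 0 := by
  obtain ⟨g, rfl⟩ := owb_rep W' (K * s) (by rw [← hW, owb_ws]; simp)
  rw [owb_ws, owb_ws, List.zip_map', owb_all, owb_eq, List.map_map, List.map_map]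
  have hw : ((List.range (K * s)).map ((fun c : WC ρ ω × WC ρ ω => (c.1.2.2.1 : ℕ)) ∘
      fun j => (owbW ρ ω K s k p v j, g j))) =
      (List.range (K * s)).map fun j => (dg ρ (K * s) k j : ℕ) := rfl
  have hg : ((List.range (K * s)).map ((fun c : WC ρ ω × WC ρ ω => (c.2.2.2.1 : ℕ)) ∘
      fun j => (owbW ρ ω K s k p v j, g j))) =
      (List.range (K * s)).map fun j => ((g j).2.2.1 : ℕ) := rfl
  rw [hw, hg, val_dg hk, owb_val, ← all_max hv]
  have hz : ∀ j, decide (j % K = 0 ∧ dg 1 s 0 (j / K) = 1) = false := by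
    intro j
    rw [dg_zero]
    simp
  constructor
  · rintro ⟨h1, h2, h3⟩
    refine ⟨fun j hj => (h1 j hj).2.2.1, h2, fun j hj => ?_⟩
    obtain ⟨e1, e2, e3, e4⟩ := h1 j hj
    refine Prod.ext ?_ (Prod.ext ?_ (Prod.ext ?_ ?_))
    · exact e1.symm
    · exact e2.trans (hz j).symm
    · exact h3 j hj
    · exact e4.trans (dg_zero _ _ _).symm
  · rintro ⟨h1, h2, h3⟩
    refine ⟨fun j hj => ?_, h2, fun j hj => ?_⟩
    · have h4 := h3 j hj
      show (owbW ρ ω K s k p v j).1 = (g j).1 ∧ (g j).2.1 = false ∧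
        (owbW ρ ω K s k p v j).2.2.2 = Fin.last ω ∧ (g j).2.2.2 = 0
      rw [h4]
      exact ⟨rfl, hz j, h1 j hj, dg_zero _ _ _⟩
    · rw [h3 j hj]
      rfl

end Pool.Agent.DEG
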