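import Pool.Agent.DEG.OX
import Pool.Agent.DEG.OWB
import Pool.Agent.DEG.OShape

/-!
DEG module ONEXT: the successor relation on records, and the final records.

* `next_iff`: `Rl (NextSet α ρ ω) a b` with `a = (xs x p).map inl ++ (ws ..).map inr`: the lengths
  agree and `SameTy (a.zip b)`, i.e. (`sameTy_iff`) `b = X'.map inl ++ W'.map inr` with parts of
  the right lengths, and then `zx`, `zw` of `a.zip b` are `(xs x p).zip X'` and `(ws ..).zip W'`
  (`zx_zip`, `zw_zip`). `ModeA`: `x_same`, `w_A`. `ModeB`: `x_move`, `w_B`. `ModeC`: `x_wrap`,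
  `w_C`.
* `fset_iff`: `lx_append`, `lw_append`. The last cell of `xs x p` is
  `(readSym x (n + 1), decide (n + 1 = p))` (`List.getLast?_map`, `List.getLast?_range`); the
  digits are maximal: `all_max`; the first cell of `ws` (`K * s ≥ 1`) has the bit
  `decide (dg 1 s p 0 = 1)`, and `dg 1 s p 0` is `p / 2 ^ (s - 1) % 2`, which is `1` iff
  `2 ^ (s - 1) ≤ p` (as `p < 2 ^ s = 2 * 2 ^ (s - 1)`).
-/

namespace Pool.Agent.DEG

open Pool.Agent.Helper38.LinL

variable {α : Type} {ρ ω : ℕ}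

private theorem onext_lenx (x : List α) (p : ℕ) : (xs x p).length = x.length + 2 := by
  simp [xs]

private theorem onext_lenw (K s k p v : ℕ) : (ws ρ ω K s k p v).length = K * s := by
  simp [ws]

theorem next_iff {K : ℕ} (hK : 1 ≤ K) {x : List α} {s k p v : ℕ} (hp : p < x.length + 2)
    (hp' : p < 2 ^ s) (hk : k < (ρ + 1) ^ (K * s)) (hv : v < (ω + 1) ^ (K * s))
    {b : List (Cell α ρ ω)} :
    Rl (NextSet α ρ ω) (rcd ρ ω K x s k p v) b ↔
      (v + 1 < (ω + 1) ^ (K * s) ∧ b = rcd ρ ω K x s k p (v + 1)) ∨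
      (v + 1 = (ω + 1) ^ (K * s) ∧ p + 1 < x.length + 2 ∧ p + 1 < 2 ^ s ∧
        b = rcd ρ ω K x s k (p + 1) 0) ∨
      (v + 1 = (ω + 1) ^ (K * s) ∧ p + 1 = x.length + 2 ∧ k + 1 < (ρ + 1) ^ (K * s) ∧
        b = rcd ρ ω K x s (k + 1) 0 0) := by
  constructor
  · rintro ⟨hlen, hS, hM⟩
    obtain ⟨X', W', hX, hW, rfl⟩ := (sameTy_iff hlen).1 hS
    rcases hM with hM | hM | hM
    · left
      obtain ⟨h1, h2, h3⟩ := hM
      rw [rcd, zx_zip hX hW] at h1
      rw [rcd, zw_zip hX hW] at h2 h3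
      have e1 := (x_same hX).1 h1
      have e2 := (w_A hv hW).1 ⟨h2, h3⟩
      refine ⟨e2.1, ?_⟩
      rw [rcd, ← e1, ← e2.2]
    · right; left
      obtain ⟨h1, h2, h3, h4⟩ := hM
      rw [rcd, zx_zip hX hW] at h1 h2
      rw [rcd, zw_zip hX hW] at h3 h4
      have e1 := (x_move hp hX).1 ⟨h1, h2⟩
      have e2 := (w_B hK hp' hv hW).1 ⟨h3, h4⟩
      refine ⟨e2.1, e1.1, e2.2.1, ?_⟩
      rw [rcd, ← e1.2, ← e2.2.2]
    · right; right
      obtain ⟨h1, h2, h3, h4⟩ := hM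
      rw [rcd, zx_zip hX hW] at h1 h2
      rw [rcd, zw_zip hX hW] at h3 h4
      have e1 := (x_wrap hp hX).1 ⟨h1, h2⟩
      have e2 := (w_C hk hv hW).1 ⟨h3, h4⟩
      refine ⟨e2.1, e1.1, e2.2.1, ?_⟩
      rw [rcd, ← e1.2, ← e2.2.2]
  · have key : ∀ (X' : List (XC α)) (W' : List (WC ρ ω)), (xs x p).length = X'.length →
        (ws ρ ω K s k p v).length = W'.length →
        ((rcd ρ ω K x s k p v).length = (X'.map Sum.inl ++ W'.map Sum.inr :
          List (Cell α ρ ω)).length ∧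
        SameTy ((rcd ρ ω K x s k p v).zip (X'.map Sum.inl ++ W'.map Sum.inr)) ∧
        zx ((rcd ρ ω K x s k p v).zip (X'.map Sum.inl ++ W'.map Sum.inr)) = (xs x p).zip X' ∧
        zw ((rcd ρ ω K x s k p v).zip (X'.map Sum.inl ++ W'.map Sum.inr)) =
          (ws ρ ω K s k p v).zip W') := by
      intro X' W' hX hW
      have hl : (rcd ρ ω K x s k p v).length = (X'.map Sum.inl ++ W'.map Sum.inr :
          List (Cell α ρ ω)).length := by
        simp [rcd, hX, hW]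
      exact ⟨hl, (sameTy_iff hl).2 ⟨X', W', hX, hW, rfl⟩, zx_zip hX hW, zw_zip hX hW⟩
    rintro (⟨h1, rfl⟩ | ⟨h1, h2, h3, rfl⟩ | ⟨h1, h2, h3, rfl⟩)
    · have hX : (xs x p).length = (xs x p).length := rfl
      have hW : (ws ρ ω K s k p v).length = (ws ρ ω K s k p (v + 1)).length := by
        rw [onext_lenw, onext_lenw]
      obtain ⟨k1, k2, k3, k4⟩ := key _ _ hX hW
      refine ⟨k1, k2, Or.inl ?_⟩
      have e1 := (x_same hX).2 rfl
      have e2 := (w_A hv hW).2 ⟨h1, rfl⟩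
      rw [← k3] at e1
      rw [← k4] at e2
      exact ⟨e1, e2.1, e2.2⟩
    · have hX : (xs x p).length = (xs x (p + 1)).length := by
        rw [onext_lenx, onext_lenx]
      have hW : (ws ρ ω K s k p v).length = (ws ρ ω K s k (p + 1) 0).length := by
        rw [onext_lenw, onext_lenw]
      obtain ⟨k1, k2, k3, k4⟩ := key _ _ hX hW
      refine ⟨k1, k2, Or.inr (Or.inl ?_)⟩
      have e1 := (x_move hp hX).2 ⟨h2, rfl⟩
      have e2 := (w_B hK hp' hv hW).2 ⟨h1, h3, rfl⟩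
      rw [← k3] at e1
      rw [← k4] at e2
      exact ⟨e1.1, e1.2, e2.1, e2.2⟩
    · have hX : (xs x p).length = (xs x 0).length := by
        rw [onext_lenx, onext_lenx]
      have hW : (ws ρ ω K s k p v).length = (ws ρ ω K s (k + 1) 0 0).length := by
        rw [onext_lenw, onext_lenw]
      obtain ⟨k1, k2, k3, k4⟩ := key _ _ hX hW
      refine ⟨k1, k2, Or.inr (Or.inr ?_)⟩
      have e1 := (x_wrap hp hX).2 ⟨h2, rfl⟩
      have e2 := (w_C hk hv hW).2 ⟨h1, h3, rfl⟩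
      rw [← k3] at e1
      rw [← k4] at e2
      exact ⟨e1.1, e1.2, e2.1, e2.2⟩

private theorem onext_last (x : List α) (p : ℕ) :
    (xs x p).getLast? = some (readSym x (x.length + 1), decide (x.length + 1 = p)) := by
  rw [xs, List.range_succ, List.map_append, List.map_singleton]
  simp

private theorem onext_bit {s p : ℕ} (hs : 1 ≤ s) (hp : p < 2 ^ s) :
    dg 1 s p 0 = 1 ↔ 2 ^ (s - 1) ≤ p := by
  have h0 : dg 1 s p 0 = Fin.ofNat 2 (p / 2 ^ (s - 1)) := by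
    unfold dg
    simp
  rw [h0]
  have h2 : (2 : ℕ) ^ s = 2 * 2 ^ (s - 1) := by
    conv_lhs => rw [show s = (s - 1) + 1 by omega]
    rw [pow_succ, mul_comm]
  have hlt : p / 2 ^ (s - 1) < 2 := by
    rw [Nat.div_lt_iff_lt_mul (by positivity), ← h2]
    exact hp
  have h3 : (Fin.ofNat 2 (p / 2 ^ (s - 1)) = 1) ↔ p / 2 ^ (s - 1) = 1 := by
    rw [Fin.ext_iff, Fin.val_ofNat, Nat.mod_eq_of_lt hlt]
    rfl
  rw [h3]
  constructor
  · intro h
    by_contra hcon
    rw [Nat.div_eq_of_lt (not_le.1 hcon)] at h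
    omega
  · intro h
    have h4 : 1 ≤ p / 2 ^ (s - 1) := (Nat.one_le_div_iff (by positivity)).2 h
    omega

private theorem onext_head {K s k p v : ℕ} (hK : 1 ≤ K) (hs : 1 ≤ s) :
    (ws ρ ω K s k p v).head? = some (decide (0 % K = 0),
      decide (0 % K = 0 ∧ dg 1 s p (0 / K) = 1), dg ρ (K * s) k 0, dg ω (K * s) v 0) := by
  have h1 : 0 < K * s := Nat.mul_pos hK hs
  obtain ⟨m, hm⟩ := Nat.exists_eq_succ_of_ne_zero h1.ne'
  rw [ws, hm, List.range_succ_eq_map, List.map_cons, List.head?_cons]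

theorem fset_iff {K : ℕ} (hK : 1 ≤ K) {x : List α} {s k p v : ℕ} (hs : 1 ≤ s)
    (hp : p < x.length + 2) (hp' : p < 2 ^ s) (hk : k < (ρ + 1) ^ (K * s))
    (hv : v < (ω + 1) ^ (K * s)) :
    rcd ρ ω K x s k p v ∈ FSet α ρ ω ↔
      p + 1 = x.length + 2 ∧ v + 1 = (ω + 1) ^ (K * s) ∧ k + 1 = (ρ + 1) ^ (K * s) ∧
        2 ^ (s - 1) ≤ p := by
  have hset : rcd ρ ω K x s k p v ∈ FSet α ρ ω ↔
      (∃ c, (lx (rcd ρ ω K x s k p v)).getLast? = some c ∧ c.2 = true) ∧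
      (∀ c ∈ lw (rcd ρ ω K x s k p v), c.2.2.1 = Fin.last ρ ∧ c.2.2.2 = Fin.last ω) ∧
      ∃ c, (lw (rcd ρ ω K x s k p v)).head? = some c ∧ c.2.1 = true := Iff.rfl
  rw [hset, rcd, lx_append, lw_append, onext_last, onext_head hK hs]
  have h1 : (∃ c : XC α, some (readSym x (x.length + 1), decide (x.length + 1 = p)) = some c ∧
      c.2 = true) ↔ p + 1 = x.length + 2 := by
    constructor
    · rintro ⟨c, hc, hc2⟩
      rw [Option.some_inj] at hc
      rw [← hc] at hc2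
      have := of_decide_eq_true hc2
      omega
    · intro h
      exact ⟨_, rfl, decide_eq_true (by omega)⟩
  have h2 : (∀ c ∈ ws ρ ω K s k p v, c.2.2.1 = Fin.last ρ ∧ c.2.2.2 = Fin.last ω) ↔
      (v + 1 = (ω + 1) ^ (K * s) ∧ k + 1 = (ρ + 1) ^ (K * s)) := by
    rw [← all_max hv, ← all_max hk]
    constructor
    · intro h
      refine ⟨fun j hj => ?_, fun j hj => ?_⟩
      · exact (h _ (List.mem_map.2 ⟨j, List.mem_range.2 hj, rfl⟩)).2
      · exact (h _ (List.mem_map.2 ⟨j, List.mem_range.2 hj, rfl⟩)).1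
    · rintro ⟨h3, h4⟩ c hc
      obtain ⟨j, hj, rfl⟩ := List.mem_map.1 hc
      exact ⟨h4 j (List.mem_range.1 hj), h3 j (List.mem_range.1 hj)⟩
  have h3 : (∃ c : WC ρ ω, some (decide (0 % K = 0),
      decide (0 % K = 0 ∧ dg 1 s p (0 / K) = 1), dg ρ (K * s) k 0, dg ω (K * s) v 0) = some c ∧
      c.2.1 = true) ↔ 2 ^ (s - 1) ≤ p := by
    rw [← onext_bit hs hp']
    constructor
    · rintro ⟨c, hc, hc2⟩
      rw [Option.some_inj] at hc
      rw [← hc] at hc2
      have h4 := (of_decide_eq_true hc2).2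
      rwa [Nat.zero_div] at h4
    · intro h
      refine ⟨_, rfl, decide_eq_true ⟨Nat.zero_mod K, ?_⟩⟩
      rwa [Nat.zero_div]
  rw [h1, h2, h3]
  constructor
  · rintro ⟨a, ⟨b, c⟩, d⟩
    exact ⟨a, b, c, d⟩
  · rintro ⟨a, b, c, d⟩
    exact ⟨a, ⟨b, c⟩, d⟩

end Pool.Agent.DEG
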