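import Pool.Agent.DEG.Odo
import Pool.Agent.DEG.Dig

/-!
DEG module OWA: the second parts of consecutive records.

`W = ws ρ ω K s k p v` is the list of the `m = K * s` quadruples
`(decide (j % K = 0), decide (j % K = 0 ∧ dg 1 s p (j / K) = 1), dg ρ m k j, dg ω m v j)`.
Let `W'[j] = (a_j, b_j, c_j, d_j)`.
* `w_A`: the first condition says `a_j`, `b_j`, `c_j` are as in `W`; the condition on the values
  says that the number `v'` with the digits `d_j` is `v + 1` (`val_dg`; `v' < (ω + 1) ^ m` by
  `val_lt`), and `d_j = dg ω m (v + 1) j` by `dg_of_val`.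
* `w_B`: the first condition says: `a_j` is as in `W`, `c_j` as in `W`, all `dg ω m v j` are
  maximal, i.e. `v + 1 = (ω + 1) ^ m` (`all_max`), `d_j = 0 = dg ω m 0 j` (`dg_zero`), and
  `b_j = false` if `¬ K ∣ j`. The filtered list `(zip).filter fun c => c.1.1` has the entries
  number `0, K, 2K, ..., (s - 1) K`: `filter_act`. So the condition on the counter says (base 2)
  that the bits `b_{iK}`, `i < s`, are the digits of `p + 1`.
  `filter_act`: for every list `L` of length `K * s` and every function,
  filtering the list `(range (K * s)).map f` by a predicate which is true exactly in the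
  positions `j % K = 0` gives `(range s).map fun i => f (i * K)`; induction on `s`
  (`List.range_add`/`List.range_succ`, `K * (s + 1) = K * s + K`, in the last block only the first
  position is kept).
* `w_C`: all `dg ω m v j` maximal, `d_j = 0`, `b_j = false` (`dg 1 s 0 i = 0 ≠ 1`), `a_j` as in
  `W`, and the number with the digits `c_j` is `k + 1`.
-/

namespace Pool.Agent.DEG

variable {ρ ω : ℕ}

private theorem owa_mem {A : Type} {Q : A → Prop} {f : ℕ → A} {N : ℕ} :
    (∀ c ∈ (List.range N).map f, Q c) ↔ ∀ j < N, Q (f j) := by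
  simp

private theorem owa_fun {A : Type} (a0 : A) (l : List A) :
    ∃ f : ℕ → A, l = (List.range l.length).map f := by
  refine ⟨fun i => l.getD i a0, ?_⟩
  apply List.ext_getElem
  · simp
  · intro i h1 h2
    rw [List.getElem_map, List.getElem_range, List.getD_eq_getElem _ _ h1]

private theorem owa_zip {A B : Type} (f : ℕ → A) (g : ℕ → B) (N : ℕ) :
    ((List.range N).map f).zip ((List.range N).map g) = (List.range N).map fun i => (f i, g i) :=
  List.zip_map'

theorem filter_act {A : Type} {K : ℕ} (hK : 1 ≤ K) (s : ℕ) (f : ℕ → A) (P : A → Bool)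
    (hP : ∀ j < K * s, P (f j) = decide (j % K = 0)) :
    ((List.range (K * s)).map f).filter P = (List.range s).map fun i => f (i * K) := by
  induction s with
  | zero => simp
  | succ s ih =>
    have h1 : K * (s + 1) = K * s + K := by ring
    rw [h1] at hP ⊢
    have h2 := ih (fun j hj => hP j (by omega))
    rw [List.range_add, List.map_append, List.filter_append, h2, List.range_succ,
      List.map_append]
    congr 1
    obtain ⟨k, rfl⟩ : ∃ k, K = k + 1 := ⟨K - 1, by omega⟩
    have h3 : ∀ a ∈ (List.range k).map (fun i => f ((k + 1) * s + (i + 1))), ¬ P a = true := by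
      intro a ha
      rw [List.mem_map] at ha
      obtain ⟨i, hi, rfl⟩ := ha
      rw [List.mem_range] at hi
      rw [hP _ (by omega), decide_eq_true_eq, Nat.mul_add_mod, Nat.mod_eq_of_lt (by omega)]
      omega
    have h4 : ((List.range (k + 1)).map fun x => (k + 1) * s + x).map f =
        f ((k + 1) * s) :: (List.range k).map (fun i => f ((k + 1) * s + (i + 1))) := by
      rw [List.range_succ_eq_map, List.map_cons, List.map_cons, List.map_map, List.map_map]
      rfl
    rw [h4, List.filter_cons, List.filter_eq_nil_iff.mpr h3, hP _ (by omega),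
      Nat.mul_mod_right]
    simp [mul_comm]

theorem w_A {K s k p v : ℕ} (hv : v < (ω + 1) ^ (K * s)) {W' : List (WC ρ ω)}
    (hW : (ws ρ ω K s k p v).length = W'.length) :
    ((∀ c ∈ (ws ρ ω K s k p v).zip W', c.1.1 = c.2.1 ∧ c.1.2.1 = c.2.2.1 ∧
        c.1.2.2.1 = c.2.2.2.1) ∧
      val ω (((ws ρ ω K s k p v).zip W').map fun c => (c.2.2.2.2 : ℕ)) =
        val ω (((ws ρ ω K s k p v).zip W').map fun c => (c.1.2.2.2 : ℕ)) + 1) ↔
      v + 1 < (ω + 1) ^ (K * s) ∧ W' = ws ρ ω K s k p (v + 1) := by
  have hl : W'.length = K * s := by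
    rw [← hW]
    simp [ws]
  obtain ⟨Y, hY⟩ := owa_fun ((false, false, 0, 0) : WC ρ ω) W'
  rw [hl] at hY
  subst hY
  unfold ws
  rw [owa_zip, owa_mem, List.map_map, List.map_map]
  have e1 : ((fun c : WC ρ ω × WC ρ ω => (c.1.2.2.2 : ℕ)) ∘ fun i =>
      ((decide (i % K = 0), decide (i % K = 0 ∧ dg 1 s p (i / K) = 1), dg ρ (K * s) k i,
        dg ω (K * s) v i), Y i)) = fun j => (dg ω (K * s) v j : ℕ) := rfl
  have e2 : ((fun c : WC ρ ω × WC ρ ω => (c.2.2.2.2 : ℕ)) ∘ fun i =>
      ((decide (i % K = 0), decide (i % K = 0 ∧ dg 1 s p (i / K) = 1), dg ρ (K * s) k i,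
        dg ω (K * s) v i), Y i)) = fun j => ((Y j).2.2.2 : ℕ) := rfl
  rw [e1, e2, val_dg hv]
  constructor
  · rintro ⟨h1, h2⟩
    have h3 : val ω (((List.range (K * s)).map fun j => (Y j).2.2.2).map
        fun d : Fin (ω + 1) => (d : ℕ)) = v + 1 := by
      rw [List.map_map]
      exact h2
    have h4 := dg_of_val (m := K * s) (by simp) h3
    have h5 : v + 1 < (ω + 1) ^ (K * s) := by
      have k := val_lt (B := ω) (l := ((List.range (K * s)).map fun j => (Y j).2.2.2).map
        fun d : Fin (ω + 1) => (d : ℕ)) (by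
          intro d hd
          rw [List.mem_map] at hd
          obtain ⟨x, _, rfl⟩ := hd
          have := x.2
          omega)
      rwa [h3, List.length_map, List.length_map, List.length_range] at k
    refine ⟨h5, ?_⟩
    apply List.map_congr_left
    intro j hj
    have h6 := List.map_inj_left.mp h4 j hj
    rw [List.mem_range] at hj
    obtain ⟨k1, k2, k3⟩ := h1 j hj
    exact Prod.ext k1.symm (Prod.ext k2.symm (Prod.ext k3.symm h6))
  · rintro ⟨h1, h2⟩
    have h3 : ∀ j < K * s, Y j = _ := fun j hj =>
      List.map_inj_left.mp h2 j (List.mem_range.mpr hj)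
    refine ⟨fun j hj => by rw [h3 j hj]; exact ⟨rfl, rfl, rfl⟩, ?_⟩
    rw [← val_dg h1]
    congr 1
    apply List.map_congr_left
    intro j hj
    rw [h3 j (List.mem_range.mp hj)]

end Pool.Agent.DEG
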