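import Pool.Agent.DEG.Odo

/-!
DEG module OX: the first parts of consecutive records.

`xs x p` is the list of the `n + 2` pairs `(readSym x i, decide (i = p))` (`n = x.length`).
All statements are about entry number `i` of `X'` for all `i < n + 2`
(`List.ext_getElem?`, `List.getElem?_map`, `List.getElem?_range`, `List.getElem?_zip`/
`List.getElem?_zipWith`): write `X'[i] = (s_i, m_i)`; the first condition says
`s_i = readSym x i`.
* `x_same`: obvious.
* `x_move`: the window condition says: `m_i = true` iff `i ≥ 1` and `i - 1 = p`, and (last cell)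
  `n + 1 ≠ p`. So `X' = xs x (p + 1)`, and `p + 1 < n + 2`.
* `x_wrap`: `m_i = true` iff `i = 0`, and (last cell) `n + 1 = p`.
`Win P z` unfolds to `∀ j a, z[j]? = some a → P (prv z j) a z[j+1]?` with `prv z j = none` if
`j = 0` and `z[j-1]?` otherwise.
-/

namespace Pool.Agent.DEG

open Pool.Agent.Helper38.LinL

variable {α : Type}

private lemma ox_len (x : List α) (p : ℕ) : (xs x p).length = x.length + 2 := by
  simp [xs]

private lemma ox_xs (x : List α) (p j : ℕ) (h : j < (xs x p).length) :
    (xs x p)[j] = (readSym x j, decide (j = p)) := by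
  simp [xs]

private lemma ox_get {x : List α} {p : ℕ} {X' : List (XC α)} (hX : (xs x p).length = X'.length)
    {j : ℕ} (h : j < X'.length) :
    ((xs x p).zip X')[j]? = some ((readSym x j, decide (j = p)), X'[j]) := by
  have h1 : j < ((xs x p).zip X').length := by
    rw [List.length_zip, hX]
    simpa using h
  rw [List.getElem?_eq_getElem h1, List.getElem_zip, ox_xs]

private lemma ox_none {x : List α} {p : ℕ} {X' : List (XC α)}
    (hX : (xs x p).length = X'.length) {j : ℕ} (h : X'.length ≤ j) :
    ((xs x p).zip X')[j]? = none := by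
  rw [List.getElem?_eq_none_iff, List.length_zip, hX]
  simpa using h

private lemma ox_eq {x : List α} {p q : ℕ} {X' : List (XC α)}
    (hX : (xs x p).length = X'.length)
    (h : ∀ (j : ℕ) (hj : j < X'.length), X'[j] = (readSym x j, decide (j = q))) :
    X' = xs x q := by
  refine List.ext_getElem (by rw [← hX, ox_len, ox_len]) (fun j h1 h2 => ?_)
  rw [h j h1, ox_xs]

private lemma ox_all {x : List α} {p : ℕ} {X' : List (XC α)}
    (hX : (xs x p).length = X'.length) {Q : XC α × XC α → Prop} :
    (∀ c ∈ (xs x p).zip X', Q c) ↔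
      ∀ (j : ℕ) (hj : j < X'.length), Q ((readSym x j, decide (j = p)), X'[j]) := by
  constructor
  · intro h j hj
    exact h _ (List.mem_of_getElem? (ox_get hX hj))
  · intro h c hc
    obtain ⟨j, hj⟩ := List.mem_iff_getElem?.1 hc
    by_cases hjl : j < X'.length
    · rw [ox_get hX hjl] at hj
      rw [← Option.some.inj hj]
      exact h j hjl
    · rw [ox_none hX (not_lt.1 hjl)] at hj
      exact absurd hj (by simp)

private lemma ox_win {x : List α} {p : ℕ} {X' : List (XC α)}
    (hX : (xs x p).length = X'.length)
    {P : Option (XC α × XC α) → XC α × XC α → Option (XC α × XC α) → Prop} :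
    Win P ((xs x p).zip X') ↔
      ∀ (j : ℕ) (hj : j < X'.length), P (prv ((xs x p).zip X') j)
        ((readSym x j, decide (j = p)), X'[j]) ((xs x p).zip X')[j + 1]? := by
  constructor
  · intro h j hj
    exact h j _ (ox_get hX hj)
  · intro h j a ha
    by_cases hjl : j < X'.length
    · rw [ox_get hX hjl] at ha
      rw [← Option.some.inj ha]
      exact h j hjl
    · rw [ox_none hX (not_lt.1 hjl)] at ha
      exact absurd ha (by simp)

theorem x_same {x : List α} {p : ℕ} {X' : List (XC α)} (hX : (xs x p).length = X'.length) :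
    (∀ c ∈ (xs x p).zip X', c.1 = c.2) ↔ X' = xs x p := by
  rw [ox_all hX (Q := fun c => c.1 = c.2)]
  constructor
  · intro h
    exact ox_eq hX (fun j hj => (h j hj).symm)
  · intro h j hj
    subst h
    exact (ox_xs x p j hj).symm

theorem x_move {x : List α} {p : ℕ} (hp : p < x.length + 2) {X' : List (XC α)}
    (hX : (xs x p).length = X'.length) :
    ((∀ c ∈ (xs x p).zip X', c.1.1 = c.2.1) ∧
      Win (fun a c b => (c.2.2 = true ↔ ∃ d, a = some d ∧ d.1.2 = true) ∧
        (b = none → c.1.2 = false)) ((xs x p).zip X')) ↔
      p + 1 < x.length + 2 ∧ X' = xs x (p + 1) := by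
  rw [ox_all hX (Q := fun c => c.1.1 = c.2.1), ox_win hX]
  have hlen : X'.length = x.length + 2 := by rw [← hX, ox_len]
  have hprv : ∀ (j : ℕ) (hj : j < X'.length),
      (∃ d, prv ((xs x p).zip X') j = some d ∧ d.1.2 = true) ↔ j = p + 1 := by
    intro j hj
    unfold prv
    rcases Nat.eq_zero_or_pos j with h0 | h0
    · subst h0
      simp
    · rw [if_neg h0.ne', ox_get hX (show j - 1 < X'.length by omega)]
      constructor
      · rintro ⟨d, hd, hd2⟩
        rw [← Option.some.inj hd] at hd2
        have := of_decide_eq_true hd2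
        omega
      · intro h
        exact ⟨_, rfl, decide_eq_true (by omega)⟩
  constructor
  · rintro ⟨h1, h2⟩
    constructor
    · by_contra hcon
      have h3 := (h2 (x.length + 1) (by omega)).2
        (ox_none hX (by omega))
      have h4 := of_decide_eq_false h3
      omega
    · refine ox_eq hX (fun j hj => Prod.ext (h1 j hj).symm ?_)
      have h3 := (h2 j hj).1.trans (hprv j hj)
      change X'[j].2 = decide (j = p + 1)
      by_cases hjp : j = p + 1
      · rw [decide_eq_true hjp]
        exact h3.2 hjp
      · rw [decide_eq_false hjp]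
        have h4 : ¬ X'[j].2 = true := fun h => hjp (h3.1 h)
        simpa using h4
  · rintro ⟨h1, h2⟩
    have h3 : ∀ (j : ℕ) (hj : j < X'.length), X'[j] = (readSym x j, decide (j = p + 1)) := by
      intro j hj
      have h4 : X'[j] = (xs x (p + 1))[j]'(h2 ▸ hj) := by
        congr 1
      rw [h4, ox_xs]
    refine ⟨fun j hj => by rw [h3 j hj], fun j hj => ⟨?_, ?_⟩⟩
    · rw [hprv j hj, h3 j hj]
      exact decide_eq_true_iff
    · intro h4
      have h5 : ¬ j + 1 < X'.length := by
        intro h6
        rw [ox_get hX h6] at h4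
        exact absurd h4 (by simp)
      exact decide_eq_false (by omega)

theorem x_wrap {x : List α} {p : ℕ} (hp : p < x.length + 2) {X' : List (XC α)}
    (hX : (xs x p).length = X'.length) :
    ((∀ c ∈ (xs x p).zip X', c.1.1 = c.2.1) ∧
      Win (fun a c b => (c.2.2 = true ↔ a = none) ∧ (b = none → c.1.2 = true))
        ((xs x p).zip X')) ↔
      p + 1 = x.length + 2 ∧ X' = xs x 0 := by
  rw [ox_all hX (Q := fun c => c.1.1 = c.2.1), ox_win hX]
  have hlen : X'.length = x.length + 2 := by rw [← hX, ox_len]
  have hprv : ∀ (j : ℕ) (hj : j < X'.length),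
      prv ((xs x p).zip X') j = none ↔ j = 0 := by
    intro j hj
    unfold prv
    rcases Nat.eq_zero_or_pos j with h0 | h0
    · subst h0
      simp
    · rw [if_neg h0.ne', ox_get hX (show j - 1 < X'.length by omega)]
      constructor
      · intro h
        exact absurd h (by simp)
      · intro h
        omega
  constructor
  · rintro ⟨h1, h2⟩
    constructor
    · have h3 := (h2 (x.length + 1) (by omega)).2
        (ox_none hX (by omega))
      have h4 := of_decide_eq_true h3
      omega
    · refine ox_eq hX (fun j hj => Prod.ext (h1 j hj).symm ?_)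
      have h3 := (h2 j hj).1.trans (hprv j hj)
      change X'[j].2 = decide (j = 0)
      by_cases hjp : j = 0
      · rw [decide_eq_true hjp]
        exact h3.2 hjp
      · rw [decide_eq_false hjp]
        have h4 : ¬ X'[j].2 = true := fun h => hjp (h3.1 h)
        simpa using h4
  · rintro ⟨h1, h2⟩
    have h3 : ∀ (j : ℕ) (hj : j < X'.length), X'[j] = (readSym x j, decide (j = 0)) := by
      intro j hj
      have h4 : X'[j] = (xs x 0)[j]'(h2 ▸ hj) := by
        congr 1
      rw [h4, ox_xs]
    refine ⟨fun j hj => by rw [h3 j hj], fun j hj => ⟨?_, ?_⟩⟩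
    · rw [hprv j hj, h3 j hj]
      exact decide_eq_true_iff
    · intro h4
      have h5 : ¬ j + 1 < X'.length := by
        intro h6
        rw [ox_get hX h6] at h4
        exact absurd h4 (by simp)
      exact decide_eq_true (by omega)

end Pool.Agent.DEG
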