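import Pool.Agent.DEG.Defs
import Pool.Agent.DEG.Enc

/-!
# The odometer (definitions for project DEG)

A record for the input word `x` has `|x| + 2` cells of the first kind, holding the symbols of the
input tape (`readSym x i`) and a mark (true in position `p`), and `m = K * s` cells of the second
kind, each holding: a bit telling whether the cell is active (`K ∣ j`), a bit of the counter
(in the active cells: the `s` binary digits of `p`), a digit of the clock `k` in base `ρ + 1`,
a digit of the work value `v` in base `ω + 1`.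
-/

namespace Pool.Agent.DEG

open Pool.Agent.Helper38.LinL

/-- Cells of the first kind: symbol and mark. -/
abbrev XC (α : Type) := Sym α × Bool

/-- Cells of the second kind: active, counter bit, clock digit, work digit. -/
abbrev WC (ρ ω : ℕ) := Bool × Bool × Fin (ρ + 1) × Fin (ω + 1)

/-- Cells. -/
abbrev Cell (α : Type) (ρ ω : ℕ) := XC α ⊕ WC ρ ω

variable {α : Type} {ρ ω : ℕ}

/-- First part of a record. -/
def xs (x : List α) (p : ℕ) : List (XC α) :=
  (List.range (x.length + 2)).map fun i => (readSym x i, decide (i = p))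

/-- Second part of a record. -/
def ws (ρ ω K s k p v : ℕ) : List (WC ρ ω) :=
  (List.range (K * s)).map fun j =>
    (decide (j % K = 0), decide (j % K = 0 ∧ dg 1 s p (j / K) = 1), dg ρ (K * s) k j,
      dg ω (K * s) v j)

/-- The record with clock `k`, mark in position `p`, work value `v`. -/
def rcd (ρ ω K : ℕ) (x : List α) (s k p v : ℕ) : List (Cell α ρ ω) :=
  (xs x p).map Sum.inl ++ (ws ρ ω K s k p v).map Sum.inr

/-- Number of binary digits of `n + 1`. -/
def sz (n : ℕ) : ℕ := Nat.log 2 (n + 1) + 1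

/-- Number of work values. -/
def NV (ω K n : ℕ) : ℕ := (ω + 1) ^ (K * sz n)

/-- Number of clock values. -/
def NR (ρ K n : ℕ) : ℕ := (ρ + 1) ^ (K * sz n)

/-- Number of records. -/
def NT (ρ ω K n : ℕ) : ℕ := NR ρ K n * ((n + 2) * NV ω K n)

/-- Record number `t`. -/
def rt (ρ ω K : ℕ) (x : List α) (t : ℕ) : List (Cell α ρ ω) :=
  rcd ρ ω K x (sz x.length) (t / ((x.length + 2) * NV ω K x.length))
    (t / NV ω K x.length % (x.length + 2)) (t % NV ω K x.length)

/-- The sequence of all records. -/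
def odo (ρ ω K : ℕ) (x : List α) : List (List (Cell α ρ ω)) :=
  (List.range (NT ρ ω K x.length)).map (rt ρ ω K x)

/-- The code of the word `x`. -/
def code (ρ ω K : ℕ) (x : List α) : List (Cell α ρ ω ⊕ Fin 4) := enc (odo ρ ω K x)

/-- The pairs of cells of the first kind. -/
def zx (z : List (Cell α ρ ω × Cell α ρ ω)) : List (XC α × XC α) :=
  z.filterMap fun c => match c with
    | (Sum.inl a, Sum.inl b) => some (a, b)
    | _ => none

/-- The pairs of cells of the second kind. -/
def zw (z : List (Cell α ρ ω × Cell α ρ ω)) : List (WC ρ ω × WC ρ ω) :=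
  z.filterMap fun c => match c with
    | (Sum.inr a, Sum.inr b) => some (a, b)
    | _ => none

/-- Both cells of each pair have the same kind. -/
def SameTy (z : List (Cell α ρ ω × Cell α ρ ω)) : Prop := ∀ c ∈ z, c.1.isLeft = c.2.isLeft

/-- Cells of the first kind. -/
def lx (z : List (Cell α ρ ω)) : List (XC α) := z.filterMap Sum.getLeft?

/-- Cells of the second kind. -/
def lw (z : List (Cell α ρ ω)) : List (WC ρ ω) := z.filterMap Sum.getRight?

/-- The initial records: all numbers are zero. -/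
def ISet (α : Type) (ρ ω K : ℕ) : Set (List (Cell α ρ ω)) :=
  {z | ∃ (x : List α) (s : ℕ), 1 ≤ s ∧ z = rcd ρ ω K x s 0 0 0}

/-- The final records: mark at the end, all clock and work digits are maximal, and the first bit
of the counter is one. -/
def FSet (α : Type) (ρ ω : ℕ) : Set (List (Cell α ρ ω)) :=
  {z | (∃ c, (lx z).getLast? = some c ∧ c.2 = true) ∧
    (∀ c ∈ lw z, c.2.2.1 = Fin.last ρ ∧ c.2.2.2 = Fin.last ω) ∧
    ∃ c, (lw z).head? = some c ∧ c.2.1 = true}

/-- The work value increases, everything else is unchanged. -/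
def ModeA (z : List (Cell α ρ ω × Cell α ρ ω)) : Prop :=
  (∀ c ∈ zx z, c.1 = c.2) ∧ (∀ c ∈ zw z, c.1.1 = c.2.1 ∧ c.1.2.1 = c.2.2.1 ∧
    c.1.2.2.1 = c.2.2.2.1) ∧
  val ω ((zw z).map fun c => (c.2.2.2.2 : ℕ)) = val ω ((zw z).map fun c => (c.1.2.2.2 : ℕ)) + 1

/-- The work value returns to zero, the mark moves to the right, the counter increases. -/
def ModeB (z : List (Cell α ρ ω × Cell α ρ ω)) : Prop :=
  (∀ c ∈ zx z, c.1.1 = c.2.1) ∧
  Win (fun a c b => (c.2.2 = true ↔ ∃ d, a = some d ∧ d.1.2 = true) ∧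
    (b = none → c.1.2 = false)) (zx z) ∧
  (∀ c ∈ zw z, c.1.1 = c.2.1 ∧ c.1.2.2.1 = c.2.2.2.1 ∧ c.1.2.2.2 = Fin.last ω ∧
    c.2.2.2.2 = 0 ∧ (c.1.1 = false → c.2.2.1 = false)) ∧
  val 1 (((zw z).filter fun c => c.1.1).map fun c => c.2.2.1.toNat) =
    val 1 (((zw z).filter fun c => c.1.1).map fun c => c.1.2.1.toNat) + 1

/-- The work value and the mark return to the beginning, the clock increases. -/
def ModeC (z : List (Cell α ρ ω × Cell α ρ ω)) : Prop :=
  (∀ c ∈ zx z, c.1.1 = c.2.1) ∧
  Win (fun a c b => (c.2.2 = true ↔ a = none) ∧ (b = none → c.1.2 = true)) (zx z) ∧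
  (∀ c ∈ zw z, c.1.1 = c.2.1 ∧ c.2.2.1 = false ∧ c.1.2.2.2 = Fin.last ω ∧
    c.2.2.2.2 = 0) ∧
  val ρ ((zw z).map fun c => (c.2.2.2.1 : ℕ)) = val ρ ((zw z).map fun c => (c.1.2.2.1 : ℕ)) + 1

/-- The successor relation of the odometer. -/
def NextSet (α : Type) (ρ ω : ℕ) : Set (List (Cell α ρ ω × Cell α ρ ω)) :=
  {z | SameTy z ∧ (ModeA z ∨ ModeB z ∨ ModeC z)}

end Pool.Agent.DEG
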