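import Pool.Agent.DEG.Sim
import Pool.Agent.DEG.Dig

/-!
DEG module SW: changes of the work tape.

`ws ρ ω K s k p v` has `m = K * s` entries; entry `j` has the work digit `dg ω m v j`. Let
`Rep dec m c i v` hold (any `i`): `dec (dg ω m v j) = (c.tape j, some c.q)` if `j = c.head`, and
`(c.tape j, none)` otherwise (`j < m`). So `HD` holds for entry `j` iff `j = c.head`.

`wmove_iff`: the first condition of `WMove` says: `c.head < m`, `c.tape c.head = g`, `c.q = q`.
The window condition says for entry `j` of `W'` with work digit `e`: `(dec e).1` is `t.2.1` if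
`j = c.head` and `c.tape j` otherwise, i.e. `Function.update c.tape c.head t.2.1 j`;
`(dec e).2` is `some t.1` if `j = moveHead c.head t.2.2.2` and `none` otherwise: for `left`:
`j + 1 < m` and `j + 1 = c.head`, or `j = 0` and `j = c.head`, which (as `c.head < m`) means
`j = c.head - 1`; for `right`: `j ≥ 1` and `j - 1 = c.head`.
-/

namespace Pool.Agent.DEG

open Pool.Agent.Helper38.LinL

variable {α : Type} {M : NTM α} {ρ ω : ℕ} {dec : Fin (ω + 1) ≃ M.Γ × Option M.Q}

private theorem sw_get {K s k p v j : ℕ} {a : WC ρ ω} : (ws ρ ω K s k p v)[j]? = some a ↔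
    j < K * s ∧ a = (decide (j % K = 0), decide (j % K = 0 ∧ dg 1 s p (j / K) = 1),
      dg ρ (K * s) k j, dg ω (K * s) v j) := by
  unfold ws
  rw [List.getElem?_map]
  by_cases hj : j < K * s
  · rw [List.getElem?_range hj]
    simp only [Option.map_some, Option.some.injEq, hj, true_and]
    exact eq_comm
  · rw [List.getElem?_eq_none (by simpa using hj)]
    simp [hj]

private theorem sw_len {K s k p v : ℕ} : (ws ρ ω K s k p v).length = K * s := by
  simp [ws]

private theorem sw_hd {K s k p v i : ℕ} {c : NCfg M} (hc : Rep dec (K * s) c i v)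
    {W' : List (WC ρ ω)} {j : ℕ} {e : WC ρ ω × WC ρ ω}
    (he : ((ws ρ ω K s k p v).zip W')[j]? = some e) :
    j < K * s ∧ (HD dec e ↔ c.head = j) ∧ (dec e.1.2.2.2).1 = c.tape j ∧
      (c.head = j → (dec e.1.2.2.2).2 = some c.q) := by
  rw [List.getElem?_zip_eq_some, sw_get] at he
  obtain ⟨⟨hj, h1⟩, -⟩ := he
  have h2 : e.1.2.2.2 = dg ω (K * s) v j := by rw [h1]
  obtain ⟨h3, h4, h5⟩ := hc.2 j hj
  refine ⟨hj, ?_, by rw [h2]; exact h3, fun h => by rw [h2]; exact h4 h⟩
  unfold HD
  rw [h2]
  constructor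
  · intro h
    by_contra hne
    exact h (h5 hne)
  · intro h h'
    rw [h4 h] at h'
    simp at h'

private theorem sw_zlen {K s k p v : ℕ} {W' : List (WC ρ ω)}
    (hW : (ws ρ ω K s k p v).length = W'.length) :
    ((ws ρ ω K s k p v).zip W').length = K * s := by
  rw [List.length_zip, ← hW, min_self, sw_len]

private theorem sw_next {K s k p v i : ℕ} {c : NCfg M} (hc : Rep dec (K * s) c i v)
    {W' : List (WC ρ ω)} (hW : (ws ρ ω K s k p v).length = W'.length)
    (hh : c.head < K * s) (j : ℕ) :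
    (∃ e, ((ws ρ ω K s k p v).zip W')[j + 1]? = some e ∧ HD dec e) ↔ c.head = j + 1 := by
  constructor
  · rintro ⟨e, he, h⟩
    exact (sw_hd hc he).2.1.1 h
  · intro h
    have hl : j + 1 < ((ws ρ ω K s k p v).zip W').length := by rw [sw_zlen hW]; omega
    exact ⟨_, List.getElem?_eq_getElem hl, (sw_hd hc (List.getElem?_eq_getElem hl)).2.1.2 h⟩

private theorem sw_prv {K s k p v i : ℕ} {c : NCfg M} (hc : Rep dec (K * s) c i v)
    {W' : List (WC ρ ω)} (hW : (ws ρ ω K s k p v).length = W'.length) {j : ℕ}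
    (hj : j < K * s) :
    ((∃ e, prv ((ws ρ ω K s k p v).zip W') j = some e ∧ HD dec e) ↔ c.head + 1 = j) ∧
    (prv ((ws ρ ω K s k p v).zip W') j = none ↔ j = 0) := by
  unfold prv
  rcases Nat.eq_zero_or_pos j with rfl | hj0
  · simp
  · rw [if_neg (by omega)]
    have hl : j - 1 < ((ws ρ ω K s k p v).zip W').length := by rw [sw_zlen hW]; omega
    constructor
    · constructor
      · rintro ⟨e, he, h⟩
        have := (sw_hd hc he).2.1.1 h
        omega
      · intro h
        exact ⟨_, List.getElem?_eq_getElem hl,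
          (sw_hd hc (List.getElem?_eq_getElem hl)).2.1.2 (by omega)⟩
    · rw [List.getElem?_eq_getElem hl]
      simp
      omega

private theorem sw_dir {K s k p v i : ℕ} {c : NCfg M} (hc : Rep dec (K * s) c i v)
    {W' : List (WC ρ ω)} (hW : (ws ρ ω K s k p v).length = W'.length)
    (hh : c.head < K * s) {j : ℕ} {e : WC ρ ω × WC ρ ω}
    (he : ((ws ρ ω K s k p v).zip W')[j]? = some e) (d : Dir) :
    (match d with
      | Dir.left => (∃ e, ((ws ρ ω K s k p v).zip W')[j + 1]? = some e ∧ HD dec e) ∨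
          (prv ((ws ρ ω K s k p v).zip W') j = none ∧ HD dec e)
      | Dir.stay => HD dec e
      | Dir.right => ∃ e, prv ((ws ρ ω K s k p v).zip W') j = some e ∧ HD dec e) ↔
      moveHead c.head d = j := by
  obtain ⟨hj, h1, -, -⟩ := sw_hd hc he
  cases d with
  | left =>
    simp only [moveHead]
    rw [sw_next hc hW hh, (sw_prv hc hW hj).2, h1]
    omega
  | stay => simp only [moveHead]; exact h1
  | right =>
    simp only [moveHead]
    exact (sw_prv hc hW hj).1

theorem wmove_iff {K s k p v i : ℕ} {c : NCfg M} (hc : Rep dec (K * s) c i v)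
    {W' : List (WC ρ ω)} (hW : (ws ρ ω K s k p v).length = W'.length) {q : M.Q} {g : M.Γ}
    {t : M.Q × M.Γ × Dir × Dir} :
    WMove M ρ dec q g t ((ws ρ ω K s k p v).zip W') ↔
      (c.head < K * s ∧ c.q = q ∧ c.tape c.head = g) ∧
      ∀ j e, W'[j]? = some e → (dec e.2.2.2).1 = Function.update c.tape c.head t.2.1 j ∧
        (moveHead c.head t.2.2.2 = j → (dec e.2.2.2).2 = some t.1) ∧
        (moveHead c.head t.2.2.2 ≠ j → (dec e.2.2.2).2 = none) := by
  have hzW : ∀ (j : ℕ) (e : WC ρ ω), W'[j]? = some e →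
      ∃ a, ((ws ρ ω K s k p v).zip W')[j]? = some (a, e) := by
    intro j e he
    have hj : j < W'.length := by
      by_contra hj
      rw [List.getElem?_eq_none (by omega)] at he
      simp at he
    refine ⟨(ws ρ ω K s k p v)[j]'(by omega), ?_⟩
    rw [List.getElem?_zip_eq_some]
    exact ⟨List.getElem?_eq_getElem (by omega), he⟩
  constructor
  · rintro ⟨⟨c0, hc0, hdec⟩, hwin⟩
    obtain ⟨j0, hj0⟩ := List.mem_iff_getElem?.1 hc0
    obtain ⟨h1, h2, h3, h4⟩ := sw_hd hc hj0
    have h5 : c.head = j0 := by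
      apply h2.1
      unfold HD
      rw [hdec]
      simp
    have h6 := h4 h5
    rw [hdec] at h6 h3
    refine ⟨⟨by omega, (Option.some.inj h6).symm, by rw [h5]; exact h3.symm⟩, ?_⟩
    intro j e he
    obtain ⟨a, ha⟩ := hzW j e he
    obtain ⟨w1, w2, w3, w4⟩ := hwin j _ ha
    obtain ⟨h7, h8, h9, -⟩ := sw_hd hc ha
    have hd := sw_dir hc hW (by omega) ha t.2.2.2
    refine ⟨?_, fun h => w3 (hd.2 h), fun h => w4 fun h' => h (hd.1 h')⟩
    by_cases hj : c.head = j
    · rw [hj, Function.update_self]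
      exact w1 (h8.2 hj)
    · rw [Function.update_of_ne (Ne.symm hj)]
      rw [w2 fun h => hj (h8.1 h)]
      exact h9
  · rintro ⟨⟨hh, hq, hg⟩, hall⟩
    constructor
    · have hl : c.head < ((ws ρ ω K s k p v).zip W').length := by rw [sw_zlen hW]; exact hh
      have he := List.getElem?_eq_getElem hl
      obtain ⟨-, -, h3, h4⟩ := sw_hd hc he
      refine ⟨_, List.getElem_mem hl, Prod.ext ?_ ?_⟩
      · rw [h3, hg]
      · rw [h4 rfl, hq]
    · intro j e he
      obtain ⟨h7, h8, h9, -⟩ := sw_hd hc he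
      have hd := sw_dir hc hW hh he t.2.2.2
      obtain ⟨h1, h2, h3⟩ := hall j e.2 (List.getElem?_zip_eq_some.1 he).2
      refine ⟨fun h => ?_, fun h => ?_, fun h => h2 (hd.1 h), fun h => h3 fun h' => h (hd.2 h')⟩
      · rw [h1, h8.1 h, Function.update_self]
      · rw [h1, Function.update_of_ne fun h' => h (h8.2 h'.symm), h9]

/-- Every configuration is represented by some number. -/
theorem exists_rep (m : ℕ) (c : NCfg M) : ∃ v < (ω + 1) ^ m, Rep dec m c c.inp v := by
  classical
  obtain ⟨v, hv, h⟩ := exists_dg m fun j =>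
    dec.symm (c.tape j, if c.head = j then some c.q else none)
  refine ⟨v, hv, rfl, fun j hj => ?_⟩
  rw [h j hj, Equiv.apply_symm_apply]
  exact ⟨rfl, fun h => by simp [h], fun h => by simp [h]⟩

end Pool.Agent.DEG
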