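import Pool.Agent.DEG.SX
import Pool.Agent.DEG.SW
import Pool.Agent.DEG.OShape

/-!
DEG module SSTEP: the relation `TSet` on records is the step relation of the machine.

`rcd ρ ω K x s k p v = (xs x p).map inl ++ (ws ..).map inr`; for two records of `x` with the same
`s` the lengths agree, `SameTy` holds (`sameTy_iff`), `zx`, `zw` of the zip are
`(xs x p).zip (xs x p')` and `(ws .. v).zip (ws .. v')` (`zx_zip`, `zw_zip`).
* `t_sound`: first alternative in `TSet`: `xs x p = xs x p'`, so `p = p'` (`xs_inj`), and all work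
  digits agree; take `c' = c`. Second alternative: `xmove_iff` gives `readSym x p = s` and
  `p' = moveInp n p t.2.2.1` (`xs_inj`, `moveInp_lt`), `wmove_iff` gives `c.q = q`,
  `c.tape c.head = g`, and the entries of `ws .. v'` (entry `j < m` has work digit
  `dg ω m v' j`) are as required for `Rep dec m (M.act x c t) p' v'`; `p = c.inp`, so `t` is in
  `M.δ c.q (readSym x c.inp) (c.tape c.head)`.
* `t_complete`: `c' = c`: `p' = p`, and the digits agree because `dec` is injective; first
  alternative. `M.Step x c c'`: second alternative with `xmove_iff`, `wmove_iff`.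
* `s_iff`: `lx_append`, `lw_append`; the mark is true exactly in the first cell iff `p = 0`; the
  condition on the work digits is `Rep` for `M.init`.
* `a_iff`: a cell with `(dec _).2 = some q` is number `c.head`, and `q = c.q`.
-/

namespace Pool.Agent.DEG

open Pool.Agent.Helper38.LinL

variable {α : Type} {M : NTM α} {ρ ω : ℕ} {dec : Fin (ω + 1) ≃ M.Γ × Option M.Q}

private theorem sstep_xs_len (x : List α) (p : ℕ) : (xs x p).length = x.length + 2 := by
  simp [xs]

private theorem sstep_ws_len (ρ ω K s k p v : ℕ) : (ws ρ ω K s k p v).length = K * s := by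
  simp [ws]

private theorem sstep_xs_get (x : List α) (p : ℕ) {j : ℕ} (hj : j < x.length + 2) :
    (xs x p)[j]? = some (readSym x j, decide (j = p)) := by
  simp [xs, List.getElem?_map, List.getElem?_range hj]

private theorem sstep_ws_get (ρ ω K s k p v : ℕ) {j : ℕ} (hj : j < K * s) :
    (ws ρ ω K s k p v)[j]? = some (decide (j % K = 0),
      decide (j % K = 0 ∧ dg 1 s p (j / K) = 1), dg ρ (K * s) k j, dg ω (K * s) v j) := by
  simp only [ws, List.getElem?_map, List.getElem?_range hj, Option.map_some]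

private theorem sstep_lt {A : Type} {l : List A} {j : ℕ} {a : A} (h : l[j]? = some a) :
    j < l.length := by
  by_contra hc
  rw [List.getElem?_eq_none (not_lt.1 hc)] at h
  exact absurd h (by simp)

/-- membership in the zip of two lists of the same length -/
private theorem sstep_mem_zip {A : Type} {l l' : List A} {c : A × A} (h : c ∈ l.zip l') :
    ∃ j : ℕ, l[j]? = some c.1 ∧ l'[j]? = some c.2 := by
  obtain ⟨j, hj⟩ := List.mem_iff_getElem?.1 h
  refine ⟨j, ?_⟩
  rw [List.getElem?_zip_eq_some] at hj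
  exact hj

private theorem sstep_zip_mem {A : Type} {l l' : List A} {j : ℕ} {a b : A}
    (h : l[j]? = some a) (h' : l'[j]? = some b) : (a, b) ∈ l.zip l' := by
  rw [List.mem_iff_getElem?]
  exact ⟨j, List.getElem?_zip_eq_some.2 ⟨h, h'⟩⟩

private theorem sstep_zx (x : List α) (K s k p v k' p' v' : ℕ) :
    zx ((rcd ρ ω K x s k p v).zip (rcd ρ ω K x s k' p' v')) = (xs x p).zip (xs x p') :=
  zx_zip (by rw [sstep_xs_len, sstep_xs_len]) (by rw [sstep_ws_len, sstep_ws_len])

private theorem sstep_zw (x : List α) (K s k p v k' p' v' : ℕ) :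
    zw ((rcd ρ ω K x s k p v).zip (rcd ρ ω K x s k' p' v')) =
      (ws ρ ω K s k p v).zip (ws ρ ω K s k' p' v') :=
  zw_zip (by rw [sstep_xs_len, sstep_xs_len]) (by rw [sstep_ws_len, sstep_ws_len])

theorem t_sound {x : List α} {K s k p v k' p' v' : ℕ} {c : NCfg M} (hp : p < x.length + 2)
    (hp' : p' < x.length + 2) (hc : Rep dec (K * s) c p v)
    (h : Rl (TSet M ρ dec) (rcd ρ ω K x s k p v) (rcd ρ ω K x s k' p' v')) :
    ∃ c' : NCfg M, (c' = c ∨ M.Step x c c') ∧ Rep dec (K * s) c' p' v' := by
  obtain ⟨_, _, h2⟩ := h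
  rw [sstep_zx, sstep_zw] at h2
  rcases h2 with ⟨hx, hw⟩ | ⟨q, sy, g, t, ht, hx, hw⟩
  · have hpp : p = p' := by
      apply xs_inj hp hp'
      apply List.ext_getElem?
      intro j
      rcases lt_or_ge j (x.length + 2) with hj | hj
      · have h1 := sstep_zip_mem (sstep_xs_get x p hj) (sstep_xs_get x p' hj)
        have h3 := hx _ h1
        rw [sstep_xs_get x p hj, sstep_xs_get x p' hj]
        exact congrArg some h3
      · rw [List.getElem?_eq_none (by rw [sstep_xs_len]; exact hj),
          List.getElem?_eq_none (by rw [sstep_xs_len]; exact hj)]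
    subst hpp
    refine ⟨c, Or.inl rfl, hc.1, ?_⟩
    intro j hj
    have h1 := sstep_zip_mem (sstep_ws_get ρ ω K s k p v hj) (sstep_ws_get ρ ω K s k' p v' hj)
    have h3 := hw _ h1
    simp only at h3
    rw [← h3]
    exact hc.2 j hj
  · have hX := (xmove_iff hp (X' := xs x p') (by rw [sstep_xs_len, sstep_xs_len])).1 hx
    have hW := (wmove_iff hc (W' := ws ρ ω K s k' p' v')
      (by rw [sstep_ws_len, sstep_ws_len])).1 hw
    obtain ⟨hs, hxs⟩ := hX
    obtain ⟨⟨hh, hq, hg⟩, hent⟩ := hW
    have hp2 := xs_inj hp' (moveInp_lt hp t.2.2.1) hxs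
    refine ⟨M.act x c t, Or.inr ⟨t, ?_, rfl⟩, ?_, ?_⟩
    · rw [hq, hg, ← hc.1, hs]
      exact ht
    · rw [hp2, hc.1]
      rfl
    · intro j hj
      exact hent j _ (sstep_ws_get ρ ω K s k' p' v' hj)

private theorem sstep_same {x : List α} {K s k p v k' p' v' : ℕ} :
    (rcd ρ ω K x s k p v).length = (rcd ρ ω K x s k' p' v').length ∧
    SameTy ((rcd ρ ω K x s k p v).zip (rcd ρ ω K x s k' p' v')) := by
  have hl : (rcd ρ ω K x s k p v).length = (rcd ρ ω K x s k' p' v').length := by
    simp [rcd, sstep_xs_len, sstep_ws_len]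
  refine ⟨hl, ?_⟩
  exact (sameTy_iff hl).2 ⟨xs x p', ws ρ ω K s k' p' v', by rw [sstep_xs_len, sstep_xs_len],
    by rw [sstep_ws_len, sstep_ws_len], rfl⟩

theorem t_complete {x : List α} {K s k p v k' p' v' : ℕ} {c c' : NCfg M}
    (hp : p < x.length + 2) (hp' : p' < x.length + 2) (hc : Rep dec (K * s) c p v)
    (hc' : Rep dec (K * s) c' p' v') (hh : c.head < K * s) (h : c' = c ∨ M.Step x c c') :
    Rl (TSet M ρ dec) (rcd ρ ω K x s k p v) (rcd ρ ω K x s k' p' v') := by
  refine ⟨sstep_same.1, sstep_same.2, ?_⟩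
  rw [sstep_zx, sstep_zw]
  rcases h with rfl | ⟨t, ht, rfl⟩
  · left
    have hpp : p = p' := by rw [hc.1, hc'.1]
    subst hpp
    constructor
    · intro e he
      obtain ⟨j, h1, h2⟩ := sstep_mem_zip he
      rw [h1] at h2
      exact Option.some.inj h2
    · intro e he
      obtain ⟨j, h1, h2⟩ := sstep_mem_zip he
      have hj : j < K * s := by
        have := sstep_lt h1
        rwa [sstep_ws_len] at this
      rw [sstep_ws_get ρ ω K s k p v hj] at h1
      rw [sstep_ws_get ρ ω K s k' p v' hj] at h2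
      have e1 : e.1.2.2.2 = dg ω (K * s) v j := by rw [← Option.some.inj h1]
      have e2 : e.2.2.2.2 = dg ω (K * s) v' j := by rw [← Option.some.inj h2]
      rw [e1, e2]
      apply dec.injective
      have a1 := hc.2 j hj
      have a2 := hc'.2 j hj
      apply Prod.ext
      · rw [a1.1, a2.1]
      · by_cases hcj : c'.head = j
        · rw [a1.2.1 hcj, a2.2.1 hcj]
        · rw [a1.2.2 hcj, a2.2.2 hcj]
  · right
    refine ⟨c.q, readSym x c.inp, c.tape c.head, t, ht, ?_, ?_⟩
    · refine (xmove_iff hp (X' := xs x p') (by rw [sstep_xs_len, sstep_xs_len])).2 ⟨?_, ?_⟩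
      · rw [hc.1]
      · rw [hc'.1, hc.1]
        rfl
    · refine (wmove_iff hc (W' := ws ρ ω K s k' p' v')
        (by rw [sstep_ws_len, sstep_ws_len])).2 ⟨⟨hh, rfl, rfl⟩, ?_⟩
      intro j e he
      have hj : j < K * s := by
        have := sstep_lt he
        rwa [sstep_ws_len] at this
      rw [sstep_ws_get ρ ω K s k' p' v' hj] at he
      have e1 : e.2.2.2 = dg ω (K * s) v' j := by rw [← Option.some.inj he]
      rw [e1]
      exact hc'.2 j hj

private theorem sstep_prv {A : Type} {l : List A} {j : ℕ} (hj : j < l.length) :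
    prv l j = none ↔ j = 0 := by
  unfold prv
  split_ifs with h
  · simp [h]
  · simp only [h, iff_false]
    rw [List.getElem?_eq_none_iff]
    omega

theorem s_iff {x : List α} {K s k p v : ℕ} (hp : p < x.length + 2) :
    rcd ρ ω K x s k p v ∈ SSet M ρ dec ↔ Rep dec (K * s) M.init p v := by
  have hlx : lx (rcd ρ ω K x s k p v) = xs x p := lx_append _ _
  have hlw : lw (rcd ρ ω K x s k p v) = ws ρ ω K s k p v := lw_append _ _
  unfold SSet Rep
  rw [Set.mem_ofPred_eq, hlx, hlw]
  refine and_congr ?_ ?_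
  · constructor
    · intro h
      have h1 := h 0 _ (sstep_xs_get x p (j := 0) (by omega))
      simp only [prv, if_true, iff_true, decide_eq_true_eq] at h1
      exact h1.symm
    · intro h j a hja
      have hj : j < x.length + 2 := by
        have := sstep_lt hja
        rwa [sstep_xs_len] at this
      rw [sstep_xs_get x p hj] at hja
      rw [← Option.some.inj hja, sstep_prv (by rw [sstep_xs_len]; exact hj)]
      have : p = 0 := h
      simp [this]
  · constructor
    · intro h j hj
      have h1 := h j _ (sstep_ws_get ρ ω K s k p v hj)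
      have hprv := sstep_prv (l := ws ρ ω K s k p v) (j := j) (by rw [sstep_ws_len]; exact hj)
      simp only [ne_eq, hprv] at h1
      refine ⟨h1.1, fun h2 => h1.2.1 ?_, fun h2 => h1.2.2 ?_⟩
      · exact h2.symm
      · intro h3
        exact h2 h3.symm
    · intro h j a hja
      have hj : j < K * s := by
        have := sstep_lt hja
        rwa [sstep_ws_len] at this
      rw [sstep_ws_get ρ ω K s k p v hj] at hja
      have hprv := sstep_prv (l := ws ρ ω K s k p v) (j := j) (by rw [sstep_ws_len]; exact hj)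
      rw [← Option.some.inj hja]
      have h1 := h j hj
      simp only [ne_eq, hprv]
      refine ⟨h1.1, fun h2 => h1.2.1 ?_, fun h2 => h1.2.2 ?_⟩
      · exact h2.symm
      · intro h3
        exact h2 h3.symm

theorem a_iff {x : List α} {K s k p v : ℕ} {c : NCfg M} (hc : Rep dec (K * s) c p v) :
    rcd ρ ω K x s k p v ∈ ASet M ρ dec ↔ c.head < K * s ∧ c.q ∈ M.accept := by
  have hlw : lw (rcd ρ ω K x s k p v) = ws ρ ω K s k p v := lw_append _ _
  unfold ASet
  rw [Set.mem_ofPred_eq, hlw]
  constructor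
  · rintro ⟨e, he, q, hq, hd⟩
    obtain ⟨j, hj0⟩ := List.mem_iff_getElem?.1 he
    have hj : j < K * s := by
      have := sstep_lt hj0
      rwa [sstep_ws_len] at this
    rw [sstep_ws_get ρ ω K s k p v hj] at hj0
    have e1 : e.2.2.2 = dg ω (K * s) v j := by rw [← Option.some.inj hj0]
    rw [e1] at hd
    have h1 := hc.2 j hj
    by_cases hcj : c.head = j
    · rw [h1.2.1 hcj] at hd
      refine ⟨by rw [hcj]; exact hj, ?_⟩
      rw [Option.some.inj hd]
      exact hq
    · rw [h1.2.2 hcj] at hd
      exact absurd hd (by simp)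
  · rintro ⟨hh, hq⟩
    refine ⟨_, List.mem_iff_getElem?.2 ⟨c.head, sstep_ws_get ρ ω K s k p v hh⟩, c.q, hq, ?_⟩
    exact (hc.2 c.head hh).2.1 rfl

end Pool.Agent.DEG
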