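import Pool.Agent.DEG.Sim

/-!
DEG module SX: moves of the mark.

`xs x p` is the list of the `n + 2` pairs `(readSym x i, decide (i = p))` (`n = x.length`). Let
`X'[i] = (s_i, m_i)`. The first condition of `XMove` says `s_i = readSym x i` for all `i`, the
second one `readSym x p = s`, the third one: `m_i = true` iff
* `d = left`: `i + 1 < n + 2` and `i + 1 = p`, or `i = 0` and `i = p`; i.e. `i = p - 1`;
* `d = stay`: `i = p`;
* `d = right`: `i ≥ 1` and `i - 1 = p`, or `i = n + 1` and `i = p`; i.e. `i = min (p + 1) (n + 1)`.
So in all cases `X' = xs x (moveInp n p d)`.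
-/

namespace Pool.Agent.DEG

open Pool.Agent.Helper38.LinL

variable {α : Type}

private theorem sx_mem {A : Type} {Q : A → Prop} {f : ℕ → A} {N : ℕ} :
    (∀ c ∈ (List.range N).map f, Q c) ↔ ∀ j < N, Q (f j) := by
  simp

private theorem sx_win {A : Type} {P : Option A → A → Option A → Prop} {f : ℕ → A} {N : ℕ} :
    Win P ((List.range N).map f) ↔ ∀ j < N, P (if j = 0 then none else some (f (j - 1))) (f j)
      (if j + 1 < N then some (f (j + 1)) else none) := by
  have h1 : ∀ j, ((List.range N).map f)[j]? = if j < N then some (f j) else none := by
    intro j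
    by_cases h : j < N
    · rw [if_pos h, List.getElem?_map, List.getElem?_range h]
      rfl
    · rw [if_neg h, List.getElem?_eq_none]
      simp
      omega
  have h2 : ∀ j < N, prv ((List.range N).map f) j = if j = 0 then none else some (f (j - 1)) := by
    intro j hj
    unfold prv
    by_cases h : j = 0
    · rw [if_pos h, if_pos h]
    · rw [if_neg h, if_neg h, h1, if_pos (by omega)]
  unfold Win
  constructor
  · intro h j hj
    have := h j (f j) (by rw [h1, if_pos hj])
    rwa [h2 j hj, h1] at this
  · intro h j a ha
    rw [h1] at ha
    by_cases hj : j < N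
    · rw [if_pos hj] at ha
      obtain rfl := Option.some_injective _ ha
      rw [h2 j hj, h1]
      exact h j hj
    · rw [if_neg hj] at ha
      exact absurd ha (by simp)

private theorem sx_fun {A : Type} (a0 : A) (l : List A) :
    ∃ f : ℕ → A, l = (List.range l.length).map f := by
  refine ⟨fun i => l.getD i a0, ?_⟩
  apply List.ext_getElem
  · simp
  · intro i h1 h2
    rw [List.getElem_map, List.getElem_range, List.getD_eq_getElem _ _ h1]

private theorem sx_zip {A B : Type} (f : ℕ → A) (g : ℕ → B) (N : ℕ) :
    ((List.range N).map f).zip ((List.range N).map g) = (List.range N).map fun i => (f i, g i) :=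
  List.zip_map'

theorem moveInp_lt {n p : ℕ} (hp : p < n + 2) (d : Dir) : moveInp n p d < n + 2 := by
  cases d <;> simp only [moveInp] <;> omega

theorem xmove_iff {x : List α} {p : ℕ} (hp : p < x.length + 2) {X' : List (XC α)}
    (hX : (xs x p).length = X'.length) {s : Sym α} {d : Dir} :
    XMove s d ((xs x p).zip X') ↔ readSym x p = s ∧ X' = xs x (moveInp x.length p d) := by
  have hl : X'.length = x.length + 2 := by
    rw [← hX]
    simp [xs]
  obtain ⟨Y, hY⟩ := sx_fun (readSym x 0, false) X'
  rw [hl] at hY
  subst hY
  unfold XMove xs
  rw [sx_zip, sx_mem, sx_mem, sx_win]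
  have h3 : (∀ j < x.length + 2, ((Y j).2 = true ↔ match d with
      | Dir.left => (∃ e, (if j + 1 < x.length + 2 then
          some ((readSym x (j + 1), decide (j + 1 = p)), Y (j + 1)) else none) = some e ∧
          e.1.2 = true) ∨ ((if j = 0 then none else
          some ((readSym x (j - 1), decide (j - 1 = p)), Y (j - 1))) = none ∧
          decide (j = p) = true)
      | Dir.stay => decide (j = p) = true
      | Dir.right => (∃ e, (if j = 0 then none else
          some ((readSym x (j - 1), decide (j - 1 = p)), Y (j - 1))) = some e ∧ e.1.2 = true) ∨
          ((if j + 1 < x.length + 2 then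
          some ((readSym x (j + 1), decide (j + 1 = p)), Y (j + 1)) else none) = none ∧
          decide (j = p) = true))) ↔
      ∀ j < x.length + 2, ((Y j).2 = true ↔ j = moveInp x.length p d) := by
    refine forall_congr' fun j => forall_congr' fun hj => ?_
    refine iff_congr Iff.rfl ?_
    cases d with
    | left =>
      simp only [moveInp, decide_eq_true_eq]
      constructor
      · rintro (⟨e, he, h⟩ | ⟨he, h⟩)
        · split_ifs at he with h1
          obtain rfl := Option.some_injective _ he
          simp only [decide_eq_true_eq] at h
          omega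
        · split_ifs at he with h1
          omega
      · intro h
        by_cases h0 : p = 0
        · right
          subst h0
          simp only [Nat.zero_sub] at h
          subst h
          simp
        · left
          have h1 : j + 1 < x.length + 2 := by omega
          rw [if_pos h1]
          exact ⟨_, rfl, by simp only [decide_eq_true_eq]; omega⟩
    | stay =>
      simp only [moveInp, decide_eq_true_eq]
    | right =>
      simp only [moveInp, decide_eq_true_eq]
      constructor
      · rintro (⟨e, he, h⟩ | ⟨he, h⟩)
        · split_ifs at he with h1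
          obtain rfl := Option.some_injective _ he
          simp only [decide_eq_true_eq] at h
          omega
        · split_ifs at he with h1
          omega
      · intro h
        by_cases h0 : p = x.length + 1
        · right
          have h1 : ¬ (j + 1 < x.length + 2) := by omega
          rw [if_neg h1]
          exact ⟨rfl, by omega⟩
        · left
          have h1 : ¬ (j = 0) := by omega
          rw [if_neg h1]
          exact ⟨_, rfl, by simp only [decide_eq_true_eq]; omega⟩
  constructor
  · rintro ⟨h1, h2, h4⟩
    refine ⟨h2 p hp (by simp), ?_⟩
    apply List.map_congr_left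
    intro j hj
    rw [List.mem_range] at hj
    have h5 := (h3.mp h4) j hj
    have h6 := h1 j hj
    refine Prod.ext h6.symm ?_
    rw [Bool.eq_iff_iff, h5, decide_eq_true_eq]
  · rintro ⟨h1, h2⟩
    have h5 : ∀ j < x.length + 2, Y j = (readSym x j, decide (j = moveInp x.length p d)) := by
      intro j hj
      exact List.map_inj_left.mp h2 j (List.mem_range.mpr hj)
    refine ⟨fun j hj => by rw [h5 j hj], ?_, h3.mpr ?_⟩
    · intro j hj hjp
      rw [decide_eq_true_eq] at hjp
      subst hjp
      exact h1
    · intro j hj
      rw [h5 j hj, decide_eq_true_eq]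

/-- `xs` determines the position of the mark. -/
theorem xs_inj {x : List α} {p p' : ℕ} (hp : p < x.length + 2) (hp' : p' < x.length + 2)
    (h : xs x p = xs x p') : p = p' := by
  have h1 := List.map_inj_left.mp h p (List.mem_range.mpr hp)
  rw [Prod.mk.injEq] at h1
  have h2 := h1.2
  rw [Bool.eq_iff_iff, decide_eq_true_eq, decide_eq_true_eq] at h2
  exact h2.mp rfl

end Pool.Agent.DEG
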