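import Pool.Agent.DEG.Odo

/-!
# Simulation of a machine by records (definitions for project DEG)

Cell number `j` of the second kind of a record holds the contents of cell `j` of the work tape
and, if the work head is there, the state: a digit in base `ω + 1` is decoded by the bijection
`dec : Fin (ω + 1) ≃ M.Γ × Option M.Q`. The mark shows the position of the input head.
-/

namespace Pool.Agent.DEG

open Pool.Agent.Helper38.LinL

variable {α : Type} (M : NTM α) (ρ : ℕ) {ω : ℕ} (dec : Fin (ω + 1) ≃ M.Γ × Option M.Q)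

/-- Records which hold the initial configuration. -/
def SSet : Set (List (Cell α ρ ω)) :=
  {z | Win (fun a c _ => (c.2 = true ↔ a = none)) (lx z) ∧
    Win (fun a c _ => (dec c.2.2.2).1 = M.blank ∧
      (a = none → (dec c.2.2.2).2 = some M.start) ∧
      (a ≠ none → (dec c.2.2.2).2 = none)) (lw z)}

/-- Records with an accepting state. -/
def ASet : Set (List (Cell α ρ ω)) :=
  {z | ∃ c ∈ lw z, ∃ q ∈ M.accept, (dec c.2.2.2).2 = some q}

/-- Move of the input head in direction `d` when it reads `s`. -/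
def XMove (s : Sym α) (d : Dir) (z : List (XC α × XC α)) : Prop :=
  (∀ c ∈ z, c.1.1 = c.2.1) ∧ (∀ c ∈ z, c.1.2 = true → c.1.1 = s) ∧
  Win (fun a c b => (c.2.2 = true ↔ match d with
    | Dir.left => (∃ e, b = some e ∧ e.1.2 = true) ∨ (a = none ∧ c.1.2 = true)
    | Dir.stay => c.1.2 = true
    | Dir.right => (∃ e, a = some e ∧ e.1.2 = true) ∨ (b = none ∧ c.1.2 = true))) z

variable {M ρ} in
/-- The head is in the cell. -/
def HD (c : WC ρ ω × WC ρ ω) : Prop := (dec c.1.2.2.2).2 ≠ none

/-- Change of the work tape by the action `t` in state `q` with symbol `g` under the head. -/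
def WMove (q : M.Q) (g : M.Γ) (t : M.Q × M.Γ × Dir × Dir) (z : List (WC ρ ω × WC ρ ω)) : Prop :=
  (∃ c ∈ z, dec c.1.2.2.2 = (g, some q)) ∧
  Win (fun a c b =>
    (HD dec c → (dec c.2.2.2.2).1 = t.2.1) ∧
    (¬ HD dec c → (dec c.2.2.2.2).1 = (dec c.1.2.2.2).1) ∧
    ((match t.2.2.2 with
      | Dir.left => (∃ e, b = some e ∧ HD dec e) ∨ (a = none ∧ HD dec c)
      | Dir.stay => HD dec c
      | Dir.right => ∃ e, a = some e ∧ HD dec e) → (dec c.2.2.2.2).2 = some t.1) ∧
    (¬ (match t.2.2.2 with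
      | Dir.left => (∃ e, b = some e ∧ HD dec e) ∨ (a = none ∧ HD dec c)
      | Dir.stay => HD dec c
      | Dir.right => ∃ e, a = some e ∧ HD dec e) → (dec c.2.2.2.2).2 = none)) z

/-- The step relation on records (zero or one step of the machine; clock and counter are
ignored). -/
def TSet : Set (List (Cell α ρ ω × Cell α ρ ω)) :=
  {z | SameTy z ∧ (((∀ c ∈ zx z, c.1 = c.2) ∧ ∀ c ∈ zw z, c.1.2.2.2 = c.2.2.2.2) ∨
    ∃ q s g, ∃ t ∈ M.δ q s g, XMove s t.2.2.1 (zx z) ∧ WMove M ρ dec q g t (zw z))}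

variable {M} in
/-- The numbers `p` (mark) and `v` (work value with `m` digits) represent the configuration
`c`. -/
def Rep (m : ℕ) (c : NCfg M) (p v : ℕ) : Prop :=
  p = c.inp ∧ ∀ j < m, (dec (dg ω m v j)).1 = c.tape j ∧
    (c.head = j → (dec (dg ω m v j)).2 = some c.q) ∧
    (c.head ≠ j → (dec (dg ω m v j)).2 = none)

end Pool.Agent.DEG
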